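import Pool.Agent.N996.BP.Ext2
import Pool.Agent.Y121.AHS.Defs
import Pool.Agent.Y133.Half.PwDefs

/-!
# Polarised Hodge theories, coordinate maps and generated classes: definitions

In the intended use the varieties are the smooth projective ones over the field of complex numbers,
`T` is the theory `X ↦ H(X, ℚ)`, and `ψ` is a polarisation of the Hodge structure `H(X, ℚ)`.
-/

open CategoryTheory AlgebraicGeometry

universe u

namespace Pool.Agent.N996.BP

open Pool.Agent.H914 Pool.Agent.H914.VarClass Pool.Agent.H914.VarClass.Obj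
  Pool.Agent.H914.WeilCohomology
open Pool.Agent.Y121.AHS
open Pool.Agent.Y133.Half (pw)

variable {k : Type u} [Field k] {𝒱 : VarClass k} {ops : CycleOps 𝒱}

/-- The rational bilinear forms on `H(X)`. -/
abbrev RForm (W : WeilCohomology.{u, 0} ops) (X : 𝒱.Obj) : Type := Bil W.K (W.H X)

/-- The complex conjugation `z ⊗ c ↦ z̄ ⊗ c` of the cohomology with complex coefficients. -/
noncomputable def conjH (T : HodgeTheory ops) {X : 𝒱.Obj} (x : HL T.W ℂ X) : HL T.W ℂ X :=
  extConj T.rat x

/-- The extension of a rational bilinear form on `H(X)` to complex coefficients. -/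
noncomputable def formC (T : HodgeTheory ops) {X : 𝒱.Obj} (ψ : RForm T.W X)
    (x y : HL T.W ℂ X) : ℂ := extBil ψ x y

/-- The Hodge decomposition of `H(X)` is a Hodge structure with polarisation `ψ`:
`H^(p,q)(X) = 0` unless `p` and `q` are between `0` and the dimension of `X`, the complex
conjugation maps `H^(p,q)(X)` to `H^(q,p)(X)`, the rational bilinear form `ψ` vanishes on
`H^(p,q)(X) × H^(r,s)(X)` unless `(r, s) = (q, p)`, and `i ^ (p - q) ψ(x, x̄)` is a positive real
number for all nonzero `x` in `H^(p,q)(X)`. -/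
structure IsPolarisation (T : HodgeTheory ops) (X : 𝒱.Obj) (ψ : RForm T.W X) : Prop where
  range : ∀ (p q : ℤ) (x : HL T.W ℂ X), IsType T.pq p q x → x ≠ 0 →
    0 ≤ p ∧ p ≤ X.dim ∧ 0 ≤ q ∧ q ≤ X.dim
  conj : ∀ (p q : ℤ) (x : HL T.W ℂ X), IsType T.pq p q x → IsType T.pq q p (conjH T x)
  orth : ∀ (p q r s : ℤ) (x y : HL T.W ℂ X), IsType T.pq p q x → IsType T.pq r s y →
    (r ≠ q ∨ s ≠ p) → formC T ψ x y = 0
  pos : ∀ (p q : ℤ) (x : HL T.W ℂ X), IsType T.pq p q x → x ≠ 0 →
    ∃ r : ℝ, 0 < r ∧ Complex.I ^ (p - q) * formC T ψ x (conjH T x) = r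

/-- The `i`-th projection `X ^ (n + 1) → X`, `0 ≤ i ≤ n`; `pw X n` is `X ^ (n + 1)`. -/
noncomputable def pr (X : 𝒱.Obj) : ∀ n : ℕ, ℕ → (pw X n ⟶ X)
  | 0, _ => 𝟙 X
  | n + 1, i => if i ≤ n then fst (pw X n) X ≫ pr X n i else snd (pw X n) X

/-- A coordinate map `X ^ (m + 1) → X ^ (n + 1)`, `x ↦ (x_(j 0), …, x_(j n))`: every component is
one of the projections. -/
def IsCoordinateMap {X : 𝒱.Obj} {n m : ℕ} (f : pw X m ⟶ pw X n) : Prop :=
  ∀ i ≤ n, ∃ j ≤ m, f ≫ pr X n i = pr X m j

/-- The pull-back. -/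
noncomputable def pull (T : HodgeTheory ops) {X Y : 𝒱.Obj} (f : X ⟶ Y) (c : T.W.H Y) : T.W.H X :=
  T.W.map f c

/-- The push-forward along the projection `X ^ (n + 2) → X ^ (n + 1)` which forgets the last
factor. -/
noncomputable def forget (T : HodgeTheory ops) {X : 𝒱.Obj} {n : ℕ} (c : T.W.H (pw X (n + 1))) :
    T.W.H (pw X n) := T.W.push (fst (pw X n) X) c

/-- The classes on the powers of `X` which are generated by the Hodge classes on `X ^ (N + 1)`: the
smallest system of classes which contains the Hodge classes on `X ^ (N + 1)` and is stable under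
linear combinations and cup products, pull-backs along coordinate maps, and push-forwards along
the projections `X ^ (n + 2) → X ^ (n + 1)` that forget the last factor. -/
inductive Generated (T : HodgeTheory ops) (X : 𝒱.Obj) (N : ℕ) :
    ∀ n : ℕ, T.W.H (pw X n) → Prop
  | hodge {j : ℕ} {c : T.W.H (pw X N)} : IsHodge T (pw X N) j c → Generated T X N N c
  | add {n : ℕ} {c d : T.W.H (pw X n)} : Generated T X N n c → Generated T X N n d →
      Generated T X N n (c + d)
  | smul {n : ℕ} (r : T.W.K) {c : T.W.H (pw X n)} : Generated T X N n c →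
      Generated T X N n (r • c)
  | mul {n : ℕ} {c d : T.W.H (pw X n)} : Generated T X N n c → Generated T X N n d →
      Generated T X N n (c * d)
  | pull {n m : ℕ} (f : pw X m ⟶ pw X n) {c : T.W.H (pw X n)} : IsCoordinateMap f →
      Generated T X N n c → Generated T X N m (pull T f c)
  | push {n : ℕ} {c : T.W.H (pw X (n + 1))} : Generated T X N (n + 1) c →
      Generated T X N n (forget T c)

/-- The Hodge conjecture for `X`: every Hodge class on `X` is the class of an algebraic cycle (with
rational coefficients). -/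
def HodgeConjecture (T : HodgeTheory ops) (X : 𝒱.Obj) : Prop :=
  ∀ (j : ℕ) (c : T.W.H X), IsHodge T X j c → ∃ z, X.IsCyc j z ∧ T.W.cl X z = c

/-- The correspondence `H(X) → H(Y)`, `x ↦ pr₂_* (cl z · pr₁^* x)`, given by the cycle `z` on
`X × Y`. -/
noncomputable def act (T : HodgeTheory ops) {X Y : 𝒱.Obj} (z : (X.prod Y).Cycles) (x : T.W.H X) :
    T.W.H Y := T.W.corr (T.W.cl (X.prod Y) z) x

/-- The cohomology of `Y` comes from powers of `X` by algebraic correspondences: the identity of
`H(Y)` is a finite sum of compositions `H(Y) → H(X ^ (m + 1)) → H(Y)` of correspondences given by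
algebraic cycles. (This holds if the homological motive of `Y` is a direct summand of a sum of Tate
twists of motives of powers of `X`, for instance if there is a surjective morphism from a power of
`X` to `Y`, or if `Y` is a product of factors of `X`.) -/
def FromPowers (T : HodgeTheory ops) (X Y : 𝒱.Obj) : Prop :=
  ∃ (r : ℕ) (m a b : Fin r → ℕ) (u : ∀ i, (Y.prod (pw X (m i))).Cycles)
    (v : ∀ i, ((pw X (m i)).prod Y).Cycles),
    (∀ i, (Y.prod (pw X (m i))).IsCyc (a i) (u i) ∧ ((pw X (m i)).prod Y).IsCyc (b i) (v i)) ∧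
    ∀ y : T.W.H Y, ∑ i, act T (v i) (act T (u i) y) = y

/-- The sum of the Betti numbers. -/
noncomputable def totalBetti (T : HodgeTheory ops) (X : 𝒱.Obj) : ℕ :=
  Module.finrank T.W.K (T.W.H X)

/-- The explicit exponent. -/
def exponent (b : ℕ) : ℕ := (2 * b * (b ^ 2 + 1)) ^ (b ^ 2 + 1)

end Pool.Agent.N996.BP
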