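import Pool.Agent.N996.BP.Main2
import Pool.Agent.N996.BP.Defs
import Pool.Agent.Y121.AHS.Conv

/-!
# Comparison of the definitions
-/

set_option linter.unusedSectionVars false

open CategoryTheory AlgebraicGeometry TensorProduct

universe u

namespace Pool.Agent.N996.BP

open Module
open Pool.Agent.H914 Pool.Agent.H914.VarClass Pool.Agent.H914.VarClass.Obj
  Pool.Agent.H914.WeilCohomology
open Pool.Agent.Y121.AHS
open Pool.Agent.Y133.Half (pw prj prj_castSucc prj_last Sys ClassPred pfst psnd)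
open Pool.Agent.Y121.AH (hodgePred)
open Pool.Agent.N996.BP.Geo

variable {k : Type u} [Field k] {𝒱 : VarClass k} {ops : CycleOps 𝒱} {T : HodgeTheory ops}
  {X Y : 𝒱.Obj}

/-- The complex conjugation. -/
noncomputable def tq (T : HodgeTheory ops) : ℂ ≃ₐ[T.W.K] ℂ := tauT (toH T)

lemma conjH_eq (x : HL T.W ℂ X) :
    (show ℂ ⊗[T.W.K] T.W.H X from conjH T x) =
      H914.sig (tq T) (show ℂ ⊗[T.W.K] T.W.H X from x) := by
  have h : ∀ x : ℂ ⊗[T.W.K] T.W.H X, (TensorProduct.map (conjK T.rat) LinearMap.id :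
      TensorProduct T.W.K ℂ (T.W.H X) →ₗ[T.W.K] TensorProduct T.W.K ℂ (T.W.H X)) x =
      H914.sig (tq T) x := by
    intro x
    induction x using TensorProduct.induction_on with
    | zero => rw [map_zero, map_zero]
    | add x y hx hy => rw [map_add, hx, hy, map_add]
    | tmul z c =>
      rw [TensorProduct.map_tmul, LinearMap.id_apply]
      exact (H914.sig_tmul (tq T) z c).symm
  exact h x

lemma range_of {T : Pool.Agent.Y121.AH.HodgeTheory ops} {X : 𝒱.Obj} {d : ℕ}
    (h : ∀ p q : ℤ, ∀ x ∈ Fx T X (p, q), x ≠ 0 → 0 ≤ p ∧ p ≤ d ∧ 0 ≤ q ∧ q ≤ d) (p q : ℤ)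
    (h0 : Fx T X (p, q) ≠ ⊥) : 0 ≤ p ∧ p ≤ d ∧ 0 ≤ q ∧ q ≤ d := by
  obtain ⟨x, hx, hx0⟩ := (Submodule.ne_bot_iff _).1 h0
  exact h p q x hx hx0

/-- The conversion of the polarisations. -/
theorem IsPolarisation.isPHS {ψ : RForm T.W X} (h : IsPolarisation T X ψ) :
    IsPHS (tauT (toH T)) (Fx (toH T) X) (show LinearMap.BilinForm T.W.K (T.W.H X) from ψ)
      X.dim where
  rat := T.rat
  tau z := rfl
  int := Pool.Agent.Y121.AH.isInternal (toH T) X
  range p q h0 := by
    exact range_of (T := toH T) (d := X.dim) (fun p q x hx hx0 => h.range p q x hx hx0) p q h0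
  cnj p q x hx := by
    have h1 := h.conj p q x hx
    have h2 := conjH_eq (T := T) (X := X) x
    have h3 : (show ℂ ⊗[T.W.K] T.W.H X from conjH T x) ∈ Fx (toH T) X (q, p) := h1
    rw [h2] at h3
    exact h3
  orth p q r s x hx y hy hne := h.orth p q r s x y hx hy hne
  pos p q x hx hx0 := by
    obtain ⟨r, hr, h1⟩ := h.pos p q x hx hx0
    refine ⟨r, hr, ?_⟩
    rw [← h1]
    have h2 := conjH_eq (T := T) (X := X) x
    change _ = Complex.I ^ (p - q) * (LinearMap.BilinForm.baseChange ℂ ψ)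
      (show ℂ ⊗[T.W.K] T.W.H X from x) (show ℂ ⊗[T.W.K] T.W.H X from conjH T x)
    rw [h2]
    rfl

lemma pr_eq (X : 𝒱.Obj) : ∀ (n : ℕ) (i : Fin (n + 1)), pr X n i = prj X n i
  | 0, i => rfl
  | n + 1, i => by
    refine Fin.lastCases ?_ (fun i => ?_) i
    · rw [prj_last, pr, if_neg (by rw [Fin.val_last]; omega)]
      rfl
    · rw [prj_castSucc, pr, Fin.val_castSucc, if_pos (by omega), pr_eq X n i]
      rfl

lemma isCoordinateMap_iff {n m : ℕ} {f : pw X m ⟶ pw X n} : IsCoordinateMap f ↔ IsCd f := by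
  constructor
  · intro h i
    obtain ⟨j, hj, h1⟩ := h i (by omega)
    refine ⟨⟨j, by omega⟩, ?_⟩
    rw [← pr_eq, ← pr_eq]
    exact h1
  · intro h i hi
    obtain ⟨j, h1⟩ := h ⟨i, by omega⟩
    refine ⟨j, by omega, ?_⟩
    rw [← pr_eq, ← pr_eq] at h1
    exact h1

lemma generated_of_gnr {N n : ℕ} {c : (toH T).W.H (pw X n)} (h : Gnr (toH T) X N n c) :
    Generated T X N n c := by
  induction h with
  | hodge h => exact Generated.hodge h
  | add _ _ ih ih' => exact Generated.add ih ih'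
  | smul r _ ih => exact Generated.smul r ih
  | mul _ _ ih ih' => exact Generated.mul ih ih'
  | map f hf _ ih => exact Generated.pull f (isCoordinateMap_iff.2 hf) ih
  | push _ ih => exact Generated.push ih

/-- **Generation of the Hodge classes on the powers.** -/
theorem generated {ψ : RForm T.W X} (h : IsPolarisation T X ψ)
    {n j : ℕ} {c : T.W.H (pw X n)} (hc : IsHodge T (pw X n) j c) :
    Generated T X (exponent (totalBetti T X) - 1) n c :=
  generated_of_gnr (generation h.isPHS hc)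

/-! ### Algebraic classes -/

lemma exists_cyc {j : ℕ} {c : T.W.H X} (hc : c ∈ spanCycles T.W X j) :
    ∃ z, X.IsCyc j z ∧ T.W.cl X z = c := by
  induction hc using Submodule.span_induction with
  | mem x hx =>
    obtain ⟨p, hp, z, hz, rfl⟩ := hx
    obtain rfl : p = j := by exact_mod_cast hp
    exact ⟨z, hz, rfl⟩
  | zero => exact ⟨0, SmVar.IsCyc.zero _ _, map_zero _⟩
  | add a b _ _ ha hb =>
    obtain ⟨z, hz, rfl⟩ := ha
    obtain ⟨w, hw, rfl⟩ := hb
    exact ⟨z + w, SmVar.IsCyc.add hz hw, map_add _ _ _⟩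
  | smul r a _ ha =>
    obtain ⟨z, hz, rfl⟩ := ha
    obtain ⟨q, rfl⟩ := T.rat r
    exact ⟨q • z, SmVar.IsCyc.smul q hz, T.W.cl_smul q z⟩

lemma hodgeConjecture_iff : HodgeConjecture T X ↔
    (hodgePred (toH T)).sp X ≤ (Pool.Agent.Y133.Half.algSys T.W).C X := by
  have h0 : (Pool.Agent.Y133.Half.algSys T.W).C X = Pool.Agent.H281R3.HT.algSpan T.W X := rfl
  have h2 : (Pool.Agent.H281R3.HT.algSpan T.W X) ≤ (hodgePred (toH T)).sp X :=
    ClassPred.alg_le (Q := hodgePred (toH T))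
  constructor
  · intro h
    have h1 := (ClassPred.sp_eq_iff (Q := hodgePred (toH T)) X).2 (fun j c hc => by
      obtain ⟨z, hz, rfl⟩ := h j c hc
      exact Submodule.subset_span ⟨j, rfl, z, hz, rfl⟩)
    rw [h0]
    exact h1.le
  · intro h j c hc
    rw [h0] at h
    have h1 := (ClassPred.sp_eq_iff (Q := hodgePred (toH T)) X).1 (le_antisymm h h2) j c hc
    exact exists_cyc h1

/-- **The bounded power theorem for the Hodge conjecture.** -/
theorem hodge_pw {ψ : RForm T.W X} (h : IsPolarisation T X ψ)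
    (hX : HodgeConjecture T (pw X (exponent (totalBetti T X) - 1))) (n : ℕ) :
    HodgeConjecture T (pw X n) := by
  have h1 := bounded_c (T := toH T) h.isPHS ((Pool.Agent.Y133.Half.algSys T.W).csys X)
    (fun n => ClassPred.alg_le (Q := hodgePred (toH T))) (hodgeConjecture_iff.1 hX) n
  exact hodgeConjecture_iff.2 h1

/-- **The varieties whose cohomology comes from powers of `X`.** -/
theorem hodge_from (hX : ∀ n, HodgeConjecture T (pw X n)) (hY : FromPowers T X Y) :
    HodgeConjecture T Y := by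
  obtain ⟨r, m, a, b, u, v, huv, hid⟩ := hY
  rw [hodgeConjecture_iff]
  intro c hc
  rw [← hid c]
  refine Submodule.sum_mem _ fun i _ => ?_
  have hu : T.W.corr (T.W.cl _ (u i)) c ∈ (hodgePred (toH T)).sp (pw X (m i)) := by
    have h1 : T.W.corr (T.W.cl _ (u i)) ∈ (hodgePred (toH T)).sys.Op Y (pw X (m i)) :=
      Sys.Op.corr (ClassPred.alg_le (Q := hodgePred (toH T)) (Submodule.subset_span
        (Set.mem_iUnion.2 ⟨a i, u i, (huv i).1, rfl⟩)))
    exact Sys.Op.apply (fun _ => le_rfl) h1 hc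
  have h2 := hodgeConjecture_iff.1 (hX (m i)) hu
  have h3 : T.W.corr (T.W.cl _ (v i)) ∈
      (Pool.Agent.Y133.Half.algSys T.W).Op (pw X (m i)) Y :=
    Sys.Op.corr (Submodule.subset_span (Set.mem_iUnion.2 ⟨b i, v i, (huv i).2, rfl⟩))
  exact Sys.Op.apply (fun _ => le_rfl) h3 h2

end Pool.Agent.N996.BP
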