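import Pool.Agent.N996.BP.HData

/-!
# Matrices fixing the Hodge classes of small degree are combinations of elements of the group
-/

set_option linter.unusedSectionVars false

namespace Pool.Agent.N996.BP

open Matrix ComplexConjugate

variable {ι : Type} [Fintype ι] [DecidableEq ι] (H : HData ι)

/-- The real matrix as a complex matrix. -/
noncomputable def cR {m n : Type*} (M : Matrix m n ℝ) : Matrix m n ℂ :=
  M.map (fun x : ℝ => (x : ℂ))

lemma cR_mul {m n p : Type*} [Fintype n] (M : Matrix m n ℝ) (N : Matrix n p ℝ) :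
    cR (M * N) = cR M * cR N := by
  ext i j
  simp [cR, Matrix.mul_apply]

lemma cR_one {n : Type*} [DecidableEq n] : cR (1 : Matrix n n ℝ) = 1 := by
  ext i j
  rw [cR, Matrix.map_apply, Matrix.one_apply, Matrix.one_apply]
  split_ifs <;> simp

lemma kp_cR {κ : Type} [Fintype κ] (M : Matrix ι ι ℝ) :
    kp κ (cR M) = cR (kp κ M) := by
  ext i j
  simp [kp_apply, cR]

lemma cR_conjTranspose {m n : Type*} (M : Matrix m n ℝ) : (cR M)ᴴ = cR Mᵀ := by
  ext i j
  simp [cR, Matrix.conjTranspose_apply]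

lemma cR_Q : cR H.D.Q = cQ H.Qr := by
  ext i j
  rw [H.hQr]
  simp [cR, cQ]

lemma cR_C : cR H.D.C = H.l Complex.I := H.hC

lemma cR_Ci : cR H.D.Ci = H.l Complex.I⁻¹ := by
  have h1 : cR H.D.Ci * cR H.D.C = 1 := by rw [← cR_mul, H.D.hC', cR_one]
  rw [cR_C] at h1
  calc cR H.D.Ci = cR H.D.Ci * (H.l Complex.I * H.l Complex.I⁻¹) := by
        rw [H.l_inv Complex.I_ne_zero, Matrix.mul_one]
    _ = _ := by rw [← Matrix.mul_assoc, h1, Matrix.one_mul]

lemma l_mem_gens {t : ℂ} (ht : t ≠ 0) : H.l t ∈ gens H :=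
  ⟨RingEquiv.refl ℂ, t, ht, by ext; rfl⟩

/-- Inverses of generators. -/
lemma gens_inv {g : Matrix ι ι ℂ} (hg : g ∈ gens H) :
    ∃ g' ∈ gens H, g' * g = 1 ∧ gᵀ * cQ H.Qr = cQ H.Qr * g' := by
  obtain ⟨σ, t, ht, rfl⟩ := hg
  refine ⟨(H.l t⁻¹).map σ, ⟨σ, t⁻¹, inv_ne_zero ht, rfl⟩, ?_, ?_⟩
  · rw [← map_mul', H.l_inv' ht, map_one']
  · have h : ((H.l t)ᵀ * cQ H.Qr).map σ = (cQ H.Qr * H.l t⁻¹).map σ := by rw [H.l_tr ht]
    have e1 : ((H.l t)ᵀ * cQ H.Qr).map σ = ((H.l t).map σ)ᵀ * cQ H.Qr := by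
      rw [map_mul', cQ_map, Matrix.transpose_map]
    have e2 : (cQ H.Qr * H.l t⁻¹).map σ = cQ H.Qr * (H.l t⁻¹).map σ := by
      rw [map_mul', cQ_map]
    rw [e1, e2] at h
    exact h

/-- Complex conjugates of generators. -/
lemma gens_conj {g : Matrix ι ι ℂ} (hg : g ∈ gens H) : g.map conj ∈ gens H := by
  obtain ⟨σ, t, ht, rfl⟩ := hg
  refine ⟨σ.trans (starRingAut : ℂ ≃+* ℂ), t, ht, ?_⟩
  rw [Matrix.map_map]
  rfl

/-- The algebra spanned by the Kronecker powers of the elements of the group. -/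
noncomputable def GA (κ : Type) [Fintype κ] [DecidableEq κ] :
    Subalgebra ℂ (Matrix (κ → ι) (κ → ι) ℂ) :=
  Algebra.adjoin ℂ (kp κ '' (GG H : Set (Matrix ι ι ℂ)))

variable {H} {κ : Type} [Fintype κ] [DecidableEq κ]

lemma GA_eq_span : Subalgebra.toSubmodule (GA H κ) =
    Submodule.span ℂ (kp κ '' (GG H : Set (Matrix ι ι ℂ))) := by
  let f : Matrix ι ι ℂ →* Matrix (κ → ι) (κ → ι) ℂ :=
    { toFun := kp κ, map_one' := kp_one, map_mul' := kp_mul }
  have h1 : kp κ '' (GG H : Set (Matrix ι ι ℂ)) = ((GG H).map f : Set _) := rfl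
  rw [GA, Algebra.adjoin_eq_span, h1, Submonoid.closure_eq]

lemma kp_mem_GA {g : Matrix ι ι ℂ} (hg : g ∈ GG H) : kp κ g ∈ GA H κ :=
  Algebra.subset_adjoin ⟨g, hg, rfl⟩

lemma kp_conjTranspose (g : Matrix ι ι ℂ) : (kp κ g)ᴴ = kp κ gᴴ := by
  ext i j
  simp [kp_apply, Matrix.conjTranspose_apply]

/-- The adjoint of an element of the algebra belongs to the algebra. -/
lemma GA_star {x : Matrix (κ → ι) (κ → ι) ℂ} (hx : x ∈ GA H κ) :
    ∃ y ∈ GA H κ, (kp κ (cR H.D.M))ᴴ * kp κ (cR H.D.M) * x =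
      yᴴ * ((kp κ (cR H.D.M))ᴴ * kp κ (cR H.D.M)) := by
  obtain ⟨Z, hZ⟩ : ∃ Z, Z = cQ H.Qr * H.l Complex.I := ⟨_, rfl⟩
  have hZS : Z = cR H.D.S := by rw [hZ, ← cR_Q, ← cR_C, ← cR_mul, H.D.S_eq]
  have hZH : Zᴴ = Z := by rw [hZS, cR_conjTranspose, H.D.S_tr]
  have hS : (kp κ (cR H.D.M))ᴴ * kp κ (cR H.D.M) = kp κ Z := by
    rw [kp_conjTranspose, ← kp_mul, hZS, cR_conjTranspose, ← cR_mul, RData.S]
  rw [hS]
  have hkZ : (kp κ Z)ᴴ = kp κ Z := by rw [kp_conjTranspose, hZH]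
  -- generators
  have hgen : ∀ g ∈ gens H, ∃ y ∈ GG H, Z * g = yᴴ * Z := by
    intro g hg
    obtain ⟨h, hh, hhg, hgQ⟩ := gens_inv H (gens_conj H hg)
    refine ⟨H.l Complex.I⁻¹ * h * H.l Complex.I, Submonoid.mul_mem _
      (Submonoid.mul_mem _ (Submonoid.subset_closure (l_mem_gens H (inv_ne_zero Complex.I_ne_zero)))
        (Submonoid.subset_closure hh))
          (Submonoid.subset_closure (l_mem_gens H Complex.I_ne_zero)), ?_⟩
    have h1 : gᴴ = (g.map conj)ᵀ := by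
      ext i j; simp [Matrix.conjTranspose_apply]
    have h2 : Z * (H.l Complex.I⁻¹ * h * H.l Complex.I) = gᴴ * Z := by
      calc Z * (H.l Complex.I⁻¹ * h * H.l Complex.I) =
          cQ H.Qr * (H.l Complex.I * H.l Complex.I⁻¹) * h * H.l Complex.I := by
            rw [hZ]; simp only [Matrix.mul_assoc]
        _ = (cQ H.Qr * h) * H.l Complex.I := by
            rw [H.l_inv Complex.I_ne_zero, Matrix.mul_one]
        _ = _ := by rw [← hgQ, h1, hZ, Matrix.mul_assoc]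
    have h3 : (Z * (H.l Complex.I⁻¹ * h * H.l Complex.I))ᴴ = (gᴴ * Z)ᴴ := by rw [h2]
    rw [Matrix.conjTranspose_mul Z, Matrix.conjTranspose_mul gᴴ, hZH,
      Matrix.conjTranspose_conjTranspose] at h3
    exact h3.symm
  have hgrp : ∀ g ∈ GG H, ∃ y ∈ GG H, Z * g = yᴴ * Z := by
    intro g hg
    induction hg using Submonoid.closure_induction with
    | mem x hx => exact hgen x hx
    | one => exact ⟨1, Submonoid.one_mem _, by simp⟩
    | mul x y _ _ hx hy =>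
      obtain ⟨a, ha, ha'⟩ := hx
      obtain ⟨b, hb, hb'⟩ := hy
      refine ⟨b * a, Submonoid.mul_mem _ hb ha, ?_⟩
      rw [← Matrix.mul_assoc, ha', Matrix.mul_assoc, hb', Matrix.conjTranspose_mul,
        Matrix.mul_assoc]
  have hx' : x ∈ Subalgebra.toSubmodule (GA H κ) := hx
  rw [GA_eq_span] at hx'
  clear hx
  induction hx' using Submodule.span_induction with
  | mem x hx =>
    obtain ⟨g, hg, rfl⟩ := hx
    obtain ⟨y, hy, h⟩ := hgrp g hg
    refine ⟨kp κ y, kp_mem_GA hy, ?_⟩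
    rw [kp_conjTranspose, ← kp_mul, ← kp_mul, h]
  | zero => exact ⟨0, Subalgebra.zero_mem _, by simp⟩
  | add x y hx hy ihx ihy =>
    obtain ⟨a, ha, ha'⟩ := ihx
    obtain ⟨b, hb, hb'⟩ := ihy
    exact ⟨a + b, Subalgebra.add_mem _ ha hb, by
      rw [Matrix.mul_add, ha', hb', Matrix.conjTranspose_add, Matrix.add_mul]⟩
  | smul c x hx ihx =>
    obtain ⟨a, ha, ha'⟩ := ihx
    refine ⟨star c • a, Subalgebra.smul_mem _ ha _, ?_⟩
    rw [Matrix.mul_smul, ha', Matrix.conjTranspose_smul, star_star, Matrix.smul_mul]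

/-- A matrix fixing the Hodge classes of degree `2 |κ|` is a combination of elements of the
group. -/
theorem mem_GA {p : Matrix ι ι ℂ} (hp : ∀ a ∈ BB H (κ ⊕ κ), kp (κ ⊕ κ) p *ᵥ ca a = ca a) :
    kp κ p ∈ GA H κ := by
  classical
  have hMi : kp κ (cR H.D.Mi) * kp κ (cR H.D.M) = 1 := by
    rw [← kp_mul, ← cR_mul, H.D.hM', cR_one, kp_one]
  refine mem_of_commutes (GA H κ) (kp κ (cR H.D.M)) (kp κ (cR H.D.Mi)) hMi
    (fun x hx => GA_star hx) _ ?_
  -- the inverse of the form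
  have hQQ : cQ (kp κ H.Qr) * cQ (kp κ H.Qir) = 1 := by
    rw [← cQ_mul, kp_inv_mul H.Qr_Qir, cQ_one]
  have hQQ' : cQ (kp κ H.Qir) * cQ (kp κ H.Qr) = 1 := mul_eq_one_comm.1 hQQ
  obtain ⟨P, hP⟩ : ∃ P, P = kp κ p := ⟨_, rfl⟩
  have hcore : ∀ x : Matrix (κ → ι) (κ → ι) ℚ,
      (∀ t : ℂ, t ≠ 0 → kp κ (H.l t) * cQ x = cQ x * kp κ (H.l t)) →
      P * cQ x * cQ (kp κ H.Qir) * Pᵀ = cQ x * cQ (kp κ H.Qir) := by
    intro x hx
    have h1 := hp _ (arr_BB H hx)
    have h0 : ca (arr (x * kp κ H.Qir)) = arr (cQ (x * kp κ H.Qir)) := rfl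
    rw [h0, kp_arr, cQ_mul] at h1
    have h2 := congrArg mat h1
    rw [mat_arr, mat_arr, ← hP, ← Matrix.mul_assoc] at h2
    exact h2
  have hP1 : P * cQ (kp κ H.Qir) * Pᵀ = cQ (kp κ H.Qir) := by
    have := hcore 1 (fun t _ => by rw [cQ_one, Matrix.mul_one, Matrix.one_mul])
    rwa [cQ_one, Matrix.mul_one, Matrix.one_mul] at this
  have hP2 : P * (cQ (kp κ H.Qir) * Pᵀ * cQ (kp κ H.Qr)) = 1 := by
    calc P * (cQ (kp κ H.Qir) * Pᵀ * cQ (kp κ H.Qr)) =
        (P * cQ (kp κ H.Qir) * Pᵀ) * cQ (kp κ H.Qr) := by simp only [Matrix.mul_assoc]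
      _ = 1 := by rw [hP1, hQQ']
  have hP3 : (cQ (kp κ H.Qir) * Pᵀ * cQ (kp κ H.Qr)) * P = 1 := mul_eq_one_comm.1 hP2
  have hrat : ∀ x : Matrix (κ → ι) (κ → ι) ℚ,
      (∀ t : ℂ, t ≠ 0 → kp κ (H.l t) * cQ x = cQ x * kp κ (H.l t)) →
      P * cQ x = cQ x * P := by
    intro x hx
    have h1 := hcore x hx
    calc P * cQ x = P * cQ x * ((cQ (kp κ H.Qir) * Pᵀ * cQ (kp κ H.Qr)) * P) := by
          rw [hP3, Matrix.mul_one]
      _ = (P * cQ x * cQ (kp κ H.Qir) * Pᵀ) * cQ (kp κ H.Qr) * P := by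
          simp only [Matrix.mul_assoc]
      _ = cQ x * (cQ (kp κ H.Qir) * cQ (kp κ H.Qr)) * P := by
          rw [h1]; simp only [Matrix.mul_assoc]
      _ = _ := by rw [hQQ', Matrix.mul_one]
  -- descent
  intro x hx
  let C : Submodule ℂ ((κ → ι) × (κ → ι) → ℂ) :=
    { carrier := {v | ∀ g ∈ GG H, kp κ g * (Matrix.of fun i j => v (i, j)) =
        (Matrix.of fun i j => v (i, j)) * kp κ g}
      add_mem' := by
        intro a b ha hb g hg
        have e : (Matrix.of fun i j => (a + b) (i, j)) =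
          (Matrix.of fun i j => a (i, j)) + (Matrix.of fun i j => b (i, j)) := rfl
        rw [e, Matrix.mul_add, Matrix.add_mul, ha g hg, hb g hg]
      zero_mem' := by
        intro g _
        have e : (Matrix.of fun i j => (0 : (κ → ι) × (κ → ι) → ℂ) (i, j)) = 0 := rfl
        rw [e, Matrix.mul_zero, Matrix.zero_mul]
      smul_mem' := by
        intro c a ha g hg
        have e : (Matrix.of fun i j => (c • a) (i, j)) =
          c • (Matrix.of fun i j => a (i, j)) := rfl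
        rw [e, Matrix.mul_smul, Matrix.smul_mul, ha g hg] }
  have hC : ∀ (σ : ℂ ≃+* ℂ), ∀ v ∈ C, (fun i => σ (v i)) ∈ C := by
    intro σ v hv g hg
    have h1 := hv (g.map σ.symm) (GG_map H σ.symm hg)
    have h2 : (kp κ (g.map σ.symm) * (Matrix.of fun i j => v (i, j))).map σ =
        ((Matrix.of fun i j => v (i, j)) * kp κ (g.map σ.symm)).map σ := by rw [h1]
    rw [map_mul', map_mul', kp_map', Matrix.map_map] at h2
    have e1 : (⇑σ ∘ ⇑σ.symm) = id := by ext; simp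
    rw [e1, Matrix.map_id] at h2
    exact h2
  have hxC : (fun z : (κ → ι) × (κ → ι) => x z.1 z.2) ∈ C := by
    intro g hg
    exact (hx _ (kp_mem_GA hg)).symm
  rw [Pool.Agent.W437.HD.span_rational C hC] at hxC
  have key : ∀ v ∈ Submodule.span ℂ {w | w ∈ C ∧ ∃ u : (κ → ι) × (κ → ι) → ℚ,
      w = fun i => (u i : ℂ)}, P * (Matrix.of fun i j => v (i, j)) =
        (Matrix.of fun i j => v (i, j)) * P := by
    intro v hv
    induction hv using Submodule.span_induction with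
    | mem v hv =>
      obtain ⟨hv, u, rfl⟩ := hv
      refine hrat (Matrix.of fun i j => u (i, j)) fun t ht => ?_
      exact hv _ (Submonoid.subset_closure (l_mem_gens H ht))
    | zero =>
      have e : (Matrix.of fun i j => (0 : (κ → ι) × (κ → ι) → ℂ) (i, j)) = 0 := rfl
      rw [e, Matrix.mul_zero, Matrix.zero_mul]
    | add a b _ _ ha hb =>
      have e : (Matrix.of fun i j => (a + b) (i, j)) =
        (Matrix.of fun i j => a (i, j)) + (Matrix.of fun i j => b (i, j)) := rfl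
      rw [e, Matrix.mul_add, Matrix.add_mul, ha, hb]
    | smul c a _ ha =>
      have e : (Matrix.of fun i j => (c • a) (i, j)) =
        c • (Matrix.of fun i j => a (i, j)) := rfl
      rw [e, Matrix.mul_smul, Matrix.smul_mul, ha]
  rw [← hP]
  exact key _ hxC

end Pool.Agent.N996.BP
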