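import Pool.Agent.N996.BP.FixAll

/-!
# Rational families of arrays
-/

set_option linter.unusedSectionVars false

namespace Pool.Agent.N996.BP

open Matrix

variable {ι : Type} [Fintype ι] [DecidableEq ι]

/-- The sum of two finite sets. -/
def ce (n m : ℕ) : Fin (n + 1) ⊕ Fin (m + 1) ≃ Fin (n + m + 1 + 1) :=
  finSumFinEquiv.trans (finCongr (by omega))

/-- The word `w x y`. -/
def sn {n : ℕ} (w : Fin (n + 1) → ι) (x y : ι) : Fin (n + 2 + 1) → ι :=
  Fin.snoc (α := fun _ => ι) (Fin.snoc (α := fun _ => ι) w x) y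

/-- The contraction of the last two indices. -/
def ctr (Q : Matrix ι ι ℚ) {n : ℕ} (a : (Fin (n + 2 + 1) → ι) → ℚ) : (Fin (n + 1) → ι) → ℚ :=
  fun w => ∑ x, ∑ y, Q x y * a (sn w x y)

/-- A family of rational arrays which are Hodge classes, stable under permutations, products and
contractions. -/
structure RFam (H : HData ι) (A : ∀ n : ℕ, Submodule ℚ ((Fin (n + 1) → ι) → ℚ)) : Prop where
  perm : ∀ (n : ℕ) (σ : Equiv.Perm (Fin (n + 1))) (a : (Fin (n + 1) → ι) → ℚ), a ∈ A n →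
    rei σ a ∈ A n
  tens : ∀ (n m : ℕ) (a : (Fin (n + 1) → ι) → ℚ) (b : (Fin (m + 1) → ι) → ℚ), a ∈ A n →
    b ∈ A m → rei (ce n m) (tens a b) ∈ A (n + m + 1)
  contr : ∀ (n : ℕ) (a : (Fin (n + 2 + 1) → ι) → ℚ), a ∈ A (n + 2) → ctr H.Qr a ∈ A n
  le : ∀ n, A n ≤ BB H (Fin (n + 1))

/-- The arrays with general index types. -/
def AQ (A : ∀ n : ℕ, Submodule ℚ ((Fin (n + 1) → ι) → ℚ)) (κ : Type) :
    Submodule ℚ ((κ → ι) → ℚ) where
  carrier := {a | ∀ (n : ℕ) (e : κ ≃ Fin (n + 1)), rei e a ∈ A n}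
  add_mem' {a b} ha hb n e := Submodule.add_mem _ (ha n e) (hb n e)
  zero_mem' n e := Submodule.zero_mem _
  smul_mem' c a ha n e := Submodule.smul_mem _ c (ha n e)

variable {H : HData ι} {A : ∀ n : ℕ, Submodule ℚ ((Fin (n + 1) → ι) → ℚ)}

lemma rei_rei {R : Type*} {κ l m : Type} (e : κ ≃ l) (e' : l ≃ m) (a : (κ → ι) → R) :
    rei e' (rei e a) = rei (e.trans e') a := rfl

lemma rei_refl {R : Type*} {κ : Type} (a : (κ → ι) → R) : rei (Equiv.refl κ) a = a := rfl

namespace RFam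

lemma of (hA : RFam H A) {κ : Type} {a : (κ → ι) → ℚ} {n : ℕ} (e : κ ≃ Fin (n + 1))
    (h : rei e a ∈ A n) : a ∈ AQ A κ := by
  intro m e'
  obtain rfl : n = m := by
    have := Fintype.card_congr (e.symm.trans e')
    rw [Fintype.card_fin, Fintype.card_fin] at this
    omega
  have h1 := hA.perm n (e.symm.trans e') _ h
  rw [rei_rei] at h1
  have h2 : e.trans (e.symm.trans e') = e' := by
    ext x; simp
  rwa [h2] at h1

lemma rei (_ : RFam H A) {κ l : Type} (e : κ ≃ l) {a : (κ → ι) → ℚ} (ha : a ∈ AQ A κ) :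
    BP.rei e a ∈ AQ A l := by
  intro n e'
  rw [rei_rei]
  exact ha n _

lemma empty (_ : RFam H A) {κ : Type} [IsEmpty κ] (a : (κ → ι) → ℚ) : a ∈ AQ A κ := by
  intro n e
  exact (IsEmpty.false (e.symm 0)).elim

lemma mem_iff (hA : RFam H A) {n : ℕ} {a : (Fin (n + 1) → ι) → ℚ} :
    a ∈ AQ A (Fin (n + 1)) ↔ a ∈ A n :=
  ⟨fun h => h n (Equiv.refl _), fun h => hA.of (Equiv.refl _) h⟩

lemma exists_eqv (κ : Type) [Fintype κ] [Nonempty κ] : ∃ n, Nonempty (κ ≃ Fin (n + 1)) := by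
  have h := Fintype.card_pos (α := κ)
  exact ⟨Fintype.card κ - 1, ⟨(Fintype.equivFin κ).trans (finCongr (by omega))⟩⟩

lemma rei_tens {R : Type*} [CommRing R] {κ l κ' l' : Type} (e : κ ≃ κ') (f : l ≃ l')
    (a : (κ → ι) → R) (b : (l → ι) → R) :
    BP.rei (Equiv.sumCongr e f) (BP.tens a b) = BP.tens (BP.rei e a) (BP.rei f b) := by
  ext i
  rfl

lemma tensQ (hA : RFam H A) {κ l : Type} [Fintype κ] [Fintype l] {a : (κ → ι) → ℚ}
    {b : (l → ι) → ℚ} (ha : a ∈ AQ A κ) (hb : b ∈ AQ A l) : BP.tens a b ∈ AQ A (κ ⊕ l) := by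
  rcases isEmpty_or_nonempty κ with hκ | hκ
  · have h1 : BP.tens a b = a (fun k => (IsEmpty.false k).elim) •
        BP.rei (Equiv.emptySum κ l).symm b := by
      ext i
      rw [BP.tens, Pi.smul_apply, smul_eq_mul, BP.rei]
      congr 2
      ext k
      exact (IsEmpty.false k).elim
    rw [h1]
    exact Submodule.smul_mem _ _ (hA.rei _ hb)
  rcases isEmpty_or_nonempty l with hl | hl
  · have h1 : BP.tens a b = b (fun k => (IsEmpty.false k).elim) •
        BP.rei (Equiv.sumEmpty κ l).symm a := by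
      ext i
      rw [BP.tens, Pi.smul_apply, smul_eq_mul, BP.rei, mul_comm]
      congr 2
      ext k
      exact (IsEmpty.false k).elim
    rw [h1]
    exact Submodule.smul_mem _ _ (hA.rei _ ha)
  obtain ⟨n, ⟨e⟩⟩ := exists_eqv κ
  obtain ⟨m, ⟨f⟩⟩ := exists_eqv l
  refine hA.of ((Equiv.sumCongr e f).trans (ce n m)) ?_
  rw [← rei_rei, rei_tens]
  exact hA.tens n m _ _ (ha n e) (hb m f)

/-- The index set for the contraction. -/
def ec {κ : Type} {n : ℕ} (e : κ ≃ Fin (n + 1)) : κ ⊕ (Unit ⊕ Unit) ≃ Fin (n + 2 + 1) where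
  toFun := Sum.elim (fun k => (e k).castSucc.castSucc)
    (Sum.elim (fun _ => (Fin.last (n + 1)).castSucc) fun _ => Fin.last (n + 2))
  invFun := Fin.lastCases (Sum.inr (Sum.inr ()))
    (Fin.lastCases (Sum.inr (Sum.inl ())) fun k => Sum.inl (e.symm k))
  left_inv := by
    rintro (k | k | k)
    · simp
    · simp
    · simp
  right_inv := by
    intro k
    refine Fin.lastCases ?_ (fun k => ?_) k
    · simp
    · refine Fin.lastCases ?_ (fun k => ?_) k
      · simp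
      · simp

lemma sn_ec {κ : Type} {n : ℕ} (e : κ ≃ Fin (n + 1)) (w : Fin (n + 1) → ι) (x y : ι) :
    sn w x y ∘ ec e = Sum.elim (w ∘ e) (Sum.elim (fun _ => x) fun _ => y) := by
  ext k
  rcases k with k | k | k
  · change sn w x y (e k).castSucc.castSucc = w (e k)
    rw [sn, Fin.snoc_castSucc, Fin.snoc_castSucc]
  · change sn w x y (Fin.last (n + 1)).castSucc = x
    rw [sn, Fin.snoc_castSucc, Fin.snoc_last]
  · change sn w x y (Fin.last (n + 2)) = y
    rw [sn, Fin.snoc_last]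

lemma contr1 (hA : RFam H A) {κ : Type} [Fintype κ] [DecidableEq κ]
    {a : (κ ⊕ (Unit ⊕ Unit) → ι) → ℚ} (ha : a ∈ AQ A (κ ⊕ (Unit ⊕ Unit))) :
    BP.contr H.Qr a ∈ AQ A κ := by
  intro n e
  have h1 := hA.contr n _ (ha (n + 2) (ec e))
  convert h1 using 1
  ext w
  rw [BP.rei, BP.contr, ctr, ← Equiv.sum_comp (Equiv.funUnique Unit ι).symm]
  refine Finset.sum_congr rfl fun x _ => ?_
  rw [← Equiv.sum_comp (Equiv.funUnique Unit ι).symm]
  refine Finset.sum_congr rfl fun y _ => ?_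
  rw [BP.rei, sn_ec, kp_apply, Fintype.prod_unique]
  rfl

end RFam

end Pool.Agent.N996.BP
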