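import Pool.Agent.Y121.AHS.Ext

/-!
# Complex conjugation and forms on the extension of a rational vector space
-/

open TensorProduct

namespace Pool.Agent.N996.BP

open Pool.Agent.Y121.AHS

variable {K A : Type} [Field K] [Algebra K ℂ] [Ring A] [Algebra K A]

/-- All elements of the field `K` are rational numbers. -/
def IsRat (K : Type) [Field K] : Prop := ∀ r : K, ∃ q : ℚ, (q : K) = r

/-- The complex conjugation, as a linear map over the field `K` of the rational numbers. -/
noncomputable def conjK (h : IsRat K) : ℂ →ₗ[K] ℂ where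
  toFun z := (starRingEnd ℂ) z
  map_add' := map_add _
  map_smul' r z := by
    obtain ⟨q, rfl⟩ := h r
    rw [RingHom.id_apply, Algebra.smul_def, Algebra.smul_def, map_mul, map_ratCast, map_ratCast]

/-- The complex conjugation `z ⊗ a ↦ z̄ ⊗ a`. -/
noncomputable def extConj (h : IsRat K) (x : Ext K ℂ A) : Ext K ℂ A :=
  TensorProduct.map (conjK h) (LinearMap.id : A →ₗ[K] A) (show ℂ ⊗[K] A from x)

/-- The bilinear forms with values in `K`. -/
abbrev Bil (K A : Type) [Field K] [Ring A] [Algebra K A] : Type := A →ₗ[K] A →ₗ[K] K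

/-- The extension of a bilinear form to complex coefficients, `(z ⊗ a, w ⊗ b) ↦ z w ψ(a, b)`. -/
noncomputable def extBil (ψ : Bil K A) (x y : Ext K ℂ A) : ℂ :=
  (LinearMap.BilinForm.baseChange ℂ ψ : LinearMap.BilinForm ℂ (ℂ ⊗[K] A))
    (show ℂ ⊗[K] A from x) (show ℂ ⊗[K] A from y)

end Pool.Agent.N996.BP
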