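import Pool.Agent.N996.BP.Rel

/-!
# Algebraically independent linear forms
-/

set_option linter.unusedSectionVars false

namespace Pool.Agent.N996.BP

open MvPolynomial Set

variable {K E m : Type} [Field K] [Field E] [Algebra K E]

lemma card_le_of_alg {κ κ' : Type} [Fintype κ] [Fintype κ'] {g : κ → E} {y : κ' → E}
    (hg : AlgebraicIndependent K g)
    (h : ∀ i, IsAlgebraic (Algebra.adjoin K (range y)) (g i)) :
    Fintype.card κ ≤ Fintype.card κ' := by
  have h1 : (AlgebraicIndependent.matroid K E).Indep (range g) := hg.coe_range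
  have h2 : range g ⊆ (AlgebraicIndependent.matroid K E).closure (range y) := by
    rw [AlgebraicIndependent.matroid_closure_eq]
    rintro _ ⟨i, rfl⟩
    exact h i
  have h3 : (range g).encard ≤ (range y).encard := by
    calc (range g).encard = (AlgebraicIndependent.matroid K E).eRk (range g) :=
          h1.eRk_eq_encard.symm
      _ ≤ (AlgebraicIndependent.matroid K E).eRk
          ((AlgebraicIndependent.matroid K E).closure (range y)) := Matroid.eRk_mono _ h2
      _ = (AlgebraicIndependent.matroid K E).eRk (range y) := Matroid.eRk_closure_eq _ _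
      _ ≤ _ := Matroid.eRk_le_encard _ _
  have h4 : (range g).encard = Fintype.card κ := by
    rw [← Set.image_univ, hg.injective.injOn.encard_image, Set.encard_univ, ENat.card_eq_coe_fintype_card]
  have h5 : (range y).encard ≤ Fintype.card κ' := by
    rw [← Set.image_univ]
    refine (Set.encard_image_le _ _).trans ?_
    rw [Set.encard_univ, ENat.card_eq_coe_fintype_card]
  rw [h4] at h3
  exact_mod_cast h3.trans h5

/-- There are `r` algebraically independent polynomials in the coordinates. -/
def Tr (K : Type) [Field K] [Algebra K E] (x : m → E) (r : ℕ) : Prop :=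
  ∃ (κ : Type) (_ : Fintype κ) (g : κ → MvPolynomial m K), Fintype.card κ = r ∧
    AlgebraicIndependent K fun i => aeval x (g i)

lemma Tr.zero (x : m → E) : Tr K x 0 := by
  refine ⟨Empty, inferInstance, Empty.elim, rfl, ?_⟩
  exact algebraicIndependent_empty_type_iff.2 (FaithfulSMul.algebraMap_injective K E)

variable [Fintype m]

lemma Tr.le_card {x : m → E} {r : ℕ} (h : Tr K x r) : r ≤ Fintype.card m := by
  obtain ⟨κ, _, g, rfl, hg⟩ := h
  refine card_le_of_alg (y := x) hg fun i => ?_
  have h1 : aeval x (g i) ∈ Algebra.adjoin K (range x) := by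
    rw [Algebra.adjoin_range_eq_range_aeval]
    exact ⟨g i, rfl⟩
  exact isAlgebraic_algebraMap (⟨_, h1⟩ : Algebra.adjoin K (range x))

/-- A vector space is not the union of two proper subspaces. -/
lemma exists_notMem_two {V : Type*} [AddCommGroup V] [Module K V] {W W' : Submodule K V}
    (h : W ≠ ⊤) (h' : W' ≠ ⊤) : ∃ v, v ∉ W ∧ v ∉ W' := by
  obtain ⟨a, ha⟩ : ∃ a, a ∉ W := by
    by_contra hc
    push Not at hc
    exact h (Submodule.eq_top_iff'.2 hc)
  obtain ⟨b, hb⟩ : ∃ b, b ∉ W' := by
    by_contra hc
    push Not at hc
    exact h' (Submodule.eq_top_iff'.2 hc)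
  by_cases ha' : a ∈ W'
  · by_cases hb' : b ∈ W
    · refine ⟨a + b, fun h1 => ha ?_, fun h1 => hb ?_⟩
      · have := W.sub_mem h1 hb'
        rwa [add_sub_cancel_right] at this
      · have := W'.sub_mem h1 ha'
        rwa [add_sub_cancel_left] at this
    · exact ⟨b, hb', hb⟩
  · exact ⟨a, ha, ha'⟩

/-- The linear forms which are algebraic over given ones. -/
noncomputable def algForms (x : m → E) (A : Subalgebra K E) : Submodule K (m → K) where
  carrier := {μ | IsAlgebraic A (∑ k, algebraMap K E (μ k) * x k)}
  add_mem' {a b} ha hb := by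
    have h : ∑ k, algebraMap K E ((a + b) k) * x k =
        ∑ k, algebraMap K E (a k) * x k + ∑ k, algebraMap K E (b k) * x k := by
      rw [← Finset.sum_add_distrib]
      refine Finset.sum_congr rfl fun k _ => ?_
      rw [Pi.add_apply, map_add, add_mul]
    change IsAlgebraic A _
    rw [h]
    exact IsAlgebraic.add ha hb
  zero_mem' := by
    have h : ∑ k, algebraMap K E ((0 : m → K) k) * x k = 0 := by
      refine Finset.sum_eq_zero fun k _ => ?_
      rw [Pi.zero_apply, map_zero, zero_mul]
    change IsAlgebraic A _
    rw [h]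
    exact isAlgebraic_zero
  smul_mem' c a ha := by
    have h : ∑ k, algebraMap K E ((c • a) k) * x k =
        algebraMap A E (algebraMap K A c) * ∑ k, algebraMap K E (a k) * x k := by
      rw [Finset.mul_sum]
      refine Finset.sum_congr rfl fun k _ => ?_
      rw [Pi.smul_apply, smul_eq_mul, map_mul]
      have : algebraMap A E (algebraMap K A c) = algebraMap K E c := rfl
      rw [this]
      ring
    change IsAlgebraic A _
    rw [h]
    exact IsAlgebraic.mul (isAlgebraic_algebraMap _) ha

lemma algForms_ne_top [DecidableEq m] {x : m → E} {r : ℕ} (hr : Tr K x r) {κ : Type} [Fintype κ]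
    {y : κ → E} (hy : Fintype.card κ < r) : algForms x (Algebra.adjoin K (range y)) ≠ ⊤ := by
  intro htop
  obtain ⟨κ', _, g, rfl, hg⟩ := hr
  have h1 : ∀ k, IsAlgebraic (Algebra.adjoin K (range y)) (x k) := by
    intro k
    have h2 : (Pi.single k 1 : m → K) ∈ algForms x (Algebra.adjoin K (range y)) := by
      rw [htop]; exact Submodule.mem_top
    change IsAlgebraic _ _ at h2
    have h3 : ∑ j, algebraMap K E ((Pi.single k 1 : m → K) j) * x j = x k := by
      rw [Finset.sum_eq_single k]
      · rw [Pi.single_eq_same, map_one, one_mul]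
      · intro j _ hj
        rw [Pi.single_eq_of_ne hj, map_zero, zero_mul]
      · intro h; exact absurd (Finset.mem_univ k) h
    rwa [h3] at h2
  have h2 := card_le_of_alg (y := y) hg fun i => by
    induction g i using MvPolynomial.induction_on with
    | C a =>
      rw [aeval_C]
      exact isAlgebraic_algebraMap (algebraMap K (Algebra.adjoin K (range y)) a)
    | add p q hp hq => rw [map_add]; exact hp.add hq
    | mul_X p k hp => rw [map_mul, aeval_X]; exact hp.mul (h1 k)
  omega

/-- Common algebraically independent linear forms for two points. -/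
lemma exists_common [DecidableEq m] {x x' : m → E} {r : ℕ} (hr : Tr K x r) (hr' : Tr K x' r) :
    ∃ (κ : Type) (_ : Fintype κ) (_ : DecidableEq κ) (lam : κ → m → K), Fintype.card κ = r ∧
      AlgebraicIndependent K (lin lam x) ∧ AlgebraicIndependent K (lin lam x') := by
  classical
  suffices h : ∀ n ≤ r, ∃ (κ : Type) (_ : Fintype κ) (lam : κ → m → K), Fintype.card κ = n ∧
      AlgebraicIndependent K (lin lam x) ∧ AlgebraicIndependent K (lin lam x') by
    obtain ⟨κ, i, lam, h1, h2, h3⟩ := h r le_rfl
    exact ⟨κ, i, Classical.decEq κ, lam, h1, h2, h3⟩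
  intro n
  induction n with
  | zero =>
    intro _
    exact ⟨Empty, inferInstance, Empty.elim, rfl,
      algebraicIndependent_empty_type_iff.2 (FaithfulSMul.algebraMap_injective K E),
      algebraicIndependent_empty_type_iff.2 (FaithfulSMul.algebraMap_injective K E)⟩
  | succ n ih =>
    intro hn
    obtain ⟨κ, _, lam, h1, h2, h3⟩ := ih (by omega)
    obtain ⟨μ, hμ, hμ'⟩ := exists_notMem_two
      (algForms_ne_top hr (y := lin lam x) (by omega))
      (algForms_ne_top hr' (y := lin lam x') (by omega))
    have key : ∀ z : m → E, lin (fun o : Option κ => o.elim μ lam) z =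
        fun o : Option κ => o.elim (∑ k, algebraMap K E (μ k) * z k) (lin lam z) := by
      intro z
      funext o
      rcases o with _ | i <;> rfl
    refine ⟨Option κ, inferInstance, fun o => o.elim μ lam, by
      rw [Fintype.card_option, h1], ?_, ?_⟩
    · rw [key]
      exact (h2.option_iff_transcendental _).2 hμ
    · rw [key]
      exact (h3.option_iff_transcendental _).2 hμ'

end Pool.Agent.N996.BP
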