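import Pool.Agent.N996.BP.HData
import Pool.Agent.N996.BP.Tr

/-!
# Generic points of the group
-/

set_option linter.unusedSectionVars false

namespace Pool.Agent.N996.BP

open Matrix

variable {ι : Type} [Fintype ι] [DecidableEq ι] (H : HData ι)

section Unit

variable {L : Type} [CommRing L] [Algebra ℂ L]

/-- The conjugate cocharacter at a unit. -/
noncomputable def ltU (σ : ℂ ≃+* ℂ) (T : Lˣ) : Matrix ι ι L :=
  ∑ k ∈ Finset.Icc (-H.w : ℤ) H.w, ((T ^ k : Lˣ) : L) • ((H.π k).map σ).map (algebraMap ℂ L)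

lemma ltU_map {L' : Type} [CommRing L'] [Algebra ℂ L'] (f : L →ₐ[ℂ] L') (σ : ℂ ≃+* ℂ) (T : Lˣ) :
    (ltU H σ T).map f = ltU H σ (Units.map (f : L →* L') T) := by
  rw [ltU, ltU]
  ext i j
  rw [Matrix.map_apply, Matrix.sum_apply, Matrix.sum_apply, map_sum]
  refine Finset.sum_congr rfl fun k _ => ?_
  rw [Matrix.smul_apply, Matrix.smul_apply, smul_eq_mul, smul_eq_mul, map_mul, Matrix.map_apply,
    Matrix.map_apply, ← map_zpow, Units.coe_map]
  congr 1
  exact AlgHom.commutes f _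

lemma ltU_one (σ : ℂ ≃+* ℂ) : ltU H σ (1 : Lˣ) = 1 := by
  have h1 : (∑ k ∈ Finset.Icc (-H.w : ℤ) H.w, (H.π k).map σ) = 1 := by
    have h2 : (∑ k ∈ Finset.Icc (-H.w : ℤ) H.w, H.π k).map σ = 1 := by rw [H.h1, map_one']
    rw [← h2]
    ext i j
    rw [Matrix.sum_apply, Matrix.map_apply, Matrix.sum_apply, map_sum]
    rfl
  have h3 : (1 : Matrix ι ι L) = (1 : Matrix ι ι ℂ).map (algebraMap ℂ L) :=
    (Matrix.map_one _ (map_zero _) (map_one _)).symm
  rw [h3, ← h1, ltU]
  ext i j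
  rw [Matrix.sum_apply, Matrix.map_apply, Matrix.sum_apply, map_sum]
  refine Finset.sum_congr rfl fun k _ => ?_
  rw [_root_.one_zpow, Units.val_one, one_smul]
  rfl

lemma ltU_complex (σ : ℂ ≃+* ℂ) {t : ℂ} (ht : t ≠ 0) :
    ltU H σ (Units.mk0 (σ t) ((map_ne_zero σ).2 ht)) = (H.l t).map σ := by
  rw [ltU, H.l_apply]
  ext i j
  rw [Matrix.sum_apply, Matrix.map_apply, Matrix.sum_apply, map_sum]
  refine Finset.sum_congr rfl fun k _ => ?_
  rw [Matrix.smul_apply, Matrix.smul_apply, smul_eq_mul, smul_eq_mul, map_mul, map_zpow₀,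
    Units.val_zpow_eq_zpow_val, Units.val_mk0]
  rfl

/-- Hodge classes are fixed by the conjugate cocharacters over all rings. -/
lemma ltU_fix {κ : Type} [Fintype κ] [DecidableEq κ] {a : (κ → ι) → ℚ} (ha : a ∈ BB H κ)
    (σ : ℂ ≃+* ℂ) (T : Lˣ) :
    kp κ (ltU H σ T) *ᵥ (fun i => algebraMap ℂ L (ca a i)) = fun i => algebraMap ℂ L (ca a i) := by
  -- the polynomial matrix
  let M : Matrix ι ι (Polynomial ℂ) := ∑ k ∈ Finset.Icc (-H.w : ℤ) H.w,
    (Polynomial.X ^ (k + H.w).toNat : Polynomial ℂ) • ((H.π k).map σ).map Polynomial.C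
  have hM : ∀ {L' : Type} [CommRing L'] [Algebra ℂ L'] (S : L'ˣ),
      M.map (Polynomial.aeval (S : L')) = ((S : L') ^ H.w) • ltU H σ S := by
    intro L' _ _ S
    rw [ltU, Finset.smul_sum]
    ext i j
    have hMij : M i j = ∑ k ∈ Finset.Icc (-H.w : ℤ) H.w,
        ((Polynomial.X ^ (k + H.w).toNat : Polynomial ℂ) •
          ((H.π k).map σ).map Polynomial.C) i j := Matrix.sum_apply _ _ _ _
    rw [Matrix.map_apply, hMij, Matrix.sum_apply, map_sum]
    refine Finset.sum_congr rfl fun k hk => ?_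
    rw [Matrix.smul_apply, Matrix.smul_apply, Matrix.smul_apply, smul_eq_mul, smul_eq_mul,
      smul_eq_mul, map_mul, map_pow, Polynomial.aeval_X, ← mul_assoc]
    congr 1
    · rw [← Units.val_pow_eq_pow_val, ← Units.val_pow_eq_pow_val, ← Units.val_mul]
      congr 1
      rw [← zpow_natCast, ← zpow_natCast, ← _root_.zpow_add]
      congr 1
      rw [Finset.mem_Icc] at hk
      rw [Int.toNat_of_nonneg (by omega)]
      ring
    · rw [Matrix.map_apply, Matrix.map_apply, Polynomial.aeval_C]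
      rfl
  obtain ⟨n, hn⟩ : ∃ n, n = Fintype.card κ := ⟨_, rfl⟩
  have key : kp κ M *ᵥ (fun i => Polynomial.C (ca a i)) =
      fun i => Polynomial.X ^ (H.w * n) * Polynomial.C (ca a i) := by
    funext i
    apply Polynomial.eq_of_infinite_eval_eq
    refine Set.Infinite.mono (s := {t : ℂ | t ≠ 0}) ?_ (Set.Finite.infinite_compl
      (Set.finite_singleton (0 : ℂ)))
    intro t ht
    have ht' : σ.symm t ≠ 0 := (map_ne_zero σ.symm).2 ht
    have h1 := hM (Units.mk0 t ht)
    have h2 : ltU H σ (Units.mk0 t ht) = (H.l (σ.symm t)).map σ := by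
      rw [← ltU_complex H σ ht']
      congr 1
      ext
      simp
    have h3 : kp κ ((H.l (σ.symm t)).map σ) *ᵥ ca a = ca a :=
      GG_fix H ha (Submonoid.subset_closure ⟨σ, _, ht', rfl⟩)
    have h4 : kp κ (M.map (Polynomial.aeval t)) *ᵥ ca a = (t ^ (H.w * n)) • ca a := by
      rw [Units.val_mk0] at h1
      rw [h1, h2, kp_smul, Matrix.smul_mulVec, h3, ← hn, ← pow_mul]
    have h5 := congrFun h4 i
    change Polynomial.eval t _ = Polynomial.eval t _
    rw [Polynomial.eval_mul, Polynomial.eval_pow, Polynomial.eval_X, Polynomial.eval_C,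
      Matrix.mulVec, dotProduct, Polynomial.eval_finsetSum]
    rw [Pi.smul_apply, smul_eq_mul] at h5
    rw [← h5, Matrix.mulVec, dotProduct]
    refine Finset.sum_congr rfl fun j _ => ?_
    rw [Polynomial.eval_mul, Polynomial.eval_C, kp_apply, kp_apply, Polynomial.eval_prod]
    rfl
  -- evaluation at `T`
  have h6 : kp κ (M.map (Polynomial.aeval (T : L))) *ᵥ (fun i => algebraMap ℂ L (ca a i)) =
      fun i => (T : L) ^ (H.w * n) * algebraMap ℂ L (ca a i) := by
    funext i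
    have h7 := congrArg (Polynomial.aeval (T : L)) (congrFun key i)
    rw [map_mul, map_pow, Polynomial.aeval_X, Polynomial.aeval_C, Matrix.mulVec, dotProduct,
      map_sum] at h7
    rw [← h7, Matrix.mulVec, dotProduct]
    refine Finset.sum_congr rfl fun j _ => ?_
    rw [map_mul, Polynomial.aeval_C, kp_apply, kp_apply, map_prod]
    rfl
  rw [hM T, kp_smul, Matrix.smul_mulVec, ← hn, ← pow_mul] at h6
  funext i
  have h8 := congrFun h6 i
  rw [Pi.smul_apply, smul_eq_mul] at h8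
  have h9 : IsUnit ((T : L) ^ (H.w * n)) := T.isUnit.pow _
  exact h9.mul_left_cancel h8

end Unit

/-- The entries of a matrix. -/
def ent {R : Type*} (g : Matrix ι ι R) : ι × ι → R := fun p => g p.1 p.2

section Field

variable {E : Type} [Field E] [Algebra ℂ E]

/-- The space of the values of polynomials of degree at most `d`. -/
noncomputable def Vd (g : Matrix ι ι E) (d : ℕ) : Submodule ℂ E :=
  (MvPolynomial.restrictTotalDegree (ι × ι) ℂ d).map (MvPolynomial.aeval (ent g)).toLinearMap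

lemma mem_Vd {g : Matrix ι ι E} {d : ℕ} {z : E} :
    z ∈ Vd g d ↔ ∃ f : MvPolynomial (ι × ι) ℂ, f.totalDegree ≤ d ∧
      MvPolynomial.aeval (ent g) f = z := by
  rw [Vd, Submodule.mem_map]
  simp only [MvPolynomial.mem_restrictTotalDegree]
  rfl

instance (g : Matrix ι ι E) (d : ℕ) : FiniteDimensional ℂ (Vd g d) := by
  rw [Vd]
  infer_instance

lemma Vd_mul {g : Matrix ι ι E} {d e : ℕ} {z z' : E} (hz : z ∈ Vd g d) (hz' : z' ∈ Vd g e) :
    z * z' ∈ Vd g (d + e) := by
  rw [mem_Vd] at *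
  obtain ⟨f, hf, rfl⟩ := hz
  obtain ⟨f', hf', rfl⟩ := hz'
  exact ⟨f * f', (MvPolynomial.totalDegree_mul _ _).trans (Nat.add_le_add hf hf'), map_mul _ _ _⟩

lemma Vd_mono {g : Matrix ι ι E} {d e : ℕ} (h : d ≤ e) : Vd g d ≤ Vd g e := by
  intro z hz
  rw [mem_Vd] at *
  obtain ⟨f, hf, rfl⟩ := hz
  exact ⟨f, hf.trans h, rfl⟩

lemma Vd_algebraMap {g : Matrix ι ι E} (d : ℕ) (c : ℂ) : algebraMap ℂ E c ∈ Vd g d := by
  rw [mem_Vd]
  exact ⟨MvPolynomial.C c, by simp, by rw [MvPolynomial.aeval_C]⟩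

lemma Vd_ent {g : Matrix ι ι E} (i j : ι) : g i j ∈ Vd g 1 := by
  rw [mem_Vd]
  exact ⟨MvPolynomial.X (i, j), (MvPolynomial.totalDegree_X _).le, by
    rw [MvPolynomial.aeval_X]; rfl⟩

/-- A generic point with `r` parameters. -/
structure IsGen (E : Type) [Field E] [Algebra ℂ E] (g : Matrix ι ι E) (r : ℕ) : Prop where
  tr : Tr ℂ (ent g) r
  dim : ∀ d, Module.finrank ℂ (Vd g d) ≤ (2 * H.w * d + 1) ^ r
  fix : ∀ (κ : Type) [Fintype κ] [DecidableEq κ] (a : (κ → ι) → ℚ), a ∈ BB H κ →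
    kp κ g *ᵥ (fun i => algebraMap ℂ E (ca a i)) = fun i => algebraMap ℂ E (ca a i)

lemma isGen_zero : IsGen H ℂ (1 : Matrix ι ι ℂ) 0 := by
  refine ⟨Tr.zero _, fun d => ?_, fun κ _ _ a _ => ?_⟩
  · rw [pow_zero]
    calc Module.finrank ℂ (Vd (1 : Matrix ι ι ℂ) d) ≤ Module.finrank ℂ ℂ :=
          Submodule.finrank_le _
      _ = 1 := Module.finrank_self ℂ
  · rw [kp_one, Matrix.one_mulVec]

/-- The space of the Laurent polynomials with bounded exponents and coefficients in `V`. -/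
def LV {E' : Type} [Field E'] [Algebra ℂ E'] [Algebra E E'] (T : E') (V : Submodule ℂ E)
    (N : ℕ) : Submodule ℂ E' :=
  Submodule.span ℂ {z | ∃ k ∈ Finset.Icc (-N : ℤ) N, ∃ v ∈ V, z = T ^ k * algebraMap E E' v}

variable {E' : Type} [Field E'] [Algebra ℂ E'] [Algebra E E'] [IsScalarTower ℂ E E']

lemma LV_finrank (T : E') (V : Submodule ℂ E) [FiniteDimensional ℂ V] (N : ℕ) :
    FiniteDimensional ℂ (LV T V N) ∧
      Module.finrank ℂ (LV T V N) ≤ (2 * N + 1) * Module.finrank ℂ V := by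
  classical
  let L : (Finset.Icc (-N : ℤ) N → V) →ₗ[ℂ] E' :=
    ∑ k : Finset.Icc (-N : ℤ) N, (LinearMap.mulLeft ℂ (T ^ (k : ℤ))).comp
      (((IsScalarTower.toAlgHom ℂ E E').toLinearMap.comp V.subtype).comp (LinearMap.proj k))
  have hL : ∀ v, L v = ∑ k : Finset.Icc (-N : ℤ) N, T ^ (k : ℤ) * algebraMap E E' (v k : E) := by
    intro v
    simp [L, LinearMap.sum_apply]
  have h1 : LV T V N ≤ LinearMap.range L := by
    rw [LV, Submodule.span_le]
    rintro _ ⟨k, hk, v, hv, rfl⟩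
    refine ⟨Pi.single ⟨k, hk⟩ ⟨v, hv⟩, ?_⟩
    rw [hL, Finset.sum_eq_single ⟨k, hk⟩]
    · rw [Pi.single_eq_same]
    · intro j _ hj
      rw [Pi.single_eq_of_ne hj]
      simp
    · intro h; exact absurd (Finset.mem_univ _) h
  have h2 : FiniteDimensional ℂ (LinearMap.range L) := inferInstance
  have h3 : FiniteDimensional ℂ (LV T V N) := Submodule.finiteDimensional_of_le h1
  refine ⟨h3, (Submodule.finrank_mono h1).trans ((LinearMap.finrank_range_le L).trans ?_)⟩
  rw [Module.finrank_pi_fintype, Finset.sum_const, Finset.card_univ, Fintype.card_coe,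
    Int.card_Icc, smul_eq_mul]
  gcongr
  omega

lemma LV_mono {T : E'} {V V' : Submodule ℂ E} (h : V ≤ V') {N N' : ℕ} (hN : N ≤ N') :
    LV T V N ≤ LV T V' N' := by
  rw [LV, Submodule.span_le]
  rintro _ ⟨k, hk, v, hv, rfl⟩
  refine Submodule.subset_span ⟨k, ?_, v, h hv, rfl⟩
  rw [Finset.mem_Icc] at *
  omega

lemma LV_mul {T : E'} (hT : T ≠ 0) {V V' V'' : Submodule ℂ E} (h : ∀ v ∈ V, ∀ v' ∈ V',
    v * v' ∈ V'') {N N' : ℕ} {z z' : E'} (hz : z ∈ LV T V N) (hz' : z' ∈ LV T V' N') :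
    z * z' ∈ LV T V'' (N + N') := by
  rw [LV] at hz hz'
  induction hz using Submodule.span_induction with
  | mem z hz =>
    obtain ⟨k, hk, v, hv, rfl⟩ := hz
    induction hz' using Submodule.span_induction with
    | mem z' hz' =>
      obtain ⟨k', hk', v', hv', rfl⟩ := hz'
      refine Submodule.subset_span ⟨k + k', ?_, v * v', h v hv v' hv', ?_⟩
      · rw [Finset.mem_Icc] at *
        push_cast
        omega
      · rw [zpow_add₀ hT, map_mul]
        ring
    | zero => rw [mul_zero]; exact Submodule.zero_mem _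
    | add a b _ _ ha hb => rw [mul_add]; exact Submodule.add_mem _ ha hb
    | smul c a _ ha => rw [mul_smul_comm]; exact Submodule.smul_mem _ _ ha
  | zero => rw [zero_mul]; exact Submodule.zero_mem _
  | add a b _ _ ha hb => rw [add_mul]; exact Submodule.add_mem _ ha hb
  | smul c a _ ha => rw [smul_mul_assoc]; exact Submodule.smul_mem _ _ ha

/-- The dimension bound for the next generic point. -/
lemma Vd_next (σ : ℂ ≃+* ℂ) (T : E'ˣ) (g : Matrix ι ι E) (d : ℕ) :
    Vd (ltU H σ T * g.map (algebraMap E E')) d ≤ LV (T : E') (Vd g d) (H.w * d) := by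
  obtain ⟨g', hg'⟩ : ∃ g', g' = ltU H σ T * g.map (algebraMap E E') := ⟨_, rfl⟩
  rw [← hg']
  have hT : (T : E') ≠ 0 := T.ne_zero
  have hent : ∀ i j, g' i j ∈ LV (T : E') (Vd g 1) H.w := by
    intro i j
    rw [hg', Matrix.mul_apply]
    refine Submodule.sum_mem _ fun a _ => ?_
    rw [ltU, Matrix.sum_apply, Finset.sum_mul]
    refine Submodule.sum_mem _ fun k hk => ?_
    rw [Matrix.smul_apply, smul_eq_mul, Matrix.map_apply, Matrix.map_apply,
      Matrix.map_apply, Units.val_zpow_eq_zpow_val, mul_assoc, ← Algebra.smul_def, mul_smul_comm]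
    exact Submodule.smul_mem _ _ (Submodule.subset_span ⟨k, hk, g a j, Vd_ent a j, rfl⟩)
  have hone : ∀ z : E', z ∈ Set.range (algebraMap ℂ E') → z ∈ LV (T : E') (Vd g 0) 0 := by
    rintro _ ⟨c, rfl⟩
    refine Submodule.subset_span ⟨0, by simp, algebraMap ℂ E c, Vd_algebraMap 0 c, ?_⟩
    rw [zpow_zero, one_mul, ← IsScalarTower.algebraMap_apply]
  have hpow : ∀ (i j : ι) (n : ℕ), g' i j ^ n ∈ LV (T : E') (Vd g n) (H.w * n) := by
    intro i j n
    induction n with
    | zero =>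
      rw [pow_zero]
      exact hone 1 ⟨1, map_one _⟩
    | succ n ih =>
      rw [pow_succ]
      have := LV_mul hT (fun v hv v' hv' => Vd_mul hv hv') ih (hent i j)
      rwa [← Nat.mul_succ] at this
  have hprod : ∀ (s : Finset (ι × ι)) (β : ι × ι → ℕ),
      ∏ p ∈ s, g' p.1 p.2 ^ β p ∈
        LV (T : E') (Vd g (∑ p ∈ s, β p)) (H.w * ∑ p ∈ s, β p) := by
    intro s β
    induction s using Finset.induction_on with
    | empty =>
      rw [Finset.prod_empty, Finset.sum_empty]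
      exact hone 1 ⟨1, map_one _⟩
    | insert a s ha ih =>
      rw [Finset.prod_insert ha, Finset.sum_insert ha, Nat.mul_add]
      exact LV_mul hT (fun v hv v' hv' => Vd_mul hv hv') (hpow _ _ _) ih
  intro z hz
  rw [mem_Vd] at hz
  obtain ⟨f, hf, rfl⟩ := hz
  rw [MvPolynomial.aeval_def, MvPolynomial.eval₂_eq']
  refine Submodule.sum_mem _ fun β hβ => ?_
  rw [← Algebra.smul_def]
  refine Submodule.smul_mem _ _ ?_
  have h1 := hprod Finset.univ β
  have h2 : ∑ p, β p ≤ d := by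
    have h3 : ∑ p, β p = β.sum fun _ e => e :=
      (Finsupp.sum_fintype β (fun _ e => e) fun _ => rfl).symm
    rw [h3]
    exact (MvPolynomial.le_totalDegree hβ).trans hf
  exact LV_mono (Vd_mono h2) (Nat.mul_le_mul_left _ h2) h1

end Field

end Pool.Agent.N996.BP
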