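import Pool.Agent.N996.BP.RFam

/-!
# Families containing the Hodge classes of small degree contain all Hodge classes
-/

set_option linter.unusedSectionVars false

namespace Pool.Agent.N996.BP

open Matrix

variable {ι : Type} [Fintype ι] [DecidableEq ι]
variable {H : HData ι} {A : ∀ n : ℕ, Submodule ℚ ((Fin (n + 1) → ι) → ℚ)}

/-- The equivalence of `Fin n ⊕ Unit` and `Fin (n + 1)`. -/
def eu (n : ℕ) : Fin n ⊕ Unit ≃ Fin (n + 1) :=
  (Equiv.sumCongr (Equiv.refl _) (Equiv.ofUnique Unit (Fin 1))).trans finSumFinEquiv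

/-- Induction for properties of finite sets. -/
lemma fin_ind {P : ∀ (κ : Type) [Fintype κ] [DecidableEq κ], Prop}
    (he : ∀ (κ l : Type) [Fintype κ] [DecidableEq κ] [Fintype l] [DecidableEq l], (κ ≃ l) →
      P κ → P l) (h0 : P (Fin 0))
    (hs : ∀ (κ : Type) [Fintype κ] [DecidableEq κ], P κ → P (κ ⊕ Unit))
    (κ : Type) [Fintype κ] [DecidableEq κ] : P κ := by
  have key : ∀ n, P (Fin n) := by
    intro n
    induction n with
    | zero => exact h0
    | succ n ih => exact he _ _ (eu n) (hs _ ih)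
  exact he _ _ (Fintype.equivFin κ).symm (key _)

namespace RFam

lemma contrQ (hA : RFam H A) {l : Type} [Fintype l] [DecidableEq l] : ∀ {κ : Type} [Fintype κ]
    [DecidableEq κ] {a : (κ ⊕ (l ⊕ l) → ι) → ℚ}, a ∈ AQ A (κ ⊕ (l ⊕ l)) →
      BP.contr H.Qr a ∈ AQ A κ := by
  refine fin_ind (P := fun l _ _ => ∀ {κ : Type} [Fintype κ] [DecidableEq κ]
    {a : (κ ⊕ (l ⊕ l) → ι) → ℚ}, a ∈ AQ A (κ ⊕ (l ⊕ l)) → BP.contr H.Qr a ∈ AQ A κ) ?_ ?_ ?_ l
  · intro l l' _ _ _ _ e ih κ _ _ a ha
    have h1 := ih (hA.rei (Equiv.sumCongr (Equiv.refl κ) (Equiv.sumCongr e.symm e.symm)) ha)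
    convert h1 using 1
    ext i
    rw [BP.contr, BP.contr, ← Equiv.sum_comp (e.arrowCongr (Equiv.refl ι))]
    refine Finset.sum_congr rfl fun x _ => ?_
    rw [← Equiv.sum_comp (e.arrowCongr (Equiv.refl ι))]
    refine Finset.sum_congr rfl fun y _ => ?_
    have h1 : ∀ x : l → ι, (e.arrowCongr (Equiv.refl ι)) x = x ∘ e.symm := by
      intro x; ext; simp [Equiv.arrowCongr]
    rw [h1, h1, kp_reindex e.symm, BP.rei]
    congr 2
    ext z
    rcases z with z | z | z <;> rfl
  · intro κ _ _ a ha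
    have h1 := hA.rei (Equiv.sumEmpty κ (Fin 0 ⊕ Fin 0)) ha
    convert h1 using 1
    ext i
    rw [BP.contr, Fintype.sum_unique, Fintype.sum_unique, kp_apply, Fintype.prod_empty, one_mul,
      BP.rei]
    congr 1
    ext z
    rcases z with z | z | z
    · rfl
    · exact z.elim0
    · exact z.elim0
  · intro l _ _ ih κ _ _ a ha
    let e : κ ⊕ ((l ⊕ Unit) ⊕ (l ⊕ Unit)) ≃ (κ ⊕ (l ⊕ l)) ⊕ (Unit ⊕ Unit) :=
      { toFun := Sum.elim (fun k => Sum.inl (Sum.inl k)) (Sum.elim
          (Sum.elim (fun k => Sum.inl (Sum.inr (Sum.inl k))) fun k => Sum.inr (Sum.inl k))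
          (Sum.elim (fun k => Sum.inl (Sum.inr (Sum.inr k))) fun k => Sum.inr (Sum.inr k)))
        invFun := Sum.elim (Sum.elim (fun k => Sum.inl k) (Sum.elim
          (fun k => Sum.inr (Sum.inl (Sum.inl k))) fun k => Sum.inr (Sum.inr (Sum.inl k))))
          (Sum.elim (fun k => Sum.inr (Sum.inl (Sum.inr k)))
            fun k => Sum.inr (Sum.inr (Sum.inr k)))
        left_inv := by rintro (k | (k | k) | (k | k)) <;> rfl
        right_inv := by rintro ((k | k | k) | (k | k)) <;> rfl }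
    have h1 := ih (hA.contr1 (hA.rei e ha))
    convert h1 using 1
    ext i
    rw [BP.contr, BP.contr, sum_sumElim]
    refine Finset.sum_congr rfl fun x _ => ?_
    have h2 : ∀ x' : Unit → ι, ∑ j' : l ⊕ Unit → ι, kp (l ⊕ Unit) H.Qr (Sum.elim x x') j' *
        a (Sum.elim i (Sum.elim (Sum.elim x x') j')) =
        ∑ y : l → ι, ∑ y' : Unit → ι, kp l H.Qr x y * (kp Unit H.Qr x' y' *
          a (Sum.elim i (Sum.elim (Sum.elim x x') (Sum.elim y y')))) := by
      intro x'
      rw [sum_sumElim]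
      refine Finset.sum_congr rfl fun y _ => Finset.sum_congr rfl fun y' _ => ?_
      rw [kp_sum, mul_assoc]
    rw [Finset.sum_congr rfl fun x' _ => h2 x', Finset.sum_comm]
    refine Finset.sum_congr rfl fun y _ => ?_
    rw [BP.contr, Finset.mul_sum]
    refine Finset.sum_congr rfl fun x' _ => ?_
    rw [Finset.mul_sum]
    refine Finset.sum_congr rfl fun y' _ => ?_
    congr 2
    rw [BP.rei]
    congr 1
    ext z
    rcases z with z | (z | z) | (z | z) <;> rfl

/-- Arrays in the family are Hodge classes. -/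
lemma leQ (hA : RFam H A) {κ : Type} [Fintype κ] [DecidableEq κ] {a : (κ → ι) → ℚ}
    (ha : a ∈ AQ A κ) : a ∈ BB H κ := by
  intro t ht
  rcases isEmpty_or_nonempty κ with hκ | hκ
  · have h1 : kp κ (H.l t) = 1 := by
      ext i j
      rw [kp_apply, Fintype.prod_empty, Subsingleton.elim i j, Matrix.one_apply_eq]
    rw [h1, Matrix.one_mulVec]
  obtain ⟨n, ⟨e⟩⟩ := exists_eqv κ
  have h1 := hA.le n (ha n e) t ht
  have h2 : ca (BP.rei e a) = BP.rei e (ca a) := rfl
  rw [h2, kp_rei] at h1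
  have h3 := congrArg (BP.rei e.symm) h1
  rw [rei_rei, rei_rei, Equiv.self_trans_symm] at h3
  exact h3

lemma BB_rei {κ l : Type} [Fintype κ] [DecidableEq κ] [Fintype l] [DecidableEq l] (e : κ ≃ l)
    {a : (κ → ι) → ℚ} (ha : a ∈ BB H κ) : BP.rei e a ∈ BB H l := by
  intro t ht
  have h2 : ca (BP.rei e a) = BP.rei e (ca a) := rfl
  rw [h2, kp_rei, ha t ht]

variable {N : ℕ}

/-- Hodge classes of small degree belong to the family. -/
lemma of_small (hA : RFam H A) (hN : ∀ n, n + 1 ≤ N → BB H (Fin (n + 1)) ≤ A n) {κ : Type}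
    [Fintype κ] [DecidableEq κ] (hκ : Fintype.card κ ≤ N) {a : (κ → ι) → ℚ} (ha : a ∈ BB H κ) :
    a ∈ AQ A κ := by
  rcases isEmpty_or_nonempty κ with hκ' | hκ'
  · exact hA.empty a
  obtain ⟨n, ⟨e⟩⟩ := exists_eqv κ
  refine hA.of e (hN n ?_ (BB_rei e ha))
  rw [Fintype.card_congr e, Fintype.card_fin] at hκ
  exact hκ

lemma uniQ (hA : RFam H A) (hN : ∀ n, n + 1 ≤ N → BB H (Fin (n + 1)) ≤ A n) (h2 : 2 ≤ N)
    (κ : Type) [Fintype κ] [DecidableEq κ] : uni ℚ H.D.o κ ∈ AQ A κ := by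
  refine fin_ind (P := fun κ _ _ => uni ℚ H.D.o κ ∈ AQ A κ) ?_ ?_ ?_ κ
  · intro κ l _ _ _ _ e ih
    have h1 := hA.rei e ih
    convert h1 using 1
    ext i
    rw [uni, BP.rei, uni]
    exact (Equiv.prod_comp e fun k => if i k = H.D.o then (1 : ℚ) else 0).symm
  · exact hA.empty _
  · intro κ _ _ ih
    have h1 : uni ℚ H.D.o Unit ∈ AQ A Unit :=
      hA.of_small hN (by rw [Fintype.card_unit]; omega) (uni_BB Unit)
    have h3 := hA.tensQ ih h1
    convert h3 using 1
    ext i
    rw [uni, Fintype.prod_sum_type]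
    rfl

lemma invQ (hA : RFam H A) (hN : ∀ n, n + 1 ≤ N → BB H (Fin (n + 1)) ≤ A n) (h2 : 2 ≤ N)
    (κ : Type) [Fintype κ] [DecidableEq κ] : arr (kp κ H.Qir) ∈ AQ A (κ ⊕ κ) := by
  refine fin_ind (P := fun κ _ _ => arr (kp κ H.Qir) ∈ AQ A (κ ⊕ κ)) ?_ ?_ ?_ κ
  · intro κ l _ _ _ _ e ih
    have h1 := hA.rei (Equiv.sumCongr e e) ih
    convert h1 using 1
    ext i
    rw [arr, BP.rei, arr, ← kp_reindex e]
    rfl
  · exact hA.empty _
  · intro κ _ _ ih
    have h1 : arr (kp Unit H.Qir) ∈ AQ A (Unit ⊕ Unit) := by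
      refine hA.of_small hN (by rw [Fintype.card_sum, Fintype.card_unit]; omega) ?_
      have := arr_BB H (κ := Unit) (x := 1) fun t _ => by
        rw [cQ_one, Matrix.mul_one, Matrix.one_mul]
      rwa [Matrix.one_mul] at this
    let e : (κ ⊕ κ) ⊕ (Unit ⊕ Unit) ≃ (κ ⊕ Unit) ⊕ (κ ⊕ Unit) :=
      { toFun := Sum.elim (Sum.elim (fun k => Sum.inl (Sum.inl k)) fun k => Sum.inr (Sum.inl k))
          (Sum.elim (fun k => Sum.inl (Sum.inr k)) fun k => Sum.inr (Sum.inr k))
        invFun := Sum.elim (Sum.elim (fun k => Sum.inl (Sum.inl k)) fun k => Sum.inr (Sum.inl k))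
          (Sum.elim (fun k => Sum.inl (Sum.inr k)) fun k => Sum.inr (Sum.inr k))
        left_inv := by rintro ((k | k) | (k | k)) <;> rfl
        right_inv := by rintro ((k | k) | (k | k)) <;> rfl }
    have h3 := hA.rei e (hA.tensQ ih h1)
    convert h3 using 1
    ext i
    obtain ⟨i₁, i₂, rfl⟩ : ∃ i₁ i₂, i = Sum.elim i₁ i₂ := ⟨i ∘ Sum.inl, i ∘ Sum.inr, by simp⟩
    rw [arr_elim]
    have h4 : i₁ = Sum.elim (i₁ ∘ Sum.inl) (i₁ ∘ Sum.inr) := by simp
    have h5 : i₂ = Sum.elim (i₂ ∘ Sum.inl) (i₂ ∘ Sum.inr) := by simp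
    conv_lhs => rw [h4, h5]
    rw [kp_sum]
    rfl

end RFam

/-- The real span of the family. -/
def AR (A : ∀ n : ℕ, Submodule ℚ ((Fin (n + 1) → ι) → ℚ)) (κ : Type) :
    Submodule ℝ ((κ → ι) → ℝ) :=
  Submodule.span ℝ {x | ∃ a ∈ AQ A κ, x = fun i => (a i : ℝ)}

lemma AR_of {κ : Type} {a : (κ → ι) → ℚ} (ha : a ∈ AQ A κ) :
    (fun i => (a i : ℝ)) ∈ AR A κ := Submodule.subset_span ⟨a, ha, rfl⟩

lemma AR_ind {κ : Type} {P : ((κ → ι) → ℝ) → Prop}
    (h : ∀ a ∈ AQ A κ, ∀ c : ℝ, P (c • fun i => (a i : ℝ)))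
    (hadd : ∀ x y, P x → P y → P (x + y)) {x : (κ → ι) → ℝ} (hx : x ∈ AR A κ) : P x := by
  have key : ∀ c : ℝ, P (c • x) := by
    induction hx using Submodule.span_induction with
    | mem x hx => obtain ⟨a, ha, rfl⟩ := hx; exact h a ha
    | zero =>
      intro c
      have := h 0 (Submodule.zero_mem _) 0
      rw [zero_smul] at this
      rwa [smul_zero]
    | add x y _ _ hx hy => intro c; rw [smul_add]; exact hadd _ _ (hx c) (hy c)
    | smul d x _ hx => intro c; rw [smul_smul]; exact hx _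
  have := key 1
  rwa [one_smul] at this

/-- Descent to rational coefficients. -/
lemma descent {m : Type*} [Fintype m] (V : Submodule ℚ (m → ℚ)) {h : m → ℚ}
    (hh : (fun i => (h i : ℝ)) ∈
      Submodule.span ℝ {x : m → ℝ | ∃ a ∈ V, x = fun i => (a i : ℝ)}) : h ∈ V := by
  classical
  by_contra hc
  obtain ⟨f, hf, hfV⟩ := Submodule.exists_dual_map_eq_bot_of_notMem hc inferInstance
  let c : m → ℚ := fun i => f (Pi.single i 1)
  have hfc : ∀ a : m → ℚ, f a = ∑ i, a i * c i := by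
    intro a
    have h1 : a = ∑ i, a i • (Pi.single i 1 : m → ℚ) := by
      ext j
      rw [Finset.sum_apply, Finset.sum_eq_single j]
      · simp
      · intro i _ hi
        rw [Pi.smul_apply, Pi.single_eq_of_ne (Ne.symm hi), smul_zero]
      · intro h; exact absurd (Finset.mem_univ j) h
    conv_lhs => rw [h1, map_sum]
    refine Finset.sum_congr rfl fun i _ => ?_
    rw [map_smul, smul_eq_mul]
  have key : ∀ x ∈ Submodule.span ℝ {x : m → ℝ | ∃ a ∈ V, x = fun i => (a i : ℝ)},
      ∑ i, x i * (c i : ℝ) = 0 := by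
    intro x hx
    induction hx using Submodule.span_induction with
    | mem x hx =>
      obtain ⟨a, ha, rfl⟩ := hx
      have h1 : f a = 0 := by
        have h2 : f a ∈ V.map f := Submodule.mem_map_of_mem ha
        rwa [hfV, Submodule.mem_bot] at h2
      rw [hfc] at h1
      have h2 : ((∑ i, a i * c i : ℚ) : ℝ) = 0 := by rw [h1]; simp
      rw [Rat.cast_sum] at h2
      simpa using h2
    | zero => simp
    | add x y _ _ hx hy =>
      simp only [Pi.add_apply, add_mul, Finset.sum_add_distrib]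
      rw [hx, hy, add_zero]
    | smul r x _ hx =>
      simp only [Pi.smul_apply, smul_eq_mul, mul_assoc, ← Finset.mul_sum]
      rw [hx, mul_zero]
  have h1 := key _ hh
  apply hf
  rw [hfc]
  have h2 : ((∑ i, h i * c i : ℚ) : ℝ) = 0 := by
    rw [Rat.cast_sum]
    simpa using h1
  exact_mod_cast h2

namespace RFam

variable {N : ℕ}

lemma contr_cast {κ l : Type} [Fintype κ] [Fintype l] [DecidableEq κ] [DecidableEq l]
    (c : ℝ) (a : (κ ⊕ (l ⊕ l) → ι) → ℚ) :
    BP.contr H.D.Q (c • fun i => (a i : ℝ)) = c • fun i => ((BP.contr H.Qr a) i : ℝ) := by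
  ext i
  rw [Pi.smul_apply, smul_eq_mul, BP.contr, BP.contr, Rat.cast_sum, Finset.mul_sum]
  refine Finset.sum_congr rfl fun x _ => ?_
  rw [Rat.cast_sum, Finset.mul_sum]
  refine Finset.sum_congr rfl fun y _ => ?_
  rw [Rat.cast_mul, Pi.smul_apply, smul_eq_mul, H.hQr, kp_apply, kp_apply, Rat.cast_prod]
  simp only [Matrix.map_apply]
  ring

/-- The real span is a family. -/
lemma isFam (hA : RFam H A) (hN : ∀ n, n + 1 ≤ N → BB H (Fin (n + 1)) ≤ A n) (h2 : 2 ≤ N) :
    IsFam H.D (fun κ _ => AR A κ) where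
  reiM κ l _ _ e a ha := by
    refine AR_ind (P := fun a => BP.rei e a ∈ AR A l) ?_ ?_ ha
    · intro a ha c
      exact Submodule.smul_mem _ c (AR_of (hA.rei e ha))
    · intro x y hx hy
      exact Submodule.add_mem _ hx hy
  tensM κ l _ _ a b ha hb := by
    refine AR_ind (P := fun a => BP.tens a b ∈ AR A (κ ⊕ l)) ?_ ?_ ha
    · intro a ha c
      refine AR_ind (P := fun b => BP.tens (c • fun i => (a i : ℝ)) b ∈ AR A (κ ⊕ l)) ?_ ?_ hb
      · intro b hb d
        have h1 : BP.tens (c • fun i => (a i : ℝ)) (d • fun i => (b i : ℝ)) =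
            (c * d) • fun i => ((BP.tens a b) i : ℝ) := by
          ext i
          simp only [BP.tens, Pi.smul_apply, smul_eq_mul, Rat.cast_mul]
          ring
        rw [h1]
        exact Submodule.smul_mem _ _ (AR_of (hA.tensQ ha hb))
      · intro x y hx hy
        have h1 : BP.tens (c • fun i => (a i : ℝ)) (x + y) =
            BP.tens (c • fun i => (a i : ℝ)) x + BP.tens (c • fun i => (a i : ℝ)) y := by
          ext i
          simp only [BP.tens, Pi.add_apply]
          ring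
        rw [h1]
        exact Submodule.add_mem _ hx hy
    · intro x y hx hy
      have h1 : BP.tens (x + y) b = BP.tens x b + BP.tens y b := by
        ext i
        simp only [BP.tens, Pi.add_apply]
        ring
      rw [h1]
      exact Submodule.add_mem _ hx hy
  contrM κ l _ _ _ _ a ha := by
    refine AR_ind (P := fun a => BP.contr H.D.Q a ∈ AR A κ) ?_ ?_ ha
    · intro a ha c
      rw [contr_cast]
      exact Submodule.smul_mem _ _ (AR_of (hA.contrQ ha))
    · intro x y hx hy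
      have h1 : BP.contr H.D.Q (x + y) = BP.contr H.D.Q x + BP.contr H.D.Q y := by
        ext i
        simp only [BP.contr, Pi.add_apply, mul_add, Finset.sum_add_distrib]
      rw [h1]
      exact Submodule.add_mem _ hx hy
  fix κ _ _ a ha := by
    refine AR_ind (P := fun a => kp κ H.D.C *ᵥ a = a) ?_ ?_ ha
    · intro a ha c
      rw [Matrix.mulVec_smul]
      congr 1
      have h1 := hA.leQ ha Complex.I Complex.I_ne_zero
      rw [← cR_C, kp_cR] at h1
      ext i
      have h2 := congrFun h1 i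
      rw [Matrix.mulVec, dotProduct] at h2 ⊢
      have h3 : ((∑ j, kp κ H.D.C i j * (a j : ℝ) : ℝ) : ℂ) = (((a i : ℝ)) : ℂ) := by
        push_cast
        exact h2
      exact_mod_cast h3
    · intro x y hx hy
      rw [Matrix.mulVec_add, hx, hy]
  invM κ _ _ := by
    have h1 := AR_of (hA.invQ hN h2 κ)
    convert h1 using 1
    ext i
    rw [arr, arr, kp_apply, kp_apply, Rat.cast_prod, H.hQir]
    rfl
  uniM κ _ := by
    classical
    have h1 := AR_of (hA.uniQ hN h2 κ)
    convert h1 using 1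
    ext i
    rw [uni, uni, Rat.cast_prod]
    refine Finset.prod_congr rfl fun k _ => ?_
    split_ifs <;> simp

/-- **The core theorem.** A family of Hodge classes containing all Hodge classes of small degree
contains all Hodge classes. -/
theorem core (hA : RFam H A) (hN : ∀ n, n + 1 ≤ 2 * bd (Fintype.card ι ^ 2) H.w →
    BB H (Fin (n + 1)) ≤ A n) (n : ℕ) : BB H (Fin (n + 1)) ≤ A n := by
  classical
  intro h hh
  have h2 : 2 ≤ 2 * bd (Fintype.card ι ^ 2) H.w := by
    have : 1 ≤ bd (Fintype.card ι ^ 2) H.w := by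
      rw [bd]
      exact Nat.mul_pos (Nat.succ_pos _) (Nat.pow_pos (Nat.mul_pos (by omega) (Nat.succ_pos _)))
    omega
  have hfam := hA.isFam hN h2
  have h1 : (fun i => (h i : ℝ)) ∈ AR A (Fin (n + 1)) := by
    refine mem_of_fixed (κ := Fin (n + 1)) hfam _ ?_ ?_
    · have h1 := hh Complex.I Complex.I_ne_zero
      rw [← cR_C, kp_cR] at h1
      ext i
      have h2 := congrFun h1 i
      rw [Matrix.mulVec, dotProduct] at h2 ⊢
      have h3 : ((∑ j, kp (Fin (n + 1)) H.D.C i j * (h j : ℝ) : ℝ) : ℂ) = (((h i : ℝ)) : ℂ) := by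
        push_cast
        exact h2
      exact_mod_cast h3
    · intro g hg
      have h3 := fix_all (H := H) (p := g) (fun κ _ _ hκ a ha => by
        have h4 := hg κ _ (AR_of (hA.of_small hN hκ ha))
        simp only [Complex.ofReal_ratCast] at h4
        exact h4) (Fin (n + 1)) h hh
      simp only [Complex.ofReal_ratCast]
      exact h3
  rw [← hA.mem_iff]
  exact descent _ h1

end RFam

end Pool.Agent.N996.BP
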