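import Pool.Agent.N996.BP.Lop
import Pool.Agent.N996.BP.PHS2
import Pool.Agent.Y133.Half.Growth

/-!
# Hodge classes on the powers of a variety in coordinates
-/

set_option linter.unusedSectionVars false

open CategoryTheory AlgebraicGeometry TensorProduct

universe u

namespace Pool.Agent.N996.BP.Geo

open Module
open Pool.Agent.H914 Pool.Agent.H914.VarClass Pool.Agent.H914.VarClass.Obj
  Pool.Agent.H914.WeilCohomology
open Pool.Agent.Y133.Half Pool.Agent.Y121.AH

variable {k : Type u} [Field k] {𝒱 : VarClass k} {ops : CycleOps 𝒱} (T : HodgeTheory ops)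
  {X Y : 𝒱.Obj}

/-- The complex conjugation. -/
noncomputable def tauT : ℂ ≃ₐ[T.W.K] ℂ :=
  AlgEquiv.ofRingEquiv (f := (starRingAut : ℂ ≃+* ℂ)) (by
    intro r
    obtain ⟨q, rfl⟩ := T.rat r
    rw [map_ratCast, map_ratCast])

lemma tauT_apply (z : ℂ) : tauT T z = (starRingEnd ℂ) z := rfl

/-- The subspaces of the types `(p, q)`. -/
def Fx (X : 𝒱.Obj) : ℤ × ℤ → Submodule ℂ (ℂ ⊗[T.W.K] T.W.H X) := fun r => T.pq X r.1 r.2

variable {T}

lemma lop_eq (hF : DirectSum.IsInternal (Fx T X)) (t : ℂ) (x : ℂ ⊗[T.W.K] T.W.H X) :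
    lop T t X x = dG hF (fun k => t ^ k) x := rfl

variable {ι : Type} [Fintype ι] [DecidableEq ι] (e : Basis ι T.W.K (T.W.H X))

/-- The combination of the classes of the words with complex coefficients. -/
noncomputable def emb (n : ℕ) (z : (Fin (n + 1) → ι) → ℂ) : (CW T).H (pw X n) :=
  ∑ w, cc T (z w) • em T.W ℂ (wb e n w)

/-- The combination of the classes of the words with rational coefficients. -/
noncomputable def cls (n : ℕ) (a : (Fin (n + 1) → ι) → ℚ) : T.W.H (pw X n) :=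
  ∑ w, ((a w : ℚ) : T.W.K) • wb e n w

lemma em_sum {α : Type*} (s : Finset α) (f : α → T.W.H X) :
    em T.W ℂ (∑ i ∈ s, f i) = ∑ i ∈ s, em T.W ℂ (f i) := by
  classical
  induction s using Finset.induction_on with
  | empty => rw [Finset.sum_empty, Finset.sum_empty, em_zero]
  | insert a s ha ih => rw [Finset.sum_insert ha, Finset.sum_insert ha, em_add, ih]

lemma em_cls (n : ℕ) (a : (Fin (n + 1) → ι) → ℚ) : em T.W ℂ (cls e n a) = emb e n (ca a) := by
  rw [cls, em_sum, emb]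
  refine Finset.sum_congr rfl fun w _ => ?_
  rw [em_smul, ex_rat]
  rfl

lemma emb_inj (n : ℕ) {z z' : (Fin (n + 1) → ι) → ℂ} (h : emb e n z = emb e n z') : z = z' := by
  have h1 : ∀ z : (Fin (n + 1) → ι) → ℂ, (((wb e n).baseChange ℂ).equivFun.symm z :
      ℂ ⊗[T.W.K] T.W.H (pw X n)) = emb e n z := by
    intro z
    rw [Basis.equivFun_symm_apply]
    refine Finset.sum_congr rfl fun w _ => ?_
    rw [Basis.baseChange_apply]
    rfl
  have h2 := (h1 z).trans (h.trans (h1 z').symm)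
  exact ((wb e n).baseChange ℂ).equivFun.symm.injective h2

lemma cls_surj (n : ℕ) (c : T.W.H (pw X n)) : ∃ a, cls e n a = c := by
  choose q hq using fun w => T.rat ((wb e n).repr c w)
  refine ⟨q, ?_⟩
  rw [cls]
  simp only [hq]
  exact (wb e n).sum_repr c

lemma sum_snoc {M : Type*} [AddCommMonoid M] (n : ℕ) (f : (Fin (n + 1 + 1) → ι) → M) :
    ∑ w, f w = ∑ v : Fin (n + 1) → ι, ∑ x : ι, f (Fin.snoc (α := fun _ => ι) v x) := by
  rw [← Equiv.sum_comp (Fin.snocEquiv fun _ => ι), Fintype.sum_prod_type, Finset.sum_comm]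
  rfl

lemma kp_snoc {R : Type*} [CommRing R] (n : ℕ) (g : Matrix ι ι R) (v : Fin (n + 1) → ι) (x : ι)
    (w : Fin (n + 1 + 1) → ι) : kp (Fin (n + 1 + 1)) g (Fin.snoc (α := fun _ => ι) v x) w =
      kp (Fin (n + 1)) g v (fun i => w i.castSucc) * g x (w (Fin.last _)) := by
  rw [kp_apply, Fin.prod_univ_castSucc, kp_apply, Fin.snoc_last]
  congr 1
  refine Finset.prod_congr rfl fun i _ => ?_
  rw [Fin.snoc_castSucc]

lemma wb_snoc (n : ℕ) (v : Fin (n + 1) → ι) (x : ι) :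
    wb e (n + 1) (Fin.snoc (α := fun _ => ι) v x) =
      T.W.map (pfst X n) (wb e n v) * T.W.map (psnd X n) (e x) := by
  rw [wb_succ, Fin.snoc_last]
  congr 2
  congr 1
  funext i
  rw [Fin.snoc_castSucc]

variable {ψ : LinearMap.BilinForm T.W.K (T.W.H X)} {H : HData ι}
  {hF : DirectSum.IsInternal (Fx T X)}

variable (T) in
/-- The matrix of the operator with respect to a family of rational classes. -/
def IsMat (t : ℂ) (Z : 𝒱.Obj) {κ : Type} [Fintype κ] (b : κ → T.W.H Z) (g : Matrix κ κ ℂ) : Prop :=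
  ∀ w, lop T t Z (em T.W ℂ (b w)) = ∑ v, cc T (g v w) • em T.W ℂ (b v)

lemma isMat_zero {t : ℂ} {g : Matrix ι ι ℂ} (h0 : IsMat T t X e g) :
    IsMat T t X (fun w : Fin 1 → ι => e (w 0)) (kp (Fin 1) g) := by
  intro w
  rw [← Equiv.sum_comp (Equiv.funUnique (Fin 1) ι).symm]
  refine (h0 (w 0)).trans (Finset.sum_congr rfl fun i _ => ?_)
  rw [kp_apply, Fintype.prod_unique]
  rfl

lemma isMat_zero' {t : ℂ} {g : Matrix ι ι ℂ} (h0 : IsMat T t X e g) :
    IsMat T t (pw X 0) (wb e 0) (kp (Fin (0 + 1)) g) := by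
  have h1 : (wb e 0 : (Fin 1 → ι) → T.W.H X) = fun w => e (w 0) := funext fun w => wb_zero e w
  have h2 := isMat_zero e h0
  rw [← h1] at h2
  exact h2

lemma isMat_succ {t : ℂ} (ht : t ≠ 0) {g : Matrix ι ι ℂ} (h0 : IsMat T t X e g) (n : ℕ)
    (ih : IsMat T t (pw X n) (wb e n) (kp (Fin (n + 1)) g)) :
    IsMat T t (pw X (n + 1)) (wb e (n + 1)) (kp (Fin (n + 1 + 1)) g) := by
  intro w
  rw [wb_succ, em_mul, ← em_map, ← em_map]
  refine (lop_mul ht _ _).trans ?_
  rw [lop_map, lop_map, ih, h0, map_sum, map_sum, Finset.sum_mul_sum, sum_snoc]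
  refine Finset.sum_congr rfl fun v _ => Finset.sum_congr rfl fun x _ => ?_
  rw [map_smul, map_smul, smul_mul_smul_comm, em_map, em_map, ← em_mul, ← wb_snoc, kp_snoc]
  rfl

/-- The operators on the words. -/
lemma lop_wb (hH : ∀ t : ℂ, t ≠ 0 → H.l t = mG hF e (fun k => t ^ k)) {t : ℂ} (ht : t ≠ 0) (n : ℕ) :
    IsMat T t (pw X n) (wb e n) (kp (Fin (n + 1)) (H.l t)) := by
  have h0 : IsMat T t X e (H.l t) := by
    intro j
    rw [hH t ht]
    exact dG_basis hF e (fun k => t ^ k) j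
  induction n with
  | zero => exact isMat_zero' e h0
  | succ n ih => exact isMat_succ e ht h0 n ih

lemma lop_emb (hH : ∀ t : ℂ, t ≠ 0 → H.l t = mG hF e (fun k => t ^ k)) {t : ℂ} (ht : t ≠ 0) (n : ℕ)
    (z : (Fin (n + 1) → ι) → ℂ) :
    lop T t (pw X n) (emb e n z) = emb e n (Matrix.mulVec (kp (Fin (n + 1)) (H.l t)) z) := by
  rw [emb, map_sum, emb]
  have h1 : ∀ w, lop T t (pw X n) (cc T (z w) • em T.W ℂ (wb e n w)) =
      ∑ v, cc T (kp (Fin (n + 1)) (H.l t) v w * z w) • em T.W ℂ (wb e n v) := by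
    intro w
    rw [map_smul, lop_wb e hH ht n w, Finset.smul_sum]
    refine Finset.sum_congr rfl fun v _ => ?_
    rw [smul_smul, mul_comm]
    rfl
  rw [Finset.sum_congr rfl fun w _ => h1 w, Finset.sum_comm]
  refine Finset.sum_congr rfl fun v _ => ?_
  rw [← Finset.sum_smul]
  rfl

/-- **Hodge classes in coordinates.** -/
theorem inv_cls (hH : ∀ t : ℂ, t ≠ 0 → H.l t = mG hF e (fun k => t ^ k)) (n : ℕ)
    (a : (Fin (n + 1) → ι) → ℚ) : Inv T (pw X n) (cls e n a) ↔ a ∈ BB H (Fin (n + 1)) := by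
  constructor
  · intro h t ht
    have h1 := h t ht
    rw [em_cls, lop_emb e hH ht] at h1
    exact emb_inj e n h1
  · intro h t ht
    rw [em_cls, lop_emb e hH ht, h t ht]

end Pool.Agent.N996.BP.Geo
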