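import Mathlib

/-!
# Kronecker powers of matrices
-/

set_option linter.unusedSectionVars false

namespace Pool.Agent.N996.BP

open Matrix

variable {ι : Type*} [Fintype ι] [DecidableEq ι]
  {κ : Type*} [Fintype κ] [DecidableEq κ] {l : Type*} [Fintype l] [DecidableEq l]
  {R : Type*} [CommRing R] {R' : Type*} [CommRing R']

/-- The Kronecker power of the matrix `g`, with factors indexed by `κ`. -/
def kp (κ : Type*) [Fintype κ] (g : Matrix ι ι R) : Matrix (κ → ι) (κ → ι) R :=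
  Matrix.of fun i j => ∏ k, g (i k) (j k)

lemma kp_apply (g : Matrix ι ι R) (i j : κ → ι) : kp κ g i j = ∏ k, g (i k) (j k) := rfl

lemma kp_one : kp κ (1 : Matrix ι ι R) = 1 := by
  ext i j
  rw [kp_apply]
  by_cases h : i = j
  · subst h; simp
  · rw [Matrix.one_apply_ne h]
    obtain ⟨k, hk⟩ := Function.ne_iff.1 h
    exact Finset.prod_eq_zero (Finset.mem_univ k) (Matrix.one_apply_ne hk)

lemma kp_mul (g h : Matrix ι ι R) : kp κ (g * h) = kp κ g * kp κ h := by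
  ext i j
  simp only [kp_apply, Matrix.mul_apply]
  rw [Finset.prod_univ_sum]
  refine Finset.sum_congr (by ext; simp) fun a _ => ?_
  rw [Finset.prod_mul_distrib]

lemma kp_transpose (g : Matrix ι ι R) : kp κ gᵀ = (kp κ g)ᵀ := by
  ext i j
  simp [kp_apply]

lemma kp_map (f : R →+* R') (g : Matrix ι ι R) : kp κ (g.map f) = (kp κ g).map f := by
  ext i j
  simp [kp_apply]

lemma kp_smul (c : R) (g : Matrix ι ι R) : kp κ (c • g) = c ^ Fintype.card κ • kp κ g := by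
  ext i j
  simp [kp_apply, Finset.prod_mul_distrib, Finset.prod_const, Finset.card_univ]

lemma kp_inv_mul {g h : Matrix ι ι R} (H : g * h = 1) : kp κ g * kp κ h = 1 := by
  rw [← kp_mul, H, kp_one]

lemma kp_reindex (e : l ≃ κ) (g : Matrix ι ι R) (i j : κ → ι) :
    kp l g (i ∘ e) (j ∘ e) = kp κ g i j := by
  simp only [kp_apply, Function.comp_apply]
  exact Equiv.prod_comp e fun k => g (i k) (j k)

lemma kp_sum (g : Matrix ι ι R) (i j : κ → ι) (i' j' : l → ι) :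
    kp (κ ⊕ l) g (Sum.elim i i') (Sum.elim j j') = kp κ g i j * kp l g i' j' := by
  simp [kp_apply, Fintype.prod_sum_type]

/-- Sums over maps from a sum type. -/
lemma sum_sumElim {M : Type*} [AddCommMonoid M] (f : (κ ⊕ l → ι) → M) :
    ∑ i, f i = ∑ i : κ → ι, ∑ j : l → ι, f (Sum.elim i j) := by
  rw [← Equiv.sum_comp (Equiv.sumArrowEquivProdArrow κ l ι).symm f, Fintype.sum_prod_type]
  rfl

/-- The exterior product of two arrays. -/
def tens (a : (κ → ι) → R) (b : (l → ι) → R) : (κ ⊕ l → ι) → R := fun i =>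
  a (i ∘ Sum.inl) * b (i ∘ Sum.inr)

@[simp] lemma tens_elim (a : (κ → ι) → R) (b : (l → ι) → R) (i : κ → ι) (j : l → ι) :
    tens a b (Sum.elim i j) = a i * b j := by
  simp [tens]

lemma kp_tens (g : Matrix ι ι R) (a : (κ → ι) → R) (b : (l → ι) → R) :
    kp (κ ⊕ l) g *ᵥ tens a b = tens (kp κ g *ᵥ a) (kp l g *ᵥ b) := by
  ext i
  obtain ⟨i₁, i₂, rfl⟩ : ∃ i₁ i₂, i = Sum.elim i₁ i₂ := ⟨i ∘ Sum.inl, i ∘ Sum.inr, by simp⟩
  rw [tens_elim, Matrix.mulVec, dotProduct, sum_sumElim]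
  simp only [kp_sum, tens_elim]
  rw [Matrix.mulVec, Matrix.mulVec, dotProduct, dotProduct, Finset.sum_mul_sum]
  refine Finset.sum_congr rfl fun x _ => Finset.sum_congr rfl fun y _ => ?_
  ring

/-- Reindexing. -/
def rei (e : κ ≃ l) (a : (κ → ι) → R) : (l → ι) → R := fun i => a (i ∘ e)

lemma kp_rei (e : κ ≃ l) (g : Matrix ι ι R) (a : (κ → ι) → R) :
    kp l g *ᵥ rei e a = rei e (kp κ g *ᵥ a) := by
  ext i
  rw [rei, Matrix.mulVec, Matrix.mulVec, dotProduct, dotProduct,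
    ← Equiv.sum_comp (e.arrowCongr (Equiv.refl ι))]
  refine Finset.sum_congr rfl fun j _ => ?_
  have h1 : (e.arrowCongr (Equiv.refl ι)) j = j ∘ e.symm := by
    ext; simp [Equiv.arrowCongr]
  rw [h1, ← kp_reindex e]
  have h2 : (j ∘ ⇑e.symm) ∘ ⇑e = j := by ext; simp
  rw [rei, h2]

/-- The array as a matrix. -/
def mat (a : (κ ⊕ l → ι) → R) : Matrix (κ → ι) (l → ι) R := Matrix.of fun i j => a (Sum.elim i j)

lemma mat_apply (a : (κ ⊕ l → ι) → R) (i : κ → ι) (j : l → ι) :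
    mat a i j = a (Sum.elim i j) := rfl

/-- The matrix as an array. -/
def arr (M : Matrix (κ → ι) (l → ι) R) : (κ ⊕ l → ι) → R := fun i => M (i ∘ Sum.inl) (i ∘ Sum.inr)

@[simp] lemma arr_elim (M : Matrix (κ → ι) (l → ι) R) (i : κ → ι) (j : l → ι) :
    arr M (Sum.elim i j) = M i j := by simp [arr]

@[simp] lemma mat_arr (M : Matrix (κ → ι) (l → ι) R) : mat (arr M) = M := by
  ext; simp [mat_apply]

@[simp] lemma arr_mat (a : (κ ⊕ l → ι) → R) : arr (mat a) = a := by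
  ext i
  obtain ⟨i₁, i₂, rfl⟩ : ∃ i₁ i₂, i = Sum.elim i₁ i₂ := ⟨i ∘ Sum.inl, i ∘ Sum.inr, by simp⟩
  simp [mat_apply]

lemma mat_kp (g : Matrix ι ι R) (a : (κ ⊕ l → ι) → R) :
    mat (kp (κ ⊕ l) g *ᵥ a) = kp κ g * mat a * (kp l g)ᵀ := by
  ext i j
  rw [mat_apply, Matrix.mulVec, dotProduct, sum_sumElim, Matrix.mul_apply]
  simp only [kp_sum, Matrix.mul_apply, Matrix.transpose_apply, Finset.sum_mul, mat_apply]
  rw [Finset.sum_comm]
  refine Finset.sum_congr rfl fun x _ => Finset.sum_congr rfl fun y _ => ?_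
  ring

lemma kp_arr (g : Matrix ι ι R) (M : Matrix (κ → ι) (l → ι) R) :
    kp (κ ⊕ l) g *ᵥ arr M = arr (kp κ g * M * (kp l g)ᵀ) := by
  rw [← arr_mat (kp (κ ⊕ l) g *ᵥ arr M), mat_kp, mat_arr]

end Pool.Agent.N996.BP
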