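import Pool.Agent.N996.BP.Rel

/-!
# Points with the same relations of low degree have the same relations
-/

set_option linter.unusedSectionVars false

namespace Pool.Agent.N996.BP

open MvPolynomial

variable {K E m κ : Type} [Field K] [CharZero K] [Field E] [Algebra K E] [Fintype m]
  [DecidableEq m] [Fintype κ] [DecidableEq κ]

/-- The evaluation on the coefficients. -/
noncomputable def phi0 (lam : κ → m → K) (x : m → E) :
    MvPolynomial (κ ⊕ m) K →ₐ[K] MvPolynomial m E :=
  aeval (Sum.elim (fun i => C (lin lam x i)) X)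

/-- The evaluation on polynomials in the generic linear form. -/
noncomputable def phi (lam : κ → m → K) (x : m → E) :
    Polynomial (MvPolynomial (κ ⊕ m) K) →+* MvPolynomial m E :=
  Polynomial.eval₂RingHom (phi0 lam x : MvPolynomial (κ ⊕ m) K →+* MvPolynomial m E)
    (∑ k, X k * C (x k))

/-- The change of the ring. -/
noncomputable def eq1 (K m κ : Type) [Field K] [Fintype m] [Fintype κ] :
    MvPolynomial (Option κ) (MvPolynomial m K) ≃+* Polynomial (MvPolynomial (κ ⊕ m) K) :=
  (optionEquivLeft (MvPolynomial m K) κ).toRingEquiv.trans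
    (Polynomial.mapEquiv (sumAlgEquiv K κ m).symm.toRingEquiv)

lemma eq1_apply (G : MvPolynomial (Option κ) (MvPolynomial m K)) :
    eq1 K m κ G = (optionEquivLeft (MvPolynomial m K) κ G).map
      ((sumAlgEquiv K κ m).symm : MvPolynomial κ (MvPolynomial m K) →+* _) := rfl

lemma phi_C (lam : κ → m → K) (x : m → E) (u : MvPolynomial (κ ⊕ m) K) :
    phi lam x (Polynomial.C u) = phi0 lam x u := by
  rw [phi, Polynomial.coe_eval₂RingHom, Polynomial.eval₂_C]
  rfl

lemma phi_X (lam : κ → m → K) (x : m → E) :
    phi lam x Polynomial.X = ∑ k, X k * C (x k) := by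
  rw [phi, Polynomial.coe_eval₂RingHom, Polynomial.eval₂_X]

lemma phi0_symm (lam : κ → m → K) (x : m → E) (r : MvPolynomial m K) :
    phi0 lam x ((sumAlgEquiv K κ m).symm (C r)) = MvPolynomial.map (algebraMap K E) r := by
  have h : (((phi0 lam x : MvPolynomial (κ ⊕ m) K →+* MvPolynomial m E).comp
      ((sumAlgEquiv K κ m).symm : MvPolynomial κ (MvPolynomial m K) →+* _)).comp C) =
      (MvPolynomial.map (algebraMap K E) : MvPolynomial m K →+* MvPolynomial m E) := by
    apply MvPolynomial.ringHom_ext
    · intro a
      simp only [RingHom.comp_apply, RingHom.coe_coe, sumAlgEquiv_symm_C_C, map_C]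
      rw [phi0, aeval_C]
      rfl
    · intro k
      simp only [RingHom.comp_apply, RingHom.coe_coe, sumAlgEquiv_symm_C_X, map_X]
      rw [phi0, aeval_X]
      rfl
  exact RingHom.congr_fun h r

lemma psi_eq (lam : κ → m → K) (x : m → E) (G : MvPolynomial (Option κ) (MvPolynomial m K)) :
    psi lam x G = phi lam x (eq1 K m κ G) := by
  have h : psi lam x = (phi lam x).comp (eq1 K m κ : _ →+* _) := by
    apply MvPolynomial.ringHom_ext
    · intro r
      rw [psi_C, RingHom.comp_apply]
      change _ = phi lam x (eq1 K m κ (C r))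
      rw [eq1_apply, optionEquivLeft_C, Polynomial.map_C, phi_C]
      exact (phi0_symm lam x r).symm
    · rintro (_ | i)
      · rw [psi_none, RingHom.comp_apply]
        change _ = phi lam x (eq1 K m κ (X none))
        rw [eq1_apply, optionEquivLeft_X_none, Polynomial.map_X, phi_X]
      · rw [psi_some, RingHom.comp_apply]
        change _ = phi lam x (eq1 K m κ (X (some i)))
        rw [eq1_apply, optionEquivLeft_X_some, Polynomial.map_C, phi_C]
        simp only [RingHom.coe_coe, sumAlgEquiv_symm_X]
        rw [phi0, aeval_X]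
        rfl
  exact RingHom.congr_fun h G

/-- The evaluation is injective on the coefficients if the values of the linear forms are
algebraically independent. -/
lemma phi0_injective (lam : κ → m → K) {x : m → E} (hx : AlgebraicIndependent K (lin lam x)) :
    Function.Injective (phi0 lam x) := by
  let sw : MvPolynomial (κ ⊕ m) K ≃ₐ[K] MvPolynomial (m ⊕ κ) K :=
    renameEquiv K (Equiv.sumComm κ m)
  have h : ∀ u, phi0 lam x u = MvPolynomial.map ((aeval (lin lam x) : MvPolynomial κ K →ₐ[K] E) :
      MvPolynomial κ K →+* E) (sumAlgEquiv K m κ (sw u)) := by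
    intro u
    induction u using MvPolynomial.induction_on with
    | C a =>
      simp only [sw, renameEquiv_apply, rename_C, sumAlgEquiv_C_inl, map_C, RingHom.coe_coe,
        aeval_C]
      rw [phi0, aeval_C]
      rfl
    | add p q hp hq => rw [map_add, hp, hq, map_add, map_add, map_add]
    | mul_X p v hp =>
      rw [map_mul, hp, map_mul, map_mul, map_mul]
      congr 1
      rcases v with i | k
      · simp only [sw, renameEquiv_apply, rename_X,
          Equiv.sumComm_apply, Sum.swap_inl, sumAlgEquiv_X_inr, map_C, RingHom.coe_coe, aeval_X]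
        rw [phi0, aeval_X]
        rfl
      · simp only [sw, renameEquiv_apply, rename_X,
          Equiv.sumComm_apply, Sum.swap_inr, sumAlgEquiv_X_inl, map_X]
        rw [phi0, aeval_X]
        rfl
  intro u v huv
  rw [h, h] at huv
  exact sw.injective ((sumAlgEquiv K m κ).injective (MvPolynomial.map_injective _ hx huv))

lemma pderiv_phi0 (lam : κ → m → K) (x : m → E) (k : m) (u : MvPolynomial (κ ⊕ m) K) :
    pderiv k (phi0 lam x u) = phi0 lam x (pderiv (Sum.inr k) u) := by
  induction u using MvPolynomial.induction_on with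
  | C a =>
    rw [pderiv_C, map_zero, phi0, aeval_C]
    exact pderiv_C
  | add p q hp hq => rw [map_add, map_add, map_add, map_add, hp, hq]
  | mul_X p v hp =>
    have hv : pderiv k (phi0 lam x (X v)) = phi0 lam x (pderiv (Sum.inr k) (X v)) := by
      rcases v with i | j
      · rw [pderiv_X_of_ne (by simp), map_zero, phi0, aeval_X]
        exact pderiv_C
      · rw [phi0, aeval_X]
        change pderiv k (X j) = _
        by_cases h : j = k
        · subst h
          rw [pderiv_X_self, pderiv_X_self, map_one]
        · rw [pderiv_X_of_ne h, pderiv_X_of_ne (by simpa using h), map_zero]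
    rw [map_mul, pderiv_mul, pderiv_mul, map_add, map_mul, map_mul, hp, hv]

/-- The chain rule. -/
lemma exists_pderiv_phi (k : m) (G : Polynomial (MvPolynomial (κ ⊕ m) K)) :
    ∃ G' : Polynomial (MvPolynomial (κ ⊕ m) K), ∀ (lam : κ → m → K) (x : m → E),
      pderiv k (phi lam x G) = phi lam x G' + phi lam x (Polynomial.derivative G) * C (x k) := by
  induction G using Polynomial.induction_on' with
  | add p q hp hq =>
    obtain ⟨p', hp'⟩ := hp
    obtain ⟨q', hq'⟩ := hq
    refine ⟨p' + q', fun lam x => ?_⟩
    rw [map_add, map_add, hp', hq', map_add, map_add, map_add]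
    ring
  | monomial n c =>
    refine ⟨Polynomial.monomial n (pderiv (Sum.inr k) c), fun lam x => ?_⟩
    have h1 : pderiv k (∑ k, X k * C (x k) : MvPolynomial m E) = C (x k) := by
      rw [map_sum, Finset.sum_eq_single k]
      · rw [pderiv_mul, pderiv_X_self, pderiv_C]; ring
      · intro j _ hj
        rw [pderiv_mul, pderiv_X_of_ne hj, pderiv_C]; ring
      · intro h; exact absurd (Finset.mem_univ k) h
    rw [← Polynomial.C_mul_X_pow_eq_monomial, ← Polynomial.C_mul_X_pow_eq_monomial, map_mul,
      map_pow, phi_C, phi_X, pderiv_mul, pderiv_pow, h1, pderiv_phi0, map_mul, map_pow, phi_C,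
      phi_X, Polynomial.derivative_C_mul_X_pow, map_mul, map_pow, phi_C, phi_X, map_mul,
      map_natCast]
    ring

/-- **Points with the same relations of degree at most `D` have the same relations.** -/
theorem ker_of_low {x x' : m → E} (lam : κ → m → K)
    (hx : AlgebraicIndependent K (lin lam x)) (hx' : AlgebraicIndependent K (lin lam x')) {D : ℕ}
    (hJ : ∀ f : MvPolynomial m K, f.totalDegree ≤ D → (aeval x f = 0 ↔ aeval x' f = 0))
    (V : Submodule K E) [FiniteDimensional K V]
    (hV : ∀ f : MvPolynomial m K, f.totalDegree ≤ D → aeval x f ∈ V)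
    (T : Finset (Option κ →₀ ℕ)) (hT : ∀ β ∈ T, (β.sum fun _ e => e) ≤ D)
    (hcard : Module.finrank K V < T.card) (f : MvPolynomial m K) (hf : aeval x f = 0) :
    aeval x' f = 0 := by
  classical
  obtain ⟨F, hF0, hFD, hF⟩ := exists_rel lam x V hV T hT hcard
  obtain ⟨P, hP, hPD, hPx⟩ := exists_irred_rel lam x hF0 hFD hF
  have hPx' := (psi_iff hJ lam hPD).1 hPx
  obtain ⟨p, hp⟩ : ∃ p, p = eq1 K m κ P := ⟨_, rfl⟩
  have hpirr : Irreducible p := by
    rw [hp]
    exact (MulEquiv.irreducible_iff (eq1 K m κ)).2 hP
  rw [psi_eq, ← hp] at hPx hPx'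
  have hi : ∀ {y : m → E}, AlgebraicIndependent K (lin lam y) →
      Function.Injective ((phi lam y).comp Polynomial.C) := by
    intro y hy a b hab
    apply phi0_injective lam hy
    rw [← phi_C, ← phi_C]
    exact hab
  have hker := ker_iff_ker (phi lam x) (phi lam x') (hi hx) (hi hx') hpirr hPx hPx'
  have hder := derivative_notMem_ker (phi lam x') (hi hx') hpirr hPx'
  choose G hG using fun k => exists_pderiv_phi (E := E) k p
  obtain ⟨H, hH⟩ : ∃ H, H = ∑ α ∈ f.support, Polynomial.C (C (coeff α f)) *
      (∏ k, (-G k) ^ α k) * (Polynomial.derivative p) ^ (f.totalDegree - ∑ k, α k) := ⟨_, rfl⟩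
  have key : ∀ y : m → E, phi lam y p = 0 →
      phi lam y H = phi lam y (Polynomial.derivative p) ^ f.totalDegree * C (aeval y f) := by
    intro y hy
    have h1 : ∀ k, phi lam y (-G k) = phi lam y (Polynomial.derivative p) * C (y k) := by
      intro k
      have h2 := hG k lam y
      rw [hy, map_zero] at h2
      rw [map_neg]
      linear_combination h2
    rw [hH, map_sum, aeval_def, eval₂_eq', map_sum, Finset.mul_sum]
    refine Finset.sum_congr rfl fun α hα => ?_
    have h3 : ∑ k, α k ≤ f.totalDegree := by
      have h4 : ∑ i, α i = α.sum fun _ e => e :=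
        (Finsupp.sum_fintype α (fun _ e => e) fun _ => rfl).symm
      rw [h4]
      exact le_totalDegree hα
    have h5 : ∏ k, (phi lam y (Polynomial.derivative p)) ^ α k =
        (phi lam y (Polynomial.derivative p)) ^ ∑ k, α k := Finset.prod_pow_eq_pow_sum _ _ _
    rw [map_mul, map_mul, phi_C, map_prod, map_pow]
    have h6 : phi0 lam y (C (coeff α f)) = C (algebraMap K E (coeff α f)) := by
      rw [phi0, aeval_C]
      rfl
    have h7 : ∏ k, phi lam y ((-G k) ^ α k) =
        (phi lam y (Polynomial.derivative p)) ^ (∑ k, α k) * C (∏ k, y k ^ α k) := by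
      rw [map_prod, ← h5, ← Finset.prod_mul_distrib]
      refine Finset.prod_congr rfl fun k _ => ?_
      rw [map_pow, h1, mul_pow, map_pow]
    rw [h6, h7, map_mul]
    have h8 : (phi lam y (Polynomial.derivative p)) ^ f.totalDegree =
        (phi lam y (Polynomial.derivative p)) ^ (∑ k, α k) *
          (phi lam y (Polynomial.derivative p)) ^ (f.totalDegree - ∑ k, α k) := by
      rw [← pow_add]
      congr 1
      omega
    rw [h8]
    ring
  have h1 : phi lam x H = 0 := by rw [key x hPx, hf, C_0, mul_zero]
  have h2 := (hker H).1 h1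
  rw [key x' hPx', mul_eq_zero] at h2
  rcases h2 with h2 | h2
  · exact absurd h2 (pow_ne_zero _ hder)
  · exact (C_injective m E) (by rw [h2, C_0])

end Pool.Agent.N996.BP
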