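import Pool.Agent.N996.BP.EpsPos

/-!
# A family consists of all arrays fixed by its stabiliser
-/

set_option linter.unusedSectionVars false

namespace Pool.Agent.N996.BP

open Matrix MvPolynomial

variable {ι : Type} [Fintype ι] [DecidableEq ι]

lemma kp_uni {R : Type*} [CommRing R] {κ : Type} [Fintype κ] [DecidableEq κ] (g : Matrix ι ι R)
    (o : ι) : kp κ g *ᵥ uni R o κ = fun i => ∏ k, g (i k) o := by
  ext i
  have h1 : ∀ k : κ, g (i k) o = ∑ a, g (i k) a * (if a = o then 1 else 0) := fun k => by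
    rw [Finset.sum_eq_single o]
    · rw [if_pos rfl, mul_one]
    · intro b _ hb; rw [if_neg hb, mul_zero]
    · intro h; exact absurd (Finset.mem_univ o) h
  simp only [h1]
  rw [Finset.prod_univ_sum, Matrix.mulVec, dotProduct]
  refine Finset.sum_congr (by ext; simp) fun a _ => ?_
  rw [kp_apply, uni, Finset.prod_mul_distrib]

lemma uni_dot {R : Type*} [CommRing R] {κ : Type} [Fintype κ] [DecidableEq κ]
    (x : (κ → ι) → R) (o : ι) : uni R o κ ⬝ᵥ x = x fun _ => o := by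
  rw [dotProduct, Finset.sum_eq_single fun _ => o]
  · rw [uni]; simp
  · intro b _ hb
    obtain ⟨k, hk⟩ := Function.ne_iff.1 hb
    rw [uni, Finset.prod_eq_zero (Finset.mem_univ k), zero_mul]
    rw [if_neg hk]
  · intro h; exact absurd (Finset.mem_univ _) h

variable {D : RData ι} {A : ∀ (κ : Type) [Fintype κ], Submodule ℝ ((κ → ι) → ℝ)}
variable {κ : Type} [Fintype κ] [DecidableEq κ]

lemma S_oo : D.S D.o D.o = 1 := by
  rw [D.S_eq, Matrix.mul_apply, Finset.sum_eq_single D.o]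
  · rw [D.ho, D.hCo, if_pos rfl, mul_one]
  · intro b _ hb; rw [D.hCo, if_neg hb, mul_zero]
  · intro h; exact absurd (Finset.mem_univ _) h

lemma bf_uni : D.bf κ (uni ℝ D.o κ) (uni ℝ D.o κ) = 1 := by
  rw [D.bf_apply, kp_uni, uni_dot]
  simp [S_oo]

lemma kCS : (kp κ D.C)ᵀ * kp κ D.S = kp κ D.S * kp κ D.Ci := by
  calc (kp κ D.C)ᵀ * kp κ D.S = ((kp κ D.C)ᵀ * kp κ D.Q * kp κ D.C) := by
        rw [kS_eq, Matrix.mul_assoc]
    _ = kp κ D.Q := kCQ
    _ = _ := by rw [kS_eq, Matrix.mul_assoc, kC_kCi, Matrix.mul_one]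

/-- The rank one operator given by a vector. -/
def rk1 (D : RData ι) (v : (κ → ι) → ℝ) : Matrix (κ → ι) (κ → ι) ℝ :=
  Matrix.vecMulVec v (kp κ D.S *ᵥ v)

lemma rk1_comm {v : (κ → ι) → ℝ} (hv : kp κ D.C *ᵥ v = v) :
    rk1 D v * kp κ D.C = kp κ D.C * rk1 D v := by
  have h1 : kp κ D.Ci *ᵥ v = v := by
    conv_lhs => rw [← hv]
    rw [Matrix.mulVec_mulVec, kCi_kC, Matrix.one_mulVec]
  rw [rk1, Matrix.vecMulVec_mul, Matrix.mul_vecMulVec, hv]
  congr 1
  rw [← Matrix.mulVec_transpose, Matrix.mulVec_mulVec, kCS, ← Matrix.mulVec_mulVec, h1]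

lemma krn_comm {l : Type} [Fintype l] [DecidableEq l] {T : Matrix (l → ι) (l → ι) ℝ}
    (h : T * kp l D.C = kp l D.C * T) :
    krn T T * kp (l ⊕ l) D.C = kp (l ⊕ l) D.C * krn T T := by
  rw [kp_krn, krn_mul, krn_mul, h]

lemma trace_rk1 (P : Matrix (κ → ι) (κ → ι) ℝ) (v : (κ → ι) → ℝ) :
    (P * rk1 D v).trace = D.bf κ v (P *ᵥ v) := by
  rw [rk1, Matrix.mul_vecMulVec, Matrix.trace_vecMulVec, D.bf_symm, D.bf_apply]

/-- The matrix with given entries. -/
def mx {R : Type*} (x : ι × ι → R) : Matrix ι ι R := Matrix.of fun i j => x (i, j)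

lemma aeval_kp {R : Type*} [CommRing R] [Algebra ℝ R] (x : ι × ι → R) (i j : κ → ι) :
    aeval x (kp κ (gm ℝ ι) i j) = kp κ (mx x) i j := by
  rw [kp_apply, map_prod, kp_apply]
  refine Finset.prod_congr rfl fun k _ => ?_
  rw [gm, Matrix.of_apply, aeval_X]
  rfl

lemma aeval_relA {R : Type*} [CommRing R] [Algebra ℝ R] (x : ι × ι → R) (a : (κ → ι) → ℝ)
    (i : κ → ι) : aeval x (relA a i) =
      (kp κ (mx x) *ᵥ fun j => algebraMap ℝ R (a j)) i - algebraMap ℝ R (a i) := by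
  rw [relA, map_sub, map_sum, Matrix.mulVec, dotProduct, aeval_C]
  congr 1
  refine Finset.sum_congr rfl fun j _ => ?_
  rw [map_mul, aeval_kp, aeval_C]

lemma aeval_rk1 {R : Type*} [CommRing R] [Algebra ℝ R] (x : ι × ι → R) (v : (κ → ι) → ℝ)
    (h : kp κ (mx x) *ᵥ (fun j => algebraMap ℝ R (v j)) = fun j => algebraMap ℝ R (v j)) :
    aeval x (ft (rk1 D v)) = algebraMap ℝ R (D.bf κ v v) := by
  have h1 : aeval x (ft (rk1 D v)) = ∑ i, algebraMap ℝ R ((kp κ D.S *ᵥ v) i) *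
      (kp κ (mx x) *ᵥ (fun j => algebraMap ℝ R (v j))) i := by
    rw [ft, map_sum]
    refine Finset.sum_congr rfl fun i _ => ?_
    have h2 : (kp κ (mx x) *ᵥ (fun j => algebraMap ℝ R (v j))) i =
        ∑ j, kp κ (mx x) i j * algebraMap ℝ R (v j) := rfl
    rw [map_sum, h2, Finset.mul_sum]
    refine Finset.sum_congr rfl fun j _ => ?_
    rw [map_smul, aeval_kp, Algebra.smul_def, rk1, Matrix.vecMulVec_apply, map_mul]
    ring
  rw [h1, h, D.bf_apply, dotProduct, map_sum]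
  refine Finset.sum_congr rfl fun i _ => ?_
  rw [map_mul, mul_comm]

/-- The constant function one. -/
lemma rk1_uni_sub_one (H : IsFam D A) : ft (rk1 D (uni ℝ D.o κ)) - 1 ∈ IA A := by
  have h1 : ft (rk1 D (uni ℝ D.o κ)) - 1 = ∑ i, C ((kp κ D.S *ᵥ uni ℝ D.o κ) i) *
      relA (uni ℝ D.o κ) i := by
    have h2 : (1 : MvPolynomial (ι × ι) ℝ) = ∑ i, C ((kp κ D.S *ᵥ uni ℝ D.o κ) i) *
        C (uni ℝ D.o κ i) := by
      rw [← bf_uni (D := D) (κ := κ) |> congrArg (C (σ := ι × ι)) |>.trans C_1, D.bf_apply,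
        dotProduct, map_sum]
      refine Finset.sum_congr rfl fun i _ => ?_
      rw [← C_mul, mul_comm]
    conv_lhs => rw [h2]
    rw [ft, ← Finset.sum_sub_distrib]
    refine Finset.sum_congr rfl fun i _ => ?_
    rw [relA, mul_sub, Finset.mul_sum]
    congr 1
    refine Finset.sum_congr rfl fun j _ => ?_
    rw [rk1, Matrix.vecMulVec_apply, smul_eq_C_mul, C_mul]
    ring
  rw [h1]
  refine Ideal.sum_mem _ fun i _ => Ideal.mul_mem_left _ _ ?_
  exact Ideal.subset_span ⟨κ, _, _, _, _, H.uniM κ, rfl⟩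

/-- **The family consists of all arrays fixed by its stabiliser.** -/
theorem mem_of_fixed (H : IsFam D A) (h : (κ → ι) → ℝ) (hC : kp κ D.C *ᵥ h = h)
    (hfix : ∀ g : Matrix ι ι ℂ,
      (∀ (l : Type) [Fintype l] [DecidableEq l], ∀ a ∈ A l,
        kp l g *ᵥ (fun j => ((a j : ℝ) : ℂ)) = fun j => ((a j : ℝ) : ℂ)) →
      kp κ g *ᵥ (fun j => ((h j : ℝ) : ℂ)) = fun j => ((h j : ℝ) : ℂ)) : h ∈ A κ := by
  classical
  by_cases h0 : h = 0
  · rw [h0]; exact Submodule.zero_mem _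
  -- normalisation
  wlog hn : D.bf κ h h = 1 generalizing h
  · have hp := D.bf_pos h h0
    have hs : Real.sqrt (D.bf κ h h) ≠ 0 := (Real.sqrt_pos.2 hp).ne'
    obtain ⟨c, hc⟩ : ∃ c : ℝ, c = (Real.sqrt (D.bf κ h h))⁻¹ := ⟨_, rfl⟩
    have hc0 : c ≠ 0 := by rw [hc]; exact inv_ne_zero hs
    have h1 := this (c • h) (by rw [Matrix.mulVec_smul, hC]) (fun g hg => by
      have h2 := hfix g hg
      have h3 : (fun j => (((c • h) j : ℝ) : ℂ)) = (c : ℂ) • fun j => ((h j : ℝ) : ℂ) := by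
        ext j; simp
      rw [h3, Matrix.mulVec_smul, h2]) (smul_ne_zero hc0 h0) (by
      rw [map_smul, map_smul, LinearMap.smul_apply, smul_eq_mul, smul_eq_mul, hc]
      have h4 := Real.mul_self_sqrt hp.le
      field_simp
      nlinarith [h4])
    have h5 := Submodule.smul_mem _ c⁻¹ h1
    rwa [smul_smul, inv_mul_cancel₀ hc0, one_smul] at h5
  obtain ⟨u, hu⟩ : ∃ u, u = ft (rk1 D h - rk1 D (uni ℝ D.o κ)) := ⟨_, rfl⟩
  obtain ⟨w, hw⟩ : ∃ w, w = ft (rk1 D (uni ℝ D.o κ)) := ⟨_, rfl⟩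
  have hsub : ∀ T T' : Matrix (κ → ι) (κ → ι) ℝ, ft (T - T') = ft T - ft T' := by
    intro T T'
    have := ft_add T ((-1 : ℝ) • T')
    rw [ft_smul] at this
    rw [show T - T' = T + (-1 : ℝ) • T' by rw [neg_one_smul, sub_eq_add_neg], this, neg_one_smul,
      sub_eq_add_neg]
  -- `u` vanishes on the stabiliser
  have hrad : u ∈ (IA A).radical := by
    rw [← MvPolynomial.vanishingIdeal_zeroLocus_eq_radical (K := ℂ) (IA A)]
    intro x hx
    have hx' : ∀ (l : Type) [Fintype l] [DecidableEq l], ∀ a ∈ A l,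
        kp l (mx x) *ᵥ (fun j => ((a j : ℝ) : ℂ)) = fun j => ((a j : ℝ) : ℂ) := by
      intro l _ _ a ha
      ext i
      have h1 := hx (relA a i) (Ideal.subset_span ⟨l, _, _, a, i, ha, rfl⟩)
      rw [aeval_relA, sub_eq_zero] at h1
      exact h1
    rw [hu, hsub, map_sub, aeval_rk1 (D := D) x h (hfix _ hx'),
      aeval_rk1 (D := D) x (uni ℝ D.o κ) (hx' κ _ (H.uniM κ)), hn, bf_uni, sub_self]
  obtain ⟨n, hn'⟩ := hrad
  -- powers
  have hpow : ∀ m : ℕ, ∃ (l : Type) (_ : Fintype l) (_ : DecidableEq l)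
      (T E : Matrix (l → ι) (l → ι) ℝ), T * kp l D.C = kp l D.C * T ∧
        E * kp l D.C = kp l D.C * E ∧ ft T = u ^ (2 ^ m) ∧ ft E = w ^ (2 ^ m) := by
    intro m
    induction m with
    | zero =>
      have e1 := rk1_comm (H.fix κ _ (H.uniM κ))
      have e2 := rk1_comm hC
      exact ⟨κ, inferInstance, inferInstance, rk1 D h - rk1 D (uni ℝ D.o κ),
        rk1 D (uni ℝ D.o κ),
        by rw [Matrix.sub_mul, Matrix.mul_sub, e1, e2], e1, by rw [pow_zero, pow_one, hu],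
        by rw [pow_zero, pow_one, hw]⟩
    | succ m ih =>
      obtain ⟨l, _, _, T, E, h1, h2, h3, h4⟩ := ih
      refine ⟨l ⊕ l, inferInstance, inferInstance, krn T T, krn E E, krn_comm h1, krn_comm h2,
        ?_, ?_⟩
      · rw [ft_krn, h3]; ring
      · rw [ft_krn, h4]; ring
  have hw1 : ∀ (k : ℕ) (g : MvPolynomial (ι × ι) ℝ), eps D A (g * w ^ k) = eps D A g := by
    intro k g
    have h1 : g * w ^ k - g ∈ IA A := by
      have h2 : w ^ k - 1 ∈ IA A := by
        have h3 : w - 1 ∈ IA A := by rw [hw]; exact rk1_uni_sub_one H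
        have h4 : w - 1 ∣ w ^ k - 1 := by simpa using sub_dvd_pow_sub_pow w 1 k
        exact Ideal.mem_of_dvd _ h4 h3
      have h5 := Ideal.mul_mem_left (IA A) g h2
      rwa [mul_sub, mul_one] at h5
    have h6 := eps_IA H h1
    rw [map_sub, sub_eq_zero] at h6
    exact h6
  have hdown : ∀ m, eps D A (u ^ (2 ^ (m + 1))) = 0 → eps D A (u ^ (2 ^ m)) = 0 := by
    intro m hm
    obtain ⟨l, _, _, T, E, h1, h2, h3, h4⟩ := hpow m
    have key : ∀ s : ℝ, 0 ≤ 2 * s * eps D A (u ^ (2 ^ m)) + eps D A 1 := by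
      intro s
      have h5 := eps_sq_nonneg H (s • T + E) (by
        rw [Matrix.add_mul, Matrix.mul_add, Matrix.smul_mul, Matrix.mul_smul, h1, h2])
      have h6 : ft (s • T + E) * ft (s • T + E) = (s * s) • u ^ (2 ^ (m + 1)) +
          (2 * s) • (u ^ (2 ^ m) * w ^ (2 ^ m)) + 1 * w ^ (2 ^ (m + 1)) := by
        rw [ft_add, ft_smul, h3, h4]
        simp only [smul_eq_C_mul, C_mul]
        have : (C (2 : ℝ) : MvPolynomial (ι × ι) ℝ) = 2 := map_ofNat C 2
        rw [this]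
        ring
      rw [h6, map_add, map_add, map_smul, map_smul, hw1, hw1, hm] at h5
      simpa using h5
    by_contra hne
    have h7 := key (-(eps D A 1 + 1) / (2 * eps D A (u ^ (2 ^ m))))
    have h8 : 2 * (-(eps D A 1 + 1) / (2 * eps D A (u ^ (2 ^ m)))) * eps D A (u ^ (2 ^ m)) =
        -(eps D A 1 + 1) := by field_simp
    rw [h8] at h7
    linarith
  have hzero : eps D A (u ^ (2 ^ n)) = 0 := by
    apply eps_IA H
    have h1 : n ≤ 2 ^ n := Nat.lt_two_pow_self.le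
    rw [← Nat.sub_add_cancel h1, pow_add]
    exact Ideal.mul_mem_left _ _ hn'
  have hall : ∀ m, eps D A (u ^ (2 ^ m)) = 0 → eps D A u = 0 := by
    intro m
    induction m with
    | zero => intro h; simpa using h
    | succ m ih => intro h; exact ih (hdown m h)
  have hu0 := hall n hzero
  -- conclusion
  have hPr := isPr_Pr (D := D) (A := A) κ
  have e1 : D.bf κ h (Pr D A κ *ᵥ h) = 1 := by
    rw [hu, hsub, map_sub, eps_ft H, eps_ft H, trace_rk1, trace_rk1, Pr_mem (H.uniM κ), bf_uni,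
      sub_eq_zero] at hu0
    exact hu0
  by_contra hne
  have hne' : h - Pr D A κ *ᵥ h ≠ 0 := by
    intro h1
    apply hne
    rw [sub_eq_zero] at h1
    rw [h1]
    exact hPr.mem h
  have e2 := D.bf_pos _ hne'
  have e3 : D.bf κ (Pr D A κ *ᵥ h) (Pr D A κ *ᵥ h) = 1 := by
    rw [hPr.ort _ (hPr.mem h), D.bf_symm, e1]
  have e4 : D.bf κ (Pr D A κ *ᵥ h) h = 1 := by rw [D.bf_symm, e1]
  rw [map_sub, map_sub, LinearMap.sub_apply, LinearMap.sub_apply, hn, e1, e3, e4] at e2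
  norm_num at e2

end Pool.Agent.N996.BP
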