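import Pool.Agent.N996.BP.Gen2
import Pool.Agent.N996.BP.Span
import Pool.Agent.N996.BP.KerEq
import Pool.Agent.N996.BP.Member

/-!
# Matrices fixing the Hodge classes of small degree fix all Hodge classes
-/

set_option linter.unusedSectionVars false

namespace Pool.Agent.N996.BP

open Matrix

variable {ι : Type} [Fintype ι] [DecidableEq ι]

section Subst

variable {E : Type} [Field E] [Algebra ℂ E]

/-- The polynomial `f (x · )`. -/
noncomputable def sbs (x : Matrix ι ι ℂ) (f : MvPolynomial (ι × ι) ℂ) : MvPolynomial (ι × ι) ℂ :=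
  MvPolynomial.aeval (fun p : ι × ι =>
    ∑ a, MvPolynomial.C (x p.1 a) * MvPolynomial.X (a, p.2)) f

lemma aeval_sbs {R : Type} [CommRing R] [Algebra ℂ R] (x : Matrix ι ι ℂ)
    (f : MvPolynomial (ι × ι) ℂ) (h : Matrix ι ι R) :
    MvPolynomial.aeval (ent h) (sbs x f) =
      MvPolynomial.aeval (ent (x.map (algebraMap ℂ R) * h)) f := by
  have e : ((MvPolynomial.aeval (ent h) : MvPolynomial (ι × ι) ℂ →ₐ[ℂ] R).comp
      (MvPolynomial.aeval (fun p : ι × ι =>
        ∑ a, MvPolynomial.C (x p.1 a) * MvPolynomial.X (a, p.2)))) =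
      MvPolynomial.aeval (ent (x.map (algebraMap ℂ R) * h)) := by
    apply MvPolynomial.algHom_ext
    intro p
    rw [AlgHom.comp_apply, MvPolynomial.aeval_X, MvPolynomial.aeval_X, map_sum, ent,
      Matrix.mul_apply]
    refine Finset.sum_congr rfl fun a _ => ?_
    rw [map_mul, MvPolynomial.aeval_C, MvPolynomial.aeval_X]
    rfl
  exact DFunLike.congr_fun e f

lemma Tr.sbs {g : Matrix ι ι E} {r : ℕ} (h : Tr ℂ (ent g) r) {p p' : Matrix ι ι ℂ}
    (hp : p' * p = 1) : Tr ℂ (ent (p.map (algebraMap ℂ E) * g)) r := by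
  obtain ⟨κ, _, G, hc, hG⟩ := h
  refine ⟨κ, inferInstance, fun i => BP.sbs p' (G i), hc, ?_⟩
  have h1 : (fun i => MvPolynomial.aeval (ent (p.map (algebraMap ℂ E) * g)) (BP.sbs p' (G i))) =
      fun i => MvPolynomial.aeval (ent g) (G i) := by
    funext i
    rw [aeval_sbs, ← Matrix.mul_assoc, ← Matrix.map_mul, hp, Matrix.map_one _ (map_zero _)
      (map_one _), Matrix.one_mul]
  rw [h1]
  exact hG

end Subst

/-- The column with index `o` is the unit vector. -/
def UCol {R : Type} [CommRing R] (o : ι) (y : Matrix ι ι R) : Prop :=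
  ∀ i, y i o = if i = o then 1 else 0

lemma UCol.mul {R : Type} [CommRing R] {o : ι} {y z : Matrix ι ι R} (hy : UCol o y)
    (hz : UCol o z) : UCol o (y * z) := by
  intro i
  rw [Matrix.mul_apply, Finset.sum_eq_single o]
  · rw [hz o, if_pos rfl, mul_one, hy]
  · intro b _ hb; rw [hz b, if_neg hb, mul_zero]
  · intro h; exact absurd (Finset.mem_univ o) h

lemma UCol.map {R R' : Type} [CommRing R] [CommRing R'] (f : R →+* R') {o : ι}
    {y : Matrix ι ι R} (hy : UCol o y) : UCol o (y.map f) := by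
  intro i
  rw [Matrix.map_apply, hy i]
  split_ifs <;> simp

/-- The function `f` is a linear function of the Kronecker power on the matrices with a unit
column. -/
def Rep (o : ι) (κ : Type) [Fintype κ] [DecidableEq κ] (f : MvPolynomial (ι × ι) ℂ)
    (φ : Matrix (κ → ι) (κ → ι) ℂ) : Prop :=
  ∀ (R : Type) [CommRing R] [Algebra ℂ R] (y : Matrix ι ι R), UCol o y →
    MvPolynomial.aeval (ent y) f = ∑ i, ∑ j, algebraMap ℂ R (φ i j) * kp κ y i j

lemma Rep.add {o : ι} {κ : Type} [Fintype κ] [DecidableEq κ] {f f' : MvPolynomial (ι × ι) ℂ}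
    {φ φ' : Matrix (κ → ι) (κ → ι) ℂ} (h : Rep o κ f φ) (h' : Rep o κ f' φ') :
    Rep o κ (f + f') (φ + φ') := by
  intro R _ _ y hy
  rw [map_add, h R y hy, h' R y hy, ← Finset.sum_add_distrib]
  refine Finset.sum_congr rfl fun i _ => ?_
  rw [← Finset.sum_add_distrib]
  refine Finset.sum_congr rfl fun j _ => ?_
  rw [Matrix.add_apply, map_add, add_mul]

lemma Rep.zero {o : ι} {κ : Type} [Fintype κ] [DecidableEq κ] :
    Rep o κ (0 : MvPolynomial (ι × ι) ℂ) 0 := by
  intro R _ _ y _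
  simp

/-- Substitution. -/
lemma Rep.sbs {o : ι} {κ : Type} [Fintype κ] [DecidableEq κ] {f : MvPolynomial (ι × ι) ℂ}
    {φ : Matrix (κ → ι) (κ → ι) ℂ} (h : Rep o κ f φ) {p : Matrix ι ι ℂ} (hp : UCol o p) :
    Rep o κ (BP.sbs p f) ((kp κ p)ᵀ * φ) := by
  intro R _ _ y hy
  rw [aeval_sbs, h R _ ((hp.map (algebraMap ℂ R)).mul hy)]
  have h1 : ∀ i j, kp κ (p.map (algebraMap ℂ R) * y) i j =
      ∑ a, algebraMap ℂ R (kp κ p i a) * kp κ y a j := by
    intro i j
    rw [kp_mul, Matrix.mul_apply]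
    refine Finset.sum_congr rfl fun a _ => ?_
    rw [kp_map]
    rfl
  simp only [h1, Matrix.mul_apply, Matrix.transpose_apply, map_sum, map_mul, Finset.sum_mul,
    Finset.mul_sum]
  rw [Finset.sum_comm]
  have h2 : ∀ j, (∑ i, ∑ a, algebraMap ℂ R (φ i j) *
      (algebraMap ℂ R (kp κ p i a) * kp κ y a j)) =
      ∑ a, ∑ i, algebraMap ℂ R (kp κ p i a) * algebraMap ℂ R (φ i j) * kp κ y a j := by
    intro j
    rw [Finset.sum_comm]
    refine Finset.sum_congr rfl fun a _ => Finset.sum_congr rfl fun i _ => ?_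
    ring
  rw [Finset.sum_congr rfl fun j _ => h2 j, Finset.sum_comm]

lemma Rep.monomial (o : ι) (D : ℕ) (β : (ι × ι) →₀ ℕ) (c : ℂ) (hβ : (β.sum fun _ e => e) ≤ D) :
    ∃ φ, Rep o (Fin D) (MvPolynomial.monomial β c) φ := by
  classical
  obtain ⟨n, i, j, rfl⟩ := exists_expo β
  have hn : ((expo i j).sum fun _ e => e) = n := by
    have h1 : ((expo i j).sum fun _ e => e) = Finsupp.degree (expo i j) := by
      rw [Finsupp.degree_eq_sum, Finsupp.sum_fintype _ _ fun _ => rfl]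
    rw [h1, expo, map_sum]
    simp
  rw [hn] at hβ
  obtain ⟨m, rfl⟩ := Nat.exists_eq_add_of_le hβ
  let e : Fin n ⊕ Fin m ≃ Fin (n + m) := finSumFinEquiv
  let i' : Fin (n + m) → ι := Sum.elim i (fun _ => o) ∘ e.symm
  let j' : Fin (n + m) → ι := Sum.elim j (fun _ => o) ∘ e.symm
  refine ⟨Matrix.single i' j' c, ?_⟩
  intro R _ _ y hy
  have h1 : ∑ a, ∑ b, algebraMap ℂ R (Matrix.single i' j' c a b) * kp (Fin (n + m)) y a b =
      algebraMap ℂ R c * kp (Fin (n + m)) y i' j' := by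
    rw [Finset.sum_eq_single i', Finset.sum_eq_single j']
    · rw [Matrix.single_apply_same]
    · intro b _ hb
      rw [Matrix.single_apply, if_neg (fun h => hb h.2.symm), map_zero, zero_mul]
    · intro h; exact absurd (Finset.mem_univ _) h
    · intro a _ ha
      refine Finset.sum_eq_zero fun b _ => ?_
      rw [Matrix.single_apply, if_neg (fun h => ha h.1.symm), map_zero, zero_mul]
    · intro h; exact absurd (Finset.mem_univ _) h
  rw [h1, ← kp_reindex e]
  have h2 : i' ∘ e = Sum.elim i (fun _ => o) := by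
    ext z; simp [i']
  have h3 : j' ∘ e = Sum.elim j (fun _ => o) := by
    ext z; simp [j']
  rw [h2, h3, kp_sum]
  have h4 : kp (Fin m) y (fun _ => o) (fun _ => o) = 1 := by
    rw [kp_apply]
    refine Finset.prod_eq_one fun k _ => ?_
    rw [hy o, if_pos rfl]
  rw [h4, mul_one]
  have h5 : MvPolynomial.monomial (expo i j) c =
      MvPolynomial.C c * kp (Fin n) (gm ℂ ι) i j := by
    rw [kp_gm, MvPolynomial.C_mul_monomial, mul_one]
  rw [h5, map_mul, MvPolynomial.aeval_C, kp_apply, map_prod, kp_apply]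
  congr 1
  refine Finset.prod_congr rfl fun k _ => ?_
  rw [gm, Matrix.of_apply, MvPolynomial.aeval_X]
  rfl

lemma exists_rep (o : ι) {D : ℕ} {f : MvPolynomial (ι × ι) ℂ} (hf : f.totalDegree ≤ D) :
    ∃ φ, Rep o (Fin D) f φ := by
  classical
  have key : ∀ s : Finset ((ι × ι) →₀ ℕ), s ⊆ f.support →
      ∃ φ, Rep o (Fin D) (∑ β ∈ s, MvPolynomial.monomial β (MvPolynomial.coeff β f)) φ := by
    intro s
    induction s using Finset.induction_on with
    | empty => intro _; exact ⟨0, by rw [Finset.sum_empty]; exact Rep.zero⟩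
    | insert a s ha ih =>
      intro hs
      obtain ⟨φ, hφ⟩ := ih fun b hb => hs (Finset.mem_insert_of_mem hb)
      obtain ⟨φ', hφ'⟩ := Rep.monomial o D a (MvPolynomial.coeff a f)
        ((MvPolynomial.le_totalDegree (hs (Finset.mem_insert_self _ _))).trans hf)
      exact ⟨φ' + φ, by rw [Finset.sum_insert ha]; exact hφ'.add hφ⟩
  obtain ⟨φ, hφ⟩ := key f.support Finset.Subset.rfl
  rw [← MvPolynomial.as_sum] at hφ
  exact ⟨φ, hφ⟩

variable (H : HData ι)

/-- The matrix fixes the Hodge classes with index type `κ`. -/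
def Fixes (p : Matrix ι ι ℂ) (κ : Type) [Fintype κ] [DecidableEq κ] : Prop :=
  ∀ a ∈ BB H κ, kp κ p *ᵥ ca a = ca a

variable {H}

lemma l_ucol {t : ℂ} (ht : t ≠ 0) : UCol H.D.o (H.l t) := H.ho t ht

lemma GG_ucol {γ : Matrix ι ι ℂ} (hγ : γ ∈ GG H) : UCol H.D.o γ := by
  induction hγ using Submonoid.closure_induction with
  | mem x hx =>
    obtain ⟨σ, t, ht, rfl⟩ := hx
    exact (l_ucol ht).map (σ : ℂ →+* ℂ)
  | one =>
    intro i
    rw [Matrix.one_apply]
  | mul x y _ _ hx hy => exact hx.mul hy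

/-- A relation of the generic point represented by a linear function of the Kronecker power is
preserved by matrices which are combinations of elements of the group. -/
lemma rel_of_GA {E : Type} [Field E] [Algebra ℂ E] {g : Matrix ι ι E}
    (hst : ∀ γ ∈ GG H, ∀ f : MvPolynomial (ι × ι) ℂ, MvPolynomial.aeval (ent g) f = 0 →
        MvPolynomial.aeval (ent (γ.map (algebraMap ℂ E) * g)) f = 0)
    (hg : UCol H.D.o g) {κ : Type} [Fintype κ] [DecidableEq κ] {q : Matrix ι ι ℂ}
    (hq : kp κ q ∈ GA H κ) (hqu : UCol H.D.o q) {f : MvPolynomial (ι × ι) ℂ}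
    {φ : Matrix (κ → ι) (κ → ι) ℂ} (hφ : Rep H.D.o κ f φ)
    (hf : MvPolynomial.aeval (ent g) f = 0) :
    MvPolynomial.aeval (ent (q.map (algebraMap ℂ E) * g)) f = 0 := by
  rw [hφ E _ ((hqu.map (algebraMap ℂ E)).mul hg)]
  -- the linear function
  have key : ∀ x ∈ Submodule.span ℂ (kp κ '' (GG H : Set (Matrix ι ι ℂ))),
      ∑ i, ∑ j, algebraMap ℂ E (φ i j) * (x.map (algebraMap ℂ E) * kp κ g) i j = 0 := by
    intro x hx
    induction hx using Submodule.span_induction with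
    | mem x hx =>
      obtain ⟨γ, hγ, rfl⟩ := hx
      have h1 := hst γ hγ f hf
      rw [hφ E _ (((GG_ucol hγ).map (algebraMap ℂ E)).mul hg)] at h1
      rw [← h1]
      refine Finset.sum_congr rfl fun i _ => Finset.sum_congr rfl fun j _ => ?_
      rw [kp_mul, kp_map]
    | zero =>
      refine Finset.sum_eq_zero fun i _ => Finset.sum_eq_zero fun j _ => ?_
      have : (0 : Matrix (κ → ι) (κ → ι) ℂ).map (algebraMap ℂ E) = 0 :=
        Matrix.map_zero _ (map_zero _)
      rw [this, Matrix.zero_mul, Matrix.zero_apply, mul_zero]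
    | add x y _ _ hx hy =>
      have h1 : (x + y).map (algebraMap ℂ E) = x.map (algebraMap ℂ E) + y.map (algebraMap ℂ E) :=
        Matrix.map_add _ (map_add _) _ _
      rw [h1, Matrix.add_mul]
      simp only [Matrix.add_apply, mul_add, Finset.sum_add_distrib]
      rw [hx, hy, add_zero]
    | smul c x _ hx =>
      have h1 : (c • x).map (algebraMap ℂ E) = algebraMap ℂ E c • x.map (algebraMap ℂ E) := by
        ext i j
        simp
      rw [h1, Matrix.smul_mul]
      have h2 : ∀ i j, algebraMap ℂ E (φ i j) * (algebraMap ℂ E c • (x.map (algebraMap ℂ E) *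
          kp κ g)) i j = algebraMap ℂ E c * (algebraMap ℂ E (φ i j) * (x.map (algebraMap ℂ E) *
          kp κ g) i j) := by
        intro i j
        rw [Matrix.smul_apply, smul_eq_mul]
        ring
      simp only [h2, ← Finset.mul_sum]
      rw [hx, mul_zero]
  have h1 : kp κ q ∈ Submodule.span ℂ (kp κ '' (GG H : Set (Matrix ι ι ℂ))) := by
    rw [← GA_eq_span]
    exact hq
  have h2 := key _ h1
  rw [← h2]
  refine Finset.sum_congr rfl fun i _ => Finset.sum_congr rfl fun j _ => ?_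
  rw [kp_mul, kp_map]

/-- The relation polynomials. -/
noncomputable def relC {κ : Type} [Fintype κ] [DecidableEq κ] (a : (κ → ι) → ℚ) (i : κ → ι) :
    MvPolynomial (ι × ι) ℂ :=
  ∑ j, kp κ (gm ℂ ι) i j * MvPolynomial.C (ca a j) - MvPolynomial.C (ca a i)

lemma aeval_relC {R : Type} [CommRing R] [Algebra ℂ R] {κ : Type} [Fintype κ] [DecidableEq κ]
    (y : Matrix ι ι R) (a : (κ → ι) → ℚ) (i : κ → ι) :
    MvPolynomial.aeval (ent y) (relC a i) =
      (kp κ y *ᵥ fun j => algebraMap ℂ R (ca a j)) i - algebraMap ℂ R (ca a i) := by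
  rw [relC, map_sub, map_sum, Matrix.mulVec, dotProduct, MvPolynomial.aeval_C]
  congr 1
  refine Finset.sum_congr rfl fun j _ => ?_
  rw [map_mul, MvPolynomial.aeval_C, kp_apply, map_prod, kp_apply]
  congr 1
  refine Finset.prod_congr rfl fun k _ => ?_
  rw [gm, Matrix.of_apply, MvPolynomial.aeval_X]
  rfl

/-- The basis vector of weight zero is a Hodge class. -/
lemma uni_BB (κ : Type) [Fintype κ] [DecidableEq κ] : uni ℚ H.D.o κ ∈ BB H κ := by
  intro t ht
  have h1 : ca (uni ℚ H.D.o κ) = uni ℂ H.D.o κ := by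
    ext i
    rw [ca, uni, uni, Rat.cast_prod]
    refine Finset.prod_congr rfl fun k _ => ?_
    split_ifs <;> simp
  rw [h1, kp_uni]
  ext i
  rw [uni]
  exact Finset.prod_congr rfl fun k _ => H.ho t ht (i k)

lemma Fixes.ucol {p : Matrix ι ι ℂ} (hp : Fixes H p Unit) : UCol H.D.o p := by
  intro i
  have h0 := hp _ (uni_BB Unit)
  have h1 : ca (uni ℚ H.D.o Unit) = uni ℂ H.D.o Unit := by
    ext i
    rw [ca, uni, uni, Rat.cast_prod]
    refine Finset.prod_congr rfl fun k _ => ?_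
    split_ifs <;> simp
  rw [h1, kp_uni] at h0
  have h2 := congrFun h0 fun _ => i
  rw [uni, Fintype.prod_unique, Fintype.prod_unique] at h2
  exact h2

lemma Fixes.inv {p : Matrix ι ι ℂ} (hp : Fixes H p (Unit ⊕ Unit)) :
    ∃ p' : Matrix ι ι ℂ, p' * p = 1 ∧ p * p' = 1 := by
  have h1 := hp _ (arr_BB H (x := 1) fun t _ => by
    rw [cQ_one, Matrix.mul_one, Matrix.one_mul])
  have h0 : ca (arr ((1 : Matrix (Unit → ι) (Unit → ι) ℚ) * kp Unit H.Qir)) =
      arr (kp Unit (cQ H.Qir)) := by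
    rw [Matrix.one_mul, kp_cQ]
    rfl
  rw [h0, kp_arr, ← kp_transpose, ← kp_mul, ← kp_mul] at h1
  have h2 := congrArg mat h1
  rw [mat_arr, mat_arr] at h2
  have h3 : p * cQ H.Qir * pᵀ = cQ H.Qir := by
    ext i j
    have h4 := congrFun (congrFun h2 fun _ => i) fun _ => j
    rw [kp_apply, kp_apply, Fintype.prod_unique, Fintype.prod_unique] at h4
    exact h4
  have hQQ : cQ H.Qr * cQ H.Qir = 1 := by
    rw [← cQ_mul, H.Qr_Qir, cQ_one]
  have h5 : p * (cQ H.Qir * pᵀ * cQ H.Qr) = 1 := by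
    calc p * (cQ H.Qir * pᵀ * cQ H.Qr) = (p * cQ H.Qir * pᵀ) * cQ H.Qr := by
          simp only [Matrix.mul_assoc]
      _ = 1 := by rw [h3]; exact mul_eq_one_comm.1 hQQ
  exact ⟨_, mul_eq_one_comm.1 h5, h5⟩

lemma Fixes.of_inv {p p' : Matrix ι ι ℂ} (h : p' * p = 1) {κ : Type} [Fintype κ] [DecidableEq κ]
    (hp : Fixes H p κ) : Fixes H p' κ := by
  intro a ha
  conv_lhs => rw [← hp a ha]
  rw [Matrix.mulVec_mulVec, ← kp_mul, h, kp_one, Matrix.one_mulVec]

/-- The exponents with bounded entries. -/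
lemma exists_box (κ : Type) [Fintype κ] [DecidableEq κ] (B : ℕ) :
    ∃ T : Finset (Option κ →₀ ℕ), (∀ β ∈ T, (β.sum fun _ e => e) ≤ (Fintype.card κ + 1) * B) ∧
      T.card = (B + 1) ^ (Fintype.card κ + 1) := by
  classical
  let f : (Option κ → Fin (B + 1)) → (Option κ →₀ ℕ) := fun u =>
    Finsupp.equivFunOnFinite.symm fun i => (u i : ℕ)
  have hf : Function.Injective f := by
    intro u v h
    funext i
    have := DFunLike.congr_fun h i
    exact Fin.ext this
  refine ⟨Finset.univ.image f, ?_, ?_⟩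
  · intro β hβ
    obtain ⟨u, _, rfl⟩ := Finset.mem_image.1 hβ
    rw [Finsupp.sum_fintype _ _ fun _ => rfl, ← Fintype.card_option]
    refine (Finset.sum_le_card_nsmul _ _ B fun i _ => ?_).trans ?_
    · exact Nat.lt_succ_iff.1 (u i).2
    · rw [Finset.card_univ, smul_eq_mul]
  · rw [Finset.card_image_of_injective _ hf, Finset.card_univ, Fintype.card_fun, Fintype.card_fin,
      Fintype.card_option]

/-- The bound. -/
def bd (R w : ℕ) : ℕ := (R + 1) * ((2 * w + 1) * (R + 1)) ^ R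

lemma bd_lt {r R w : ℕ} (h : r ≤ R) :
    (2 * w * bd R w + 1) ^ r < (((2 * w + 1) * (R + 1)) ^ R + 1) ^ (r + 1) := by
  obtain ⟨B, hB⟩ : ∃ B, B = ((2 * w + 1) * (R + 1)) ^ R := ⟨_, rfl⟩
  rw [bd, ← hB]
  have h1 : 2 * w * ((R + 1) * B) + 1 ≤ ((2 * w + 1) * (R + 1)) * (B + 1) := by
    nlinarith [Nat.zero_le w, Nat.zero_le R, Nat.zero_le B, Nat.zero_le (w * R),
      Nat.zero_le (w * (R + 1)), Nat.zero_le ((R + 1) * B)]
  have h2 : ((2 * w + 1) * (R + 1)) ^ r ≤ B := by
    rw [hB]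
    exact Nat.pow_le_pow_right (Nat.mul_pos (by omega) (by omega)) h
  calc (2 * w * ((R + 1) * B) + 1) ^ r ≤ (((2 * w + 1) * (R + 1)) * (B + 1)) ^ r :=
        Nat.pow_le_pow_left h1 r
    _ = ((2 * w + 1) * (R + 1)) ^ r * (B + 1) ^ r := Nat.mul_pow _ _ _
    _ ≤ B * (B + 1) ^ r := Nat.mul_le_mul_right _ h2
    _ < (B + 1) * (B + 1) ^ r := Nat.mul_lt_mul_of_pos_right (Nat.lt_succ_self B)
        (Nat.pow_pos (Nat.succ_pos B))
    _ = (B + 1) ^ (r + 1) := by rw [pow_succ, mul_comm]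

/-- **Matrices fixing the Hodge classes of small degree fix all Hodge classes.** -/
theorem fix_all {p : Matrix ι ι ℂ} (hp : ∀ (κ : Type) [Fintype κ] [DecidableEq κ],
    Fintype.card κ ≤ 2 * bd (Fintype.card ι ^ 2) H.w → Fixes H p κ)
    (κ : Type) [Fintype κ] [DecidableEq κ] : Fixes H p κ := by
  classical
  obtain ⟨R, hR⟩ : ∃ R, R = Fintype.card ι ^ 2 := ⟨_, rfl⟩
  obtain ⟨B, hB⟩ : ∃ B, B = ((2 * H.w + 1) * (R + 1)) ^ R := ⟨_, rfl⟩
  obtain ⟨D, hD⟩ : ∃ D, D = bd R H.w := ⟨_, rfl⟩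
  have hDB : D = (R + 1) * B := by rw [hD, hB, bd]
  have hB1 : 1 ≤ B := by
    rw [hB]
    exact Nat.one_le_pow _ _ (Nat.mul_pos (by omega) (by omega))
  have hD1 : 1 ≤ D := by rw [hDB]; exact Nat.mul_pos (by omega) hB1
  rw [← hR, ← hD] at hp
  have hp1 : Fixes H p Unit := hp Unit (by rw [Fintype.card_unit]; omega)
  have hp2 : Fixes H p (Unit ⊕ Unit) := hp _ (by
    rw [Fintype.card_sum, Fintype.card_unit]; omega)
  have hpD : Fixes H p (Fin D ⊕ Fin D) := hp _ (by
    rw [Fintype.card_sum, Fintype.card_fin]; omega)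
  obtain ⟨p', hp'p, hpp'⟩ := hp2.inv
  have hp'1 : Fixes H p' Unit := hp1.of_inv hp'p
  have hp'D : Fixes H p' (Fin D ⊕ Fin D) := hpD.of_inv hp'p
  have hGp : kp (Fin D) p ∈ GA H (Fin D) := mem_GA hpD
  have hGp' : kp (Fin D) p' ∈ GA H (Fin D) := mem_GA hp'D
  obtain ⟨r, E, _, _, g, hr, hg, hst⟩ := exists_gen H
  have hgu : UCol H.D.o g := by
    intro i
    have h0 := hg.fix Unit _ (uni_BB Unit)
    have h1 : (fun i => algebraMap ℂ E (ca (uni ℚ H.D.o Unit) i)) = uni E H.D.o Unit := by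
      ext i
      rw [ca, uni, uni, Rat.cast_prod, map_prod]
      refine Finset.prod_congr rfl fun k _ => ?_
      split_ifs <;> simp
    rw [h1, kp_uni] at h0
    have h2 := congrFun h0 fun _ => i
    rw [uni, Fintype.prod_unique, Fintype.prod_unique] at h2
    exact h2
  have hinv : p.map (algebraMap ℂ E) * (p'.map (algebraMap ℂ E) * g) = g := by
    rw [← Matrix.mul_assoc, ← Matrix.map_mul, hpp', Matrix.map_one _ (map_zero _) (map_one _),
      Matrix.one_mul]
  have hJ : ∀ f : MvPolynomial (ι × ι) ℂ, f.totalDegree ≤ D →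
      (MvPolynomial.aeval (ent g) f = 0 ↔
        MvPolynomial.aeval (ent (p.map (algebraMap ℂ E) * g)) f = 0) := by
    intro f hf
    obtain ⟨φ, hφ⟩ := exists_rep H.D.o hf
    constructor
    · intro h
      exact rel_of_GA hst hgu hGp hp1.ucol hφ h
    · intro h
      rw [← aeval_sbs] at h
      have h2 := rel_of_GA hst hgu hGp' hp'1.ucol (hφ.sbs hp1.ucol) h
      rw [aeval_sbs, hinv] at h2
      exact h2
  obtain ⟨κ', _, _, lam, hc, hx, hx'⟩ := exists_common hg.tr (Tr.sbs hg.tr hp'p)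
  obtain ⟨T, hT, hTc⟩ := exists_box κ' B
  rw [hc] at hT hTc
  have hker : ∀ f : MvPolynomial (ι × ι) ℂ, MvPolynomial.aeval (ent g) f = 0 →
      MvPolynomial.aeval (ent (p.map (algebraMap ℂ E) * g)) f = 0 := by
    intro f hf
    refine ker_of_low lam hx hx' hJ (Vd g D) (fun f hf => mem_Vd.2 ⟨f, hf, rfl⟩) T (fun β hβ => ?_) ?_ f hf
    · refine (hT β hβ).trans ?_
      rw [hDB]
      exact Nat.mul_le_mul_right _ (by omega)
    · rw [hTc]
      refine lt_of_le_of_lt (hg.dim D) ?_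
      rw [hD, hB]
      exact bd_lt (by omega)
  intro a ha
  funext i
  have h1 : MvPolynomial.aeval (ent g) (relC a i) = 0 := by
    rw [aeval_relC, congrFun (hg.fix κ a ha) i, sub_self]
  have h2 := hker _ h1
  rw [aeval_relC, kp_mul, ← Matrix.mulVec_mulVec, hg.fix κ a ha, sub_eq_zero, kp_map] at h2
  apply FaithfulSMul.algebraMap_injective ℂ E
  rw [← h2, Matrix.mulVec, Matrix.mulVec, dotProduct, dotProduct, map_sum]
  refine Finset.sum_congr rfl fun j _ => ?_
  rw [map_mul]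
  rfl

end Pool.Agent.N996.BP
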