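import Pool.Agent.Y133.Half.Growth
import Pool.Agent.N996.BP.RFam

/-!
# Classes on the powers of a variety and arrays: products, contractions and permutations
-/

set_option linter.unusedSectionVars false

open CategoryTheory AlgebraicGeometry

universe u

namespace Pool.Agent.N996.BP.Geo

open Module
open Pool.Agent.H914 Pool.Agent.H914.VarClass Pool.Agent.H914.VarClass.Obj
  Pool.Agent.H914.WeilCohomology
open Pool.Agent.Y133.Half

variable {k : Type u} [Field k] {𝒱 : VarClass k} {ops : CycleOps 𝒱}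
  {W : WeilCohomology.{u, 0} ops} {X Y : 𝒱.Obj}
  {ι : Type} [Fintype ι] [DecidableEq ι] (e : Basis ι W.K (W.H X))

/-- The combination of the classes of the words with rational coefficients. -/
noncomputable def clw (n : ℕ) (a : (Fin (n + 1) → ι) → ℚ) : W.H (pw X n) :=
  ∑ w, ((a w : ℚ) : W.K) • wb e n w

lemma clw_add (n : ℕ) (a b : (Fin (n + 1) → ι) → ℚ) : clw e n (a + b) = clw e n a + clw e n b := by
  rw [clw, clw, clw, ← Finset.sum_add_distrib]
  refine Finset.sum_congr rfl fun w _ => ?_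
  rw [Pi.add_apply, Rat.cast_add, add_smul]

lemma clw_smul (n : ℕ) (r : ℚ) (a : (Fin (n + 1) → ι) → ℚ) :
    clw e n (r • a) = (r : W.K) • clw e n a := by
  rw [clw, clw, Finset.smul_sum]
  refine Finset.sum_congr rfl fun w _ => ?_
  rw [Pi.smul_apply, smul_eq_mul, Rat.cast_mul, mul_smul]

lemma clw_zero (n : ℕ) : clw e n 0 = 0 := by
  rw [clw]
  exact Finset.sum_eq_zero fun w _ => by rw [Pi.zero_apply, Rat.cast_zero, zero_smul]

lemma clw_sum (n : ℕ) {α : Type*} (s : Finset α) (f : α → (Fin (n + 1) → ι) → ℚ) :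
    clw e n (∑ i ∈ s, f i) = ∑ i ∈ s, clw e n (f i) := by
  classical
  induction s using Finset.induction_on with
  | empty => rw [Finset.sum_empty, Finset.sum_empty, clw_zero]
  | insert a s ha ih => rw [Finset.sum_insert ha, Finset.sum_insert ha, clw_add, ih]

/-- The arrays of the classes of a system. -/
def arrs (S : Sys W) (n : ℕ) : Submodule ℚ ((Fin (n + 1) → ι) → ℚ) where
  carrier := {a | clw e n a ∈ S.C (pw X n)}
  add_mem' {a b} ha hb := by
    change clw e n (a + b) ∈ S.C (pw X n)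
    rw [clw_add]
    exact Submodule.add_mem _ ha hb
  zero_mem' := by
    change clw e n 0 ∈ S.C (pw X n)
    rw [clw_zero]
    exact Submodule.zero_mem _
  smul_mem' r a ha := by
    change clw e n (r • a) ∈ S.C (pw X n)
    rw [clw_smul]
    exact Submodule.smul_mem _ _ ha

lemma mem_arrs {S : Sys W} {n : ℕ} {a : (Fin (n + 1) → ι) → ℚ} :
    a ∈ arrs e S n ↔ clw e n a ∈ S.C (pw X n) := Iff.rfl

/-! ### Products -/

/-- The projection to the first factors. -/
noncomputable def f₁ (X : 𝒱.Obj) (n m : ℕ) : pw X (n + m + 1) ⟶ pw X n :=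
  liftN X n fun i => prj X (n + m + 1) (ce n m (Sum.inl i))

/-- The projection to the last factors. -/
noncomputable def f₂ (X : 𝒱.Obj) (n m : ℕ) : pw X (n + m + 1) ⟶ pw X m :=
  liftN X m fun i => prj X (n + m + 1) (ce n m (Sum.inr i))

lemma ofFn_ce {α : Type*} (n m : ℕ) (F : Fin (n + m + 1 + 1) → α) :
    List.ofFn F = List.ofFn (fun i => F (ce n m (Sum.inl i))) ++
      List.ofFn (fun i => F (ce n m (Sum.inr i))) := by
  have h : n + m + 1 + 1 = n + 1 + (m + 1) := by omega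
  rw [List.ofFn_congr h, List.ofFn_add]
  rfl

lemma wb_tens (n m : ℕ) (w : Fin (n + m + 1 + 1) → ι) :
    wb e (n + m + 1) w = W.map (f₁ X n m) (wb e n fun i => w (ce n m (Sum.inl i))) *
      W.map (f₂ X n m) (wb e m fun i => w (ce n m (Sum.inr i))) := by
  rw [wb_eq, wb_eq, wb_eq, map_list_prod, map_list_prod, List.map_ofFn, List.map_ofFn,
    ofFn_ce, List.prod_append]
  congr 3
  · funext i
    rw [Function.comp_apply, ← W.map_comp, f₁, liftN_prj]
  · funext i
    rw [Function.comp_apply, ← W.map_comp, f₂, liftN_prj]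

lemma sum_ce {M : Type*} [AddCommMonoid M] (n m : ℕ) (f : (Fin (n + m + 1 + 1) → ι) → M) :
    ∑ w, f w = ∑ u : Fin (n + 1) → ι, ∑ v : Fin (m + 1) → ι,
      f (Sum.elim u v ∘ (ce n m).symm) := by
  rw [← sum_sumElim fun w => f (w ∘ (ce n m).symm)]
  exact (Equiv.sum_comp ((ce n m).arrowCongr (Equiv.refl ι)) f).symm

lemma clw_tens (n m : ℕ) (a : (Fin (n + 1) → ι) → ℚ) (b : (Fin (m + 1) → ι) → ℚ) :
    clw e (n + m + 1) (rei (ce n m) (tens a b)) =
      W.map (f₁ X n m) (clw e n a) * W.map (f₂ X n m) (clw e m b) := by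
  rw [clw, clw, clw, map_sum, map_sum, Finset.sum_mul_sum, sum_ce]
  refine Finset.sum_congr rfl fun u _ => Finset.sum_congr rfl fun v _ => ?_
  rw [map_smul, map_smul, smul_mul_smul_comm, wb_tens]
  have h2 : (fun i => (Sum.elim u v ∘ (ce n m).symm) (ce n m (Sum.inl i))) = u := by
    funext i; simp
  have h3 : (fun i => (Sum.elim u v ∘ (ce n m).symm) (ce n m (Sum.inr i))) = v := by
    funext i; simp
  rw [h2, h3]
  congr 1
  rw [rei]
  have h4 : (Sum.elim u v ∘ (ce n m).symm) ∘ (ce n m) = Sum.elim u v := by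
    funext i; simp
  rw [h4, tens_elim, Rat.cast_mul]

/-- Products of arrays of classes of the system. -/
lemma arrs_tens {S : Sys W} (n m : ℕ) {a : (Fin (n + 1) → ι) → ℚ} {b : (Fin (m + 1) → ι) → ℚ}
    (ha : a ∈ arrs e S n) (hb : b ∈ arrs e S m) :
    rei (ce n m) (tens a b) ∈ arrs e S (n + m + 1) := by
  rw [mem_arrs, clw_tens]
  exact S.mul (S.map _ ha) (S.map _ hb)

/-! ### Contractions -/

/-- The projection to the first factors. -/
noncomputable def g₁ (X : 𝒱.Obj) (n : ℕ) : pw X (n + 2) ⟶ pw X n := pfst X (n + 1) ≫ pfst X n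

/-- The projection to the last two factors. -/
noncomputable def g₂ (X : 𝒱.Obj) (n : ℕ) : pw X (n + 2) ⟶ X.prod X :=
  Obj.lift (pfst X (n + 1) ≫ psnd X n) (psnd X (n + 1))

lemma map_g₂ (n : ℕ) (x y : W.H X) : W.map (g₂ X n) (xp W x y) =
    W.map (pfst X (n + 1)) (W.map (psnd X n) x) * W.map (psnd X (n + 1)) y := by
  rw [xp, map_mul, ← W.map_comp, ← W.map_comp, g₂, Obj.lift_fst, Obj.lift_snd, W.map_comp]

lemma tr_g (n : ℕ) (y : W.H (pw X n)) (z : W.H (X.prod X)) :
    W.tr (pw X (n + 2)) (W.map (g₁ X n) y * W.map (g₂ X n) z) =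
      W.tr (pw X n) y * W.tr (X.prod X) z := by
  refine xp_induction (p := fun z => W.tr (pw X (n + 2)) (W.map (g₁ X n) y * W.map (g₂ X n) z) =
      W.tr (pw X n) y * W.tr (X.prod X) z) ?_ ?_ z
  · intro a b ha hb
    rw [map_add, mul_add, map_add, ha, hb, map_add, mul_add]
  · intro i j a _ b _
    rw [map_g₂, g₁, W.map_comp, ← mul_assoc, ← map_mul]
    have h1 : W.tr (pw X (n + 2)) (W.map (pfst X (n + 1)) (W.map (pfst X n) y *
        W.map (psnd X n) a) * W.map (psnd X (n + 1)) b) =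
          W.tr (pw X (n + 1)) (W.map (pfst X n) y * W.map (psnd X n) a) * W.tr X b :=
      W.tr_prod _ _
    have h2 : W.tr (pw X (n + 1)) (W.map (pfst X n) y * W.map (psnd X n) a) =
        W.tr (pw X n) y * W.tr X a := W.tr_prod _ _
    rw [h1, h2, tr_xp, mul_assoc]

lemma push_g (n : ℕ) (a : W.H (pw X n)) {b : ℕ} {z : W.H (X.prod X)}
    (hz : z ∈ PH W (X.prod X) b) :
    W.push (g₁ X n) (W.map (g₁ X n) a * W.map (g₂ X n) z) = W.tr (X.prod X) z • a := by
  apply W.tr_ext
  intro c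
  refine gr_induction (W.isInternal _) (p := fun c =>
    W.tr (pw X n) (W.push (g₁ X n) (W.map (g₁ X n) a * W.map (g₂ X n) z) * c) =
      W.tr (pw X n) (W.tr (X.prod X) z • a * c)) ?_ ?_ c
  · intro i c hc
    rw [W.tr_push, mul_assoc, PH.comm (PH.map (g₂ X n) hz) (PH.map (g₁ X n) (PH.of hc)),
      mul_smul_comm, map_smul, ← mul_assoc, ← map_mul, tr_g, smul_mul_assoc, map_smul,
      smul_eq_mul, smul_eq_mul]
    by_cases hb : b % 2 = 1
    · rw [PH.tr_odd hz hb]
      ring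
    · have h1 : (-1 : W.K) ^ (b * i) = 1 := by
        rw [neg_pow_congr (b := 0) (by rw [Nat.mul_mod]; simp [show b % 2 = 0 by omega]), pow_zero]
      rw [h1]
      ring
  · intro x y hx hy
    rw [mul_add, map_add, hx, hy, mul_add, map_add]

lemma sum_sn {M : Type*} [AddCommMonoid M] (n : ℕ) (f : (Fin (n + 2 + 1) → ι) → M) :
    ∑ w, f w = ∑ v : Fin (n + 1) → ι, ∑ x : ι, ∑ y : ι, f (sn v x y) := by
  have h : ∀ (n : ℕ) (f : (Fin (n + 1 + 1) → ι) → M),
      ∑ w, f w = ∑ v : Fin (n + 1) → ι, ∑ x : ι, f (Fin.snoc (α := fun _ => ι) v x) := by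
    intro n f
    rw [← Equiv.sum_comp (Fin.snocEquiv fun _ => ι), Fintype.sum_prod_type, Finset.sum_comm]
    rfl
  rw [h (n + 1) f, h n]
  rfl

lemma wb_sn (n : ℕ) (w : Fin (n + 1) → ι) (x y : ι) :
    wb e (n + 2) (sn w x y) = W.map (g₁ X n) (wb e n w) * W.map (g₂ X n) (xp W (e x) (e y)) := by
  have h : ∀ (n : ℕ) (v : Fin (n + 1) → ι) (x : ι),
      wb e (n + 1) (Fin.snoc (α := fun _ => ι) v x) =
        W.map (pfst X n) (wb e n v) * W.map (psnd X n) (e x) := by
    intro n v x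
    rw [wb_succ, Fin.snoc_last]
    congr 2
    congr 1
    funext i
    rw [Fin.snoc_castSucc]
  rw [sn, h (n + 1), h n, map_mul, map_g₂, g₁, W.map_comp, mul_assoc]

variable {e}

/-- Contraction of arrays of classes of the system. -/
lemma arrs_contr {S : Sys W} (he : ∀ j, ∃ a, e j ∈ PH W X a) {Q : Matrix ι ι ℚ}
    {q : W.H (X.prod X)} (hq : q ∈ S.C (X.prod X))
    (hqQ : ∀ i j, W.tr (X.prod X) (xp W (e i) (e j) * q) = ((Q i j : ℚ) : W.K)) (n : ℕ)
    {a : (Fin (n + 2 + 1) → ι) → ℚ} (ha : a ∈ arrs e S (n + 2)) : ctr Q a ∈ arrs e S n := by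
  have h1 : clw e n (ctr Q a) = W.push (g₁ X n) (clw e (n + 2) a * W.map (g₂ X n) q) := by
    rw [clw, clw, Finset.sum_mul, map_sum, sum_sn]
    refine Finset.sum_congr rfl fun w _ => ?_
    rw [ctr, Rat.cast_sum, Finset.sum_smul]
    refine Finset.sum_congr rfl fun x _ => ?_
    rw [Rat.cast_sum, Finset.sum_smul]
    refine Finset.sum_congr rfl fun y _ => ?_
    obtain ⟨i, hi⟩ := he x
    obtain ⟨j, hj⟩ := he y
    have h2 : xp W (e x) (e y) * q ∈ PH W (X.prod X) (i + j) := by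
      have := PH.mul (xp_mem hi hj) (S.even hq)
      rwa [add_zero] at this
    rw [smul_mul_assoc, map_smul, wb_sn, mul_assoc, ← map_mul, push_g n _ h2, hqQ, smul_smul,
      Rat.cast_mul, mul_comm]
  rw [mem_arrs, h1]
  exact S.push _ (S.mul ha (S.map _ hq))

end Pool.Agent.N996.BP.Geo
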