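import Pool.Agent.N996.BP.Geo4

/-!
# The bounded power theorem for Hodge theories, main part
-/

set_option linter.unusedSectionVars false

open CategoryTheory AlgebraicGeometry TensorProduct

universe u

namespace Pool.Agent.N996.BP.Geo

open Module
open Pool.Agent.H914 Pool.Agent.H914.VarClass Pool.Agent.H914.VarClass.Obj
  Pool.Agent.H914.WeilCohomology
open Pool.Agent.Y133.Half Pool.Agent.Y121.AH

variable {k : Type u} [Field k] {𝒱 : VarClass k} {ops : CycleOps 𝒱} {T : HodgeTheory ops}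
  {X Y : 𝒱.Obj}

/-- The exponent. -/
def expo (b : ℕ) : ℕ := (2 * b * (b ^ 2 + 1)) ^ (b ^ 2 + 1)

lemma bd_le {b d : ℕ} (h : d + 1 ≤ b) : 2 * bd (b ^ 2) d ≤ expo b := by
  rw [bd, expo, pow_succ]
  have h1 : (2 * d + 1) * (b ^ 2 + 1) ≤ 2 * b * (b ^ 2 + 1) :=
    Nat.mul_le_mul_right _ (by omega)
  have h2 : 2 * (b ^ 2 + 1) ≤ 2 * b * (b ^ 2 + 1) := Nat.mul_le_mul_right _ (by omega)
  calc 2 * ((b ^ 2 + 1) * ((2 * d + 1) * (b ^ 2 + 1)) ^ b ^ 2) =
      ((2 * d + 1) * (b ^ 2 + 1)) ^ b ^ 2 * (2 * (b ^ 2 + 1)) := by ring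
    _ ≤ (2 * b * (b ^ 2 + 1)) ^ b ^ 2 * (2 * b * (b ^ 2 + 1)) :=
        Nat.mul_le_mul (Nat.pow_le_pow_left h1 _) h2

/-- The projection of a power to a smaller power. -/
noncomputable def down (X : 𝒱.Obj) {n m : ℕ} (h : n ≤ m) : pw X m ⟶ pw X n :=
  liftN X n fun i => prj X m (Fin.castLE (by omega) i)

/-- A section of the projection. -/
noncomputable def up (X : 𝒱.Obj) (n m : ℕ) : pw X n ⟶ pw X m :=
  liftN X m fun i => prj X n ⟨min (i : ℕ) n, by omega⟩

lemma up_down (X : 𝒱.Obj) {n m : ℕ} (h : n ≤ m) : up X n m ≫ down X h = 𝟙 (pw X n) := by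
  apply hom_ext_prj
  intro i
  rw [Category.assoc, down, liftN_prj, up, liftN_prj, Category.id_comp]
  congr 1
  ext
  simp only [Fin.val_castLE]
  omega

/-- The property passes to smaller powers. -/
lemma mono_pw {S S' : Sys T.W} {n m : ℕ} (h : n ≤ m) (hm : S'.C (pw X m) ≤ S.C (pw X m)) :
    S'.C (pw X n) ≤ S.C (pw X n) := by
  intro c hc
  have h1 : c = T.W.map (up X n m) (T.W.map (down X h) c) := by
    rw [← T.W.map_comp, up_down, T.W.map_id]
  rw [h1]
  exact S.map _ (hm (S'.map _ hc))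

/-- **The bounded power theorem.** -/
theorem bounded {ψ : LinearMap.BilinForm T.W.K (T.W.H X)}
    (hψ : IsPHS (tauT T) (Fx T X) ψ X.dim) (S : Sys T.W)
    (hle : ∀ Z, S.C Z ≤ (hodgePred T).sp Z)
    (h : (hodgePred T).sp (pw X (expo (finrank T.W.K (T.W.H X)) - 1)) ≤
      S.C (pw X (expo (finrank T.W.K (T.W.H X)) - 1))) (n : ℕ) :
    (hodgePred T).sp (pw X n) ≤ S.C (pw X n) := by
  classical
  rcases subsingleton_or_nontrivial (T.W.H X) with hs | hs
  · have h1 : Subsingleton (T.W.H (pw X n)) := by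
      have h2 : finrank T.W.K (T.W.H (pw X n)) = 0 := by
        rw [finrank_pw, finrank_zero_of_subsingleton, zero_pow (Nat.succ_ne_zero n)]
      exact finrank_zero_iff.1 h2
    intro c _
    rw [Subsingleton.elim c 0]
    exact Submodule.zero_mem _
  obtain ⟨ι, _, _, e, o, deg, heo, hdeg⟩ := exists_ubasis T.W X
  have hF : DirectSum.IsInternal (Fx T X) := hψ.int
  have ho : (1 : ℂ) ⊗ₜ[T.W.K] e o ∈ Fx T X (0, 0) := by
    rw [heo]
    have h1 := (isHodge_one (T := T) (X := X)).2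
    exact h1
  obtain ⟨H, hHo, hHw, hH⟩ := hψ.exists_hdata e o ho
  have hcard : Fintype.card ι = finrank T.W.K (T.W.H X) := (finrank_eq_card_basis e).symm
  have hbd : 2 * bd (Fintype.card ι ^ 2) H.w ≤ expo (finrank T.W.K (T.W.H X)) := by
    rw [hHw, hcard]
    exact bd_le (dim_lt T X)
  have h2 : 2 ≤ 2 * bd (Fintype.card ι ^ 2) H.w := by
    have : 1 ≤ bd (Fintype.card ι ^ 2) H.w := by
      rw [bd]
      exact Nat.mul_pos (Nat.succ_pos _) (Nat.pow_pos (Nat.mul_pos (by omega) (Nat.succ_pos _)))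
    omega
  have hsmall : ∀ n, n + 1 ≤ 2 * bd (Fintype.card ι ^ 2) H.w →
      (hodgePred T).sp (pw X n) ≤ S.C (pw X n) := fun n hn =>
    mono_pw (S' := (hodgePred T).sys) (show n ≤ expo (finrank T.W.K (T.W.H X)) - 1 by omega) h
  have h1X : (hodgePred T).sp (X.prod X) ≤ S.C (X.prod X) := hsmall 1 (by omega)
  -- the parities
  let p : ι → Fin 2 := fun j => ⟨deg j % 2, Nat.mod_lt _ two_pos⟩
  have hp : ∀ j, e j ∈ PH T.W X (p j : ℕ) := fun j =>
    PH.of' (by change deg j % 2 = (deg j % 2) % 2; omega) (hdeg j)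
  -- the form
  obtain ⟨q, hq, hqQ⟩ : ∃ q : T.W.H (X.prod X), Inv T (X.prod X) q ∧
      ∀ w, T.W.tr (pw X 1) (wb e 1 w * (show T.W.H (pw X 1) from q)) =
        ((H.Qr (w 0) (w 1) : ℚ) : T.W.K) := exists_q e hH
  have hqS : q ∈ S.C (X.prod X) := h1X (inv_iff.1 hq)
  have hqQ' : ∀ i j, T.W.tr (X.prod X) (xp T.W (e i) (e j) * q) = ((H.Qr i j : ℚ) : T.W.K) := by
    intro i j
    have h3 := hqQ (Fin.snoc (α := fun _ => ι) (fun _ : Fin (0 + 1) => i) j)
    have h4 : wb e (0 + 1) (Fin.snoc (α := fun _ => ι) (fun _ : Fin (0 + 1) => i) j) =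
        xp T.W (e i) (e j) := by
      rw [wb_snoc]
      have h5 : wb e 0 (fun _ => i) = e i := wb_zero e _
      rw [h5]
      rfl
    have h6 : T.W.tr (pw X 1) (wb e 1 (Fin.snoc (α := fun _ => ι) (fun _ : Fin (0 + 1) => i) j) *
        (show T.W.H (pw X 1) from q)) = T.W.tr (X.prod X) (xp T.W (e i) (e j) * q) := by
      rw [← h4]
      rfl
    rw [← h6, h3]
    rfl
  have hb := fun b => exists_proj (S := S) hp (par_mem h1X) b
  have hfam : RFam H (fun n => arrs e S n) :=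
    { perm := fun n σ a ha => arrs_perm hp hb n σ ha
      tens := fun n m a b ha hb => arrs_tens e n m ha hb
      contr := fun n a ha => arrs_contr (fun j => ⟨_, hp j⟩) hqS hqQ' n ha
      le := fun n a ha => (inv_cls e hH n a).1 (inv_iff.2 (hle _ ha)) }
  have hcore := hfam.core (fun n hn a ha => hsmall n hn (inv_iff.1 ((inv_cls e hH n a).2 ha))) n
  intro c hc
  obtain ⟨a, rfl⟩ := cls_surj e n c
  exact hcore ((inv_cls e hH n a).1 (inv_iff.2 hc))

end Pool.Agent.N996.BP.Geo
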