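import Pool.Agent.N996.BP.Geo4

/-!
# Families of classes on the powers of a variety
-/

set_option linter.unusedSectionVars false

open CategoryTheory AlgebraicGeometry TensorProduct

universe u

namespace Pool.Agent.N996.BP.Geo

open Module
open Pool.Agent.H914 Pool.Agent.H914.VarClass Pool.Agent.H914.VarClass.Obj
  Pool.Agent.H914.WeilCohomology
open Pool.Agent.Y133.Half

variable {k : Type u} [Field k] {𝒱 : VarClass k} {ops : CycleOps 𝒱}
  {W : WeilCohomology.{u, 0} ops} {X Y Z : 𝒱.Obj}

/-- A coordinate map between powers of `X`: each of its components is one of the projections. -/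
def IsCd {n m : ℕ} (f : pw X m ⟶ pw X n) : Prop :=
  ∀ i : Fin (n + 1), ∃ j : Fin (m + 1), f ≫ prj X n i = prj X m j

/-- Subspaces of the cohomology of the powers of `X` which are stable under products, pull-backs
along coordinate maps and push-forwards along the projections. -/
structure CSys (W : WeilCohomology.{u, 0} ops) (X : 𝒱.Obj) where
  /-- the classes on the power -/
  C : ∀ n, Submodule W.K (W.H (pw X n))
  mul : ∀ {n : ℕ} {c d : W.H (pw X n)}, c ∈ C n → d ∈ C n → c * d ∈ C n
  map : ∀ {n m : ℕ} (f : pw X m ⟶ pw X n) (_ : IsCd f) {c : W.H (pw X n)}, c ∈ C n →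
    W.map f c ∈ C m
  push : ∀ {n : ℕ} {c : W.H (pw X (n + 1))}, c ∈ C (n + 1) → W.push (pfst X n) c ∈ C n

/-- The family given by a system. -/
noncomputable def _root_.Pool.Agent.Y133.Half.Sys.csys (S : Sys W) (X : 𝒱.Obj) : CSys W X where
  C n := S.C (pw X n)
  mul h h' := S.mul h h'
  map f _ _ h := S.map f h
  push h := S.push _ h

/-! ### Coordinate maps -/

lemma isCd_liftN {n m : ℕ} (g : Fin (n + 1) → Fin (m + 1)) :
    IsCd (liftN X n fun i => prj X m (g i)) := fun i => ⟨g i, liftN_prj n _ i⟩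

lemma isCd_f₁ (n m : ℕ) : IsCd (f₁ X n m) := isCd_liftN _

lemma isCd_f₂ (n m : ℕ) : IsCd (f₂ X n m) := isCd_liftN _

lemma isCd_tau (n : ℕ) (σ : Equiv.Perm (Fin (n + 1))) : IsCd (tau X n σ) := isCd_liftN _

lemma isCd_g₁ (n : ℕ) : IsCd (g₁ X n) := fun i => ⟨i.castSucc.castSucc, by
  rw [prj_castSucc, prj_castSucc, g₁, Category.assoc]⟩

lemma fst_eq : fst X X = prj X 1 (Fin.castSucc (0 : Fin 1)) := by
  rw [prj_castSucc 0, prj_zero]
  exact (Category.comp_id (pfst X 0)).symm

lemma snd_eq : snd X X = prj X 1 (Fin.last 1) := (prj_last 0).symm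

/-- The projection to the last two factors. -/
noncomputable def g₂' (X : 𝒱.Obj) (n : ℕ) : pw X (n + 2) ⟶ pw X 1 := g₂ X n

lemma isCd_g₂ (n : ℕ) : IsCd (g₂' X n) := by
  intro i
  refine Fin.lastCases ?_ (fun i => ?_) i
  · refine ⟨Fin.last _, ?_⟩
    rw [prj_last, prj_last]
    exact Obj.lift_snd _ _
  · refine ⟨(Fin.last _).castSucc, ?_⟩
    have hi : i = 0 := Subsingleton.elim (α := Fin 1) i 0
    subst hi
    rw [prj_castSucc 0, prj_castSucc (n + 1), prj_last, prj_zero]
    have h1 : g₂' X n ≫ pfst X 0 = pfst X (n + 1) ≫ psnd X n := Obj.lift_fst _ _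
    rw [← h1]
    exact congrArg (g₂' X n ≫ ·) (Category.comp_id (pfst X 0))

/-- The projection forgetting the last but one factor. -/
noncomputable def g₃ (X : 𝒱.Obj) (n : ℕ) : pw X (n + 2) ⟶ pw X (n + 1) :=
  plift (g₁ X n) (psnd X (n + 1))

lemma isCd_g₃ (n : ℕ) : IsCd (g₃ X n) := by
  intro i
  refine Fin.lastCases ?_ (fun i => ?_) i
  · refine ⟨Fin.last _, ?_⟩
    rw [prj_last, prj_last]
    exact plift_snd _ _
  · refine ⟨i.castSucc.castSucc, ?_⟩
    rw [prj_castSucc, ← Category.assoc, g₃, plift_fst, prj_castSucc, prj_castSucc, g₁,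
      Category.assoc]

/-! ### The operators on the last factor -/

lemma push_fst (u : W.H X) (v : W.H Y) :
    W.push (fst X Y) (W.map (fst X Y) u * W.map (snd X Y) v) = W.tr Y v • u := by
  apply W.tr_ext
  intro c
  rw [W.tr_push]
  refine gr_induction (W.isInternal _) (p := fun c =>
    W.tr (X.prod Y) (W.map (fst X Y) u * W.map (snd X Y) v * W.map (fst X Y) c) =
      W.tr X (W.tr Y v • u * c)) ?_ ?_ c
  · intro i c hc
    refine gr_induction (W.isInternal _) (p := fun v =>
      W.tr (X.prod Y) (W.map (fst X Y) u * W.map (snd X Y) v * W.map (fst X Y) c) =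
        W.tr X (W.tr Y v • u * c)) ?_ ?_ v
    · intro j v hv
      rw [mul_assoc, PH.comm (PH.map (snd X Y) (PH.of hv)) (PH.map (fst X Y) (PH.of hc)),
        mul_smul_comm, map_smul, ← mul_assoc, ← map_mul, W.tr_prod, smul_mul_assoc, map_smul,
        smul_eq_mul, smul_eq_mul]
      by_cases hj : j % 2 = 1
      · rw [PH.tr_odd (PH.of hv) hj]
        ring
      · have h1 : (-1 : W.K) ^ (j * i) = 1 := by
          rw [neg_pow_congr (b := 0)
            (by rw [Nat.mul_mod]; simp [show j % 2 = 0 by omega]), pow_zero]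
        rw [h1]
        ring
    · intro x y hx hy
      rw [map_add, mul_add, add_mul, map_add, hx, hy, map_add, add_smul, add_mul, map_add]
  · intro x y hx hy
    rw [map_add, mul_add, map_add, hx, hy, mul_add, map_add]

/-- The action of a class on `X × X`. -/
noncomputable def kb (b : W.H X) (c : W.H (X.prod X)) : W.H X :=
  W.push (fst X X) (W.map (snd X X) b * c)

lemma kb_xp {i j : ℕ} {b : W.H X} (hb : b ∈ PH W X j) {c : W.H X} (hc : c ∈ PH W X i)
    (d : W.H X) : kb b (xp W c d) = ((-1) ^ (j * i) * W.tr X (b * d)) • c := by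
  have h2 : W.map (snd X X) b * W.map (fst X X) c =
      (-1 : W.K) ^ (j * i) • (W.map (fst X X) c * W.map (snd X X) b) :=
    PH.comm (PH.map (snd X X) hb) (PH.map (fst X X) hc)
  have h3 : W.map (snd X X) b * xp W c d =
      (-1 : W.K) ^ (j * i) • (W.map (fst X X) c * W.map (snd X X) (b * d)) := by
    rw [xp, ← mul_assoc, h2, map_mul, smul_mul_assoc, mul_assoc]
  rw [kb, h3, map_smul, push_fst, smul_smul]

lemma kb_diag (b : W.H X) : kb b (W.push (diag X) 1) = b := by
  have h1 : W.push (diag X) (1 : W.H X) ∈ PH W (X.prod X) 0 := by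
    have := PH.push (W := W) (diag X) (PH.of (W.one_mem X))
    exact this
  have h2 : W.map (snd X X) b * W.push (diag X) 1 = W.push (diag X) b := by
    rw [← PH.even_comm h1, ← W.push_mul, ← W.map_comp, one_mul]
    have e1 : diag X ≫ snd X X = 𝟙 X := Obj.lift_snd _ _
    rw [e1, W.map_id]
  rw [kb, h2, ← W.push_comp]
  have e1 : diag X ≫ fst X X = 𝟙 X := Obj.lift_fst _ _
  rw [e1, W.push_id]

lemma kb_add (b : W.H X) (c c' : W.H (X.prod X)) : kb b (c + c') = kb b c + kb b c' := by
  rw [kb, kb, kb, mul_add, map_add]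

lemma kb_par {j : ℕ} {b : W.H X} (hb : b ∈ W.gr X j) (c : W.H (X.prod X)) :
    kb b (extOp W (H914.par (W.isInternal X)) 1 c) = H914.par (W.isInternal X) (kb b c) := by
  refine xp_induction (p := fun c => kb b (extOp W (H914.par (W.isInternal X)) 1 c) =
    H914.par (W.isInternal X) (kb b c)) ?_ ?_ c
  · intro x y hx hy
    rw [map_add, kb_add, hx, hy, kb_add, map_add]
  · intro i i' x hx y _
    have h1 : extOp W (H914.par (W.isInternal X)) 1 (xp W x y) =
        xp W (H914.par (W.isInternal X) x) y := extOp_tmul _ _ _ _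
    rw [h1, PH.par hx, xp_smul_left]
    have h2 : kb b ((-1 : W.K) ^ i • xp W x y) = (-1 : W.K) ^ i • kb b (xp W x y) := by
      rw [kb, kb, mul_smul_comm, map_smul]
    rw [h2, kb_xp (PH.of hb) hx, map_smul, PH.par hx, smul_comm]

/-- The action of a class on `X × X` on the last factor. -/
noncomputable def kk (n : ℕ) (x : W.H (pw X (n + 1))) (c : W.H (X.prod X)) :
    W.H (pw X (n + 1)) :=
  W.push (pfst X (n + 1)) (W.map (g₃ X n) x * W.map (g₂ X n) c)

lemma kk_tmul (n : ℕ) (a : W.H (pw X n)) {j : ℕ} {b : W.H X} (hb : b ∈ W.gr X j)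
    (c : W.H (X.prod X)) : kk n (W.map (pfst X n) a * W.map (psnd X n) b) c =
      W.map (pfst X n) a * W.map (psnd X n) (kb b c) := by
  have h3 : W.map (g₃ X n) (W.map (pfst X n) a * W.map (psnd X n) b) =
      W.map (pfst X (n + 1)) (W.map (pfst X n) a) * W.map (psnd X (n + 1)) b := by
    rw [map_mul, ← W.map_comp, ← W.map_comp, g₃, plift_fst, plift_snd, g₁, W.map_comp]
  refine xp_induction (p := fun c => kk n (W.map (pfst X n) a * W.map (psnd X n) b) c =
      W.map (pfst X n) a * W.map (psnd X n) (kb b c)) ?_ ?_ c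
  · intro x y hx hy
    rw [kb_add, map_add, mul_add, ← hx, ← hy, kk, kk, kk, map_add, mul_add, map_add]
  · intro i i' x hx y _
    rw [kb_xp (PH.of hb) hx, kk, h3, map_g₂, map_smul, mul_smul_comm]
    have h4 : W.map (psnd X (n + 1)) b * W.map (pfst X (n + 1)) (W.map (psnd X n) x) =
        (-1 : W.K) ^ (j * i) • (W.map (pfst X (n + 1)) (W.map (psnd X n) x) *
          W.map (psnd X (n + 1)) b) :=
      PH.comm (PH.map _ (PH.of hb)) (PH.map _ (PH.map _ hx))
    have h5 : W.map (pfst X (n + 1)) (W.map (pfst X n) a) * W.map (psnd X (n + 1)) b *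
        (W.map (pfst X (n + 1)) (W.map (psnd X n) x) * W.map (psnd X (n + 1)) y) =
        (-1 : W.K) ^ (j * i) • (W.map (pfst X (n + 1)) (W.map (pfst X n) a *
          W.map (psnd X n) x) * W.map (psnd X (n + 1)) (b * y)) := by
      rw [mul_assoc, ← mul_assoc (W.map (psnd X (n + 1)) b), h4, smul_mul_assoc, mul_smul_comm,
        map_mul, map_mul, mul_assoc, mul_assoc]
    rw [h5, map_smul]
    have h6 : W.push (pfst X (n + 1)) (W.map (pfst X (n + 1)) (W.map (pfst X n) a *
        W.map (psnd X n) x) * W.map (psnd X (n + 1)) (b * y)) =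
        W.tr X (b * y) • (W.map (pfst X n) a * W.map (psnd X n) x) := push_fst _ _
    rw [h6, smul_smul]

/-- The parity of the last factor. -/
lemma kk_par (n : ℕ) (x : W.H (pw X (n + 1))) :
    kk n x (extOp W (H914.par (W.isInternal X)) 1 (W.push (diag X) 1)) =
      extOp W 1 (H914.par (W.isInternal X)) (show W.H ((pw X n).prod X) from x) := by
  refine W.kunneth_induction (X := pw X n) (Y := X) (p := fun x =>
    kk n (show W.H (pw X (n + 1)) from x)
      (extOp W (H914.par (W.isInternal X)) 1 (W.push (diag X) 1)) =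
      extOp W 1 (H914.par (W.isInternal X)) (show W.H ((pw X n).prod X) from x)) ?_ ?_ x
  · intro a b ha hb
    have h1 : kk n (show W.H (pw X (n + 1)) from a + b)
        (extOp W (H914.par (W.isInternal X)) 1 (W.push (diag X) 1)) =
        kk n (show W.H (pw X (n + 1)) from a)
          (extOp W (H914.par (W.isInternal X)) 1 (W.push (diag X) 1)) +
        kk n (show W.H (pw X (n + 1)) from b)
          (extOp W (H914.par (W.isInternal X)) 1 (W.push (diag X) 1)) := by
      rw [kk, kk, kk]
      have h2 : W.map (g₃ X n) (show W.H (pw X (n + 1)) from a + b) =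
          W.map (g₃ X n) (show W.H (pw X (n + 1)) from a) +
            W.map (g₃ X n) (show W.H (pw X (n + 1)) from b) := map_add _ _ _
      rw [h2, add_mul, map_add]
    rw [h1, ha, hb]
    exact (map_add _ _ _).symm
  · intro i j a _ b hb
    have h1 := kk_tmul n a hb (extOp W (H914.par (W.isInternal X)) 1 (W.push (diag X) 1))
    refine h1.trans ?_
    rw [kb_par hb, kb_diag]
    exact (extOp_tmul (W := W) 1 (H914.par (W.isInternal X)) a b).symm

end Pool.Agent.N996.BP.Geo
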