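import Pool.Agent.N996.BP.CSys

/-!
# The arrays of the classes of a family
-/

set_option linter.unusedSectionVars false

open CategoryTheory AlgebraicGeometry TensorProduct

universe u

namespace Pool.Agent.N996.BP.Geo

open Module
open Pool.Agent.H914 Pool.Agent.H914.VarClass Pool.Agent.H914.VarClass.Obj
  Pool.Agent.H914.WeilCohomology
open Pool.Agent.Y133.Half

variable {k : Type u} [Field k] {𝒱 : VarClass k} {ops : CycleOps 𝒱}
  {W : WeilCohomology.{u, 0} ops} {X Y Z : 𝒱.Obj}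
  {ι : Type} [Fintype ι] [DecidableEq ι] (e : Basis ι W.K (W.H X))

/-- The arrays of the classes of a family. -/
def arrc (S : CSys W X) (n : ℕ) : Submodule ℚ ((Fin (n + 1) → ι) → ℚ) where
  carrier := {a | clw e n a ∈ S.C n}
  add_mem' {a b} ha hb := by
    change clw e n (a + b) ∈ S.C n
    rw [clw_add]
    exact Submodule.add_mem _ ha hb
  zero_mem' := by
    change clw e n 0 ∈ S.C n
    rw [clw_zero]
    exact Submodule.zero_mem _
  smul_mem' r a ha := by
    change clw e n (r • a) ∈ S.C n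
    rw [clw_smul]
    exact Submodule.smul_mem _ _ ha

variable {S : CSys W X}

lemma mem_arrc {n : ℕ} {a : (Fin (n + 1) → ι) → ℚ} :
    a ∈ arrc e S n ↔ clw e n a ∈ S.C n := Iff.rfl

/-- Products. -/
lemma arrc_tens (n m : ℕ) {a : (Fin (n + 1) → ι) → ℚ} {b : (Fin (m + 1) → ι) → ℚ}
    (ha : a ∈ arrc e S n) (hb : b ∈ arrc e S m) :
    rei (ce n m) (tens a b) ∈ arrc e S (n + m + 1) := by
  rw [mem_arrc, clw_tens]
  exact S.mul (S.map _ (isCd_f₁ n m) ha) (S.map _ (isCd_f₂ n m) hb)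

variable {e}

/-- Contractions. -/
lemma arrc_contr (he : ∀ j, ∃ a, e j ∈ PH W X a) {Q : Matrix ι ι ℚ}
    {q : W.H (X.prod X)} (hq : (show W.H (pw X 1) from q) ∈ S.C 1) (hev : q ∈ PH W (X.prod X) 0)
    (hqQ : ∀ i j, W.tr (X.prod X) (xp W (e i) (e j) * q) = ((Q i j : ℚ) : W.K)) (n : ℕ)
    {a : (Fin (n + 2 + 1) → ι) → ℚ} (ha : a ∈ arrc e S (n + 2)) : ctr Q a ∈ arrc e S n := by
  have h1 : clw e n (ctr Q a) = W.push (g₁ X n) (clw e (n + 2) a * W.map (g₂ X n) q) := by
    rw [clw, clw, Finset.sum_mul, map_sum, sum_sn]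
    refine Finset.sum_congr rfl fun w _ => ?_
    rw [ctr, Rat.cast_sum, Finset.sum_smul]
    refine Finset.sum_congr rfl fun x _ => ?_
    rw [Rat.cast_sum, Finset.sum_smul]
    refine Finset.sum_congr rfl fun y _ => ?_
    obtain ⟨i, hi⟩ := he x
    obtain ⟨j, hj⟩ := he y
    have h2 : xp W (e x) (e y) * q ∈ PH W (X.prod X) (i + j) := by
      have := PH.mul (xp_mem hi hj) hev
      rwa [add_zero] at this
    rw [smul_mul_assoc, map_smul, wb_sn, mul_assoc, ← map_mul, push_g n _ h2, hqQ, smul_smul,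
      Rat.cast_mul, mul_comm]
  rw [mem_arrc, h1, g₁, W.push_comp]
  exact S.push (S.push (S.mul ha (S.map (g₂' X n) (isCd_g₂ n) hq)))

variable {p : ι → Fin 2}

/-- The part of an array where the letter at `l` has parity `b`. -/
def pk (p : ι → Fin 2) {n : ℕ} (l : Fin (n + 1)) (b : Fin 2) (a : (Fin (n + 1) → ι) → ℚ) :
    (Fin (n + 1) → ι) → ℚ := fun w => if p (w l) = b then a w else 0

/-- The class of the parity operator. -/
noncomputable def dp (W : WeilCohomology.{u, 0} ops) (X : 𝒱.Obj) : W.H (pw X 1) :=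
  extOp W (H914.par (W.isInternal X)) 1 (W.push (diag X) 1)

/-- The projector to the words whose last letter has parity `b`. -/
noncomputable def lastP (W : WeilCohomology.{u, 0} ops) (X : 𝒱.Obj) (n : ℕ) (b : Fin 2)
    (x : W.H (pw X (n + 1))) : W.H (pw X (n + 1)) :=
  (2 : W.K)⁻¹ • (x + (-1 : W.K) ^ (b : ℕ) • kk n x (dp W X))

lemma kk_add (n : ℕ) (x y : W.H (pw X (n + 1))) (c : W.H (X.prod X)) :
    kk n (x + y) c = kk n x c + kk n y c := by
  rw [kk, kk, kk, map_add, add_mul, map_add]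

lemma kk_smul (n : ℕ) (r : W.K) (x : W.H (pw X (n + 1))) (c : W.H (X.prod X)) :
    kk n (r • x) c = r • kk n x c := by
  rw [kk, kk, map_smul, smul_mul_assoc, map_smul]

/-- The projector as a linear map. -/
noncomputable def lastL (W : WeilCohomology.{u, 0} ops) (X : 𝒱.Obj) (n : ℕ) (b : Fin 2) :
    W.H (pw X (n + 1)) →ₗ[W.K] W.H (pw X (n + 1)) where
  toFun := lastP W X n b
  map_add' x y := by
    rw [lastP, lastP, lastP, kk_add]
    module
  map_smul' r x := by
    rw [lastP, lastP, kk_smul, RingHom.id_apply]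
    module

lemma kk_wb (hp : ∀ j, e j ∈ PH W X (p j : ℕ)) (n : ℕ) (w : Fin (n + 1 + 1) → ι) :
    kk n (wb e (n + 1) w) (dp W X) = (-1 : W.K) ^ (p (w (Fin.last _)) : ℕ) • wb e (n + 1) w := by
  have h1 : kk n (wb e (n + 1) w) (dp W X) = _ := kk_par n (wb e (n + 1) w)
  rw [h1, wb_succ]
  have h2 := extOp_tmul (W := W) (1 : Module.End W.K (W.H (pw X n)))
    (H914.par (W.isInternal X)) (wb e n fun i => w i.castSucc) (e (w (Fin.last _)))
  refine h2.trans ?_
  rw [PH.par (hp _), map_smul, mul_smul_comm]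
  rfl

lemma lastP_wb (hp : ∀ j, e j ∈ PH W X (p j : ℕ)) (n : ℕ) (b : Fin 2) (w : Fin (n + 1 + 1) → ι) :
    lastP W X n b (wb e (n + 1) w) = if p (w (Fin.last _)) = b then wb e (n + 1) w else 0 := by
  rw [lastP, kk_wb hp, smul_smul, ← pow_add]
  have h2 : (2 : W.K) ≠ 0 := two_ne_zero
  have h4 : wb e (n + 1) w + wb e (n + 1) w = (2 : W.K) • wb e (n + 1) w := (two_smul _ _).symm
  rcases Fin.exists_fin_two.1 ⟨b, rfl⟩ with hb | hb <;>
    rcases Fin.exists_fin_two.1 ⟨p (w (Fin.last _)), rfl⟩ with hj | hj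
  all_goals
    rw [hb, hj]
    simp [h4, smul_smul, h2]

lemma lastP_mem (hdp : dp W X ∈ S.C 1) {n : ℕ} (b : Fin 2) {x : W.H (pw X (n + 1))}
    (hx : x ∈ S.C (n + 1)) : lastP W X n b x ∈ S.C (n + 1) := by
  refine Submodule.smul_mem _ _ (Submodule.add_mem _ hx (Submodule.smul_mem _ _ ?_))
  exact S.push (S.mul (S.map _ (isCd_g₃ n) hx) (S.map (g₂' X n) (isCd_g₂ n) hdp))

lemma arrc_pk (hp : ∀ j, e j ∈ PH W X (p j : ℕ)) (hdp : dp W X ∈ S.C 1) {n : ℕ}
    (l : Fin (n + 1 + 1)) (b : Fin 2) {a : (Fin (n + 1 + 1) → ι) → ℚ}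
    (ha : a ∈ arrc e S (n + 1)) : pk p l b a ∈ arrc e S (n + 1) := by
  let σ : Equiv.Perm (Fin (n + 1 + 1)) := Equiv.swap l (Fin.last _)
  have hσ : σ (Fin.last _) = l := Equiv.swap_apply_right _ _
  let F : W.H (pw X (n + 1)) →ₗ[W.K] W.H (pw X (n + 1)) :=
    (W.map (tau X (n + 1) σ)).toLinearMap ∘ₗ lastL W X n b ∘ₗ
      (W.map (tau X (n + 1) σ⁻¹)).toLinearMap
  have hF : ∀ w, F (wb e (n + 1) w) = if p (w l) = b then wb e (n + 1) w else 0 := by
    intro w
    obtain ⟨s, hs, h1⟩ := tau_wb_par hp (n + 1) σ (p ∘ w)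
    have h2 := h1 w rfl
    have h3 : W.map (tau X (n + 1) σ⁻¹) (wb e (n + 1) w) = s⁻¹ • wb e (n + 1) (w ∘ σ) := by
      have h4 := congrArg (W.map (tau X (n + 1) σ⁻¹)) h2
      rw [← W.map_comp, ← tau_mul, inv_mul_cancel, tau_one, W.map_id, map_smul] at h4
      rw [h4, smul_smul, inv_mul_cancel₀ hs, one_smul]
    have h5 : F (wb e (n + 1) w) = W.map (tau X (n + 1) σ) (lastL W X n b
        (W.map (tau X (n + 1) σ⁻¹) (wb e (n + 1) w))) := rfl
    have h6 : lastL W X n b (wb e (n + 1) (w ∘ σ)) = if p (w l) = b then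
        wb e (n + 1) (w ∘ σ) else 0 := by
      have h7 := lastP_wb hp n b (w ∘ σ)
      rw [Function.comp_apply, hσ] at h7
      exact h7
    rw [h5, h3, map_smul, h6, map_smul]
    split_ifs
    · rw [h2, smul_smul, inv_mul_cancel₀ hs, one_smul]
    · rw [map_zero, smul_zero]
  have h1 : clw e (n + 1) (pk p l b a) = F (clw e (n + 1) a) := by
    rw [clw, clw, map_sum]
    refine Finset.sum_congr rfl fun w _ => ?_
    rw [map_smul, hF, pk]
    split_ifs
    · rfl
    · rw [Rat.cast_zero, zero_smul, smul_zero]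
  rw [mem_arrc, h1]
  exact S.map _ (isCd_tau _ _) (lastP_mem hdp b (S.map _ (isCd_tau _ _) ha))

lemma arrc_part (hp : ∀ j, e j ∈ PH W X (p j : ℕ)) (hdp : dp W X ∈ S.C 1) {n : ℕ}
    (ε : Fin (n + 1 + 1) → Fin 2) {a : (Fin (n + 1 + 1) → ι) → ℚ}
    (ha : a ∈ arrc e S (n + 1)) : part p ε a ∈ arrc e S (n + 1) := by
  have key : ∀ s : Finset (Fin (n + 1 + 1)),
      (fun w : Fin (n + 1 + 1) → ι => if ∀ l ∈ s, p (w l) = ε l then a w else 0) ∈
        arrc e S (n + 1) := by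
    intro s
    induction s using Finset.induction_on with
    | empty => simpa using ha
    | insert l s _ ih =>
      have h1 := arrc_pk hp hdp l (ε l) ih
      convert h1 using 1
      funext w
      rw [pk]
      by_cases h2 : p (w l) = ε l
      · rw [if_pos h2]
        refine if_congr ?_ rfl rfl
        rw [Finset.forall_mem_insert]
        exact ⟨fun h => h.2, fun h => ⟨h2, h⟩⟩
      · rw [if_neg h2, if_neg fun h => h2 (h l (Finset.mem_insert_self l s))]
  have h1 := key Finset.univ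
  convert h1 using 1
  funext w
  rw [part]
  refine if_congr ?_ rfl rfl
  rw [funext_iff]
  simp

/-- Permutations. -/
lemma arrc_perm (hp : ∀ j, e j ∈ PH W X (p j : ℕ)) (hdp : dp W X ∈ S.C 1) (n : ℕ)
    (σ : Equiv.Perm (Fin (n + 1))) {a : (Fin (n + 1) → ι) → ℚ} (ha : a ∈ arrc e S n) :
    rei σ a ∈ arrc e S n := by
  rcases n with _ | n
  · have h1 : σ = Equiv.refl _ := by
      ext i
      have h2 : ∀ x y : Fin (0 + 1), x = y := fun x y => Subsingleton.elim (α := Fin 1) x y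
      rw [h2 (σ i) (Equiv.refl _ i)]
    rw [h1]
    exact ha
  have h1 : rei σ a = ∑ ε, rei σ (part p ε a) := by
    conv_lhs => rw [← sum_part p a]
    funext w
    rw [rei, Finset.sum_apply, Finset.sum_apply]
    rfl
  rw [h1]
  refine Submodule.sum_mem _ fun ε _ => ?_
  obtain ⟨s, hs, h⟩ := clw_perm hp (n + 1) σ ε
  rw [mem_arrc]
  have h2 : clw e (n + 1) (rei σ (part p ε a)) =
      s⁻¹ • W.map (tau X (n + 1) σ) (clw e (n + 1) (part p ε a)) := by
    rw [h, smul_smul, inv_mul_cancel₀ hs, one_smul]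
  rw [h2]
  exact Submodule.smul_mem _ _ (S.map _ (isCd_tau _ _) (arrc_part hp hdp ε ha))

end Pool.Agent.N996.BP.Geo
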