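import Mathlib

/-!
# The double commutant theorem for matrices
-/

set_option linter.unusedSectionVars false

namespace Pool.Agent.N996.BP

open Matrix ComplexOrder

variable {N : Type*} [Fintype N] [DecidableEq N]

/-- Orthogonal decomposition for the form `x ↦ ‖M x‖²`. -/
lemma exists_orth (M : Matrix N N ℂ) (U : Submodule ℂ (N → ℂ)) (v : N → ℂ) :
    ∃ u ∈ U, ∀ w ∈ U, star (M *ᵥ w) ⬝ᵥ (M *ᵥ (v - u)) = 0 := by
  let L : (N → ℂ) →ₗ[ℂ] EuclideanSpace ℂ N :=
    (WithLp.linearEquiv 2 ℂ (N → ℂ)).symm.toLinearMap ∘ₗ Matrix.mulVecLin M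
  have hL : ∀ w, L w = WithLp.toLp 2 (M *ᵥ w) := fun w => rfl
  have hv : L v ∈ U.map L ⊔ (U.map L)ᗮ := by
    rw [Submodule.sup_orthogonal_of_hasOrthogonalProjection]
    exact Submodule.mem_top
  obtain ⟨_, ⟨u, hu, rfl⟩, z, hz, h⟩ := Submodule.mem_sup.1 hv
  refine ⟨u, hu, fun w hw => ?_⟩
  have h1 : z = L (v - u) := by rw [map_sub, ← h, add_sub_cancel_left]
  have h2 := (Submodule.mem_orthogonal _ _).1 hz (L w) ⟨w, hw, rfl⟩
  rw [h1, EuclideanSpace.inner_eq_star_dotProduct, dotProduct_comm] at h2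
  exact h2

/-- **Double commutant theorem** for algebras of complex matrices closed under the adjoint with
respect to a positive definite Hermitian form, given by the matrix `Mᴴ M`. -/
theorem mem_of_commutes (G : Subalgebra ℂ (Matrix N N ℂ)) (M Mi : Matrix N N ℂ) (hM : Mi * M = 1)
    (hG : ∀ x ∈ G, ∃ y ∈ G, Mᴴ * M * x = yᴴ * (Mᴴ * M)) (P : Matrix N N ℂ)
    (hP : ∀ x, (∀ y ∈ G, x * y = y * x) → P * x = x * P) : P ∈ G := by
  classical
  -- `N → ℂ` as a module over `G`
  let _ : Module G (N → ℂ) := Module.compHom (N → ℂ)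
    ((Matrix.toLinAlgEquiv' (R := ℂ) (n := N)).toAlgHom.toRingHom.comp G.val.toRingHom)
  have hsm : ∀ (x : G) (v : N → ℂ), x • v = (x : Matrix N N ℂ) *ᵥ v := fun x v => rfl
  -- the scalar product
  let ip : (N → ℂ) → (N → ℂ) → ℂ := fun v w => star (M *ᵥ v) ⬝ᵥ (M *ᵥ w)
  have ip_adj : ∀ x ∈ G, ∃ y ∈ G, ∀ v w, ip v (x *ᵥ w) = ip (y *ᵥ v) w := by
    intro x hx
    obtain ⟨y, hy, h⟩ := hG x hx
    refine ⟨y, hy, fun v w => ?_⟩
    have h1 : ∀ a b : N → ℂ, ip a b = star a ⬝ᵥ ((Mᴴ * M) *ᵥ b) := by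
      intro a b
      change star (M *ᵥ a) ⬝ᵥ (M *ᵥ b) = _
      rw [Matrix.star_mulVec, ← Matrix.dotProduct_mulVec, Matrix.mulVec_mulVec]
    rw [h1, h1, Matrix.star_mulVec, ← Matrix.dotProduct_mulVec, Matrix.mulVec_mulVec,
      Matrix.mulVec_mulVec, h]
  have ip_pos : ∀ v, ip v v = 0 → v = 0 := by
    intro v hv
    have h1 : M *ᵥ v = 0 := by
      change star (M *ᵥ v) ⬝ᵥ (M *ᵥ v) = 0 at hv
      exact dotProduct_star_self_eq_zero.1 hv
    have h2 : Mi *ᵥ (M *ᵥ v) = 0 := by rw [h1, Matrix.mulVec_zero]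
    rwa [Matrix.mulVec_mulVec, hM, Matrix.one_mulVec] at h2
  have ip_add : ∀ v w w', ip v (w + w') = ip v w + ip v w' := by
    intro v w w'
    change _ ⬝ᵥ _ = _
    rw [Matrix.mulVec_add, dotProduct_add]
  have ip_smul : ∀ (c : ℂ) v w, ip v (c • w) = c * ip v w := by
    intro c v w
    change _ ⬝ᵥ _ = _
    rw [Matrix.mulVec_smul, dotProduct_smul, smul_eq_mul]
  have hone : ∀ (c : ℂ) (v : N → ℂ), (algebraMap ℂ G c) • v = c • v := by
    intro c v
    rw [hsm]
    change (algebraMap ℂ (Matrix N N ℂ) c) *ᵥ v = _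
    rw [Matrix.algebraMap_eq_diagonal]
    ext i
    simp [Matrix.mulVec_diagonal]
  -- the module is semisimple
  have hss : IsSemisimpleModule G (N → ℂ) := by
    suffices hcl : ComplementedLattice (Submodule G (N → ℂ)) from { toComplementedLattice := hcl }
    refine ⟨fun U => ?_⟩
    -- `U` as a complex subspace
    let UC : Submodule ℂ (N → ℂ) :=
      { carrier := U
        add_mem' := fun ha hb => U.add_mem ha hb
        zero_mem' := U.zero_mem
        smul_mem' := fun c v hv => by rw [← hone]; exact U.smul_mem _ hv }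
    let V : Submodule G (N → ℂ) :=
      { carrier := {v | ∀ u ∈ U, ip u v = 0}
        add_mem' := fun {a b} ha hb u hu => by rw [ip_add, ha u hu, hb u hu, add_zero]
        zero_mem' := fun u _ => by
          have := ip_smul 0 u 0
          rwa [zero_smul, zero_mul] at this
        smul_mem' := fun x v hv u hu => by
          obtain ⟨y, hy, h⟩ := ip_adj x x.2
          exact (h u v).trans (hv _ (U.smul_mem ⟨y, hy⟩ hu)) }
    refine ⟨V, ?_⟩
    rw [isCompl_iff]
    constructor
    · rw [Submodule.disjoint_def]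
      intro v hv hv'
      exact ip_pos v (hv' v hv)
    · rw [codisjoint_iff, eq_top_iff]
      intro v _
      obtain ⟨u, hu, h⟩ := exists_orth M UC v
      have h1 : v = u + (v - u) := by abel
      rw [h1]
      exact Submodule.add_mem_sup hu h
  -- the density theorem
  have hcomm : ∀ (φ : Module.End G (N → ℂ)) (v : N → ℂ), P *ᵥ (φ v) = φ (P *ᵥ v) := by
    intro φ v
    let φC : (N → ℂ) →ₗ[ℂ] (N → ℂ) :=
      { toFun := φ
        map_add' := φ.map_add
        map_smul' := fun c v => by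
          have h1 := φ.map_smul (algebraMap ℂ G c) v
          exact (congrArg φ (hone c v)).symm.trans (h1.trans (hone c (φ v))) }
    have h1 : ∀ w, φ w = LinearMap.toMatrix' φC *ᵥ w := fun w => by
      rw [← Matrix.toLin'_apply, Matrix.toLin'_toMatrix']
      rfl
    have h2 := hP (LinearMap.toMatrix' φC) (fun y hy => by
      apply Matrix.toLin'.injective
      apply LinearMap.ext
      intro w
      rw [Matrix.toLin'_apply, Matrix.toLin'_apply, ← Matrix.mulVec_mulVec,
        ← Matrix.mulVec_mulVec, ← h1, ← h1]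
      exact φ.map_smul (⟨y, hy⟩ : G) w)
    rw [h1, h1, Matrix.mulVec_mulVec, Matrix.mulVec_mulVec, h2]
  let f : Module.End (Module.End G (N → ℂ)) (N → ℂ) :=
    { toFun := fun v => P *ᵥ v
      map_add' := fun v w => Matrix.mulVec_add _ _ _
      map_smul' := fun φ v => hcomm φ v }
  obtain ⟨r, hr⟩ := jacobson_density f (Finset.univ.image fun i : N => (Pi.single i 1 : N → ℂ))
  have h3 : P = (r : Matrix N N ℂ) := by
    ext i j
    have h4 := hr (Pi.single j 1) (Finset.mem_image_of_mem _ (Finset.mem_univ j))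
    have h5 : P *ᵥ Pi.single j 1 = (r : Matrix N N ℂ) *ᵥ Pi.single j 1 := h4
    rw [Matrix.mulVec_single_one, Matrix.mulVec_single_one] at h5
    exact congrFun h5 i
  rw [h3]
  exact r.2

end Pool.Agent.N996.BP
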