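import Pool.Agent.N996.BP.Fam

/-!
# The functional given by the orthogonal projections
-/

set_option linter.unusedSectionVars false

namespace Pool.Agent.N996.BP

open Matrix MvPolynomial

variable {ι : Type} [Fintype ι] [DecidableEq ι]

/-- The generic matrix. -/
noncomputable def gm (R : Type*) [CommRing R] (ι : Type) : Matrix ι ι (MvPolynomial (ι × ι) R) :=
  Matrix.of fun i j => X (i, j)

/-- The exponent of a monomial in the entries. -/
noncomputable def expo {κ : Type} [Fintype κ] (i j : κ → ι) : (ι × ι) →₀ ℕ :=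
  ∑ k, Finsupp.single (i k, j k) 1

lemma kp_gm (R : Type*) [CommRing R] {κ : Type} [Fintype κ] [DecidableEq κ] (i j : κ → ι) :
    kp κ (gm R ι) i j = monomial (expo i j) 1 := by
  rw [kp_apply, expo, monomial_sum_one]
  rfl

lemma exists_equiv_of_card {κ l α : Type} [Fintype κ] [Fintype l] [DecidableEq α] (w : κ → α)
    (w' : l → α) (h : ∀ a, Fintype.card {i // w i = a} = Fintype.card {i // w' i = a}) :
    ∃ e : κ ≃ l, w = w' ∘ e := by
  let e : (Σ a, {i // w i = a}) ≃ (Σ a, {i // w' i = a}) :=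
    Equiv.sigmaCongrRight fun a => Fintype.equivOfCardEq (h a)
  refine ⟨(Equiv.sigmaFiberEquiv w).symm.trans (e.trans (Equiv.sigmaFiberEquiv w')), ?_⟩
  funext i
  simp only [Function.comp_apply, Equiv.trans_apply]
  have h1 : ∀ s : (Σ a, {i // w i = a}), w' ((Equiv.sigmaFiberEquiv w') (e s)) = s.1 := by
    rintro ⟨a, x⟩
    exact (Fintype.equivOfCardEq (h a) x).2
  rw [h1]
  rfl

lemma expo_apply {κ : Type} [Fintype κ] (i j : κ → ι) (a : ι × ι) :
    expo i j a = Fintype.card {k // (i k, j k) = a} := by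
  rw [expo, Finsupp.finsetSum_apply, Fintype.card_subtype, Finset.card_filter]
  refine Finset.sum_congr rfl fun k _ => ?_
  rw [Finsupp.single_apply]

lemma expo_eq {κ l : Type} [Fintype κ] [Fintype l] {i j : κ → ι} {i' j' : l → ι}
    (h : expo i j = expo i' j') : ∃ e : κ ≃ l, i = i' ∘ e ∧ j = j' ∘ e := by
  obtain ⟨e, he⟩ := exists_equiv_of_card (fun k => (i k, j k)) (fun k => (i' k, j' k)) fun a => by
    rw [← expo_apply, ← expo_apply, h]
  exact ⟨e, funext fun k => congrArg Prod.fst (congrFun he k),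
    funext fun k => congrArg Prod.snd (congrFun he k)⟩

lemma expo_sum {κ l : Type} [Fintype κ] [Fintype l] (i j : κ → ι) (i' j' : l → ι) :
    expo (Sum.elim i i') (Sum.elim j j') = expo i j + expo i' j' := by
  rw [expo, Fintype.sum_sum_type]
  rfl

lemma exists_expo (s : (ι × ι) →₀ ℕ) : ∃ (n : ℕ) (i j : Fin n → ι), expo i j = s := by
  classical
  suffices h : ∃ (κ : Type) (_ : Fintype κ) (i j : κ → ι), expo i j = s by
    obtain ⟨κ, _, i, j, h⟩ := h
    let e := (Fintype.equivFin κ).symm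
    refine ⟨Fintype.card κ, i ∘ e, j ∘ e, ?_⟩
    rw [← h, expo, expo]
    exact Equiv.sum_comp e fun k => Finsupp.single (i k, j k) 1
  induction s using Finsupp.induction_linear with
  | zero => exact ⟨Empty, inferInstance, Empty.elim, Empty.elim, by rw [expo]; simp⟩
  | add f g hf hg =>
    obtain ⟨κ, _, i, j, h⟩ := hf
    obtain ⟨κ', _, i', j', h'⟩ := hg
    exact ⟨κ ⊕ κ', inferInstance, Sum.elim i i', Sum.elim j j', by rw [expo_sum, h, h']⟩
  | single a b =>
    refine ⟨Fin b, inferInstance, fun _ => a.1, fun _ => a.2, ?_⟩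
    rw [expo, Finset.sum_const, Finset.card_univ, Fintype.card_fin]
    simp

variable (D : RData ι) (A : ∀ (κ : Type) [Fintype κ], Submodule ℝ ((κ → ι) → ℝ))

/-- The value of the functional on a monomial. -/
noncomputable def epsVal (s : (ι × ι) →₀ ℕ) : ℝ :=
  Pr D A (Fin (exists_expo s).choose) (exists_expo s).choose_spec.choose
    (exists_expo s).choose_spec.choose_spec.choose

/-- The functional. -/
noncomputable def eps : MvPolynomial (ι × ι) ℝ →ₗ[ℝ] ℝ :=
  (MvPolynomial.basisMonomials (ι × ι) ℝ).constr ℝ (epsVal D A)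

variable {D A}

lemma Pr_expo (H : IsFam D A) {κ l : Type} [Fintype κ] [DecidableEq κ] [Fintype l]
    [DecidableEq l] {i j : κ → ι} {i' j' : l → ι} (h : expo i j = expo i' j') :
    Pr D A κ i j = Pr D A l i' j' := by
  obtain ⟨e, h2, h3⟩ := expo_eq h
  rw [h2, h3, ← Pr_rei H e]

lemma eps_kp (H : IsFam D A) {κ : Type} [Fintype κ] [DecidableEq κ] (i j : κ → ι) :
    eps D A (kp κ (gm ℝ ι) i j) = Pr D A κ i j := by
  have h1 : kp κ (gm ℝ ι) i j = MvPolynomial.basisMonomials (ι × ι) ℝ (expo i j) := by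
    rw [kp_gm, MvPolynomial.coe_basisMonomials]
  rw [h1, eps, Module.Basis.constr_basis, epsVal]
  exact Pr_expo H (exists_expo (expo i j)).choose_spec.choose_spec.choose_spec

variable (A) in
/-- The relations expressing that the arrays are fixed. -/
noncomputable def relA {κ : Type} [Fintype κ] [DecidableEq κ] (a : (κ → ι) → ℝ) (i : κ → ι) :
    MvPolynomial (ι × ι) ℝ :=
  ∑ j, kp κ (gm ℝ ι) i j * C (a j) - C (a i)

variable (A) in
/-- The ideal generated by the relations. -/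
noncomputable def IA : Ideal (MvPolynomial (ι × ι) ℝ) :=
  Ideal.span {f | ∃ (κ : Type) (_ : Fintype κ) (_ : DecidableEq κ) (a : (κ → ι) → ℝ) (i : κ → ι),
    a ∈ A κ ∧ f = relA a i}

/-- The functional vanishes on the ideal. -/
lemma eps_IA (H : IsFam D A) {f : MvPolynomial (ι × ι) ℝ} (hf : f ∈ IA A) : eps D A f = 0 := by
  classical
  have key : ∀ (κ : Type) [Fintype κ] [DecidableEq κ] (a : (κ → ι) → ℝ) (i : κ → ι), a ∈ A κ →
      ∀ g, eps D A (g * relA a i) = 0 := by
    intro κ _ _ a i ha g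
    induction g using MvPolynomial.induction_on' with
    | monomial s c =>
      obtain ⟨n, p, q, rfl⟩ := exists_expo s
      have h1 : monomial (expo p q) c = c • kp (Fin n) (gm ℝ ι) p q := by
        rw [kp_gm, smul_monomial, smul_eq_mul, mul_one]
      rw [h1, smul_mul_assoc, map_smul, relA, mul_sub, Finset.mul_sum, map_sub, map_sum]
      have h2 : ∀ j, eps D A (kp (Fin n) (gm ℝ ι) p q * (kp κ (gm ℝ ι) i j * C (a j))) =
          Pr D A (Fin n ⊕ κ) (Sum.elim p i) (Sum.elim q j) * a j := by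
        intro j
        rw [← mul_assoc, ← kp_sum, mul_comm, ← smul_eq_C_mul, map_smul, eps_kp H, smul_eq_mul,
          mul_comm]
      rw [Finset.sum_congr rfl fun j _ => h2 j, Pr_tens_apply H ha, mul_comm _ (C (a i)),
        ← smul_eq_C_mul, map_smul, eps_kp H, smul_eq_mul]
      ring
    | add p q hp hq => rw [add_mul, map_add, hp, hq, add_zero]
  rw [IA] at hf
  induction hf using Submodule.span_induction with
  | mem x hx =>
    obtain ⟨κ, _, _, a, i, ha, rfl⟩ := hx
    have := key κ a i ha 1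
    rwa [one_mul] at this
  | zero => rw [map_zero]
  | add x y _ _ hx hy => rw [map_add, hx, hy, add_zero]
  | smul g x hx' hx =>
    rw [smul_eq_mul]
    clear hx
    revert g
    induction hx' using Submodule.span_induction with
    | mem x hx =>
      obtain ⟨κ, _, _, a, i, ha, rfl⟩ := hx
      intro g
      exact key κ a i ha g
    | zero => intro g; rw [mul_zero, map_zero]
    | add x y _ _ hx hy => intro g; rw [mul_add, map_add, hx, hy, add_zero]
    | smul g x _ hx => intro g'; rw [smul_eq_mul, ← mul_assoc]; exact hx _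

/-- The function `g ↦ tr (g T)`. -/
noncomputable def ft {κ : Type} [Fintype κ] [DecidableEq κ] (T : Matrix (κ → ι) (κ → ι) ℝ) :
    MvPolynomial (ι × ι) ℝ :=
  ∑ i, ∑ j, T j i • kp κ (gm ℝ ι) i j

lemma eps_ft (H : IsFam D A) {κ : Type} [Fintype κ] [DecidableEq κ]
    (T : Matrix (κ → ι) (κ → ι) ℝ) : eps D A (ft T) = (Pr D A κ * T).trace := by
  rw [ft, map_sum, Matrix.trace]
  refine Finset.sum_congr rfl fun i _ => ?_
  rw [map_sum, Matrix.diag_apply, Matrix.mul_apply]
  refine Finset.sum_congr rfl fun j _ => ?_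
  rw [map_smul, eps_kp H, smul_eq_mul, mul_comm]

lemma ft_add {κ : Type} [Fintype κ] [DecidableEq κ] (T T' : Matrix (κ → ι) (κ → ι) ℝ) :
    ft (T + T') = ft T + ft T' := by
  simp only [ft, Matrix.add_apply, add_smul, Finset.sum_add_distrib]

lemma ft_smul {κ : Type} [Fintype κ] [DecidableEq κ] (c : ℝ) (T : Matrix (κ → ι) (κ → ι) ℝ) :
    ft (c • T) = c • ft T := by
  simp only [ft, Matrix.smul_apply, Finset.smul_sum, smul_smul, smul_eq_mul]

/-- The product of matrices of arrays. -/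
def krn {R : Type*} [CommRing R] {κ l : Type} (T : Matrix (κ → ι) (κ → ι) R)
    (T' : Matrix (l → ι) (l → ι) R) : Matrix (κ ⊕ l → ι) (κ ⊕ l → ι) R :=
  Matrix.of fun i j => T (i ∘ Sum.inl) (j ∘ Sum.inl) * T' (i ∘ Sum.inr) (j ∘ Sum.inr)

@[simp] lemma krn_elim {R : Type*} [CommRing R] {κ l : Type} (T : Matrix (κ → ι) (κ → ι) R)
    (T' : Matrix (l → ι) (l → ι) R) (i j : κ → ι) (i' j' : l → ι) :
    krn T T' (Sum.elim i i') (Sum.elim j j') = T i j * T' i' j' := by
  simp [krn]

lemma ft_krn {κ l : Type} [Fintype κ] [DecidableEq κ] [Fintype l] [DecidableEq l]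
    (T : Matrix (κ → ι) (κ → ι) ℝ) (T' : Matrix (l → ι) (l → ι) ℝ) :
    ft (krn T T') = ft T * ft T' := by
  rw [ft, ft, ft, sum_sumElim, Finset.sum_mul_sum]
  refine Finset.sum_congr rfl fun i _ => Finset.sum_congr rfl fun i' _ => ?_
  rw [sum_sumElim, Finset.sum_mul_sum]
  refine Finset.sum_congr rfl fun j _ => Finset.sum_congr rfl fun j' _ => ?_
  rw [krn_elim, kp_sum, smul_mul_smul_comm]

lemma krn_mul {R : Type*} [CommRing R] {κ l : Type} [Fintype κ] [DecidableEq κ] [Fintype l]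
    [DecidableEq l] (T U : Matrix (κ → ι) (κ → ι) R) (T' U' : Matrix (l → ι) (l → ι) R) :
    krn T T' * krn U U' = krn (T * U) (T' * U') := by
  ext i j
  obtain ⟨i₁, i₂, rfl⟩ : ∃ i₁ i₂, i = Sum.elim i₁ i₂ := ⟨i ∘ Sum.inl, i ∘ Sum.inr, by simp⟩
  obtain ⟨j₁, j₂, rfl⟩ : ∃ i₁ i₂, j = Sum.elim i₁ i₂ := ⟨j ∘ Sum.inl, j ∘ Sum.inr, by simp⟩
  rw [Matrix.mul_apply, sum_sumElim, krn_elim, Matrix.mul_apply, Matrix.mul_apply,
    Finset.sum_mul_sum]
  refine Finset.sum_congr rfl fun x _ => Finset.sum_congr rfl fun y _ => ?_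
  rw [krn_elim, krn_elim]
  ring

lemma kp_krn {R : Type*} [CommRing R] {κ l : Type} [Fintype κ] [DecidableEq κ] [Fintype l]
    [DecidableEq l] (g : Matrix ι ι R) : kp (κ ⊕ l) g = krn (kp κ g) (kp l g) := by
  ext i j
  obtain ⟨i₁, i₂, rfl⟩ : ∃ i₁ i₂, i = Sum.elim i₁ i₂ := ⟨i ∘ Sum.inl, i ∘ Sum.inr, by simp⟩
  obtain ⟨j₁, j₂, rfl⟩ : ∃ i₁ i₂, j = Sum.elim i₁ i₂ := ⟨j ∘ Sum.inl, j ∘ Sum.inr, by simp⟩
  rw [kp_sum, krn_elim]

end Pool.Agent.N996.BP
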