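import Pool.Agent.N996.BP.Eps

/-!
# Positivity of the functional, and members of the family
-/

set_option linter.unusedSectionVars false

namespace Pool.Agent.N996.BP

open Matrix MvPolynomial

variable {ι : Type} [Fintype ι] [DecidableEq ι]

section Star

variable (D : RData ι) (κ : Type) [Fintype κ] [DecidableEq κ]

/-- The adjoint for the scalar product. -/
noncomputable def adj : Matrix (κ → ι) (κ → ι) ℝ →ₗ[ℝ] Matrix (κ → ι) (κ → ι) ℝ where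
  toFun x := kp κ D.Si * xᵀ * kp κ D.S
  map_add' x y := by rw [Matrix.transpose_add, Matrix.mul_add, Matrix.add_mul]
  map_smul' c x := by
    rw [Matrix.transpose_smul, Matrix.mul_smul, Matrix.smul_mul, RingHom.id_apply]

variable {D κ}

lemma adj_apply (x : Matrix (κ → ι) (κ → ι) ℝ) : adj D κ x = kp κ D.Si * xᵀ * kp κ D.S := rfl

lemma kS_kSi : kp κ D.S * kp κ D.Si = 1 := kp_inv_mul D.S_Si
lemma kSi_kS : kp κ D.Si * kp κ D.S = 1 := kp_inv_mul D.Si_S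

lemma kSi_tr : (kp κ D.Si)ᵀ = kp κ D.Si := by
  rw [← kp_transpose, RData.Si, Matrix.transpose_mul, Matrix.transpose_transpose]

lemma posTr : PosTr (adj D κ) (Matrix.traceLinearMap (κ → ι) ℝ ℝ) := by
  refine ⟨fun x y => ?_, fun x => ?_, fun x => ?_, fun x y => ?_, fun x hx => ?_⟩
  · rw [adj_apply, adj_apply, adj_apply, Matrix.transpose_mul]
    calc kp κ D.Si * (yᵀ * xᵀ) * kp κ D.S =
        kp κ D.Si * yᵀ * 1 * xᵀ * kp κ D.S := by rw [Matrix.mul_one]; simp only [Matrix.mul_assoc]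
      _ = _ := by rw [← kS_kSi (D := D) (κ := κ)]; simp only [Matrix.mul_assoc]
  · rw [adj_apply, adj_apply, Matrix.transpose_mul, Matrix.transpose_mul,
      Matrix.transpose_transpose, RData.kS_tr, kSi_tr]
    calc kp κ D.Si * (kp κ D.S * (x * kp κ D.Si)) * kp κ D.S =
        (kp κ D.Si * kp κ D.S) * x * (kp κ D.Si * kp κ D.S) := by simp only [Matrix.mul_assoc]
      _ = x := by rw [kSi_kS, Matrix.one_mul, Matrix.mul_one]
  · rw [Matrix.traceLinearMap_apply, Matrix.traceLinearMap_apply, adj_apply, Matrix.trace_mul_comm,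
      ← Matrix.mul_assoc, kS_kSi, Matrix.one_mul, Matrix.trace_transpose]
  · rw [Matrix.traceLinearMap_apply, Matrix.traceLinearMap_apply, Matrix.trace_mul_comm]
  · have hM : kp κ D.Mi * kp κ D.M = 1 := kp_inv_mul D.hM'
    have hM' : kp κ D.M * kp κ D.Mi = 1 := kp_inv_mul D.hM
    obtain ⟨y, hy⟩ : ∃ y, y = kp κ D.M * x * kp κ D.Mi := ⟨_, rfl⟩
    have h1 : (adj D κ x * x).trace = (yᵀ * y).trace := by
      rw [adj_apply, hy, RData.kS, RData.Si, kp_mul, kp_transpose, Matrix.transpose_mul,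
        Matrix.transpose_mul]
      calc (kp κ D.Mi * (kp κ D.Mi)ᵀ * xᵀ * ((kp κ D.M)ᵀ * kp κ D.M) * x).trace =
          (kp κ D.Mi * ((kp κ D.Mi)ᵀ * xᵀ * ((kp κ D.M)ᵀ * kp κ D.M) * x)).trace := by
            simp only [Matrix.mul_assoc]
        _ = (((kp κ D.Mi)ᵀ * xᵀ * ((kp κ D.M)ᵀ * kp κ D.M) * x) * kp κ D.Mi).trace := by
            rw [Matrix.trace_mul_comm]
        _ = _ := by simp only [Matrix.mul_assoc]
    have hy0 : y ≠ 0 := by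
      intro h
      apply hx
      calc x = (kp κ D.Mi * kp κ D.M) * x * (kp κ D.Mi * kp κ D.M) := by
            rw [hM, Matrix.one_mul, Matrix.mul_one]
        _ = kp κ D.Mi * (kp κ D.M * x * kp κ D.Mi) * kp κ D.M := by
            simp only [Matrix.mul_assoc]
        _ = 0 := by rw [← hy, h, Matrix.mul_zero, Matrix.zero_mul]
    rw [Matrix.traceLinearMap_apply, h1, Matrix.trace]
    have h2 : ∀ i, (yᵀ * y).diag i = ∑ j, y j i * y j i := fun i => by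
      rw [Matrix.diag_apply, Matrix.mul_apply]; rfl
    obtain ⟨i, j, hij⟩ : ∃ i j, y i j ≠ 0 := by
      by_contra h
      push Not at h
      exact hy0 (Matrix.ext h)
    refine Finset.sum_pos' (fun k _ => ?_) ⟨j, Finset.mem_univ j, ?_⟩
    · rw [h2]; exact Finset.sum_nonneg fun _ _ => mul_self_nonneg _
    · rw [h2]
      exact Finset.sum_pos' (fun _ _ => mul_self_nonneg _)
        ⟨i, Finset.mem_univ i, mul_self_pos.2 hij⟩

end Star

variable {D : RData ι} {A : ∀ (κ : Type) [Fintype κ], Submodule ℝ ((κ → ι) → ℝ)}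

variable {κ : Type} [Fintype κ] [DecidableEq κ]

lemma kQ_kQi : kp κ D.Q * kp κ D.Qi = 1 := kp_inv_mul D.hQ
lemma kQi_kQ : kp κ D.Qi * kp κ D.Q = 1 := kp_inv_mul D.hQ'
lemma kC_kCi : kp κ D.C * kp κ D.Ci = 1 := kp_inv_mul D.hC
lemma kCi_kC : kp κ D.Ci * kp κ D.C = 1 := kp_inv_mul D.hC'
lemma kS_eq : kp κ D.S = kp κ D.Q * kp κ D.C := by rw [D.S_eq, kp_mul]
lemma kCQ : (kp κ D.C)ᵀ * kp κ D.Q * kp κ D.C = kp κ D.Q := by
  rw [← kp_transpose, ← kp_mul, ← kp_mul, D.hCQ]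

/-- `Cᵀ = Q C⁻¹ Q⁻¹`. -/
lemma kCt : (kp κ D.C)ᵀ = kp κ D.Q * kp κ D.Ci * kp κ D.Qi := by
  calc (kp κ D.C)ᵀ = (kp κ D.C)ᵀ * kp κ D.Q * (kp κ D.C * kp κ D.Ci) * kp κ D.Qi := by
        rw [kC_kCi, Matrix.mul_one, Matrix.mul_assoc, kQ_kQi, Matrix.mul_one]
    _ = ((kp κ D.C)ᵀ * kp κ D.Q * kp κ D.C) * kp κ D.Ci * kp κ D.Qi := by
        simp only [Matrix.mul_assoc]
    _ = _ := by rw [kCQ]

/-- `Qᵀ = Q C²`. -/
lemma kQt : (kp κ D.Q)ᵀ = kp κ D.Q * kp κ D.C * kp κ D.C := by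
  have h1 : (kp κ D.Q * kp κ D.C)ᵀ = kp κ D.Q * kp κ D.C := by rw [← kS_eq, RData.kS_tr]
  rw [Matrix.transpose_mul] at h1
  have h2 : (kp κ D.Ci)ᵀ * (kp κ D.C)ᵀ = 1 := by
    rw [← Matrix.transpose_mul, kC_kCi, Matrix.transpose_one]
  have h3 : (kp κ D.Ci)ᵀ * kp κ D.Q = kp κ D.Q * kp κ D.C := by
    calc (kp κ D.Ci)ᵀ * kp κ D.Q = (kp κ D.Ci)ᵀ * ((kp κ D.C)ᵀ * kp κ D.Q * kp κ D.C) := by
          rw [kCQ]
      _ = ((kp κ D.Ci)ᵀ * (kp κ D.C)ᵀ) * kp κ D.Q * kp κ D.C := by simp only [Matrix.mul_assoc]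
      _ = _ := by rw [h2, Matrix.one_mul]
  calc (kp κ D.Q)ᵀ = ((kp κ D.Ci)ᵀ * (kp κ D.C)ᵀ) * (kp κ D.Q)ᵀ := by rw [h2, Matrix.one_mul]
    _ = (kp κ D.Ci)ᵀ * (kp κ D.Q * kp κ D.C) := by rw [Matrix.mul_assoc, h1]
    _ = _ := by rw [← Matrix.mul_assoc, h3]

/-- The algebra of operators of the family. -/
def opA (H : IsFam D A) (κ : Type) [Fintype κ] [DecidableEq κ] :
    Submodule ℝ (Matrix (κ → ι) (κ → ι) ℝ) where
  carrier := {x | ∃ a ∈ A (κ ⊕ κ), x = mat a * kp κ D.Q}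
  add_mem' := by
    rintro _ _ ⟨a, ha, rfl⟩ ⟨b, hb, rfl⟩
    exact ⟨a + b, Submodule.add_mem _ ha hb, by rw [← Matrix.add_mul]; rfl⟩
  zero_mem' := ⟨0, Submodule.zero_mem _, by
    have : mat (0 : (κ ⊕ κ → ι) → ℝ) = 0 := rfl
    rw [this, Matrix.zero_mul]⟩
  smul_mem' := by
    rintro c _ ⟨a, ha, rfl⟩
    exact ⟨c • a, Submodule.smul_mem _ _ ha, by rw [← Matrix.smul_mul]; rfl⟩

lemma mem_opA (H : IsFam D A) {x : Matrix (κ → ι) (κ → ι) ℝ} :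
    x ∈ opA H κ ↔ ∃ a ∈ A (κ ⊕ κ), x = mat a * kp κ D.Q := Iff.rfl

/-- The adjoint of `a Q`. -/
lemma adj_matQ (H : IsFam D A) {a : (κ ⊕ κ → ι) → ℝ} (ha : a ∈ A (κ ⊕ κ)) :
    adj D κ (mat a * kp κ D.Q) = (mat a)ᵀ * (kp κ D.Q)ᵀ := by
  -- `C` fixes the transposed array
  have h1 : kp κ D.C * (mat a)ᵀ * (kp κ D.C)ᵀ = (mat a)ᵀ := by
    have h := H.fix _ _ (H.trM ha)
    have h2 := congrArg mat h
    rwa [mat_kp, mat_arr] at h2
  have h3 : kp κ D.C * (mat a)ᵀ = (mat a)ᵀ * (kp κ D.Ci)ᵀ := by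
    calc kp κ D.C * (mat a)ᵀ = kp κ D.C * (mat a)ᵀ * ((kp κ D.C)ᵀ * (kp κ D.Ci)ᵀ) := by
          rw [← Matrix.transpose_mul, kCi_kC, Matrix.transpose_one, Matrix.mul_one]
      _ = (kp κ D.C * (mat a)ᵀ * (kp κ D.C)ᵀ) * (kp κ D.Ci)ᵀ := by
          simp only [Matrix.mul_assoc]
      _ = _ := by rw [h1]
  -- `S⁻¹ Qᵀ = C`
  have h4 : kp κ D.Si * (kp κ D.Q)ᵀ = kp κ D.C := by
    rw [kQt, ← kS_eq, ← Matrix.mul_assoc, kSi_kS, Matrix.one_mul]
  -- `(C⁻¹)ᵀ S = Qᵀ`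
  have h5 : (kp κ D.Ci)ᵀ * kp κ D.S = (kp κ D.Q)ᵀ := by
    rw [← RData.kS_tr, ← Matrix.transpose_mul, kS_eq, Matrix.mul_assoc, kC_kCi, Matrix.mul_one]
  rw [adj_apply, Matrix.transpose_mul]
  calc kp κ D.Si * ((kp κ D.Q)ᵀ * (mat a)ᵀ) * kp κ D.S =
      (kp κ D.Si * (kp κ D.Q)ᵀ) * (mat a)ᵀ * kp κ D.S := by simp only [Matrix.mul_assoc]
    _ = (mat a)ᵀ * ((kp κ D.Ci)ᵀ * kp κ D.S) := by rw [h4, h3, Matrix.mul_assoc]
    _ = _ := by rw [h5]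

lemma opA_mul (H : IsFam D A) {x y : Matrix (κ → ι) (κ → ι) ℝ} (hx : x ∈ opA H κ)
    (hy : y ∈ opA H κ) : x * y ∈ opA H κ := by
  obtain ⟨a, ha, rfl⟩ := hx
  obtain ⟨b, hb, rfl⟩ := hy
  exact ⟨_, H.mulM ha hb, by rw [mat_arr, Matrix.mul_assoc, Matrix.mul_assoc, Matrix.mul_assoc]⟩

lemma opA_adj (H : IsFam D A) {x : Matrix (κ → ι) (κ → ι) ℝ} (hx : x ∈ opA H κ) :
    adj D κ x ∈ opA H κ := by
  obtain ⟨a, ha, rfl⟩ := hx
  rw [adj_matQ H ha]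
  refine ⟨_, H.mulM' (H.trM ha) (H.invM κ), ?_⟩
  rw [mat_arr, mat_arr, mat_arr, Matrix.mul_assoc, kQi_kQ, Matrix.mul_one]

/-- **Positivity.** -/
theorem eps_sq_nonneg (H : IsFam D A) (T : Matrix (κ → ι) (κ → ι) ℝ)
    (hT : T * kp κ D.C = kp κ D.C * T) : 0 ≤ eps D A (ft T * ft T) := by
  obtain ⟨n, a, ha, hx⟩ := exists_onbA D A (κ ⊕ κ)
  have hP := (isPr_Pr (D := D) (A := A) (κ ⊕ κ)).unique (isPr_onb ha hx)
  rw [← ft_krn, eps_ft H, hP]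
  -- the orthonormal basis of the algebra of operators
  have hform : ∀ b ∈ A (κ ⊕ κ), ∀ c, pf (adj D κ) (Matrix.traceLinearMap (κ → ι) ℝ ℝ)
      (mat b * kp κ D.Q) (mat c * kp κ D.Q) = D.bf (κ ⊕ κ) b c := by
    intro b hb c
    rw [pf_apply, adj_matQ H hb, Matrix.traceLinearMap_apply, D.bf_symm, D.bf_apply, H.S_eq hb]
    have h1 : c ⬝ᵥ (kp (κ ⊕ κ) D.Q *ᵥ b) =
        ∑ i, ∑ j, mat c i j * (kp κ D.Q * mat b * (kp κ D.Q)ᵀ) i j := by
      rw [dotProduct, sum_sumElim]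
      refine Finset.sum_congr rfl fun i _ => Finset.sum_congr rfl fun j _ => ?_
      rw [← mat_kp]
      rfl
    rw [h1, Matrix.trace_mul_comm]
    have h2 : mat c * kp κ D.Q * ((mat b)ᵀ * (kp κ D.Q)ᵀ) =
        mat c * (kp κ D.Q * mat b * (kp κ D.Q)ᵀ)ᵀ := by
      rw [Matrix.transpose_mul, Matrix.transpose_mul, Matrix.transpose_transpose]
      simp only [Matrix.mul_assoc]
    rw [h2, Matrix.trace]
    refine Finset.sum_congr rfl fun i _ => ?_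
    rw [Matrix.diag_apply, Matrix.mul_apply]
    rfl
  have hx' : ∀ x ∈ opA H κ, x = ∑ k, pf (adj D κ) (Matrix.traceLinearMap (κ → ι) ℝ ℝ)
      (mat (a k) * kp κ D.Q) x • (mat (a k) * kp κ D.Q) := by
    rintro _ ⟨b, hb, rfl⟩
    have h1 := hx b hb
    have h2 : ∀ k, pf (adj D κ) (Matrix.traceLinearMap (κ → ι) ℝ ℝ)
      (mat (a k) * kp κ D.Q) (mat b * kp κ D.Q) = D.bf (κ ⊕ κ) (a k) b := fun k =>
      hform _ (ha k) b
    simp only [h2]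
    conv_lhs => rw [h1]
    have h3 : mat (∑ k, D.bf (κ ⊕ κ) (a k) b • a k) = ∑ k, D.bf (κ ⊕ κ) (a k) b • mat (a k) := by
      ext i j
      simp only [mat_apply, Finset.sum_apply, Matrix.sum_apply, Pi.smul_apply, Matrix.smul_apply]
    rw [h3, Matrix.sum_mul]
    exact Finset.sum_congr rfl fun k _ => Matrix.smul_mul _ _ _
  have key := (posTr (D := D) (κ := κ)).casimir_nonneg (fun k => mat (a k) * kp κ D.Q)
    (opA H κ) (fun k => ⟨a k, ha k, rfl⟩) (fun x hx y hy => opA_mul H hx hy)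
    (fun x hx => opA_adj H hx) hx' T
  convert key using 1
  rw [Matrix.traceLinearMap_apply, Matrix.sum_mul, Matrix.trace_sum, Matrix.trace_sum]
  refine Finset.sum_congr rfl fun k _ => ?_
  -- `T` commutes with `C`
  have hTi : T * kp κ D.Ci = kp κ D.Ci * T := by
    calc T * kp κ D.Ci = (kp κ D.Ci * kp κ D.C) * T * kp κ D.Ci := by
          rw [kCi_kC, Matrix.one_mul]
      _ = kp κ D.Ci * (T * kp κ D.C) * kp κ D.Ci := by rw [hT]; simp only [Matrix.mul_assoc]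
      _ = kp κ D.Ci * T * (kp κ D.C * kp κ D.Ci) := by simp only [Matrix.mul_assoc]
      _ = _ := by rw [kC_kCi, Matrix.mul_one]
  -- left side
  have e1 : (Matrix.vecMulVec (a k) (kp (κ ⊕ κ) D.S *ᵥ a k) * krn T T).trace =
      ((T * mat (a k) * Tᵀ) * (kp κ D.S * mat (a k) * (kp κ D.S)ᵀ)ᵀ).trace := by
    rw [Matrix.trace_mul_comm, Matrix.trace, Matrix.trace, sum_sumElim]
    have h1 : ∀ (j j' : κ → ι), (krn T T * Matrix.vecMulVec (a k)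
        (kp (κ ⊕ κ) D.S *ᵥ a k)).diag (Sum.elim j j') =
        (T * mat (a k) * Tᵀ) j j' * (kp κ D.S * mat (a k) * (kp κ D.S)ᵀ) j j' := by
      intro j j'
      rw [Matrix.diag_apply, Matrix.mul_apply, sum_sumElim, ← mat_kp, mat_apply]
      simp only [Matrix.vecMulVec_apply, krn_elim, Matrix.mul_apply, Matrix.transpose_apply,
        Finset.sum_mul, mat_apply]
      rw [Finset.sum_comm]
      refine Finset.sum_congr rfl fun x _ => Finset.sum_congr rfl fun y _ => ?_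
      ring
    simp only [h1]
    refine Finset.sum_congr rfl fun i _ => ?_
    rw [Matrix.diag_apply, Matrix.mul_apply]
    rfl
  rw [e1]
  congr 1
  rw [adj_matQ H (ha k), adj_apply, Matrix.transpose_mul, Matrix.transpose_mul,
    Matrix.transpose_transpose, RData.kS_tr]
  -- `Q S⁻¹ Tᵀ S Qᵀ...`
  have e2 : kp κ D.Q * kp κ D.Si = kp κ D.Q * kp κ D.Ci * kp κ D.Qi := by
    have h6 : kp κ D.Si = kp κ D.Ci * kp κ D.Qi := by
      calc kp κ D.Si = kp κ D.Si * ((kp κ D.Q * kp κ D.C) * (kp κ D.Ci * kp κ D.Qi)) := by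
            rw [Matrix.mul_assoc (kp κ D.Q), ← Matrix.mul_assoc (kp κ D.C), kC_kCi,
              Matrix.one_mul, kQ_kQi, Matrix.mul_one]
        _ = _ := by rw [← kS_eq, ← Matrix.mul_assoc, kSi_kS, Matrix.one_mul]
    rw [h6, Matrix.mul_assoc]
  have hTt : (kp κ D.C)ᵀ * Tᵀ = Tᵀ * (kp κ D.C)ᵀ := by
    rw [← Matrix.transpose_mul, ← Matrix.transpose_mul, hT]
  have e3 : (kp κ D.C)ᵀ * kp κ D.S = kp κ D.S * kp κ D.Ci := by
    calc (kp κ D.C)ᵀ * kp κ D.S = ((kp κ D.C)ᵀ * kp κ D.Q * kp κ D.C) := by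
          rw [kS_eq, Matrix.mul_assoc]
      _ = kp κ D.Q := kCQ
      _ = _ := by rw [kS_eq, Matrix.mul_assoc, kC_kCi, Matrix.mul_one]
  have h1 : kp κ D.C * (mat (a k))ᵀ * (kp κ D.C)ᵀ = (mat (a k))ᵀ := by
    have h := H.fix _ _ (H.trM (ha k))
    have h2 := congrArg mat h
    rwa [mat_kp, mat_arr] at h2
  have e4 : (mat (a k))ᵀ * (kp κ D.Q)ᵀ = kp κ D.C * (mat (a k))ᵀ * kp κ D.S := by
    have h5 : (kp κ D.Ci)ᵀ * kp κ D.S = (kp κ D.Q)ᵀ := by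
      rw [← RData.kS_tr, ← Matrix.transpose_mul, kS_eq, Matrix.mul_assoc, kC_kCi, Matrix.mul_one]
    have h7 : (kp κ D.C)ᵀ * (kp κ D.Q)ᵀ = kp κ D.S := by
      rw [← h5, ← Matrix.mul_assoc, ← Matrix.transpose_mul, kCi_kC, Matrix.transpose_one,
        Matrix.one_mul]
    calc (mat (a k))ᵀ * (kp κ D.Q)ᵀ =
        kp κ D.C * (mat (a k))ᵀ * ((kp κ D.C)ᵀ * (kp κ D.Q)ᵀ) := by
          rw [← Matrix.mul_assoc, h1]
      _ = _ := by rw [h7]
  rw [e4]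
  symm
  calc T * (mat (a k) * kp κ D.Q) * (kp κ D.Si * Tᵀ * kp κ D.S) *
        (kp κ D.C * (mat (a k))ᵀ * kp κ D.S) =
      T * mat (a k) * (kp κ D.Q * kp κ D.Si) * Tᵀ * kp κ D.S *
        (kp κ D.C * (mat (a k))ᵀ * kp κ D.S) := by simp only [Matrix.mul_assoc]
    _ = T * mat (a k) * ((kp κ D.C)ᵀ * Tᵀ) * kp κ D.S *
        (kp κ D.C * (mat (a k))ᵀ * kp κ D.S) := by
          rw [e2, ← kCt]; simp only [Matrix.mul_assoc]
    _ = T * mat (a k) * Tᵀ * ((kp κ D.C)ᵀ * kp κ D.S) *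
        (kp κ D.C * (mat (a k))ᵀ * kp κ D.S) := by
          rw [hTt]; simp only [Matrix.mul_assoc]
    _ = T * mat (a k) * Tᵀ * kp κ D.S * (kp κ D.Ci * kp κ D.C) * (mat (a k))ᵀ * kp κ D.S := by
          rw [e3]; simp only [Matrix.mul_assoc]
    _ = _ := by rw [kCi_kC, Matrix.mul_one]; simp only [Matrix.mul_assoc]

end Pool.Agent.N996.BP
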