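import Mathlib

/-!
# Positivity of a Casimir type sum
-/

set_option linter.unusedSectionVars false

namespace Pool.Agent.N996.BP

/-- Orthonormal bases for positive definite symmetric forms. -/
lemma exists_onb {V : Type*} [AddCommGroup V] [Module ℝ V] [FiniteDimensional ℝ V]
    (B : LinearMap.BilinForm ℝ V) (hs : ∀ x y, B x y = B y x) (hp : ∀ x, x ≠ 0 → 0 < B x x) :
    ∃ a : Fin (Module.finrank ℝ V) → V, (∀ i j, B (a i) (a j) = if i = j then 1 else 0) ∧
      ∀ x, x = ∑ i, B (a i) x • a i := by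
  classical
  have hsym : LinearMap.IsSymm B := ⟨fun x y => by simpa using hs x y⟩
  obtain ⟨v, hv⟩ := LinearMap.BilinForm.exists_orthogonal_basis hsym
  have hpos : ∀ i, 0 < B (v i) (v i) := fun i => hp _ (v.ne_zero i)
  have horth : ∀ i j, i ≠ j → B (v i) (v j) = 0 := fun i j h => hv h
  let s : Fin (Module.finrank ℝ V) → ℝ := fun i => (Real.sqrt (B (v i) (v i)))⁻¹
  have hs2 : ∀ i, s i * s i * B (v i) (v i) = 1 := fun i => by
    have h1 : Real.sqrt (B (v i) (v i)) * Real.sqrt (B (v i) (v i)) = B (v i) (v i) :=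
      Real.mul_self_sqrt (hpos i).le
    have h2 : Real.sqrt (B (v i) (v i)) ≠ 0 := (Real.sqrt_pos.2 (hpos i)).ne'
    simp only [s]
    field_simp
    nlinarith [h1]
  refine ⟨fun i => s i • v i, fun i j => ?_, fun x => ?_⟩
  · simp only [map_smul, LinearMap.smul_apply, smul_eq_mul]
    by_cases h : i = j
    · subst h
      rw [if_pos rfl, ← hs2 i]
      ring
    · rw [horth i j h, if_neg h]; ring
  · conv_lhs => rw [← v.sum_repr x]
    refine Finset.sum_congr rfl fun i _ => ?_
    have h1 : B (v i) x = v.repr x i * B (v i) (v i) := by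
      conv_lhs => rw [← v.sum_repr x]
      rw [map_sum, Finset.sum_eq_single i]
      · rw [map_smul, smul_eq_mul]
      · intro j _ hj
        rw [map_smul, horth i j (Ne.symm hj), smul_zero]
      · intro h; exact absurd (Finset.mem_univ i) h
    rw [map_smul, LinearMap.smul_apply, h1, smul_smul, smul_eq_mul]
    congr 1
    have := hs2 i
    calc v.repr x i = v.repr x i * (s i * s i * B (v i) (v i)) := by rw [this, mul_one]
      _ = _ := by ring

section Star

variable {M : Type*} [Ring M] [Algebra ℝ M] [FiniteDimensional ℝ M]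

/-- A trace which is positive for an involution. -/
structure PosTr (st : M →ₗ[ℝ] M) (τ : M →ₗ[ℝ] ℝ) : Prop where
  mul : ∀ x y, st (x * y) = st y * st x
  inv : ∀ x, st (st x) = x
  tr : ∀ x, τ (st x) = τ x
  comm : ∀ x y, τ (x * y) = τ (y * x)
  pos : ∀ x, x ≠ 0 → 0 < τ (st x * x)

variable {st : M →ₗ[ℝ] M} {τ : M →ₗ[ℝ] ℝ}

/-- The form. -/
noncomputable def pf (st : M →ₗ[ℝ] M) (τ : M →ₗ[ℝ] ℝ) : LinearMap.BilinForm ℝ M :=
  LinearMap.mk₂ ℝ (fun x y => τ (st x * y))
    (fun x x' y => by rw [map_add, add_mul, map_add])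
    (fun c x y => by rw [map_smul, smul_mul_assoc, map_smul])
    (fun x y y' => by rw [mul_add, map_add])
    (fun c x y => by rw [mul_smul_comm, map_smul])

lemma pf_apply (x y : M) : pf st τ x y = τ (st x * y) := rfl

namespace PosTr

variable (H : PosTr st τ)
include H

lemma symm (x y : M) : pf st τ x y = pf st τ y x := by
  rw [pf_apply, pf_apply, ← H.tr, H.mul, H.inv]

lemma adjL (a x y : M) : pf st τ (a * x) y = pf st τ x (st a * y) := by
  rw [pf_apply, pf_apply, H.mul, mul_assoc]

lemma adjR (a x y : M) : pf st τ (x * a) y = pf st τ x (y * st a) := by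
  rw [pf_apply, pf_apply, H.mul, mul_assoc, H.comm, mul_assoc]

/-- **Positivity of the Casimir type sum.** -/
theorem casimir_nonneg {κ : Type*} [Fintype κ] (a : κ → M) (A : Submodule ℝ M)
    (hA : ∀ k, a k ∈ A) (hmul : ∀ x ∈ A, ∀ y ∈ A, x * y ∈ A) (hst : ∀ x ∈ A, st x ∈ A)
    (hx : ∀ x ∈ A, x = ∑ k, pf st τ (a k) x • a k) (T : M) :
    0 ≤ τ (∑ k, T * a k * st T * st (a k)) := by
  classical
  -- the sum is `⟨Y, Φ Y⟩` with `Y = T*`
  set Y := st T with hY
  let Φ : M →ₗ[ℝ] M := ∑ k, (LinearMap.mulRight ℝ (st (a k))).comp (LinearMap.mulLeft ℝ (a k))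
  have hΦ : ∀ y, Φ y = ∑ k, a k * y * st (a k) := fun y => by
    simp [Φ, LinearMap.sum_apply, LinearMap.comp_apply]
  have h0 : τ (∑ k, T * a k * st T * st (a k)) = pf st τ Y (Φ Y) := by
    rw [pf_apply, hΦ, hY, H.inv, Finset.mul_sum]
    congr 1
    refine Finset.sum_congr rfl fun k _ => ?_
    simp only [mul_assoc]
  rw [h0]
  -- Casimir property
  have hcas : ∀ b ∈ A, ∀ y, b * Φ y = Φ y * b := by
    intro b hb y
    rw [hΦ, Finset.mul_sum, Finset.sum_mul]
    have e1 : ∀ k, b * (a k * y * st (a k)) =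
        ∑ l, pf st τ (a l) (b * a k) • (a l * y * st (a k)) := fun k => by
      have := hx (b * a k) (hmul b hb _ (hA k))
      calc b * (a k * y * st (a k)) = (b * a k) * y * st (a k) := by simp only [mul_assoc]
        _ = (∑ l, pf st τ (a l) (b * a k) • a l) * y * st (a k) := by rw [← this]
        _ = _ := by
          rw [Finset.sum_mul, Finset.sum_mul]
          refine Finset.sum_congr rfl fun l _ => ?_
          rw [smul_mul_assoc, smul_mul_assoc]
    have e2 : ∀ l, a l * y * st (a l) * b =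
        ∑ k, pf st τ (a l) (b * a k) • (a l * y * st (a k)) := fun l => by
      have h1 : st (a l) * b = st (st b * a l) := by rw [H.mul, H.inv]
      have h2 := hx (st b * a l) (hmul _ (hst b hb) _ (hA l))
      rw [mul_assoc, h1, h2, map_sum, Finset.mul_sum]
      refine Finset.sum_congr rfl fun k _ => ?_
      rw [map_smul, mul_smul_comm]
      congr 1
      rw [H.symm (a k), H.adjL, H.inv]
    rw [Finset.sum_congr rfl fun k _ => e1 k, Finset.sum_comm,
      Finset.sum_congr rfl fun l _ => (e2 l)]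
  -- the commutant
  let Z : Submodule ℝ M :=
    { carrier := {z | ∀ b ∈ A, b * z = z * b}
      add_mem' := fun {x y} hx hy b hb => by rw [mul_add, add_mul, hx b hb, hy b hb]
      zero_mem' := fun b _ => by rw [mul_zero, zero_mul]
      smul_mem' := fun c x hx b hb => by rw [mul_smul_comm, smul_mul_assoc, hx b hb] }
  have hZ : ∀ z, z ∈ Z ↔ ∀ b ∈ A, b * z = z * b := fun z => Iff.rfl
  -- orthonormal basis of the commutant and the orthogonal decomposition of `Y`
  let BZ : LinearMap.BilinForm ℝ Z := (pf st τ).restrict Z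
  have hBZ : ∀ x y : Z, BZ x y = pf st τ (x : M) (y : M) := fun x y => rfl
  obtain ⟨z, -, hz⟩ := exists_onb BZ (fun x y => H.symm _ _) (fun x hx => by
    rw [hBZ, pf_apply]
    exact H.pos _ fun h => hx (Subtype.ext h))
  let Y₀ : M := ∑ i, pf st τ (z i : M) Y • (z i : M)
  have hY₀ : Y₀ ∈ Z := Submodule.sum_mem _ fun i _ => Submodule.smul_mem _ _ (z i).2
  have hort : ∀ x ∈ Z, pf st τ x (Y - Y₀) = 0 := by
    intro x hxZ
    have h1 := congrArg (Subtype.val) (hz ⟨x, hxZ⟩)
    rw [AddSubmonoidClass.coe_finsetSum] at h1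
    simp only [Submodule.coe_smul, hBZ] at h1
    have e3 : pf st τ x Y₀ = ∑ i, pf st τ (z i : M) Y * pf st τ x (z i : M) := by
      simp only [Y₀]
      rw [map_sum]
      refine Finset.sum_congr rfl fun i _ => ?_
      rw [map_smul, smul_eq_mul]
    have e4 : pf st τ x Y = ∑ i, pf st τ (z i : M) x * pf st τ (z i : M) Y := by
      conv_lhs => rw [h1]
      rw [map_sum, LinearMap.sum_apply]
      refine Finset.sum_congr rfl fun i _ => ?_
      rw [map_smul, LinearMap.smul_apply, smul_eq_mul]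
    rw [map_sub, e3, e4, sub_eq_zero]
    refine Finset.sum_congr rfl fun i _ => ?_
    rw [H.symm x, mul_comm]
  have hΦZ : ∀ y, Φ y ∈ Z := fun y b hb => hcas b hb y
  -- reduction to `Y₀`
  have h1 : pf st τ Y (Φ Y) = pf st τ Y₀ (Φ Y) := by
    have := hort _ (hΦZ Y)
    rw [H.symm, map_sub, LinearMap.sub_apply] at this
    linarith
  -- adjoint of `Φ`
  have hadj : ∀ x ∈ Z, ∀ y, pf st τ x (Φ y) = pf st τ (x * ∑ k, st (a k) * a k) y := by
    intro x hxZ y
    rw [hΦ, map_sum, Finset.mul_sum, map_sum, LinearMap.sum_apply]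
    refine Finset.sum_congr rfl fun k _ => ?_
    have e5 : x * (st (a k) * a k) = st (a k) * x * a k := by
      rw [← mul_assoc, hxZ _ (hst _ (hA k))]
    rw [e5, H.adjR, H.adjL, H.inv, ← mul_assoc]
  have hz' : ∀ b ∈ A, b * ∑ k, st (a k) * a k = (∑ k, st (a k) * a k) * b := by
    intro b hb
    rw [Finset.mul_sum, Finset.sum_mul]
    have e1 : ∀ k, b * (st (a k) * a k) =
        ∑ l, pf st τ (a l) (a k * st b) • (st (a l) * a k) := fun k => by
      have h2 := hx (a k * st b) (hmul _ (hA k) _ (hst b hb))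
      have h3 : b * st (a k) = st (a k * st b) := by rw [H.mul, H.inv]
      rw [← mul_assoc, h3]
      conv_lhs => rw [h2]
      rw [map_sum, Finset.sum_mul]
      refine Finset.sum_congr rfl fun l _ => ?_
      rw [map_smul, smul_mul_assoc]
    have e2 : ∀ l, st (a l) * a l * b =
        ∑ k, pf st τ (a l) (a k * st b) • (st (a l) * a k) := fun l => by
      have h2 := hx (a l * b) (hmul _ (hA l) _ hb)
      rw [mul_assoc, h2, Finset.mul_sum]
      refine Finset.sum_congr rfl fun k _ => ?_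
      rw [mul_smul_comm]
      congr 1
      rw [H.symm (a k), H.adjR]
    rw [Finset.sum_congr rfl fun k _ => e1 k, Finset.sum_comm,
      Finset.sum_congr rfl fun l _ => (e2 l)]
  have h2 : Y₀ * ∑ k, st (a k) * a k ∈ Z := by
    intro b hb
    rw [← mul_assoc, hY₀ b hb, mul_assoc, hz' b hb, ← mul_assoc]
  have h3 : pf st τ Y₀ (Φ Y) = pf st τ Y₀ (Φ Y₀) := by
    rw [hadj _ hY₀, hadj _ hY₀]
    have := hort _ h2
    rw [map_sub] at this
    linarith
  rw [h1, h3, pf_apply, hΦ, Finset.mul_sum, map_sum]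
  refine Finset.sum_nonneg fun k _ => ?_
  have e6 : τ (st Y₀ * (a k * Y₀ * st (a k))) = τ (st (Y₀ * a k) * (Y₀ * a k)) := by
    rw [hY₀ _ (hA k), H.mul, ← mul_assoc, ← mul_assoc, H.comm]
    simp only [mul_assoc]
  rw [e6]
  by_cases h : Y₀ * a k = 0
  · rw [h, mul_zero, map_zero]
  · exact (H.pos _ h).le

end PosTr

end Star

end Pool.Agent.N996.BP
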