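import Pool.Agent.N996.BP.Kp
import Pool.Agent.N996.BP.Pos

/-!
# Families of arrays stable under products and contractions
-/

set_option linter.unusedSectionVars false

namespace Pool.Agent.N996.BP

open Matrix

variable {ι : Type} [Fintype ι] [DecidableEq ι]

/-- The array `e ⊗ ... ⊗ e` for the basis vector with index `o`. -/
def uni (R : Type*) [CommRing R] (o : ι) (κ : Type) [Fintype κ] : (κ → ι) → R := fun i =>
  ∏ k, if i k = o then 1 else 0

/-- The contraction with the form `Q`. -/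
def contr {R : Type*} [CommRing R] {κ l : Type} [Fintype κ] [Fintype l] [DecidableEq κ]
    [DecidableEq l] (Q : Matrix ι ι R) (a : (κ ⊕ (l ⊕ l) → ι) → R) : (κ → ι) → R := fun i =>
  ∑ j : l → ι, ∑ j' : l → ι, kp l Q j j' * a (Sum.elim i (Sum.elim j j'))

/-- The data: a form `Q`, its inverse, an operator `C` such that `Q C` is symmetric and positive
definite and an index. -/
structure RData (ι : Type) [Fintype ι] [DecidableEq ι] where
  /-- the form -/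
  Q : Matrix ι ι ℝ
  /-- the inverse -/
  Qi : Matrix ι ι ℝ
  /-- the Weil operator -/
  C : Matrix ι ι ℝ
  /-- its inverse -/
  Ci : Matrix ι ι ℝ
  /-- a square root of the scalar product -/
  M : Matrix ι ι ℝ
  /-- its inverse -/
  Mi : Matrix ι ι ℝ
  /-- the index of the unit -/
  o : ι
  hQ : Q * Qi = 1
  hC : C * Ci = 1
  hM : M * Mi = 1
  hS : Mᵀ * M = Q * C
  hCQ : Cᵀ * Q * C = Q
  ho : Q o o = 1
  hCo : ∀ i, C i o = if i = o then 1 else 0

namespace RData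

variable (D : RData ι)

/-- The scalar product. -/
def S : Matrix ι ι ℝ := D.Mᵀ * D.M

lemma S_eq : D.S = D.Q * D.C := D.hS

lemma hQ' : D.Qi * D.Q = 1 := mul_eq_one_comm.1 D.hQ
lemma hC' : D.Ci * D.C = 1 := mul_eq_one_comm.1 D.hC
lemma hM' : D.Mi * D.M = 1 := mul_eq_one_comm.1 D.hM

/-- The inverse of the scalar product. -/
def Si : Matrix ι ι ℝ := D.Mi * D.Miᵀ

lemma S_Si : D.S * D.Si = 1 := by
  rw [S, Si]
  calc D.Mᵀ * D.M * (D.Mi * D.Miᵀ) = D.Mᵀ * (D.M * D.Mi) * D.Miᵀ := by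
        simp only [Matrix.mul_assoc]
    _ = 1 := by rw [D.hM, Matrix.mul_one, ← Matrix.transpose_mul, D.hM', Matrix.transpose_one]

lemma Si_S : D.Si * D.S = 1 := mul_eq_one_comm.1 D.S_Si

lemma S_tr : D.Sᵀ = D.S := by rw [S, Matrix.transpose_mul, Matrix.transpose_transpose]

variable (κ : Type) [Fintype κ] [DecidableEq κ]

/-- The scalar product on arrays. -/
noncomputable def bf : LinearMap.BilinForm ℝ ((κ → ι) → ℝ) :=
  Matrix.toBilin' (kp κ D.S)

variable {κ}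

lemma bf_apply (x y : (κ → ι) → ℝ) : D.bf κ x y = x ⬝ᵥ (kp κ D.S *ᵥ y) := by
  rw [bf, Matrix.toBilin'_apply']

lemma kS_tr : (kp κ D.S)ᵀ = kp κ D.S := by rw [← kp_transpose, D.S_tr]

lemma kS : kp κ D.S = (kp κ D.M)ᵀ * kp κ D.M := by
  rw [S, kp_mul, kp_transpose]

lemma bf_eq (x y : (κ → ι) → ℝ) : D.bf κ x y = (kp κ D.M *ᵥ x) ⬝ᵥ (kp κ D.M *ᵥ y) := by
  rw [bf_apply, kS, ← Matrix.mulVec_mulVec, Matrix.dotProduct_mulVec, Matrix.vecMul_transpose]

lemma bf_symm (x y : (κ → ι) → ℝ) : D.bf κ x y = D.bf κ y x := by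
  rw [bf_eq, bf_eq, dotProduct_comm]

lemma bf_pos (x : (κ → ι) → ℝ) (hx : x ≠ 0) : 0 < D.bf κ x x := by
  rw [bf_eq]
  have h1 : kp κ D.M *ᵥ x ≠ 0 := by
    intro h
    apply hx
    have h2 : kp κ D.Mi *ᵥ (kp κ D.M *ᵥ x) = 0 := by rw [h, Matrix.mulVec_zero]
    rwa [Matrix.mulVec_mulVec, kp_inv_mul D.hM', Matrix.one_mulVec] at h2
  have h3 : 0 ≤ (kp κ D.M *ᵥ x) ⬝ᵥ (kp κ D.M *ᵥ x) :=
    Finset.sum_nonneg fun i _ => mul_self_nonneg _
  rcases h3.lt_or_eq with h | h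
  · exact h
  · exact absurd (dotProduct_self_eq_zero.1 h.symm) h1

end RData

/-- A family of spaces of arrays, stable under products, changes of the indices and contractions,
consisting of arrays invariant under the Weil operator. -/
structure IsFam (D : RData ι) (A : ∀ (κ : Type) [Fintype κ], Submodule ℝ ((κ → ι) → ℝ)) :
    Prop where
  reiM : ∀ (κ l : Type) [Fintype κ] [Fintype l] (e : κ ≃ l) (a : (κ → ι) → ℝ), a ∈ A κ →
    rei e a ∈ A l
  tensM : ∀ (κ l : Type) [Fintype κ] [Fintype l] (a : (κ → ι) → ℝ) (b : (l → ι) → ℝ),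
    a ∈ A κ → b ∈ A l → tens a b ∈ A (κ ⊕ l)
  contrM : ∀ (κ l : Type) [Fintype κ] [Fintype l] [DecidableEq κ] [DecidableEq l]
    (a : (κ ⊕ (l ⊕ l) → ι) → ℝ), a ∈ A (κ ⊕ (l ⊕ l)) → contr D.Q a ∈ A κ
  fix : ∀ (κ : Type) [Fintype κ] [DecidableEq κ] (a : (κ → ι) → ℝ), a ∈ A κ →
    kp κ D.C *ᵥ a = a
  invM : ∀ (κ : Type) [Fintype κ] [DecidableEq κ], arr (kp κ D.Qi) ∈ A (κ ⊕ κ)
  uniM : ∀ (κ : Type) [Fintype κ], uni ℝ D.o κ ∈ A κ

variable {D : RData ι} {A : ∀ (κ : Type) [Fintype κ], Submodule ℝ ((κ → ι) → ℝ)}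

/-- The transposition of the blocks. -/
lemma IsFam.trM (H : IsFam D A) {κ l : Type} [Fintype κ] [Fintype l] [DecidableEq κ]
    [DecidableEq l] {a : (κ ⊕ l → ι) → ℝ} (ha : a ∈ A (κ ⊕ l)) : arr (mat a)ᵀ ∈ A (l ⊕ κ) := by
  have h := H.reiM _ _ (Equiv.sumComm κ l) a ha
  convert h using 1
  ext i
  simp only [arr, rei, mat_apply, Matrix.transpose_apply]
  congr 1
  ext x
  rcases x with x | x <;> rfl

/-- Composition of arrays considered as matrices. -/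
lemma IsFam.mulM (H : IsFam D A) {κ l m : Type} [Fintype κ] [Fintype l] [Fintype m]
    [DecidableEq κ] [DecidableEq l] [DecidableEq m] {a : (κ ⊕ l → ι) → ℝ}
    {b : (l ⊕ m → ι) → ℝ} (ha : a ∈ A (κ ⊕ l)) (hb : b ∈ A (l ⊕ m)) :
    arr (mat a * kp l D.Q * mat b) ∈ A (κ ⊕ m) := by
  let e : (κ ⊕ l) ⊕ (l ⊕ m) ≃ (κ ⊕ m) ⊕ (l ⊕ l) :=
    { toFun := Sum.elim (Sum.elim (fun x => Sum.inl (Sum.inl x)) fun x => Sum.inr (Sum.inl x))
        (Sum.elim (fun x => Sum.inr (Sum.inr x)) fun x => Sum.inl (Sum.inr x))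
      invFun := Sum.elim (Sum.elim (fun x => Sum.inl (Sum.inl x)) fun x => Sum.inr (Sum.inr x))
        (Sum.elim (fun x => Sum.inl (Sum.inr x)) fun x => Sum.inr (Sum.inl x))
      left_inv := by rintro ((x | x) | (x | x)) <;> rfl
      right_inv := by rintro ((x | x) | (x | x)) <;> rfl }
  have h := H.contrM _ _ _ (H.reiM _ _ e _ (H.tensM _ _ a b ha hb))
  convert h using 1
  ext i
  obtain ⟨i₁, i₂, rfl⟩ : ∃ i₁ i₂, i = Sum.elim i₁ i₂ := ⟨i ∘ Sum.inl, i ∘ Sum.inr, by simp⟩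
  rw [arr_elim, contr, Matrix.mul_apply]
  simp only [Matrix.mul_apply, Finset.sum_mul]
  rw [Finset.sum_comm]
  refine Finset.sum_congr rfl fun x _ => Finset.sum_congr rfl fun y _ => ?_
  have h1 : rei e (tens a b) (Sum.elim (Sum.elim i₁ i₂) (Sum.elim x y)) =
      a (Sum.elim i₁ x) * b (Sum.elim y i₂) := by
    rw [rei, tens]
    congr 2
    · ext z; rcases z with z | z <;> rfl
    · ext z; rcases z with z | z <;> rfl
  rw [h1, mat_apply, mat_apply]
  ring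

/-- Composition of arrays considered as matrices, with the transposed form. -/
lemma IsFam.mulM' (H : IsFam D A) {κ l m : Type} [Fintype κ] [Fintype l] [Fintype m]
    [DecidableEq κ] [DecidableEq l] [DecidableEq m] {a : (κ ⊕ l → ι) → ℝ}
    {b : (l ⊕ m → ι) → ℝ} (ha : a ∈ A (κ ⊕ l)) (hb : b ∈ A (l ⊕ m)) :
    arr (mat a * (kp l D.Q)ᵀ * mat b) ∈ A (κ ⊕ m) := by
  have h := H.trM (H.mulM (H.trM hb) (H.trM ha))
  rw [mat_arr, mat_arr, mat_arr] at h
  convert h using 2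
  rw [Matrix.transpose_mul, Matrix.transpose_mul, Matrix.transpose_transpose,
    Matrix.transpose_transpose, Matrix.mul_assoc]

/-- Partial contraction with an element of the family. -/
lemma IsFam.sliceM (H : IsFam D A) {κ l : Type} [Fintype κ] [Fintype l]
    [DecidableEq κ] [DecidableEq l] {a : (κ ⊕ l → ι) → ℝ}
    {b : (l → ι) → ℝ} (ha : a ∈ A (κ ⊕ l)) (hb : b ∈ A l) :
    mat a *ᵥ (kp l D.Q *ᵥ b) ∈ A κ := by
  let e : (κ ⊕ l) ⊕ l ≃ κ ⊕ (l ⊕ l) := Equiv.sumAssoc κ l l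
  have h := H.contrM _ _ _ (H.reiM _ _ e _ (H.tensM _ _ a b ha hb))
  convert h using 1
  ext i
  rw [contr, Matrix.mulVec, dotProduct]
  refine Finset.sum_congr rfl fun x _ => ?_
  rw [Matrix.mulVec, dotProduct, Finset.mul_sum]
  refine Finset.sum_congr rfl fun y _ => ?_
  have h1 : rei e (tens a b) (Sum.elim i (Sum.elim x y)) = a (Sum.elim i x) * b y := by
    rw [rei, tens]
    congr 2
    ext z; rcases z with z | z <;> rfl
  rw [h1, mat_apply]
  ring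

/-- On the members of the family the scalar product is given by the form. -/
lemma IsFam.S_eq (H : IsFam D A) {κ : Type} [Fintype κ] [DecidableEq κ] {a : (κ → ι) → ℝ}
    (ha : a ∈ A κ) : kp κ D.S *ᵥ a = kp κ D.Q *ᵥ a := by
  rw [D.S_eq, kp_mul, ← Matrix.mulVec_mulVec, H.fix κ a ha]

/-- Orthogonal projection onto the family. -/
structure IsPr (D : RData ι) (A : ∀ (κ : Type) [Fintype κ], Submodule ℝ ((κ → ι) → ℝ))
    (κ : Type) [Fintype κ] [DecidableEq κ] (P : Matrix (κ → ι) (κ → ι) ℝ) : Prop where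
  mem : ∀ v, P *ᵥ v ∈ A κ
  ort : ∀ a ∈ A κ, ∀ v, D.bf κ a (P *ᵥ v) = D.bf κ a v

lemma IsPr.unique {κ : Type} [Fintype κ] [DecidableEq κ] {P P' : Matrix (κ → ι) (κ → ι) ℝ}
    (h : IsPr D A κ P) (h' : IsPr D A κ P') : P = P' := by
  apply Matrix.toLin'.injective
  apply LinearMap.ext
  intro v
  rw [Matrix.toLin'_apply, Matrix.toLin'_apply]
  by_contra hne
  have h1 := D.bf_pos _ (sub_ne_zero.2 hne)
  have hm : P *ᵥ v - P' *ᵥ v ∈ A κ := Submodule.sub_mem _ (h.mem v) (h'.mem v)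
  rw [map_sub (D.bf κ (P *ᵥ v - P' *ᵥ v)), h.ort _ hm, h'.ort _ hm, sub_self] at h1
  exact lt_irrefl _ h1

lemma exists_onbA (D : RData ι) (A : ∀ (κ : Type) [Fintype κ], Submodule ℝ ((κ → ι) → ℝ))
    (κ : Type) [Fintype κ] [DecidableEq κ] : ∃ (n : ℕ) (a : Fin n → ((κ → ι) → ℝ)),
    (∀ k, a k ∈ A κ) ∧ ∀ x ∈ A κ, x = ∑ k, D.bf κ (a k) x • a k := by
  obtain ⟨a, -, ha⟩ := exists_onb ((D.bf κ).restrict (A κ)) (fun x y => D.bf_symm _ _)
    (fun x hx => D.bf_pos _ fun h => hx (Subtype.ext h))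
  refine ⟨_, fun k => (a k : (κ → ι) → ℝ), fun k => (a k).2, fun x hx => ?_⟩
  have h1 := congrArg (Subtype.val) (ha ⟨x, hx⟩)
  rw [AddSubmonoidClass.coe_finsetSum] at h1
  exact h1

lemma isPr_onb {κ : Type} [Fintype κ] [DecidableEq κ] {n : ℕ} {a : Fin n → ((κ → ι) → ℝ)}
    (ha : ∀ k, a k ∈ A κ) (hx : ∀ x ∈ A κ, x = ∑ k, D.bf κ (a k) x • a k) :
    IsPr D A κ (∑ k, Matrix.vecMulVec (a k) (kp κ D.S *ᵥ a k)) := by
  have h0 : ∀ v, (∑ k, Matrix.vecMulVec (a k) (kp κ D.S *ᵥ a k)) *ᵥ v =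
      ∑ k, D.bf κ (a k) v • a k := by
    intro v
    rw [Matrix.sum_mulVec]
    refine Finset.sum_congr rfl fun k _ => ?_
    rw [Matrix.vecMulVec_mulVec, D.bf_symm, D.bf_apply, dotProduct_comm, op_smul_eq_smul]
  constructor
  · intro v
    rw [h0]
    exact Submodule.sum_mem _ fun k _ => Submodule.smul_mem _ _ (ha k)
  · intro b hb v
    rw [h0, map_sum]
    have h1 := hx b hb
    conv_rhs => rw [h1]
    rw [map_sum, LinearMap.sum_apply]
    refine Finset.sum_congr rfl fun k _ => ?_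
    rw [map_smul, map_smul, LinearMap.smul_apply, smul_eq_mul, smul_eq_mul, D.bf_symm b, mul_comm]

lemma exists_isPr (D : RData ι) (A : ∀ (κ : Type) [Fintype κ], Submodule ℝ ((κ → ι) → ℝ))
    (κ : Type) [Fintype κ] [DecidableEq κ] : ∃ P, IsPr D A κ P := by
  obtain ⟨n, a, ha, hx⟩ := exists_onbA D A κ
  exact ⟨_, isPr_onb ha hx⟩

/-- The orthogonal projection. -/
noncomputable def Pr (D : RData ι) (A : ∀ (κ : Type) [Fintype κ], Submodule ℝ ((κ → ι) → ℝ))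
    (κ : Type) [Fintype κ] [DecidableEq κ] : Matrix (κ → ι) (κ → ι) ℝ :=
  (exists_isPr D A κ).choose

lemma isPr_Pr (κ : Type) [Fintype κ] [DecidableEq κ] : IsPr D A κ (Pr D A κ) :=
  (exists_isPr D A κ).choose_spec

/-- Members of the family are fixed by the projection. -/
lemma Pr_mem {κ : Type} [Fintype κ] [DecidableEq κ] {a : (κ → ι) → ℝ} (ha : a ∈ A κ) :
    Pr D A κ *ᵥ a = a := by
  by_contra hne
  have h := isPr_Pr (D := D) (A := A) κ
  have h1 := D.bf_pos _ (sub_ne_zero.2 hne)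
  have hm : Pr D A κ *ᵥ a - a ∈ A κ := Submodule.sub_mem _ (h.mem a) ha
  rw [map_sub (D.bf κ (Pr D A κ *ᵥ a - a)), h.ort _ hm, sub_self] at h1
  exact lt_irrefl _ h1

lemma bf_rei {κ l : Type} [Fintype κ] [Fintype l] [DecidableEq κ] [DecidableEq l] (e : κ ≃ l)
    (x y : (κ → ι) → ℝ) : D.bf l (rei e x) (rei e y) = D.bf κ x y := by
  rw [D.bf_apply, D.bf_apply, kp_rei]
  rw [dotProduct, dotProduct, ← Equiv.sum_comp (e.arrowCongr (Equiv.refl ι))]
  refine Finset.sum_congr rfl fun j _ => ?_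
  have h1 : (e.arrowCongr (Equiv.refl ι)) j = j ∘ e.symm := by
    ext; simp [Equiv.arrowCongr]
  have h2 : (j ∘ ⇑e.symm) ∘ ⇑e = j := by ext; simp
  rw [h1, rei, rei, h2]

lemma rei_symm_rei {κ l : Type} {R : Type*} (e : κ ≃ l) (x : (l → ι) → R) :
    rei e (rei e.symm x) = x := by
  ext i
  rw [rei, rei]
  congr 1
  ext; simp

/-- The projection is compatible with changes of the indices. -/
lemma Pr_rei (H : IsFam D A) {κ l : Type} [Fintype κ] [Fintype l] [DecidableEq κ]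
    [DecidableEq l] (e : κ ≃ l) (i j : l → ι) :
    Pr D A l i j = Pr D A κ (i ∘ e) (j ∘ e) := by
  let P' : Matrix (l → ι) (l → ι) ℝ := Matrix.of fun i j => Pr D A κ (i ∘ e) (j ∘ e)
  have h0 : ∀ v, P' *ᵥ v = rei e (Pr D A κ *ᵥ rei e.symm v) := by
    intro v
    ext i
    rw [rei, Matrix.mulVec, Matrix.mulVec, dotProduct, dotProduct,
      ← Equiv.sum_comp (e.arrowCongr (Equiv.refl ι))]
    refine Finset.sum_congr rfl fun j _ => ?_
    have h1 : (e.arrowCongr (Equiv.refl ι)) j = j ∘ e.symm := by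
      ext; simp [Equiv.arrowCongr]
    have h2 : (j ∘ ⇑e.symm) ∘ ⇑e = j := by ext; simp
    rw [h1, rei]
    change Pr D A κ (i ∘ e) ((j ∘ ⇑e.symm) ∘ ⇑e) * _ = _
    rw [h2]
  have h1 : IsPr D A l P' := by
    constructor
    · intro v
      rw [h0]
      exact H.reiM _ _ e _ ((isPr_Pr κ).mem _)
    · intro a ha v
      rw [h0]
      have h2 : rei e.symm a ∈ A κ := H.reiM _ _ e.symm _ ha
      rw [← rei_symm_rei e a, bf_rei, (isPr_Pr κ).ort _ h2]
      conv_rhs => rw [← rei_symm_rei e v, bf_rei]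
  rw [(isPr_Pr l).unique h1]
  rfl

lemma bf_tens {κ l : Type} [Fintype κ] [Fintype l] [DecidableEq κ] [DecidableEq l]
    (c : (κ ⊕ l → ι) → ℝ) (u : (κ → ι) → ℝ) (a : (l → ι) → ℝ) :
    D.bf (κ ⊕ l) c (tens u a) = D.bf κ (mat c *ᵥ (kp l D.S *ᵥ a)) u := by
  rw [D.bf_apply, D.bf_apply, kp_tens, dotProduct, dotProduct, sum_sumElim]
  refine Finset.sum_congr rfl fun x _ => ?_
  rw [Matrix.mulVec, dotProduct, Finset.sum_mul]
  refine Finset.sum_congr rfl fun y _ => ?_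
  rw [tens_elim, mat_apply]
  ring

/-- The projection of a product with a member of the family. -/
lemma Pr_tens (H : IsFam D A) {κ l : Type} [Fintype κ] [Fintype l] [DecidableEq κ]
    [DecidableEq l] (u : (κ → ι) → ℝ) {a : (l → ι) → ℝ} (ha : a ∈ A l) :
    Pr D A (κ ⊕ l) *ᵥ tens u a = tens (Pr D A κ *ᵥ u) a := by
  have h := isPr_Pr (D := D) (A := A) (κ ⊕ l)
  have h' := isPr_Pr (D := D) (A := A) κ
  by_contra hne
  have h1 := D.bf_pos _ (sub_ne_zero.2 hne)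
  have hm : Pr D A (κ ⊕ l) *ᵥ tens u a - tens (Pr D A κ *ᵥ u) a ∈ A (κ ⊕ l) :=
    Submodule.sub_mem _ (h.mem _) (H.tensM _ _ _ _ (h'.mem _) ha)
  obtain ⟨c, hc⟩ : ∃ c, c = Pr D A (κ ⊕ l) *ᵥ tens u a - tens (Pr D A κ *ᵥ u) a := ⟨_, rfl⟩
  rw [← hc] at h1 hm
  have h2 : D.bf (κ ⊕ l) c c = 0 := by
    have h3 : D.bf (κ ⊕ l) c c = D.bf (κ ⊕ l) c (Pr D A (κ ⊕ l) *ᵥ tens u a) -
        D.bf (κ ⊕ l) c (tens (Pr D A κ *ᵥ u) a) := by
      rw [← map_sub, ← hc]
    have h4 : mat c *ᵥ (kp l D.S *ᵥ a) ∈ A κ := by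
      rw [H.S_eq ha]
      exact H.sliceM hm ha
    rw [h3, h.ort _ hm, bf_tens, bf_tens, h'.ort _ h4, sub_self]
  rw [h2] at h1
  exact lt_irrefl _ h1

/-- Matrix form of the preceding lemma. -/
lemma Pr_tens_apply (H : IsFam D A) {κ l : Type} [Fintype κ] [Fintype l] [DecidableEq κ]
    [DecidableEq l] {a : (l → ι) → ℝ} (ha : a ∈ A l) (i j : κ → ι) (i' : l → ι) :
    ∑ j', Pr D A (κ ⊕ l) (Sum.elim i i') (Sum.elim j j') * a j' = Pr D A κ i j * a i' := by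
  have h := congrFun (Pr_tens H (Pi.single j 1) ha) (Sum.elim i i')
  rw [tens_elim, Matrix.mulVec_single_one, Matrix.mulVec, dotProduct, sum_sumElim] at h
  rw [Finset.sum_eq_single j] at h
  · simp only [tens_elim, Pi.single_eq_same, one_mul] at h
    rw [h]
    rfl
  · intro b _ hb
    refine Finset.sum_eq_zero fun y _ => ?_
    rw [tens_elim, Pi.single_eq_of_ne hb]
    ring
  · intro h; exact absurd (Finset.mem_univ j) h

end Pool.Agent.N996.BP
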