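import Mathlib

/-!
# Kernels of homomorphisms from polynomial rings over factorial rings
-/

set_option linter.unusedSectionVars false

namespace Pool.Agent.N996.BP

open Polynomial

variable {U : Type*} [CommRing U] [IsDomain U] [UniqueFactorizationMonoid U]
  {Ω : Type*} [CommRing Ω] [IsDomain Ω]

lemma exists_clear (G : (FractionRing U)[X]) : ∃ (u : U) (G₀ : U[X]), u ≠ 0 ∧
    G₀.map (algebraMap U (FractionRing U)) = C (algebraMap U (FractionRing U) u) * G := by
  obtain ⟨b, hb', hb⟩ := IsLocalization.integerNormalization_spec (nonZeroDivisors U) G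
  refine ⟨b, _, nonZeroDivisors.ne_zero hb', hb.trans ?_⟩
  rw [← algebraMap_smul (FractionRing U) (b : U) G, smul_eq_C_mul]

/-- The kernel of a homomorphism from `U[X]` which is injective on `U` consists of the multiples of
an irreducible polynomial in the kernel. -/
lemma mem_ker_iff (φ : U[X] →+* Ω) (hφ : Function.Injective (φ.comp C)) {F : U[X]}
    (hF : Irreducible F) (hd : F.natDegree ≠ 0) (h0 : φ F = 0) (G : U[X]) :
    φ G = 0 ↔ F.map (algebraMap U (FractionRing U)) ∣ G.map (algebraMap U (FractionRing U)) := by
  have hinj : Function.Injective (algebraMap U (FractionRing U)) :=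
    IsFractionRing.injective U (FractionRing U)
  have hmap : Function.Injective (Polynomial.map (algebraMap U (FractionRing U))) :=
    Polynomial.map_injective _ hinj
  have hφ0 : ∀ u : U, φ (C u) = 0 → u = 0 := fun u hu => by
    apply hφ
    rw [map_zero]
    exact hu
  constructor
  · intro hG
    have hirr : Irreducible (F.map (algebraMap U (FractionRing U))) :=
      ((hF.isPrimitive hd).irreducible_iff_irreducible_map_fraction_map).1 hF
    by_contra hnd
    obtain ⟨a, b, hab⟩ := (EuclideanDomain.dvd_or_coprime _ _ hirr).resolve_left hnd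
    obtain ⟨u, a₀, hu, ha⟩ := exists_clear a
    obtain ⟨v, b₀, hv, hb⟩ := exists_clear b
    have h1 : C v * a₀ * F + C u * b₀ * G = C (u * v) := by
      apply hmap
      rw [Polynomial.map_add, Polynomial.map_mul, Polynomial.map_mul, Polynomial.map_mul,
        Polynomial.map_mul, ha, hb, map_C, map_C, map_C, map_mul, C_mul]
      linear_combination (C (algebraMap U (FractionRing U) u) *
        C (algebraMap U (FractionRing U) v)) * hab
    have h2 := congrArg φ h1
    rw [map_add, map_mul φ (C v * a₀), map_mul φ (C u * b₀), h0, hG, mul_zero, mul_zero,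
      add_zero] at h2
    exact mul_ne_zero hu hv (hφ0 _ h2.symm)
  · rintro ⟨K, hK⟩
    obtain ⟨u, K₀, hu, hK₀⟩ := exists_clear K
    have h1 : C u * G = F * K₀ := by
      apply hmap
      rw [Polynomial.map_mul, Polynomial.map_mul, hK, hK₀, map_C]
      ring
    have h2 := congrArg φ h1
    rw [map_mul, map_mul, h0, zero_mul, mul_eq_zero] at h2
    rcases h2 with h2 | h2
    · exact absurd (hφ0 _ h2) hu
    · exact h2

/-- Two homomorphisms with a common irreducible polynomial in the kernels have the same kernel. -/
lemma ker_iff_ker (φ φ' : U[X] →+* Ω) (hφ : Function.Injective (φ.comp C))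
    (hφ' : Function.Injective (φ'.comp C)) {F : U[X]} (hF : Irreducible F) (h0 : φ F = 0)
    (h0' : φ' F = 0) (G : U[X]) : φ G = 0 ↔ φ' G = 0 := by
  have hd : F.natDegree ≠ 0 := by
    intro hd
    obtain ⟨u, hu⟩ := natDegree_eq_zero.1 hd
    apply hF.ne_zero
    rw [← hu] at h0 ⊢
    have : u = 0 := hφ (by rw [map_zero]; exact h0)
    rw [this, C_0]
  rw [mem_ker_iff φ hφ hF hd h0, mem_ker_iff φ' hφ' hF hd h0']

/-- The derivative of an irreducible polynomial in the kernel is not in the kernel. -/
lemma derivative_notMem_ker [CharZero U] (φ : U[X] →+* Ω) (hφ : Function.Injective (φ.comp C))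
    {F : U[X]} (hF : Irreducible F) (h0 : φ F = 0) : φ (derivative F) ≠ 0 := by
  have hinj : Function.Injective (algebraMap U (FractionRing U)) :=
    IsFractionRing.injective U (FractionRing U)
  have hd : F.natDegree ≠ 0 := by
    intro hd
    obtain ⟨u, hu⟩ := natDegree_eq_zero.1 hd
    apply hF.ne_zero
    rw [← hu] at h0 ⊢
    have : u = 0 := hφ (by rw [map_zero]; exact h0)
    rw [this, C_0]
  rw [Ne, mem_ker_iff φ hφ hF hd h0]
  intro h
  have h1 : (derivative F).map (algebraMap U (FractionRing U)) ≠ 0 := by
    rw [Ne, Polynomial.map_eq_zero_iff hinj]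
    intro h2
    exact hd (derivative_eq_zero.1 h2)
  have h2 := natDegree_le_of_dvd h h1
  rw [natDegree_map_eq_of_injective hinj, natDegree_map_eq_of_injective hinj] at h2
  have h3 := natDegree_derivative_lt hd
  omega

end Pool.Agent.N996.BP
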