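import Pool.Agent.N996.BP.Gen

/-!
# Existence of a generic point with a stable ideal of relations
-/

set_option linter.unusedSectionVars false

namespace Pool.Agent.N996.BP

open Matrix LaurentPolynomial

variable {ι : Type} [Fintype ι] [DecidableEq ι] (H : HData ι)

variable {E : Type} [Field E] [Algebra ℂ E]

/-- The variable as a unit. -/
noncomputable def TU (E : Type) [Field E] : (E[T;T⁻¹])ˣ :=
  ⟨T 1, T (-1), by rw [← T_add]; simp, by rw [← T_add]; simp⟩

lemma TU_val : ((TU E : (E[T;T⁻¹])ˣ) : E[T;T⁻¹]) = T 1 := rfl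

/-- The specialisation. -/
noncomputable def spec (s : Eˣ) : E[T;T⁻¹] →ₐ[E] E :=
  { LaurentPolynomial.eval₂ (RingHom.id E) s with
    commutes' := fun r => by
      change LaurentPolynomial.eval₂ (RingHom.id E) s (algebraMap E (E[T;T⁻¹]) r) = _
      rw [← C_eq_algebraMap, eval₂_C]
      rfl }

lemma spec_TU (s : Eˣ) : Units.map ((spec s : E[T;T⁻¹] →ₐ[E] E) : E[T;T⁻¹] →* E) (TU E) = s := by
  ext
  rw [Units.coe_map, TU_val]
  change LaurentPolynomial.eval₂ (RingHom.id E) s (T 1) = s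
  rw [eval₂_T, zpow_one]

/-- The next point. -/
noncomputable def nxt (σ : ℂ ≃+* ℂ) (g : Matrix ι ι E) : Matrix ι ι (E[T;T⁻¹]) :=
  ltU H σ (TU E) * g.map (algebraMap E (E[T;T⁻¹]))

lemma nxt_spec (σ : ℂ ≃+* ℂ) (g : Matrix ι ι E) (s : Eˣ) :
    (nxt H σ g).map (spec s) = ltU H σ s * g := by
  have h1 : (nxt H σ g).map (spec s) = (ltU H σ (TU E)).map (spec s) *
      (g.map (algebraMap E (E[T;T⁻¹]))).map (spec s) := by
    rw [nxt]
    exact Matrix.map_mul (f := ((spec s : E[T;T⁻¹] →ₐ[E] E) : E[T;T⁻¹] →+* E))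
  rw [h1]
  have h2 := ltU_map H ((spec s : E[T;T⁻¹] →ₐ[E] E).restrictScalars ℂ) σ (TU E)
  have h3 : Units.map (((spec s : E[T;T⁻¹] →ₐ[E] E).restrictScalars ℂ : E[T;T⁻¹] →ₐ[ℂ] E) :
      E[T;T⁻¹] →* E) (TU E) = s := spec_TU s
  rw [h3] at h2
  congr 1
  ext i j
  rw [Matrix.map_apply, Matrix.map_apply]
  exact (spec s).commutes _

/-- Evaluation of polynomials commutes with homomorphisms. -/
lemma aeval_ent_map {R R' : Type} [CommRing R] [CommRing R'] [Algebra ℂ R] [Algebra ℂ R']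
    (f : R →ₐ[ℂ] R') (g : Matrix ι ι R) (p : MvPolynomial (ι × ι) ℂ) :
    f (MvPolynomial.aeval (ent g) p) = MvPolynomial.aeval (ent (g.map f)) p := by
  have h : (f.comp (MvPolynomial.aeval (ent g))) = MvPolynomial.aeval (ent (g.map f)) := by
    apply MvPolynomial.algHom_ext
    intro i
    rw [AlgHom.comp_apply, MvPolynomial.aeval_X, MvPolynomial.aeval_X]
    rfl
  exact DFunLike.congr_fun h p

lemma aeval_option {R : Type} [CommRing R] [Algebra ℂ R] {κ : Type} (z : R) (y : κ → R)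
    (P : MvPolynomial (Option κ) ℂ) :
    MvPolynomial.aeval (fun o : Option κ => o.elim z y) P =
      Polynomial.eval₂ ((MvPolynomial.aeval y : MvPolynomial κ ℂ →ₐ[ℂ] R) : MvPolynomial κ ℂ →+* R)
        z (MvPolynomial.optionEquivLeft ℂ κ P) := by
  induction P using MvPolynomial.induction_on with
  | C a =>
    rw [MvPolynomial.aeval_C, MvPolynomial.optionEquivLeft_C, Polynomial.eval₂_C,
      RingHom.coe_coe, MvPolynomial.aeval_C]
  | add p q hp hq => rw [map_add, map_add, Polynomial.eval₂_add, hp, hq]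
  | mul_X p o hp =>
    rw [map_mul, map_mul, Polynomial.eval₂_mul, hp, MvPolynomial.aeval_X]
    congr 1
    rcases o with _ | i
    · rw [MvPolynomial.optionEquivLeft_X_none, Polynomial.eval₂_X]
      rfl
    · rw [MvPolynomial.optionEquivLeft_X_some, Polynomial.eval₂_C, RingHom.coe_coe,
        MvPolynomial.aeval_X]
      rfl

/-- If the next point has no more independent functions, then it satisfies the same relations. -/
lemma nxt_rel {g : Matrix ι ι E} {r : ℕ} (hr : Tr ℂ (ent g) r) (σ : ℂ ≃+* ℂ)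
    (hn : ¬ Tr ℂ (ent ((nxt H σ g).map (algebraMap (E[T;T⁻¹]) (FractionRing (E[T;T⁻¹])))))
      (r + 1)) (f : MvPolynomial (ι × ι) ℂ) (hf : MvPolynomial.aeval (ent g) f = 0) :
    MvPolynomial.aeval (ent (nxt H σ g)) f = 0 := by
  classical
  by_contra hz
  obtain ⟨κ, _, G, rfl, hG⟩ := hr
  let j : E[T;T⁻¹] →ₐ[ℂ] FractionRing (E[T;T⁻¹]) := IsScalarTower.toAlgHom ℂ _ _
  have hj : Function.Injective j := IsFractionRing.injective (E[T;T⁻¹]) _
  have h1 : ¬ AlgebraicIndependent ℂ (fun o : Option κ =>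
      MvPolynomial.aeval (ent ((nxt H σ g).map (algebraMap (E[T;T⁻¹]) (FractionRing (E[T;T⁻¹])))))
        ((fun o : Option κ => o.elim f G) o)) := fun h =>
    hn ⟨Option κ, inferInstance, fun o => o.elim f G, Fintype.card_option, h⟩
  rw [algebraicIndependent_iff] at h1
  push Not at h1
  obtain ⟨P, hP, hP0⟩ := h1
  have h2 : MvPolynomial.aeval (fun o : Option κ => o.elim
      (MvPolynomial.aeval (ent (nxt H σ g)) f)
      (fun i => MvPolynomial.aeval (ent (nxt H σ g)) (G i))) P = 0 := by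
    apply hj
    rw [map_zero, ← hP]
    have h3 : ∀ (y : Option κ → E[T;T⁻¹]), j (MvPolynomial.aeval y P) =
        MvPolynomial.aeval (fun o => j (y o)) P := by
      intro y
      have h : (j.comp (MvPolynomial.aeval y)) = MvPolynomial.aeval (fun o => j (y o)) := by
        apply MvPolynomial.algHom_ext
        intro i
        rw [AlgHom.comp_apply, MvPolynomial.aeval_X, MvPolynomial.aeval_X]
      exact DFunLike.congr_fun h P
    rw [h3]
    congr 2
    funext o
    rcases o with _ | i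
    · exact aeval_ent_map j (nxt H σ g) f
    · exact aeval_ent_map j (nxt H σ g) (G i)
  rw [aeval_option] at h2
  obtain ⟨Q, hQ⟩ : ∃ Q, Q = MvPolynomial.optionEquivLeft ℂ κ P := ⟨_, rfl⟩
  have hQ0 : Q ≠ 0 := by
    rw [hQ]
    exact (map_ne_zero_iff _ (MvPolynomial.optionEquivLeft ℂ κ).injective).2 hP0
  rw [← hQ] at h2
  obtain ⟨Q₁, hQ₁, hnd⟩ := Polynomial.exists_eq_pow_rootMultiplicity_mul_and_not_dvd Q hQ0 0
  rw [hQ₁, Polynomial.eval₂_mul, Polynomial.eval₂_pow, Polynomial.eval₂_sub, Polynomial.eval₂_X,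
    Polynomial.C_0, Polynomial.eval₂_zero, sub_zero, mul_eq_zero] at h2
  have h3 := h2.resolve_left (pow_ne_zero _ hz)
  -- specialisation
  have h4 := congrArg (spec (1 : Eˣ)) h3
  rw [map_zero] at h4
  have h5 : spec (1 : Eˣ) (Polynomial.eval₂ ((MvPolynomial.aeval (fun i =>
      MvPolynomial.aeval (ent (nxt H σ g)) (G i)) : MvPolynomial κ ℂ →ₐ[ℂ] E[T;T⁻¹]) :
        MvPolynomial κ ℂ →+* E[T;T⁻¹]) (MvPolynomial.aeval (ent (nxt H σ g)) f) Q₁) =
      Polynomial.eval₂ ((MvPolynomial.aeval (fun i => MvPolynomial.aeval (ent g) (G i)) :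
        MvPolynomial κ ℂ →ₐ[ℂ] E) : MvPolynomial κ ℂ →+* E) (MvPolynomial.aeval (ent g) f) Q₁ := by
    have hs : ∀ p : MvPolynomial (ι × ι) ℂ, spec (1 : Eˣ) (MvPolynomial.aeval (ent (nxt H σ g)) p) =
        MvPolynomial.aeval (ent g) p := by
      intro p
      have := aeval_ent_map ((spec (1 : Eˣ)).restrictScalars ℂ) (nxt H σ g) p
      have h6 : (nxt H σ g).map ((spec (1 : Eˣ)).restrictScalars ℂ) = g := by
        have := nxt_spec H σ g 1
        rw [ltU_one, Matrix.one_mul] at this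
        exact this
      rw [h6] at this
      exact this
    have h7 := Polynomial.hom_eval₂ Q₁ ((MvPolynomial.aeval (fun i =>
      MvPolynomial.aeval (ent (nxt H σ g)) (G i)) : MvPolynomial κ ℂ →ₐ[ℂ] E[T;T⁻¹]) :
        MvPolynomial κ ℂ →+* E[T;T⁻¹]) ((spec (1 : Eˣ) : E[T;T⁻¹] →ₐ[E] E) : E[T;T⁻¹] →+* E)
          (MvPolynomial.aeval (ent (nxt H σ g)) f)
    have h8 : (((spec (1 : Eˣ) : E[T;T⁻¹] →ₐ[E] E) : E[T;T⁻¹] →+* E).comp
        ((MvPolynomial.aeval (fun i => MvPolynomial.aeval (ent (nxt H σ g)) (G i)) :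
          MvPolynomial κ ℂ →ₐ[ℂ] E[T;T⁻¹]) : MvPolynomial κ ℂ →+* E[T;T⁻¹])) =
        ((MvPolynomial.aeval (fun i => MvPolynomial.aeval (ent g) (G i)) :
          MvPolynomial κ ℂ →ₐ[ℂ] E) : MvPolynomial κ ℂ →+* E) := by
      apply MvPolynomial.ringHom_ext
      · intro a
        simp only [RingHom.comp_apply, RingHom.coe_coe, MvPolynomial.aeval_C]
        exact ((spec (1 : Eˣ)).restrictScalars ℂ).commutes a
      · intro i
        simp only [RingHom.comp_apply, RingHom.coe_coe, MvPolynomial.aeval_X]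
        exact hs _
    rw [h8] at h7
    refine h7.trans ?_
    congr 1
    exact hs f
  rw [h5, hf, Polynomial.eval₂_at_zero] at h4
  apply hnd
  rw [Polynomial.C_0, sub_zero, Polynomial.X_dvd_iff]
  exact (algebraicIndependent_iff.1 hG) _ h4

/-- The next point is generic if it has one more independent function. -/
lemma nxt_isGen {g : Matrix ι ι E} {r : ℕ} (hg : IsGen H E g r) (σ : ℂ ≃+* ℂ)
    (hn : Tr ℂ (ent ((nxt H σ g).map (algebraMap (E[T;T⁻¹]) (FractionRing (E[T;T⁻¹])))))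
      (r + 1)) :
    IsGen H (FractionRing (E[T;T⁻¹]))
      ((nxt H σ g).map (algebraMap (E[T;T⁻¹]) (FractionRing (E[T;T⁻¹])))) (r + 1) := by
  let j : E[T;T⁻¹] →ₐ[ℂ] FractionRing (E[T;T⁻¹]) := IsScalarTower.toAlgHom ℂ _ _
  have he : (nxt H σ g).map (algebraMap (E[T;T⁻¹]) (FractionRing (E[T;T⁻¹]))) =
      ltU H σ (Units.map (j : E[T;T⁻¹] →* FractionRing (E[T;T⁻¹])) (TU E)) *
        g.map (algebraMap E (FractionRing (E[T;T⁻¹]))) := by
    rw [← ltU_map H j, nxt]
    refine (Matrix.map_mul (f := (j : E[T;T⁻¹] →+* FractionRing (E[T;T⁻¹])))).trans ?_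
    congr 1
  refine ⟨hn, fun d => ?_, fun κ _ _ a ha => ?_⟩
  · rw [he]
    have h1 := Vd_next H σ (Units.map (j : E[T;T⁻¹] →* FractionRing (E[T;T⁻¹])) (TU E)) g d
    obtain ⟨h2, h3⟩ := LV_finrank (E' := FractionRing (E[T;T⁻¹]))
      ((Units.map (j : E[T;T⁻¹] →* FractionRing (E[T;T⁻¹])) (TU E) :
        (FractionRing (E[T;T⁻¹]))ˣ) : FractionRing (E[T;T⁻¹])) (Vd g d) (H.w * d)
    refine (Submodule.finrank_mono h1).trans (h3.trans ?_)
    have h4 := hg.dim d
    rw [mul_assoc] at h4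
    rw [pow_succ, mul_comm, mul_assoc]
    exact Nat.mul_le_mul_right _ h4
  · rw [he, kp_mul, ← Matrix.mulVec_mulVec]
    have h1 : kp κ (g.map (algebraMap E (FractionRing (E[T;T⁻¹])))) *ᵥ
        (fun i => algebraMap ℂ (FractionRing (E[T;T⁻¹])) (ca a i)) =
          fun i => algebraMap ℂ (FractionRing (E[T;T⁻¹])) (ca a i) := by
      have h2 := hg.fix κ a ha
      funext i
      have h3 := congrArg (algebraMap E (FractionRing (E[T;T⁻¹]))) (congrFun h2 i)
      rw [Matrix.mulVec, dotProduct, map_sum, ← IsScalarTower.algebraMap_apply] at h3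
      rw [← h3, Matrix.mulVec, dotProduct]
      refine Finset.sum_congr rfl fun j _ => ?_
      rw [map_mul, ← IsScalarTower.algebraMap_apply, kp_map]
      rfl
    rw [h1]
    exact ltU_fix H ha σ _

/-- **Existence of a generic point with a stable ideal of relations.** -/
theorem exists_gen : ∃ (r : ℕ) (E : Type) (_ : Field E) (_ : Algebra ℂ E) (g : Matrix ι ι E),
    r ≤ Fintype.card ι ^ 2 ∧ IsGen H E g r ∧
      ∀ γ ∈ GG H, ∀ f : MvPolynomial (ι × ι) ℂ, MvPolynomial.aeval (ent g) f = 0 →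
        MvPolynomial.aeval (ent (γ.map (algebraMap ℂ E) * g)) f = 0 := by
  classical
  have hb : ∀ r, (∃ (E : Type) (_ : Field E) (_ : Algebra ℂ E) (g : Matrix ι ι E),
      IsGen H E g r) → r ≤ Fintype.card ι ^ 2 := by
    rintro r ⟨E, _, _, g, hg⟩
    have := hg.tr.le_card
    rwa [Fintype.card_prod, ← sq] at this
  obtain ⟨r, hr, hmax⟩ : ∃ r, (∃ (E : Type) (_ : Field E) (_ : Algebra ℂ E) (g : Matrix ι ι E),
      IsGen H E g r) ∧ ¬ (∃ (E : Type) (_ : Field E) (_ : Algebra ℂ E) (g : Matrix ι ι E),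
        IsGen H E g (r + 1)) := by
    by_contra hcon
    push Not at hcon
    have hall : ∀ r, ∃ (E : Type) (_ : Field E) (_ : Algebra ℂ E) (g : Matrix ι ι E),
        IsGen H E g r := by
      intro r
      induction r with
      | zero => exact ⟨ℂ, inferInstance, inferInstance, 1, isGen_zero H⟩
      | succ r ih => exact hcon r ih
    have := hb _ (hall (Fintype.card ι ^ 2 + 1))
    omega
  have hr' := hb r hr
  obtain ⟨E, _, _, g, hg⟩ := hr
  refine ⟨r, E, inferInstance, inferInstance, g, hr', hg, ?_⟩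
  have hstep : ∀ (σ : ℂ ≃+* ℂ) (f : MvPolynomial (ι × ι) ℂ), MvPolynomial.aeval (ent g) f = 0 →
      ∀ s : Eˣ, MvPolynomial.aeval (ent (ltU H σ s * g)) f = 0 := by
    intro σ f hf s
    have h1 : ¬ Tr ℂ (ent ((nxt H σ g).map (algebraMap (E[T;T⁻¹]) (FractionRing (E[T;T⁻¹])))))
        (r + 1) := fun h => hmax ⟨_, inferInstance, inferInstance, _, nxt_isGen H hg σ h⟩
    have h2 := nxt_rel H hg.tr σ h1 f hf
    have h3 := aeval_ent_map ((spec s).restrictScalars ℂ) (nxt H σ g) f
    rw [h2, map_zero] at h3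
    have h4 : (nxt H σ g).map ((spec s).restrictScalars ℂ) = ltU H σ s * g := nxt_spec H σ g s
    rw [h4] at h3
    exact h3.symm
  intro γ hγ
  induction hγ using Submonoid.closure_induction with
  | mem x hx =>
    obtain ⟨σ, t, ht, rfl⟩ := hx
    intro f hf
    have h1 := hstep σ f hf (Units.map ((algebraMap ℂ E : ℂ →+* E) : ℂ →* E)
      (Units.mk0 (σ t) ((map_ne_zero σ).2 ht)))
    have h2 := ltU_map H (Algebra.ofId ℂ E) σ (Units.mk0 (σ t) ((map_ne_zero σ).2 ht))
    rw [ltU_complex H σ ht] at h2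
    have h3 : ((H.l t).map σ).map (algebraMap ℂ E) = ltU H σ (Units.map
        ((algebraMap ℂ E : ℂ →+* E) : ℂ →* E) (Units.mk0 (σ t) ((map_ne_zero σ).2 ht))) := h2
    rw [h3]
    exact h1
  | one =>
    intro f hf
    rw [Matrix.map_one _ (map_zero _) (map_one _), Matrix.one_mul]
    exact hf
  | mul x y _ _ hx hy =>
    intro f hf
    -- substitute
    have hmul : (x * y).map (algebraMap ℂ E) * g =
        x.map (algebraMap ℂ E) * (y.map (algebraMap ℂ E) * g) := by
      rw [Matrix.map_mul, Matrix.mul_assoc]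
    -- the polynomial `f (x · )`
    let f' : MvPolynomial (ι × ι) ℂ := MvPolynomial.aeval (fun p : ι × ι =>
      ∑ a, MvPolynomial.C (x p.1 a) * MvPolynomial.X (a, p.2)) f
    have hf' : ∀ h : Matrix ι ι E, MvPolynomial.aeval (ent h) f' =
        MvPolynomial.aeval (ent (x.map (algebraMap ℂ E) * h)) f := by
      intro h
      have e : ((MvPolynomial.aeval (ent h) : MvPolynomial (ι × ι) ℂ →ₐ[ℂ] E).comp
          (MvPolynomial.aeval (fun p : ι × ι =>
            ∑ a, MvPolynomial.C (x p.1 a) * MvPolynomial.X (a, p.2)))) =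
          MvPolynomial.aeval (ent (x.map (algebraMap ℂ E) * h)) := by
        apply MvPolynomial.algHom_ext
        intro p
        rw [AlgHom.comp_apply, MvPolynomial.aeval_X, MvPolynomial.aeval_X, map_sum, ent,
          Matrix.mul_apply]
        refine Finset.sum_congr rfl fun a _ => ?_
        rw [map_mul, MvPolynomial.aeval_C, MvPolynomial.aeval_X]
        rfl
      exact DFunLike.congr_fun e f
    rw [hmul, ← hf']
    exact hy f' (by rw [hf']; exact hx f hf)

end Pool.Agent.N996.BP
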