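import Pool.Agent.N996.BP.Geo2

/-!
# Classes on the powers of a variety and arrays: permutations
-/

set_option linter.unusedSectionVars false

open CategoryTheory AlgebraicGeometry

universe u

namespace Pool.Agent.N996.BP.Geo

open Module
open Pool.Agent.H914 Pool.Agent.H914.VarClass Pool.Agent.H914.VarClass.Obj
  Pool.Agent.H914.WeilCohomology
open Pool.Agent.Y133.Half

variable {k : Type u} [Field k] {𝒱 : VarClass k} {ops : CycleOps 𝒱}
  {W : WeilCohomology.{u, 0} ops} {X Z : 𝒱.Obj}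
  {ι : Type} [Fintype ι] [DecidableEq ι] {e : Basis ι W.K (W.H X)}

/-- A product of homogeneous classes does not depend on the order up to a sign which depends only
on the parities. -/
lemma prod_perm_idx (Z : 𝒱.Obj) {m : ℕ} (a : Fin m → ℕ) {l l' : List (Fin m)} (h : l.Perm l') :
    ∃ s : W.K, s ≠ 0 ∧ ∀ f : Fin m → W.H Z, (∀ i, f i ∈ PH W Z (a i)) →
      (l.map f).prod = s • (l'.map f).prod := by
  induction h with
  | nil => exact ⟨1, one_ne_zero, fun f _ => (one_smul _ _).symm⟩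
  | cons x _ ih =>
    obtain ⟨s, hs, e⟩ := ih
    refine ⟨s, hs, fun f hf => ?_⟩
    rw [List.map_cons, List.prod_cons, List.map_cons, List.prod_cons, e f hf, mul_smul_comm]
  | swap x y l =>
    refine ⟨(-1) ^ (a y * a x), pow_ne_zero _ (neg_ne_zero.2 one_ne_zero), fun f hf => ?_⟩
    rw [List.map_cons, List.map_cons, List.map_cons, List.map_cons, List.prod_cons,
      List.prod_cons, List.prod_cons, List.prod_cons, ← mul_assoc, PH.comm (hf y) (hf x),
      smul_mul_assoc, mul_assoc]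
  | trans h1 _ ih1 ih2 =>
    obtain ⟨s, hs, e⟩ := ih1
    obtain ⟨s', hs', e'⟩ := ih2
    exact ⟨s * s', mul_ne_zero hs hs', fun f hf => by rw [e f hf, e' f hf, smul_smul]⟩

variable {p : ι → Fin 2}

/-- Permutations of words of given parities. -/
lemma tau_wb_par (hp : ∀ j, e j ∈ PH W X (p j : ℕ)) (n : ℕ) (σ : Equiv.Perm (Fin (n + 1)))
    (ε : Fin (n + 1) → Fin 2) : ∃ s : W.K, s ≠ 0 ∧ ∀ w : Fin (n + 1) → ι, p ∘ w = ε →
      W.map (tau X n σ) (wb e n (w ∘ σ)) = s • wb e n w := by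
  obtain ⟨s, hs, h⟩ := prod_perm_idx (W := W) (pw X n) (fun i => (ε i : ℕ))
    (Equiv.Perm.ofFn_comp_perm σ (fun i => i))
  refine ⟨s, hs, fun w hw => ?_⟩
  have h1 := h (fun i => W.map (prj X n i) (e (w i))) (fun i => by
    have h2 : (ε i : ℕ) = (p (w i) : ℕ) := by rw [← hw]; rfl
    rw [h2]
    exact PH.map _ (hp (w i)))
  rw [List.map_ofFn, List.map_ofFn] at h1
  rw [wb_eq, wb_eq, map_list_prod, List.map_ofFn]
  have h3 : (W.map (tau X n σ)) ∘ (fun i => W.map (prj X n i) (e ((w ∘ σ) i))) =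
      (fun i => W.map (prj X n i) (e (w i))) ∘ ((fun i => i) ∘ σ) := by
    funext i
    rw [Function.comp_apply, Function.comp_apply, ← W.map_comp, tau_prj]
    rfl
  rw [h3]
  exact h1

/-- The part of an array with given parities. -/
def part (p : ι → Fin 2) {n : ℕ} (ε : Fin (n + 1) → Fin 2) (a : (Fin (n + 1) → ι) → ℚ) :
    (Fin (n + 1) → ι) → ℚ := fun w => if p ∘ w = ε then a w else 0

lemma sum_part (p : ι → Fin 2) {n : ℕ} (a : (Fin (n + 1) → ι) → ℚ) :
    ∑ ε, part p ε a = a := by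
  funext w
  rw [Finset.sum_apply, Finset.sum_eq_single (p ∘ w)]
  · rw [part, if_pos rfl]
  · intro ε _ hε
    rw [part, if_neg (Ne.symm hε)]
  · intro h; exact absurd (Finset.mem_univ _) h

/-- Permutations of arrays of given parities. -/
lemma clw_perm (hp : ∀ j, e j ∈ PH W X (p j : ℕ)) (n : ℕ) (σ : Equiv.Perm (Fin (n + 1)))
    (ε : Fin (n + 1) → Fin 2) : ∃ s : W.K, s ≠ 0 ∧ ∀ a : (Fin (n + 1) → ι) → ℚ,
      W.map (tau X n σ) (clw e n (part p ε a)) = s • clw e n (rei σ (part p ε a)) := by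
  obtain ⟨s, hs, h⟩ := tau_wb_par hp n σ (ε ∘ σ.symm)
  refine ⟨s, hs, fun a => ?_⟩
  have h0 : clw e n (part p ε a) = ∑ w : Fin (n + 1) → ι,
      ((part p ε a (w ∘ σ) : ℚ) : W.K) • wb e n (w ∘ σ) := by
    rw [clw, ← Equiv.sum_comp (σ.symm.arrowCongr (Equiv.refl ι))]
    rfl
  rw [h0, map_sum, clw, Finset.smul_sum]
  refine Finset.sum_congr rfl fun w _ => ?_
  rw [map_smul, rei]
  by_cases hw : p ∘ (w ∘ σ) = ε
  · have h2 : p ∘ w = ε ∘ σ.symm := by
      rw [← hw]
      funext i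
      simp
    rw [h w h2, smul_comm]
  · rw [part, if_neg hw, Rat.cast_zero, zero_smul, zero_smul, smul_zero]

section Op

variable {S : Sys W}

/-- Projectors to the words of given parities. -/
lemma exists_parOp (hb : ∀ b : Fin 2, ∃ u ∈ S.Op X X, ∀ j, u (e j) = if p j = b then e j else 0) :
    ∀ (n : ℕ) (ε : Fin (n + 1) → Fin 2), ∃ u ∈ S.Op (pw X n) (pw X n), ∀ w : Fin (n + 1) → ι,
      u (wb e n w) = if p ∘ w = ε then wb e n w else 0
  | 0, ε => by
    obtain ⟨u, hu, hu'⟩ := hb (ε 0)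
    refine ⟨u, hu, fun w => ?_⟩
    have h1 : (wb e 0 : (Fin 1 → ι) → W.H X) = fun w => e (w 0) := funext fun w => wb_zero e w
    have h2 : (p ∘ w = ε) ↔ p (w 0) = ε 0 := by
      constructor
      · intro h; rw [← h]; rfl
      · intro h
        funext i
        have hi : i = 0 := Subsingleton.elim (α := Fin 1) i 0
        rw [hi]
        exact h
    have h3 := hu' (w 0)
    have h4 : e (w 0) = (wb e 0 : (Fin 1 → ι) → W.H X) w := by rw [h1]
    rw [h4] at h3
    simp only [h2]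
    exact h3
  | n + 1, ε => by
    obtain ⟨u, hu, hu'⟩ := exists_parOp hb n (fun i => ε i.castSucc)
    obtain ⟨v, hv, hv'⟩ := hb (ε (Fin.last _))
    refine ⟨extOp W u v, Sys.Op.ext hu hv, fun w => ?_⟩
    rw [wb_succ]
    have h1 := extOp_tmul (W := W) u v (wb e n fun i => w i.castSucc) (e (w (Fin.last _)))
    refine h1.trans ?_
    rw [hu', hv']
    have h2 : (p ∘ w = ε) ↔ (p ∘ (fun i : Fin (n + 1) => w i.castSucc) = fun i => ε i.castSucc) ∧
        p (w (Fin.last _)) = ε (Fin.last _) := by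
      constructor
      · intro h; subst h; exact ⟨rfl, rfl⟩
      · rintro ⟨h, h'⟩
        funext i
        refine Fin.lastCases h' (fun i => ?_) i
        exact congrFun h i
    by_cases ha : p ∘ (fun i : Fin (n + 1) => w i.castSucc) = fun i => ε i.castSucc
    · by_cases hb : p (w (Fin.last _)) = ε (Fin.last _)
      · rw [if_pos ha, if_pos hb, if_pos (h2.2 ⟨ha, hb⟩)]
        rfl
      · rw [if_neg hb, if_neg (fun h => hb (h2.1 h).2), map_zero, mul_zero]
        rfl
    · rw [if_neg ha, if_neg (fun h => ha (h2.1 h).1), map_zero, zero_mul]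
      rfl

/-- The parts of arrays of classes of the system. -/
lemma arrs_part (hb : ∀ b : Fin 2, ∃ u ∈ S.Op X X, ∀ j, u (e j) = if p j = b then e j else 0)
    {n : ℕ} (ε : Fin (n + 1) → Fin 2) {a : (Fin (n + 1) → ι) → ℚ} (ha : a ∈ arrs e S n) :
    part p ε a ∈ arrs e S n := by
  obtain ⟨u, hu, hu'⟩ := exists_parOp hb n ε
  have h1 : clw e n (part p ε a) = u (clw e n a) := by
    rw [clw, clw, map_sum]
    refine Finset.sum_congr rfl fun w _ => ?_
    rw [map_smul, hu', part]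
    split_ifs
    · rfl
    · rw [Rat.cast_zero, zero_smul, smul_zero]
  rw [mem_arrs, h1]
  exact Sys.Op.apply (fun _ => le_rfl) hu ha

/-- Permutations of arrays of classes of the system. -/
lemma arrs_perm (hp : ∀ j, e j ∈ PH W X (p j : ℕ))
    (hb : ∀ b : Fin 2, ∃ u ∈ S.Op X X, ∀ j, u (e j) = if p j = b then e j else 0)
    (n : ℕ) (σ : Equiv.Perm (Fin (n + 1))) {a : (Fin (n + 1) → ι) → ℚ} (ha : a ∈ arrs e S n) :
    rei σ a ∈ arrs e S n := by
  have h1 : rei σ a = ∑ ε, rei σ (part p ε a) := by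
    conv_lhs => rw [← sum_part p a]
    funext w
    rw [rei, Finset.sum_apply, Finset.sum_apply]
    rfl
  rw [h1]
  refine Submodule.sum_mem _ fun ε _ => ?_
  obtain ⟨s, hs, h⟩ := clw_perm hp n σ ε
  rw [mem_arrs]
  have h2 : clw e n (rei σ (part p ε a)) = s⁻¹ • W.map (tau X n σ) (clw e n (part p ε a)) := by
    rw [h, smul_smul, inv_mul_cancel₀ hs, one_smul]
  rw [h2]
  exact Submodule.smul_mem _ _ (S.map _ (arrs_part hb ε ha))

end Op

/-- Parity projectors. -/
lemma exists_proj {S : Sys W} (hp : ∀ j, e j ∈ PH W X (p j : ℕ))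
    (hpar : H914.par (W.isInternal X) ∈ S.Op X X) (b : Fin 2) :
    ∃ u ∈ S.Op X X, ∀ j, u (e j) = if p j = b then e j else 0 := by
  refine ⟨(2 : W.K)⁻¹ • (LinearMap.id + (-1 : W.K) ^ (b : ℕ) • H914.par (W.isInternal X)),
    Submodule.smul_mem _ _ (Submodule.add_mem _ Sys.Op.id (Submodule.smul_mem _ _ hpar)),
    fun j => ?_⟩
  rw [LinearMap.smul_apply, LinearMap.add_apply, LinearMap.smul_apply, LinearMap.id_apply,
    PH.par (hp j), smul_smul, ← pow_add]
  have h2 : (2 : W.K) ≠ 0 := two_ne_zero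
  have h3 : (2 : W.K)⁻¹ + 2⁻¹ = 1 := by
    rw [← two_mul, mul_inv_cancel₀ h2]
  have h4 : e j + e j = (2 : W.K) • e j := (two_smul _ _).symm
  rcases Fin.exists_fin_two.1 ⟨b, rfl⟩ with hb | hb <;>
    rcases Fin.exists_fin_two.1 ⟨p j, rfl⟩ with hj | hj
  all_goals
    rw [hb, hj]
    simp [h4, smul_smul, h2]

end Pool.Agent.N996.BP.Geo
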