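import Pool.Agent.N996.BP.Geo1
import Pool.Agent.N996.BP.Geo3
import Pool.Agent.N996.BP.Core
import Pool.Agent.Y121.AH.Fix

/-!
# The bounded power theorem for Hodge theories
-/

set_option linter.unusedSectionVars false

open CategoryTheory AlgebraicGeometry TensorProduct

universe u

namespace Pool.Agent.N996.BP.Geo

open Module
open Pool.Agent.H914 Pool.Agent.H914.VarClass Pool.Agent.H914.VarClass.Obj
  Pool.Agent.H914.WeilCohomology
open Pool.Agent.Y133.Half Pool.Agent.Y121.AH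

variable {k : Type u} [Field k] {𝒱 : VarClass k} {ops : CycleOps 𝒱} {T : HodgeTheory ops}
  {X Y : 𝒱.Obj}

section Basis

variable {W : WeilCohomology.{u, 0} ops}

/-- There is a homogeneous basis of the cohomology which contains the unit. -/
lemma exists_ubasis (W : WeilCohomology.{u, 0} ops) (X : 𝒱.Obj) [Nontrivial (W.H X)] :
    ∃ (ι : Type) (_ : Fintype ι) (_ : DecidableEq ι) (e : Basis ι W.K (W.H X)) (o : ι)
      (deg : ι → ℕ), e o = 1 ∧ ∀ j, e j ∈ W.gr X (deg j) := by
  classical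
  have h1 : ∀ i : ℕ, ∃ (κ : Type) (b : Basis κ W.K (W.gr X i)),
      i = 0 → ∃ o, ((b o : W.gr X i) : W.H X) = 1 := by
    intro i
    by_cases hi : i = 0
    · subst hi
      have h2 : (⟨1, W.one_mem X⟩ : W.gr X 0) ≠ 0 := by
        intro h
        exact one_ne_zero (congrArg Subtype.val h)
      have hs : LinearIndepOn W.K id ({⟨1, W.one_mem X⟩} : Set (W.gr X 0)) :=
        LinearIndepOn.singleton h2
      refine ⟨_, Basis.extend hs, fun _ => ?_⟩
      have h3 := Basis.subset_extend hs (Set.mem_singleton _)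
      refine ⟨⟨_, h3⟩, ?_⟩
      rw [Basis.extend_apply_self]
    · exact ⟨_, Basis.ofVectorSpace W.K (W.gr X i), fun h => absurd h hi⟩
  choose κ b hb using h1
  obtain ⟨o, ho⟩ := hb 0 rfl
  let B := (W.isInternal X).collectedBasis b
  have hfin : Finite (Σ i, κ i) := Module.Finite.finite_basis B
  refine ⟨Σ i, κ i, Fintype.ofFinite _, Classical.decEq _, B, ⟨0, o⟩, fun a => a.1, ?_, ?_⟩
  · change ((W.isInternal X).collectedBasis b) ⟨0, o⟩ = 1
    rw [DirectSum.IsInternal.collectedBasis_coe]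
    exact ho
  · intro j
    exact (W.isInternal X).collectedBasis_mem b j

/-- The classes of the powers of a divisor. -/
lemma dim_lt (T : HodgeTheory ops) (X : 𝒱.Obj) [Nontrivial (T.W.H X)] :
    X.dim + 1 ≤ finrank T.W.K (T.W.H X) := by
  classical
  obtain ⟨E, hE⟩ := T.dec.polar X
  have h1 : (1 : T.W.H X) ∈ T.W.gr X (2 * 0) := T.W.one_mem X
  have h2 : IsHodge T X 0 (1 : T.W.H X) := isHodge_one
  have hw : ∀ n, T.W.cl X E ^ n ∈ T.W.gr X (2 * n) := fun n => by
    have := ((IsHodge.cl (T := T) hE.1).pow n).1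
    rwa [one_mul] at this
  have h3 : T.W.cl X E ^ (X.dim - 2 * 0 + 1) * (1 : T.W.H X) = 0 := by
    have h4 := hw (X.dim - 2 * 0 + 1)
    rw [T.W.gr_eq_bot X _ (by omega)] at h4
    rw [(Submodule.mem_bot _).1 h4, zero_mul]
  obtain ⟨r, hr, h4⟩ := hE.2.2 0 (by omega) 1 h1 h2.2 h3 one_ne_zero
  rw [pow_zero, one_mul, mul_one, mul_one, mul_zero, Nat.sub_zero] at h4
  have h5 : T.W.cl X E ^ X.dim ≠ 0 := by
    intro h0
    rw [h0, map_zero] at h4
    have h6 : r = 0 := by exact_mod_cast h4.symm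
    exact hr.ne' h6
  have h6 : ∀ i ≤ X.dim, T.W.cl X E ^ i ≠ 0 := by
    intro i hi h0
    apply h5
    have : X.dim = i + (X.dim - i) := by omega
    rw [this, pow_add, h0, zero_mul]
  have h7 : LinearIndependent T.W.K fun i : Fin (X.dim + 1) => T.W.cl X E ^ (i : ℕ) := by
    have h8 := (T.W.isInternal X).submodule_iSupIndep
    have h9 : iSupIndep fun i : Fin (X.dim + 1) => T.W.gr X (2 * (i : ℕ)) :=
      h8.comp (f := fun i : Fin (X.dim + 1) => 2 * (i : ℕ)) fun i j hij => by
        ext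
        have : 2 * (i : ℕ) = 2 * (j : ℕ) := hij
        omega
    exact h9.linearIndependent _ (fun i => hw _) (fun i => h6 _ (by omega))
  have h8 := h7.fintype_card_le_finrank
  rwa [Fintype.card_fin] at h8

end Basis

section Class

variable {ι : Type} [Fintype ι] [DecidableEq ι] (e : Basis ι T.W.K (T.W.H X))
  {H : HData ι} {hF : DirectSum.IsInternal (Fx T X)}

lemma emb_surj (n : ℕ) (x : (CW T).H (pw X n)) : ∃ z, emb e n z = x := by
  refine ⟨((wb e n).baseChange ℂ).equivFun x, ?_⟩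
  have h1 := ((wb e n).baseChange ℂ).sum_equivFun x
  have h2 : emb e n (((wb e n).baseChange ℂ).equivFun x) =
      ∑ w, ((wb e n).baseChange ℂ).equivFun x w • ((wb e n).baseChange ℂ) w := by
    refine Finset.sum_congr rfl fun w _ => ?_
    rw [Basis.baseChange_apply]
    rfl
  exact h2.trans h1

lemma sum_two (g B : Matrix ι ι ℂ) (v : Fin (1 + 1) → ι) :
    ∑ w : Fin (1 + 1) → ι, kp (Fin (1 + 1)) g w v * B (w 0) (w 1) =
      (g.transpose * B * g) (v 0) (v 1) := by
  rw [sum_snoc 0, Matrix.mul_apply]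
  have h0 : ∀ f : (Fin (0 + 1) → ι) → ℂ, ∑ w, f w = ∑ x, f (fun _ => x) := by
    intro f
    exact (Equiv.sum_comp (Equiv.funUnique (Fin 1) ι).symm f).symm
  rw [h0, Finset.sum_comm]
  refine Finset.sum_congr rfl fun y _ => ?_
  rw [Matrix.mul_apply, Finset.sum_mul]
  refine Finset.sum_congr rfl fun x _ => ?_
  rw [kp_apply, Fin.prod_univ_two, Matrix.transpose_apply]
  have e0 : (Fin.snoc (α := fun _ => ι) (fun _ : Fin (0 + 1) => x) y : Fin (0 + 1 + 1) → ι) 0 = x :=
    rfl
  have e1 : (Fin.snoc (α := fun _ => ι) (fun _ : Fin (0 + 1) => x) y : Fin (0 + 1 + 1) → ι) 1 = y :=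
    rfl
  change g ((Fin.snoc (α := fun _ => ι) (fun _ : Fin (0 + 1) => x) y : Fin (0 + 1 + 1) → ι) 0)
    (v 0) * g ((Fin.snoc (α := fun _ => ι) (fun _ : Fin (0 + 1) => x) y :
      Fin (0 + 1 + 1) → ι) 1) (v 1) *
      B ((Fin.snoc (α := fun _ => ι) (fun _ : Fin (0 + 1) => x) y : Fin (0 + 1 + 1) → ι) 0)
      ((Fin.snoc (α := fun _ => ι) (fun _ : Fin (0 + 1) => x) y : Fin (0 + 1 + 1) → ι) 1) = _
  rw [e0, e1]
  ring

/-- The class of the form. -/
lemma exists_q (hH : ∀ t : ℂ, t ≠ 0 → H.l t = mG hF e (fun k => t ^ k)) :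
    ∃ q : T.W.H (pw X 1), Inv T (pw X 1) q ∧
      ∀ w, T.W.tr (pw X 1) (wb e 1 w * q) = ((H.Qr (w 0) (w 1) : ℚ) : T.W.K) := by
  obtain ⟨q, hq⟩ := exists_dual_class T.W (X := pw X 1)
    ((wb e 1).constr T.W.K fun w => ((H.Qr (w 0) (w 1) : ℚ) : T.W.K))
  have hq' : ∀ w, T.W.tr (pw X 1) (wb e 1 w * q) = ((H.Qr (w 0) (w 1) : ℚ) : T.W.K) := by
    intro w
    rw [hq, Basis.constr_basis]
  refine ⟨q, ?_, hq'⟩
  have hval : ∀ z, (CW T).tr (pw X 1) (emb e 1 z * em T.W ℂ q) =
      cc T (∑ w, z w * cQ H.Qr (w 0) (w 1)) := by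
    intro z
    rw [emb, Finset.sum_mul, map_sum]
    have h1 : ∀ w, (CW T).tr (pw X 1) (cc T (z w) • em T.W ℂ (wb e 1 w) * em T.W ℂ q) =
        cc T (z w * cQ H.Qr (w 0) (w 1)) := by
      intro w
      rw [smul_mul_assoc, map_smul, ← em_mul, em_tr, hq', ex_rat]
      rfl
    rw [Finset.sum_congr rfl fun w _ => h1 w]
    rfl
  have hinv : ∀ s : ℂ, s ≠ 0 → ∀ x, (CW T).tr (pw X 1) (lop T s (pw X 1) x * em T.W ℂ q) =
      (CW T).tr (pw X 1) (x * em T.W ℂ q) := by
    intro s hs x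
    obtain ⟨z, rfl⟩ := emb_surj e 1 x
    rw [lop_emb e hH hs, hval, hval]
    congr 1
    simp only [Matrix.mulVec, dotProduct, Finset.sum_mul]
    rw [Finset.sum_comm]
    refine Finset.sum_congr rfl fun v _ => ?_
    have h1 := sum_two (H.l s) (cQ H.Qr) v
    rw [H.l_Q hs] at h1
    rw [← h1, Finset.mul_sum]
    refine Finset.sum_congr rfl fun w _ => ?_
    ring
  intro t ht
  rw [← sub_eq_zero]
  apply nondeg_right
  intro b
  rw [mul_sub, map_sub, sub_eq_zero]
  have h1 : b = lop T t (pw X 1) (lop T t⁻¹ (pw X 1) b) := (lop_inv ht b).symm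
  conv_lhs => rw [h1]
  rw [← lop_mul ht, tr_lop, hinv _ (inv_ne_zero ht)]

/-- The external product with an operator. -/
lemma lop_ext {t : ℂ} (ht : t ≠ 0) (z : (CW T).H (X.prod X)) :
    lop T t (X.prod X) (extOp (CW T) (lop T (-1) X) 1 z) =
      extOp (CW T) (lop T (-1) X) 1 (lop T t (X.prod X) z) := by
  refine (CW T).kunneth_induction (p := fun z => lop T t (X.prod X)
    (extOp (CW T) (lop T (-1) X) 1 z) = extOp (CW T) (lop T (-1) X) 1 (lop T t (X.prod X) z))
      ?_ ?_ z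
  · intro a b ha hb; simp only [map_add, ha, hb]
  · intro i j a _ b _
    rw [extOp_tmul, lop_mul ht, lop_mul ht, lop_map, lop_map, lop_map, lop_map, extOp_tmul,
      lop_lop, lop_lop, mul_comm t]
    rfl

lemma em_par (x : T.W.H X) : em T.W ℂ (H914.par (T.W.isInternal X) x) =
    lop T (-1) X (em T.W ℂ x) := by
  refine gr_induction (T.W.isInternal X) (p := fun x =>
    em T.W ℂ (H914.par (T.W.isInternal X) x) = lop T (-1) X (em T.W ℂ x)) ?_ ?_ x
  · intro i x hx
    have h1 : lop T (-1) X (em T.W ℂ x) = (-1 : (CW T).K) ^ i • em T.W ℂ x := by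
      refine Submodule.iSup_induction (fun r : {r : ℤ × ℤ // r.1 + r.2 = i} => T.pq X r.1.1 r.1.2)
        (motive := fun x => lop T (-1) X x = (-1 : (CW T).K) ^ i • x) (T.dec.span hx) ?_ ?_ ?_
      · rintro ⟨⟨a, b⟩, hr⟩ x hx
        rw [lop_pq hx]
        have h2 : cc T (-1) = -1 := rfl
        have h4 : a - b = (i : ℤ) + 2 * (-b) := by
          have hr' : a + b = i := hr
          omega
        change cc T (-1) ^ (a - b) • x = (-1 : (CW T).K) ^ i • x
        have h5 : (-1 : (CW T).K) ≠ 0 := neg_ne_zero.2 one_ne_zero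
        rw [h2, h4, zpow_add₀ h5, zpow_natCast, zpow_mul]
        have h6 : ((-1 : (CW T).K) ^ (2 : ℤ)) = 1 := by
          rw [zpow_ofNat]; simp
        rw [h6, one_zpow, mul_one]
      · rw [map_zero, smul_zero]
      · intro x y hx hy; rw [map_add, hx, hy, smul_add]
    rw [h1, PH.par (PH.of hx), em_smul]
    congr 1
    rw [ex, map_pow, map_neg, map_one]
    rfl
  · intro a b ha hb; rw [map_add, em_add, ha, hb, em_add, map_add]

lemma em_extOp (z : T.W.H (X.prod X)) :
    em T.W ℂ (extOp T.W (H914.par (T.W.isInternal X)) 1 z) =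
      extOp (CW T) (lop T (-1) X) 1 (em T.W ℂ z) := by
  refine T.W.kunneth_induction (p := fun z =>
    em T.W ℂ (extOp T.W (H914.par (T.W.isInternal X)) 1 z) =
      extOp (CW T) (lop T (-1) X) 1 (em T.W ℂ z)) ?_ ?_ z
  · intro a b ha hb; rw [map_add, em_add, ha, hb, em_add, map_add]
  · intro i j a _ b _
    rw [extOp_tmul, em_mul, ← em_map, ← em_map, em_par, em_mul, ← em_map, ← em_map, extOp_tmul]
    rfl

/-- The parity operator is self-adjoint. -/
lemma par_adj (W : WeilCohomology.{u, 0} ops) (X : 𝒱.Obj) :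
    Adj W (H914.par (W.isInternal X)) (H914.par (W.isInternal X)) := by
  intro a b
  refine gr_induction (W.isInternal X) (p := fun a =>
    W.tr X (H914.par (W.isInternal X) a * b) = W.tr X (a * H914.par (W.isInternal X) b)) ?_ ?_ a
  · intro i a ha
    refine gr_induction (W.isInternal X) (p := fun b =>
      W.tr X (H914.par (W.isInternal X) a * b) = W.tr X (a * H914.par (W.isInternal X) b)) ?_ ?_ b
    · intro j b hb
      rw [PH.par (PH.of ha), PH.par (PH.of hb), smul_mul_assoc, mul_smul_comm, map_smul, map_smul]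
      by_cases h : (i + j) % 2 = 1
      · rw [PH.tr_odd (PH.mul (PH.of ha) (PH.of hb)) h, smul_zero, smul_zero]
      · rw [neg_pow_congr (a := i) (b := j) (by omega)]
    · intro x y hx hy; simp only [map_add, mul_add, hx, hy]
  · intro x y hx hy; simp only [map_add, add_mul, hx, hy]

/-- The parity operator is given by a Hodge class. -/
lemma par_mem {S : Sys T.W} (hS : (hodgePred T).sp (X.prod X) ≤ S.C (X.prod X)) :
    H914.par (T.W.isInternal X) ∈ S.Op X X := by
  have h1 : Inv T (X.prod X) (extOp T.W (H914.par (T.W.isInternal X)) 1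
      (T.W.push (diag X) 1)) := by
    intro t ht
    have h2 : Inv T (X.prod X) (T.W.push (diag X) 1) :=
      inv_iff.2 ((hodgePred T).sys.push _ ((hodgePred T).sys.one X))
    rw [em_extOp, lop_ext ht, h2 t ht]
  have h2 := hS (inv_iff.1 h1)
  have h3 : T.W.corr (extOp T.W (H914.par (T.W.isInternal X)) 1 (T.W.push (diag X) 1)) =
      H914.par (T.W.isInternal X) := by
    have hev : Ev T.W (H914.par (T.W.isInternal X)) := by
      intro b x hx
      rw [PH.par hx]
      exact Submodule.smul_mem _ _ hx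
    rw [corr_extOp (par_adj T.W X) hev (fun _ _ hx => hx), Sys.corr_diag_one]
    rfl
  rw [← h3]
  exact Sys.Op.corr h2

end Class

end Pool.Agent.N996.BP.Geo
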