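import Pool.Agent.N996.BP.Fam
import Pool.Agent.N996.BP.DC
import Pool.Agent.W437.HD.Fixed

/-!
# Hodge structures in coordinates
-/

set_option linter.unusedSectionVars false

namespace Pool.Agent.N996.BP

open Matrix ComplexConjugate

variable {ι : Type} [Fintype ι] [DecidableEq ι]

/-- The cocharacter with weights between `-w` and `w` and given projectors. -/
noncomputable def lt (w : ℕ) (π : ℤ → Matrix ι ι ℂ) (t : ℂ) : Matrix ι ι ℂ :=
  ∑ k ∈ Finset.Icc (-w : ℤ) w, t ^ k • π k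

/-- The matrix with rational entries as a complex matrix. -/
def cQ {m n : Type*} (M : Matrix m n ℚ) : Matrix m n ℂ := M.map (fun x : ℚ => (x : ℂ))

/-- A polarised rational Hodge structure in coordinates, with a distinguished rational vector of
weight zero. -/
structure HData (ι : Type) [Fintype ι] [DecidableEq ι] where
  /-- the real data -/
  D : RData ι
  /-- the rational form -/
  Qr : Matrix ι ι ℚ
  /-- its inverse -/
  Qir : Matrix ι ι ℚ
  /-- the bound of the weights -/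
  w : ℕ
  /-- the projectors -/
  π : ℤ → Matrix ι ι ℂ
  hQr : D.Q = Qr.map (fun x : ℚ => (x : ℝ))
  hQir : D.Qi = Qir.map (fun x : ℚ => (x : ℝ))
  h1 : ∑ k ∈ Finset.Icc (-w : ℤ) w, π k = 1
  hmul : ∀ k ∈ Finset.Icc (-w : ℤ) w, ∀ l ∈ Finset.Icc (-w : ℤ) w,
    π k * π l = if k = l then π k else 0
  hπQ : ∀ k ∈ Finset.Icc (-w : ℤ) w, (π k)ᵀ * cQ Qr = cQ Qr * π (-k)
  hconj : ∀ k ∈ Finset.Icc (-w : ℤ) w, (π k).map conj = π (-k)
  hC : D.C.map (fun x : ℝ => (x : ℂ)) = lt w π Complex.I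
  ho : ∀ t : ℂ, t ≠ 0 → ∀ i, lt w π t i D.o = if i = D.o then 1 else 0

namespace HData

variable (H : HData ι)

/-- The cocharacter. -/
noncomputable def l (t : ℂ) : Matrix ι ι ℂ := lt H.w H.π t

lemma l_apply (t : ℂ) : H.l t = ∑ k ∈ Finset.Icc (-H.w : ℤ) H.w, t ^ k • H.π k := rfl

lemma l_one : H.l 1 = 1 := by
  rw [l_apply, ← H.h1]
  exact Finset.sum_congr rfl fun k _ => by rw [_root_.one_zpow, one_smul]

lemma l_mul {s t : ℂ} : H.l s * H.l t = H.l (s * t) := by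
  rw [l_apply, l_apply, l_apply, Finset.sum_mul_sum]
  refine Finset.sum_congr rfl fun k hk => ?_
  rw [Finset.sum_eq_single k]
  · rw [Matrix.smul_mul, Matrix.mul_smul, H.hmul k hk k hk, if_pos rfl, smul_smul, mul_zpow]
  · intro m hm hne
    rw [Matrix.smul_mul, Matrix.mul_smul, H.hmul k hk m hm, if_neg (Ne.symm hne), smul_zero,
      smul_zero]
  · intro h; exact absurd hk h

lemma l_inv {t : ℂ} (ht : t ≠ 0) : H.l t * H.l t⁻¹ = 1 := by
  rw [l_mul, mul_inv_cancel₀ ht, l_one]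

lemma l_inv' {t : ℂ} (ht : t ≠ 0) : H.l t⁻¹ * H.l t = 1 := by
  rw [l_mul, inv_mul_cancel₀ ht, l_one]

lemma sum_neg {M : Type*} [AddCommMonoid M] (f : ℤ → M) :
    ∑ k ∈ Finset.Icc (-H.w : ℤ) H.w, f (-k) = ∑ k ∈ Finset.Icc (-H.w : ℤ) H.w, f k := by
  refine Finset.sum_nbij' (fun k => -k) (fun k => -k) ?_ ?_ ?_ ?_ ?_
  · intro a ha; rw [Finset.mem_Icc] at *; omega
  · intro a ha; rw [Finset.mem_Icc] at *; omega
  · intro a _; simp
  · intro a _; simp
  · intro a _; rfl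

lemma l_tr {t : ℂ} (ht : t ≠ 0) : (H.l t)ᵀ * cQ H.Qr = cQ H.Qr * H.l t⁻¹ := by
  rw [l_apply, l_apply, Matrix.transpose_sum, Finset.sum_mul, Finset.mul_sum,
    ← H.sum_neg fun k => cQ H.Qr * t⁻¹ ^ k • H.π k]
  refine Finset.sum_congr rfl fun k hk => ?_
  rw [Matrix.transpose_smul, Matrix.smul_mul, H.hπQ k hk, Matrix.mul_smul, _root_.inv_zpow', neg_neg]

lemma l_Q {t : ℂ} (ht : t ≠ 0) : (H.l t)ᵀ * cQ H.Qr * H.l t = cQ H.Qr := by
  rw [H.l_tr ht, Matrix.mul_assoc, H.l_inv' ht, Matrix.mul_one]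

lemma l_conj {t : ℂ} (ht : t ≠ 0) : (H.l t).map conj = H.l (conj t)⁻¹ := by
  rw [l_apply, l_apply, ← H.sum_neg fun k => (conj t)⁻¹ ^ k • H.π k]
  ext i j
  rw [Matrix.map_apply, Matrix.sum_apply, map_sum, Matrix.sum_apply]
  refine Finset.sum_congr rfl fun k hk => ?_
  rw [Matrix.smul_apply, Matrix.smul_apply, ← H.hconj k hk, smul_eq_mul, map_mul, map_zpow₀,
    _root_.inv_zpow', neg_neg]
  rfl

lemma Qr_Qir : H.Qr * H.Qir = 1 := by
  have h := H.D.hQ
  rw [H.hQr, H.hQir] at h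
  ext i j
  have h2 := congrFun (congrFun h i) j
  rw [Matrix.mul_apply, Matrix.one_apply] at h2 ⊢
  simp only [Matrix.map_apply] at h2
  have h3 : ((∑ k, H.Qr i k * H.Qir k j : ℚ) : ℝ) = ((if i = j then 1 else 0 : ℚ) : ℝ) := by
    rw [Rat.cast_sum]
    simp only [Rat.cast_mul]
    rw [h2]
    split_ifs <;> simp
  exact_mod_cast h3

end HData

lemma cQ_mul {m n p : Type*} [Fintype n] (M : Matrix m n ℚ) (N : Matrix n p ℚ) :
    cQ (M * N) = cQ M * cQ N := by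
  ext i j
  simp [cQ, Matrix.mul_apply]

lemma cQ_one {n : Type*} [DecidableEq n] : cQ (1 : Matrix n n ℚ) = 1 := by
  ext i j
  rw [cQ, Matrix.map_apply, Matrix.one_apply, Matrix.one_apply]
  split_ifs <;> simp

lemma kp_cQ {κ : Type} [Fintype κ] (M : Matrix ι ι ℚ) :
    kp κ (cQ M) = cQ (kp κ M) := by
  ext i j
  simp [kp_apply, cQ]

lemma cQ_map {m n : Type*} (M : Matrix m n ℚ) (σ : ℂ ≃+* ℂ) : (cQ M).map σ = cQ M := by
  ext i j
  simp [cQ]

/-- The rational array as a complex array. -/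
def ca {κ : Type} (a : (κ → ι) → ℚ) : (κ → ι) → ℂ := fun i => (a i : ℂ)

variable (H : HData ι)

/-- The Hodge classes. -/
def BB (κ : Type) [Fintype κ] [DecidableEq κ] : Submodule ℚ ((κ → ι) → ℚ) where
  carrier := {a | ∀ t : ℂ, t ≠ 0 → kp κ (H.l t) *ᵥ ca a = ca a}
  add_mem' {a b} ha hb t ht := by
    have h : ca (a + b) = ca a + ca b := by ext; simp [ca]
    rw [h, Matrix.mulVec_add, ha t ht, hb t ht]
  zero_mem' t ht := by
    have h : ca (0 : (κ → ι) → ℚ) = 0 := by ext; simp [ca]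
    rw [h, Matrix.mulVec_zero]
  smul_mem' c a ha t ht := by
    have h : ca (c • a) = (c : ℂ) • ca a := by ext; simp [ca]
    rw [h, Matrix.mulVec_smul, ha t ht]

/-- The generators of the group. -/
def gens : Set (Matrix ι ι ℂ) := {g | ∃ (σ : ℂ ≃+* ℂ) (t : ℂ), t ≠ 0 ∧ g = (H.l t).map σ}

/-- The monoid generated by the conjugates of the cocharacter. -/
def GG : Submonoid (Matrix ι ι ℂ) := Submonoid.closure (gens H)

lemma map_mul' {m : Type*} [Fintype m] (σ : ℂ ≃+* ℂ) (x y : Matrix m m ℂ) :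
    (x * y).map σ = x.map σ * y.map σ := by
  have := Matrix.map_mul (L := x) (M := y) (f := σ.toRingHom)
  exact this

lemma map_one' {m : Type*} [Fintype m] [DecidableEq m] (σ : ℂ ≃+* ℂ) :
    (1 : Matrix m m ℂ).map σ = 1 := Matrix.map_one _ (map_zero σ) (map_one σ)

lemma kp_map' {κ : Type} [Fintype κ] (σ : ℂ ≃+* ℂ) (g : Matrix ι ι ℂ) :
    kp κ (g.map σ) = (kp κ g).map σ := by
  ext i j
  simp [kp_apply]

lemma GG_map (σ : ℂ ≃+* ℂ) {g : Matrix ι ι ℂ} (hg : g ∈ GG H) : g.map σ ∈ GG H := by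
  induction hg using Submonoid.closure_induction with
  | mem x hx =>
    obtain ⟨τ, t, ht, rfl⟩ := hx
    refine Submonoid.subset_closure ⟨τ.trans σ, t, ht, ?_⟩
    rw [Matrix.map_map]
    rfl
  | one => rw [map_one']; exact Submonoid.one_mem _
  | mul x y _ _ hx hy => rw [map_mul']; exact Submonoid.mul_mem _ hx hy

/-- Hodge classes are invariant under the group. -/
lemma GG_fix {κ : Type} [Fintype κ] [DecidableEq κ] {a : (κ → ι) → ℚ} (ha : a ∈ BB H κ)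
    {g : Matrix ι ι ℂ} (hg : g ∈ GG H) : kp κ g *ᵥ ca a = ca a := by
  induction hg using Submonoid.closure_induction with
  | mem x hx =>
    obtain ⟨σ, t, ht, rfl⟩ := hx
    have h1 := ha t ht
    rw [kp_map']
    ext i
    have h2 := congrArg σ (congrFun h1 i)
    rw [Matrix.mulVec, dotProduct, map_sum] at h2
    rw [Matrix.mulVec, dotProduct]
    simp only [map_mul, ca, map_ratCast] at h2 ⊢
    exact h2
  | one => rw [kp_one, Matrix.one_mulVec]
  | mul x y _ _ hx hy => rw [kp_mul, ← Matrix.mulVec_mulVec, hy, hx]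

/-- The array of the inverse of the form is a Hodge class. -/
lemma arr_BB {κ : Type} [Fintype κ] [DecidableEq κ] {x : Matrix (κ → ι) (κ → ι) ℚ}
    (hx : ∀ t : ℂ, t ≠ 0 → kp κ (H.l t) * cQ x = cQ x * kp κ (H.l t)) :
    arr (x * kp κ H.Qir) ∈ BB H (κ ⊕ κ) := by
  intro t ht
  have h0 : ca (arr (x * kp κ H.Qir)) = arr (cQ (x * kp κ H.Qir)) := rfl
  rw [h0, kp_arr, cQ_mul]
  congr 1
  have h1 : kp κ (H.l t) * cQ (kp κ H.Qir) * (kp κ (H.l t))ᵀ = cQ (kp κ H.Qir) := by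
    have h2 : (kp κ (H.l t))ᵀ * cQ (kp κ H.Qr) = cQ (kp κ H.Qr) * kp κ (H.l t⁻¹) := by
      rw [← kp_transpose, ← kp_cQ, ← kp_mul, ← kp_mul, H.l_tr ht]
    have h3 : cQ (kp κ H.Qr) * cQ (kp κ H.Qir) = 1 := by
      rw [← cQ_mul, kp_inv_mul H.Qr_Qir, cQ_one]
    have h4 : cQ (kp κ H.Qir) * cQ (kp κ H.Qr) = 1 := mul_eq_one_comm.1 h3
    have h5 : kp κ (H.l t) * kp κ (H.l t⁻¹) = 1 := kp_inv_mul (H.l_inv ht)
    calc kp κ (H.l t) * cQ (kp κ H.Qir) * (kp κ (H.l t))ᵀ =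
        kp κ (H.l t) * cQ (kp κ H.Qir) * ((kp κ (H.l t))ᵀ * cQ (kp κ H.Qr)) *
          cQ (kp κ H.Qir) := by rw [Matrix.mul_assoc, Matrix.mul_assoc,
            Matrix.mul_assoc _ (cQ (kp κ H.Qr)), h3, Matrix.mul_one, Matrix.mul_assoc]
      _ = kp κ (H.l t) * (cQ (kp κ H.Qir) * cQ (kp κ H.Qr)) * kp κ (H.l t⁻¹) *
          cQ (kp κ H.Qir) := by rw [h2]; simp only [Matrix.mul_assoc]
      _ = _ := by rw [h4, Matrix.mul_one, h5, Matrix.one_mul]
  rw [← Matrix.mul_assoc, hx t ht, Matrix.mul_assoc (cQ x), Matrix.mul_assoc (cQ x), h1]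

end Pool.Agent.N996.BP
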