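import Pool.Agent.Y121.AH.Gop
import Pool.Agent.Y121.AH.HR
import Pool.Agent.Y133.Half.HodgeSys

/-!
# The operators `t ^ (p - q)` on the cohomology with complex coefficients
-/

open CategoryTheory AlgebraicGeometry TensorProduct

universe u

namespace Pool.Agent.N996.BP.Geo

open Module
open Pool.Agent.H914 Pool.Agent.H914.VarClass Pool.Agent.H914.VarClass.Obj
  Pool.Agent.H914.WeilCohomology
open Pool.Agent.Y133.Half Pool.Agent.Y121.AH

variable {k : Type u} [Field k] {𝒱 : VarClass k} {ops : CycleOps 𝒱} (T : HodgeTheory ops)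
  {X Y : 𝒱.Obj}

/-- The complex number as a coefficient. -/
def cc (t : ℂ) : (CW T).K := t

lemma cc_ne {t : ℂ} (ht : t ≠ 0) : cc T t ≠ 0 := ht

/-- The operator `t ^ (p - q)`. -/
noncomputable def lop (t : ℂ) (X : 𝒱.Obj) : Module.End (CW T).K ((CW T).H X) :=
  dia (isInternal T X) fun r => (cc T t) ^ (r.1 - r.2)

variable {T}

lemma lop_pq {t : ℂ} {p q : ℤ} {x : (CW T).H X} (hx : x ∈ T.pq X p q) :
    lop T t X x = (cc T t) ^ (p - q) • x :=
  dia_apply (isInternal T X) _ (i := (p, q)) hx

lemma lop_mul {t : ℂ} (ht : t ≠ 0) (x y : (CW T).H X) :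
    lop T t X (x * y) = lop T t X x * lop T t X y := by
  refine pq_ind T (p := fun x => lop T t X (x * y) = lop T t X x * lop T t X y) ?_ ?_ ?_ x
  · intro a b x hx
    refine pq_ind T (p := fun y => lop T t X (x * y) = lop T t X x * lop T t X y) ?_ ?_ ?_ y
    · intro c d y hy
      rw [lop_pq hx, lop_pq hy, lop_pq (T.dec.mul hx hy), smul_mul_smul_comm,
        ← zpow_add₀ (cc_ne T ht)]
      congr 2
      ring
    · intro y z hy hz; rw [mul_add, map_add, hy, hz, map_add, mul_add]
    · rw [mul_zero, map_zero, mul_zero]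
  · intro x z hx hz; rw [add_mul, map_add, hx, hz, map_add, add_mul]
  · rw [zero_mul, map_zero, zero_mul]

lemma lop_map {t : ℂ} (f : X ⟶ Y) (y : (CW T).H Y) :
    lop T t X ((CW T).map f y) = (CW T).map f (lop T t Y y) := by
  refine pq_ind T (p := fun y => lop T t X ((CW T).map f y) = (CW T).map f (lop T t Y y))
    ?_ ?_ ?_ y
  · intro a b y hy
    rw [lop_pq hy, lop_pq (T.dec.map f hy), map_smul]
  · intro y z hy hz; rw [map_add, map_add, hy, hz, map_add, map_add]
  · rw [map_zero, map_zero, map_zero, map_zero]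

lemma lop_push {t : ℂ} (f : X ⟶ Y) (x : (CW T).H X) :
    lop T t Y ((CW T).push f x) = (CW T).push f (lop T t X x) := by
  refine pq_ind T (p := fun x => lop T t Y ((CW T).push f x) = (CW T).push f (lop T t X x))
    ?_ ?_ ?_ x
  · intro a b x hx
    rw [lop_pq hx, lop_pq (T.dec.push f hx), map_smul]
    congr 2
    ring
  · intro y z hy hz; rw [map_add, map_add, hy, hz, map_add, map_add]
  · rw [map_zero, map_zero, map_zero, map_zero]

lemma lop_lop {s t : ℂ} (x : (CW T).H X) : lop T s X (lop T t X x) = lop T (s * t) X x := by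
  refine pq_ind T (p := fun x => lop T s X (lop T t X x) = lop T (s * t) X x) ?_ ?_ ?_ x
  · intro a b x hx
    rw [lop_pq hx, map_smul, lop_pq hx, lop_pq hx, smul_smul]
    congr 1
    have h : cc T (s * t) = cc T s * cc T t := rfl
    rw [h, mul_zpow, mul_comm]
  · intro y z hy hz; simp only [map_add, hy, hz]
  · simp only [map_zero]

lemma lop_id (x : (CW T).H X) : lop T 1 X x = x := by
  refine pq_ind T (p := fun x => lop T 1 X x = x) ?_ ?_ ?_ x
  · intro a b x hx
    rw [lop_pq hx]
    have h : cc T 1 = 1 := rfl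
    rw [h, one_zpow, one_smul]
  · intro y z hy hz; simp only [map_add, hy, hz]
  · simp only [map_zero]

lemma lop_inv {t : ℂ} (ht : t ≠ 0) (x : (CW T).H X) : lop T t X (lop T t⁻¹ X x) = x := by
  rw [lop_lop, mul_inv_cancel₀ ht, lop_id]

lemma lop_hodge {t : ℂ} {j : ℕ} {c : T.W.H X} (hc : IsHodge T X j c) :
    lop T t X (em T.W ℂ c) = em T.W ℂ c := by
  rw [lop_pq hc.2, sub_self, zpow_zero, one_smul]

lemma lop_two : lop T 2 X = gop T X := rfl

lemma em_one : em T.W ℂ (1 : T.W.H X) = 1 := rfl

lemma isHodge_one : IsHodge T X 0 1 := by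
  rw [← T.W.cl_fund X]
  exact IsHodge.cl X.V.fundCycle_mem

lemma lop_one {t : ℂ} : lop T t X 1 = 1 := by
  rw [← em_one]
  exact lop_hodge isHodge_one

/-- The trace is invariant. -/
lemma tr_lop {t : ℂ} (x : (CW T).H X) : (CW T).tr X (lop T t X x) = (CW T).tr X x := by
  have h1 := lop_push (T := T) (t := t) (snd X X) ((CW T).map (fst X X) x)
  rw [lop_map, push_snd', push_snd', map_smul, lop_one] at h1
  rcases subsingleton_or_nontrivial ((CW T).H X) with h | h
  · rw [Subsingleton.elim (lop T t X x) x]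
  · have h2 : ((CW T).tr X x - (CW T).tr X (lop T t X x)) • (1 : (CW T).H X) = 0 := by
      rw [sub_smul, h1, sub_self]
    rcases smul_eq_zero.1 h2 with h3 | h3
    · exact (sub_eq_zero.1 h3).symm
    · exact absurd h3 one_ne_zero

variable (T) in
/-- The space of the classes fixed by the operators. -/
def Inv (X : 𝒱.Obj) (c : T.W.H X) : Prop :=
  ∀ t : ℂ, t ≠ 0 → lop T t X (em T.W ℂ c) = em T.W ℂ c

/-- The degree of a class fixed by the operators is even. -/
lemma proj_odd {c : T.W.H X} {i : ℕ} (hi : i % 2 = 1) (hc : c ∈ T.W.gr X i)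
    (h : lop T (-1) X (em T.W ℂ c) = em T.W ℂ c) : c = 0 := by
  have h1 : lop T (-1) X (em T.W ℂ c) = - em T.W ℂ c := by
    refine Submodule.iSup_induction (fun r : {r : ℤ × ℤ // r.1 + r.2 = i} => T.pq X r.1.1 r.1.2)
      (motive := fun x => lop T (-1) X x = -x) (T.dec.span hc) ?_ ?_ ?_
    · rintro ⟨⟨a, b⟩, hr⟩ x hx
      rw [lop_pq hx]
      have h2 : cc T (-1) = -1 := rfl
      have h3 : Odd (a - b) := by
        have hr' : a + b = i := hr
        rw [Int.odd_iff]
        omega
      change cc T (-1) ^ (a - b) • x = -x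
      rw [h2, h3.neg_one_zpow, neg_smul, one_smul]
    · rw [map_zero, neg_zero]
    · intro x y hx hy; rw [map_add, hx, hy, neg_add]
  rw [h] at h1
  have h2 : em T.W ℂ c = 0 := by
    have h3 : (2 : (CW T).K) • em T.W ℂ c = 0 := by
      rw [two_smul]
      nth_rewrite 1 [h1]
      rw [neg_add_cancel]
    exact (smul_eq_zero.1 h3).resolve_left two_ne
  exact em_injective h2

lemma em_proj (c : T.W.H X) : ∀ i, em T.W ℂ (H914.proj (T.W.isInternal X) i c) =
    H914.proj ((CW T).isInternal X) i (em T.W ℂ c) := by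
  intro i
  refine gr_induction (T.W.isInternal X) (p := fun c => em T.W ℂ (H914.proj (T.W.isInternal X) i c)
    = H914.proj ((CW T).isInternal X) i (em T.W ℂ c)) ?_ ?_ c
  · intro j c hc
    by_cases h : j = i
    · subst h
      rw [proj_same _ hc, proj_same _ (em_gr hc)]
    · rw [proj_ne _ hc h, proj_ne _ (em_gr hc) h, em_zero]
  · intro a b ha hb
    rw [map_add, em_add, ha, hb, em_add, map_add]

lemma lop_gr {t : ℂ} {i : ℕ} {c : T.W.H X} (hc : c ∈ T.W.gr X i) :
    lop T t X (em T.W ℂ c) ∈ (CW T).gr X i := by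
  refine Submodule.iSup_induction (fun r : {r : ℤ × ℤ // r.1 + r.2 = i} => T.pq X r.1.1 r.1.2)
    (motive := fun x => lop T t X x ∈ (CW T).gr X i) (T.dec.span hc) ?_ ?_ ?_
  · intro r x hx
    rw [lop_pq hx]
    exact Submodule.smul_mem _ _ (T.dec.le X r.2 hx)
  · rw [map_zero]; exact Submodule.zero_mem _
  · intro x y hx hy; rw [map_add]; exact Submodule.add_mem _ hx hy

/-- The components of a class fixed by the operators are fixed by the operators. -/
lemma Inv.proj {c : T.W.H X} (h : Inv T X c) (i : ℕ) :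
    Inv T X (H914.proj (T.W.isInternal X) i c) := by
  intro t ht
  have key : ∀ c : T.W.H X, lop T t X (em T.W ℂ (H914.proj (T.W.isInternal X) i c)) =
      H914.proj ((CW T).isInternal X) i (lop T t X (em T.W ℂ c)) := by
    intro c
    refine gr_induction (T.W.isInternal X) (p := fun c =>
      lop T t X (em T.W ℂ (H914.proj (T.W.isInternal X) i c)) =
        H914.proj ((CW T).isInternal X) i (lop T t X (em T.W ℂ c))) ?_ ?_ c
    · intro j c hc
      by_cases h : j = i
      · subst h
        rw [proj_same _ hc, proj_same _ (lop_gr hc)]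
      · rw [proj_ne _ hc h, proj_ne _ (lop_gr hc) h, em_zero, map_zero]
    · intro a b ha hb
      rw [map_add, em_add, map_add, ha, hb, em_add, map_add, map_add]
  rw [key, h t ht, em_proj]

/-- **The classes fixed by the operators are the sums of Hodge classes.** -/
theorem inv_iff {c : T.W.H X} : Inv T X c ↔ c ∈ (hodgePred T).sp X := by
  constructor
  · intro h
    have h1 : ∀ i, H914.proj (T.W.isInternal X) i c ∈ (hodgePred T).sp X := by
      intro i
      have hm : H914.proj (T.W.isInternal X) i c ∈ T.W.gr X i := H914.proj_mem _ _ _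
      have hp := h.proj i
      rcases Nat.even_or_odd' i with ⟨j, rfl | rfl⟩
      · refine ClassPred.sp_of (j := j) (isHodge_of_fix hm ?_)
        rw [← lop_two]
        exact hp 2 two_ne_zero
      · have h0 := proj_odd (by omega) hm (hp (-1) (neg_ne_zero.2 one_ne_zero))
        rw [h0]
        exact Submodule.zero_mem _
    have h2 : c = ∑ i ∈ Finset.range (2 * X.dim + 1), H914.proj (T.W.isInternal X) i c := by
      refine gr_induction (T.W.isInternal X) (p := fun c =>
        c = ∑ i ∈ Finset.range (2 * X.dim + 1), H914.proj (T.W.isInternal X) i c) ?_ ?_ c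
      · intro j c hc
        by_cases hj : j < 2 * X.dim + 1
        · rw [Finset.sum_eq_single j, proj_same _ hc]
          · intro i _ hi; rw [proj_ne _ hc (Ne.symm hi)]
          · intro h; exact absurd (Finset.mem_range.2 hj) h
        · rw [T.W.gr_eq_bot X j (by omega)] at hc
          rw [(Submodule.mem_bot _).1 hc]
          simp
      · intro a b ha hb
        conv_lhs => rw [ha, hb]
        rw [← Finset.sum_add_distrib]
        exact Finset.sum_congr rfl fun i _ => by rw [map_add]
    rw [h2]
    exact Submodule.sum_mem _ fun i _ => h1 i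
  · intro h
    refine ClassPred.sp_ind (q := fun c => Inv T X c) ?_ ?_ ?_ h
    · intro j x hx t _
      exact lop_hodge hx
    · intro t _; rw [em_zero, map_zero]
    · intro a b ha hb t ht
      rw [em_add, map_add, ha t ht, hb t ht]

end Pool.Agent.N996.BP.Geo
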