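import Pool.Agent.N996.BP.Main
import Pool.Agent.N996.BP.CSys2

/-!
# The bounded power theorem for families of classes on the powers of a variety
-/

set_option linter.unusedSectionVars false

open CategoryTheory AlgebraicGeometry TensorProduct

universe u

namespace Pool.Agent.N996.BP.Geo

open Module
open Pool.Agent.H914 Pool.Agent.H914.VarClass Pool.Agent.H914.VarClass.Obj
  Pool.Agent.H914.WeilCohomology
open Pool.Agent.Y133.Half Pool.Agent.Y121.AH

variable {k : Type u} [Field k] {𝒱 : VarClass k} {ops : CycleOps 𝒱} {T : HodgeTheory ops}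
  {X Y : 𝒱.Obj}

lemma isCd_up (n m : ℕ) : IsCd (up X n m) := isCd_liftN _

lemma isCd_down {n m : ℕ} (h : n ≤ m) : IsCd (down X h) := isCd_liftN _

/-- The property passes to smaller powers. -/
lemma mono_cd {S S' : CSys T.W X} {n m : ℕ} (h : n ≤ m) (hm : S'.C m ≤ S.C m) :
    S'.C n ≤ S.C n := by
  intro c hc
  have h1 : c = T.W.map (up X n m) (T.W.map (down X h) c) := by
    rw [← T.W.map_comp, up_down, T.W.map_id]
  rw [h1]
  exact S.map _ (isCd_up n m) (hm (S'.map _ (isCd_down h) hc))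

/-- The class of the parity operator is a Hodge class. -/
lemma inv_dp : Inv T (pw X 1) (dp T.W X) := by
  have h1 : Inv T (X.prod X) (extOp T.W (H914.par (T.W.isInternal X)) 1
      (T.W.push (diag X) 1)) := by
    intro t ht
    have h2 : Inv T (X.prod X) (T.W.push (diag X) 1) :=
      inv_iff.2 ((hodgePred T).sys.push _ ((hodgePred T).sys.one X))
    rw [em_extOp, lop_ext ht, h2 t ht]
  exact h1

/-- **The bounded power theorem.** -/
theorem bounded_c {ψ : LinearMap.BilinForm T.W.K (T.W.H X)}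
    (hψ : IsPHS (tauT T) (Fx T X) ψ X.dim) (S : CSys T.W X)
    (hle : ∀ n, S.C n ≤ (hodgePred T).sp (pw X n))
    (h : (hodgePred T).sp (pw X (expo (finrank T.W.K (T.W.H X)) - 1)) ≤
      S.C (expo (finrank T.W.K (T.W.H X)) - 1)) (n : ℕ) :
    (hodgePred T).sp (pw X n) ≤ S.C n := by
  classical
  rcases subsingleton_or_nontrivial (T.W.H X) with hs | hs
  · have h1 : Subsingleton (T.W.H (pw X n)) := by
      have h2 : finrank T.W.K (T.W.H (pw X n)) = 0 := by
        rw [finrank_pw, finrank_zero_of_subsingleton, zero_pow (Nat.succ_ne_zero n)]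
      exact finrank_zero_iff.1 h2
    intro c _
    rw [Subsingleton.elim c 0]
    exact Submodule.zero_mem _
  obtain ⟨ι, _, _, e, o, deg, heo, hdeg⟩ := exists_ubasis T.W X
  have hF : DirectSum.IsInternal (Fx T X) := hψ.int
  have ho : (1 : ℂ) ⊗ₜ[T.W.K] e o ∈ Fx T X (0, 0) := by
    rw [heo]
    have h1 := (isHodge_one (T := T) (X := X)).2
    exact h1
  obtain ⟨H, hHo, hHw, hH⟩ := hψ.exists_hdata e o ho
  have hcard : Fintype.card ι = finrank T.W.K (T.W.H X) := (finrank_eq_card_basis e).symm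
  have hbd : 2 * bd (Fintype.card ι ^ 2) H.w ≤ expo (finrank T.W.K (T.W.H X)) := by
    rw [hHw, hcard]
    exact bd_le (dim_lt T X)
  have h2 : 2 ≤ 2 * bd (Fintype.card ι ^ 2) H.w := by
    have : 1 ≤ bd (Fintype.card ι ^ 2) H.w := by
      rw [bd]
      exact Nat.mul_pos (Nat.succ_pos _) (Nat.pow_pos (Nat.mul_pos (by omega) (Nat.succ_pos _)))
    omega
  have hsmall : ∀ n, n + 1 ≤ 2 * bd (Fintype.card ι ^ 2) H.w →
      (hodgePred T).sp (pw X n) ≤ S.C n := fun n hn =>
    mono_cd (S' := (hodgePred T).sys.csys X)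
      (show n ≤ expo (finrank T.W.K (T.W.H X)) - 1 by omega) h
  have h1X : (hodgePred T).sp (pw X 1) ≤ S.C 1 := hsmall 1 (by omega)
  have hdp : dp T.W X ∈ S.C 1 := h1X (inv_iff.1 inv_dp)
  -- the parities
  let p : ι → Fin 2 := fun j => ⟨deg j % 2, Nat.mod_lt _ two_pos⟩
  have hp : ∀ j, e j ∈ PH T.W X (p j : ℕ) := fun j =>
    PH.of' (by change deg j % 2 = (deg j % 2) % 2; omega) (hdeg j)
  -- the form
  obtain ⟨q, hq, hqQ⟩ : ∃ q : T.W.H (X.prod X), Inv T (X.prod X) q ∧
      ∀ w, T.W.tr (pw X 1) (wb e 1 w * (show T.W.H (pw X 1) from q)) =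
        ((H.Qr (w 0) (w 1) : ℚ) : T.W.K) := exists_q e hH
  have hqS : (show T.W.H (pw X 1) from q) ∈ S.C 1 := h1X (inv_iff.1 hq)
  have hqE : q ∈ PH T.W (X.prod X) 0 := (hodgePred T).sys.even (inv_iff.1 hq)
  have hqQ' : ∀ i j, T.W.tr (X.prod X) (xp T.W (e i) (e j) * q) = ((H.Qr i j : ℚ) : T.W.K) := by
    intro i j
    have h3 := hqQ (Fin.snoc (α := fun _ => ι) (fun _ : Fin (0 + 1) => i) j)
    have h4 : wb e (0 + 1) (Fin.snoc (α := fun _ => ι) (fun _ : Fin (0 + 1) => i) j) =
        xp T.W (e i) (e j) := by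
      rw [wb_snoc]
      have h5 : wb e 0 (fun _ => i) = e i := wb_zero e _
      rw [h5]
      rfl
    have h6 : T.W.tr (pw X 1) (wb e 1 (Fin.snoc (α := fun _ => ι) (fun _ : Fin (0 + 1) => i) j) *
        (show T.W.H (pw X 1) from q)) = T.W.tr (X.prod X) (xp T.W (e i) (e j) * q) := by
      rw [← h4]
      rfl
    rw [← h6, h3]
    rfl
  have hfam : RFam H (fun n => arrc e S n) :=
    { perm := fun n σ a ha => arrc_perm hp hdp n σ ha
      tens := fun n m a b ha hb => arrc_tens e n m ha hb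
      contr := fun n a ha => arrc_contr (fun j => ⟨_, hp j⟩) hqS hqE hqQ' n ha
      le := fun n a ha => (inv_cls e hH n a).1 (inv_iff.2 (hle n ha)) }
  have hcore := hfam.core (fun n hn a ha => hsmall n hn (inv_iff.1 ((inv_cls e hH n a).2 ha))) n
  intro c hc
  obtain ⟨a, rfl⟩ := cls_surj e n c
  exact hcore ((inv_cls e hH n a).1 (inv_iff.2 hc))

/-! ### The generation of the Hodge classes -/

/-- The classes on the powers of `X` which are generated by the Hodge classes on `X ^ (N + 1)`. -/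
inductive Gnr (T : HodgeTheory ops) (X : 𝒱.Obj) (N : ℕ) : ∀ n : ℕ, T.W.H (pw X n) → Prop
  | hodge {j : ℕ} {c : T.W.H (pw X N)} (h : IsHodge T (pw X N) j c) : Gnr T X N N c
  | add {n : ℕ} {c d : T.W.H (pw X n)} (hc : Gnr T X N n c) (hd : Gnr T X N n d) :
      Gnr T X N n (c + d)
  | smul {n : ℕ} (r : T.W.K) {c : T.W.H (pw X n)} (hc : Gnr T X N n c) : Gnr T X N n (r • c)
  | mul {n : ℕ} {c d : T.W.H (pw X n)} (hc : Gnr T X N n c) (hd : Gnr T X N n d) :
      Gnr T X N n (c * d)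
  | map {n m : ℕ} (f : pw X m ⟶ pw X n) (hf : IsCd f) {c : T.W.H (pw X n)}
      (hc : Gnr T X N n c) : Gnr T X N m (T.W.map f c)
  | push {n : ℕ} {c : T.W.H (pw X (n + 1))} (hc : Gnr T X N (n + 1) c) :
      Gnr T X N n (T.W.push (pfst X n) c)

lemma exists_cd (n m : ℕ) : ∃ f : pw X m ⟶ pw X n, IsCd f :=
  ⟨_, isCd_liftN fun _ => 0⟩

lemma Gnr.zero {N n : ℕ} : Gnr T X N n 0 := by
  obtain ⟨f, hf⟩ := exists_cd (X := X) N n
  have h1 := Gnr.map f hf (Gnr.hodge (T := T) (X := X) (IsHodge.zero (j := 0)))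
  rwa [map_zero] at h1

/-- The family of the generated classes. -/
def gnrSys (T : HodgeTheory ops) (X : 𝒱.Obj) (N : ℕ) : CSys T.W X where
  C n :=
    { carrier := {c | Gnr T X N n c}
      add_mem' := fun ha hb => Gnr.add ha hb
      zero_mem' := Gnr.zero
      smul_mem' := fun r _ ha => Gnr.smul r ha }
  mul h h' := Gnr.mul h h'
  map f hf _ h := Gnr.map f hf h
  push h := Gnr.push h

lemma gnr_le {N n : ℕ} {c : T.W.H (pw X n)} (h : Gnr T X N n c) :
    c ∈ (hodgePred T).sp (pw X n) := by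
  induction h with
  | hodge h => exact ClassPred.sp_of (Q := hodgePred T) h
  | add _ _ ih ih' => exact Submodule.add_mem _ ih ih'
  | smul r _ ih => exact Submodule.smul_mem _ r ih
  | mul _ _ ih ih' => exact (hodgePred T).sys.mul ih ih'
  | map f _ _ ih => exact (hodgePred T).sys.map f ih
  | push _ ih => exact (hodgePred T).sys.push _ ih

/-- **Generation.** -/
theorem generation {ψ : LinearMap.BilinForm T.W.K (T.W.H X)}
    (hψ : IsPHS (tauT T) (Fx T X) ψ X.dim) {n j : ℕ} {c : T.W.H (pw X n)}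
    (hc : IsHodge T (pw X n) j c) :
    Gnr T X (expo (finrank T.W.K (T.W.H X)) - 1) n c := by
  have h1 := bounded_c hψ (gnrSys T X (expo (finrank T.W.K (T.W.H X)) - 1))
    (fun n c hc => gnr_le hc) (fun c hc => by
      refine ClassPred.sp_ind (Q := hodgePred T) (q := fun c =>
        Gnr T X (expo (finrank T.W.K (T.W.H X)) - 1) _ c) ?_ ?_ ?_ hc
      · intro j x hx; exact Gnr.hodge hx
      · exact Gnr.zero
      · intro a b ha hb; exact Gnr.add ha hb) n
  exact h1 (ClassPred.sp_of (Q := hodgePred T) hc)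

end Pool.Agent.N996.BP.Geo
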