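import Pool.Agent.N996.BP.HData
import Pool.Agent.Y121.AH.Gop

/-!
# Polarised Hodge structures in coordinates
-/

set_option linter.unusedSectionVars false

open TensorProduct

namespace Pool.Agent.N996.BP

open Module Matrix ComplexConjugate
open Pool.Agent.H914 (sig sig_tmul sig_smul)
open Pool.Agent.Y121.AH (dia dia_apply ind_of_top)

variable {K : Type} [Field K] [CharZero K] [Algebra K ℂ] {V : Type} [AddCommGroup V] [Module K V]
  {ι : Type} [Fintype ι] [DecidableEq ι]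

/-- A polarised rational Hodge structure: `K` is the field of rational numbers, `F (p, q)` are the
subspaces of types `(p, q)`, and `ψ` is a polarisation. -/
structure IsPHS (τ : ℂ ≃ₐ[K] ℂ)
    (F : ℤ × ℤ → Submodule ℂ (ℂ ⊗[K] V)) (ψ : LinearMap.BilinForm K V) (d : ℕ) : Prop where
  rat : ∀ r : K, ∃ q : ℚ, (q : K) = r
  tau : ∀ z, τ z = conj z
  int : DirectSum.IsInternal F
  range : ∀ p q, F (p, q) ≠ ⊥ → 0 ≤ p ∧ p ≤ d ∧ 0 ≤ q ∧ q ≤ d
  cnj : ∀ p q, ∀ x ∈ F (p, q), sig τ x ∈ F (q, p)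
  orth : ∀ p q r s, ∀ x ∈ F (p, q), ∀ y ∈ F (r, s), (r ≠ q ∨ s ≠ p) → ψ.baseChange ℂ x y = 0
  pos : ∀ p q, ∀ x ∈ F (p, q), x ≠ 0 →
    ∃ r : ℝ, 0 < r ∧ Complex.I ^ (p - q) * ψ.baseChange ℂ x (sig τ x) = r

section Alg

variable {F : ℤ × ℤ → Submodule ℂ (ℂ ⊗[K] V)} (hF : DirectSum.IsInternal F)

/-- The diagonal operator with eigenvalues `f (p - q)`. -/
noncomputable def dG (f : ℤ → ℂ) : Module.End ℂ (ℂ ⊗[K] V) := dia hF fun r => f (r.1 - r.2)

lemma dG_apply (f : ℤ → ℂ) {p q : ℤ} {x : ℂ ⊗[K] V} (hx : x ∈ F (p, q)) :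
    dG hF f x = f (p - q) • x := dia_apply hF _ (i := (p, q)) hx

include hF in
lemma F_ind {P : ℂ ⊗[K] V → Prop} (h : ∀ p q, ∀ x ∈ F (p, q), P x)
    (hadd : ∀ a b, P a → P b → P (a + b)) (h0 : P 0) (x : ℂ ⊗[K] V) : P x :=
  ind_of_top hF.submodule_iSup_eq_top (fun r x hx => h r.1 r.2 x hx) hadd h0 x

lemma dG_mul (f g : ℤ → ℂ) : dG hF f * dG hF g = dG hF (fun k => f k * g k) := by
  apply LinearMap.ext
  refine F_ind hF ?_ ?_ ?_
  · intro p q x hx
    rw [Module.End.mul_apply, dG_apply hF g hx, map_smul, dG_apply hF f hx, dG_apply hF _ hx,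
      smul_smul, mul_comm]
  · intro a b ha hb; rw [map_add, ha, hb, map_add]
  · rw [map_zero, map_zero]

lemma dG_smul (c : ℂ) (f : ℤ → ℂ) : dG hF (fun k => c * f k) = c • dG hF f := by
  apply LinearMap.ext
  refine F_ind hF ?_ ?_ ?_
  · intro p q x hx
    rw [LinearMap.smul_apply, dG_apply hF _ hx, dG_apply hF f hx, smul_smul]
  · intro a b ha hb; rw [map_add, ha, hb, map_add]
  · rw [map_zero, map_zero]

lemma dG_sum {α : Type*} (s : Finset α) (f : α → ℤ → ℂ) :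
    dG hF (fun k => ∑ i ∈ s, f i k) = ∑ i ∈ s, dG hF (f i) := by
  apply LinearMap.ext
  refine F_ind hF ?_ ?_ ?_
  · intro p q x hx
    rw [LinearMap.sum_apply, dG_apply hF _ hx, Finset.sum_smul]
    exact Finset.sum_congr rfl fun i _ => by rw [dG_apply hF _ hx]
  · intro a b ha hb; rw [map_add, ha, hb, map_add]
  · rw [map_zero, map_zero]

lemma dG_one : dG hF (fun _ => 1) = 1 := by
  apply LinearMap.ext
  refine F_ind hF ?_ ?_ ?_
  · intro p q x hx
    rw [dG_apply hF _ hx, one_smul]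
    rfl
  · intro a b ha hb; rw [map_add, ha, hb, map_add]
  · rw [map_zero, map_zero]

lemma dG_congr {d : ℕ} (hr : ∀ p q, F (p, q) ≠ ⊥ → 0 ≤ p ∧ p ≤ d ∧ 0 ≤ q ∧ q ≤ d)
    {f g : ℤ → ℂ} (h : ∀ k ∈ Finset.Icc (-d : ℤ) d, f k = g k) : dG hF f = dG hF g := by
  apply LinearMap.ext
  refine F_ind hF ?_ ?_ ?_
  · intro p q x hx
    by_cases h0 : F (p, q) = ⊥
    · rw [h0, Submodule.mem_bot] at hx
      rw [hx, map_zero, map_zero]
    · obtain ⟨h1, h2, h3, h4⟩ := hr p q h0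
      rw [dG_apply hF _ hx, dG_apply hF _ hx, h (p - q) (by rw [Finset.mem_Icc]; omega)]
  · intro a b ha hb; rw [map_add, ha, hb, map_add]
  · rw [map_zero, map_zero]

/-- The matrix of the diagonal operator. -/
noncomputable def mG (e : Basis ι K V) (f : ℤ → ℂ) : Matrix ι ι ℂ :=
  LinearMap.toMatrix (e.baseChange ℂ) (e.baseChange ℂ) (dG hF f)

lemma mG_mul (e : Basis ι K V) (f g : ℤ → ℂ) :
    mG hF e f * mG hF e g = mG hF e (fun k => f k * g k) := by
  rw [mG, mG, mG, ← LinearMap.toMatrix_mul, dG_mul]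

lemma mG_smul (e : Basis ι K V) (c : ℂ) (f : ℤ → ℂ) :
    mG hF e (fun k => c * f k) = c • mG hF e f := by
  rw [mG, mG, dG_smul, map_smul]

lemma mG_sum (e : Basis ι K V) {α : Type*} (s : Finset α) (f : α → ℤ → ℂ) :
    mG hF e (fun k => ∑ i ∈ s, f i k) = ∑ i ∈ s, mG hF e (f i) := by
  rw [mG, dG_sum, map_sum]
  rfl

lemma mG_one (e : Basis ι K V) : mG hF e (fun _ => 1) = 1 := by
  rw [mG, dG_one, LinearMap.toMatrix_one]

lemma mG_congr (e : Basis ι K V) {d : ℕ}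
    (hr : ∀ p q, F (p, q) ≠ ⊥ → 0 ≤ p ∧ p ≤ d ∧ 0 ≤ q ∧ q ≤ d)
    {f g : ℤ → ℂ} (h : ∀ k ∈ Finset.Icc (-d : ℤ) d, f k = g k) : mG hF e f = mG hF e g := by
  rw [mG, mG, dG_congr hF hr h]

/-- The defining property of the matrix. -/
lemma dG_basis (e : Basis ι K V) (f : ℤ → ℂ) (j : ι) :
    dG hF f ((1 : ℂ) ⊗ₜ[K] e j) = ∑ i, mG hF e f i j • ((1 : ℂ) ⊗ₜ[K] e i) := by
  have h := (e.baseChange ℂ).sum_repr (dG hF f ((1 : ℂ) ⊗ₜ[K] e j))
  rw [← h]
  refine Finset.sum_congr rfl fun i _ => ?_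
  rw [mG, LinearMap.toMatrix_apply, Basis.baseChange_apply, Basis.baseChange_apply]

lemma tmul_ind {P : ℂ ⊗[K] V → Prop} (h : ∀ z : ℂ, ∀ v : V, P (z ⊗ₜ v))
    (hadd : ∀ a b, P a → P b → P (a + b)) (x : ℂ ⊗[K] V) : P x := by
  induction x using TensorProduct.induction_on with
  | zero => have := h 0 0; rwa [TensorProduct.zero_tmul] at this
  | add x y hx hy => exact hadd _ _ hx hy
  | tmul z v => exact h z v

/-- Coordinates. -/
noncomputable def crd (e : Basis ι K V) (x : ℂ ⊗[K] V) : ι → ℂ := (e.baseChange ℂ).repr x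

lemma crd_sum (e : Basis ι K V) (x : ℂ ⊗[K] V) :
    x = ∑ i, crd e x i • ((1 : ℂ) ⊗ₜ[K] e i) := by
  conv_lhs => rw [← (e.baseChange ℂ).sum_repr x]
  exact Finset.sum_congr rfl fun i _ => by rw [Basis.baseChange_apply]; rfl

lemma crd_inj (e : Basis ι K V) {x y : ℂ ⊗[K] V} (h : crd e x = crd e y) : x = y := by
  rw [crd_sum e x, crd_sum e y, h]

lemma crd_add (e : Basis ι K V) (x y : ℂ ⊗[K] V) : crd e (x + y) = crd e x + crd e y := by
  ext i
  simp [crd]

lemma crd_tmul (e : Basis ι K V) (z : ℂ) (v : V) (i : ι) :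
    crd e (z ⊗ₜ v) i = z * algebraMap K ℂ (e.repr v i) := by
  rw [crd, Basis.baseChange_repr_tmul, Algebra.smul_def, mul_comm]

lemma crd_dG (e : Basis ι K V) (f : ℤ → ℂ) (x : ℂ ⊗[K] V) :
    crd e (dG hF f x) = mG hF e f *ᵥ crd e x := by
  rw [mG]
  exact (LinearMap.toMatrix_mulVec_repr _ _ _ _).symm

lemma crd_sig (e : Basis ι K V) {τ : ℂ ≃ₐ[K] ℂ} (hτ : ∀ z, τ z = conj z) (x : ℂ ⊗[K] V) :
    crd e (sig τ x) = fun i => conj (crd e x i) := by
  refine tmul_ind (P := fun x => crd e (sig τ x) = fun i => conj (crd e x i)) ?_ ?_ x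
  · intro z v
    funext i
    rw [sig_tmul, crd_tmul, crd_tmul, map_mul, hτ]
    congr 1
    have h := τ.commutes (e.repr v i)
    rw [hτ] at h
    exact h.symm
  · intro a b ha hb
    rw [map_add, crd_add, ha, hb]
    funext i
    rw [crd_add, Pi.add_apply, Pi.add_apply, map_add]

/-- The matrix of the form. -/
noncomputable def fM (e : Basis ι K V) (ψ : LinearMap.BilinForm K V) : Matrix ι ι ℂ :=
  Matrix.of fun i j => algebraMap K ℂ (ψ (e i) (e j))

lemma form_crd (e : Basis ι K V) (ψ : LinearMap.BilinForm K V) (x y : ℂ ⊗[K] V) :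
    ψ.baseChange ℂ x y = crd e x ⬝ᵥ (fM e ψ *ᵥ crd e y) := by
  have h1 : ∀ z, ψ.baseChange ℂ x z = ∑ i, crd e x i * ψ.baseChange ℂ ((1 : ℂ) ⊗ₜ[K] e i) z := by
    intro z
    conv_lhs => rw [crd_sum e x]
    rw [map_sum, LinearMap.sum_apply]
    exact Finset.sum_congr rfl fun i _ => by rw [map_smul, LinearMap.smul_apply, smul_eq_mul]
  rw [h1, dotProduct]
  refine Finset.sum_congr rfl fun i _ => ?_
  congr 1
  conv_lhs => rw [crd_sum e y]
  rw [map_sum, Matrix.mulVec, dotProduct]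
  refine Finset.sum_congr rfl fun j _ => ?_
  rw [map_smul, LinearMap.BilinForm.baseChange_tmul, smul_eq_mul, fM, Matrix.of_apply,
    Algebra.smul_def, mul_one, mul_one, mul_comm]

end Alg

namespace IsPHS

variable {τ : ℂ ≃ₐ[K] ℂ}
  {F : ℤ × ℤ → Submodule ℂ (ℂ ⊗[K] V)} {ψ : LinearMap.BilinForm K V} {d : ℕ}

lemma sig_dG (h : IsPHS τ F ψ d) (f : ℤ → ℂ) (x : ℂ ⊗[K] V) :
    sig τ (dG h.int f x) = dG h.int (fun k => conj (f (-k))) (sig τ x) := by
  refine F_ind h.int (P := fun x => sig τ (dG h.int f x) =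
    dG h.int (fun k => conj (f (-k))) (sig τ x)) ?_ ?_ ?_ x
  · intro p q x hx
    rw [dG_apply h.int f hx, sig_smul, dG_apply h.int _ (h.cnj p q x hx), h.tau, neg_sub]
  · intro a b ha hb; simp only [map_add, ha, hb]
  · simp only [map_zero]

lemma form_dG (h : IsPHS τ F ψ d) (f : ℤ → ℂ) (x y : ℂ ⊗[K] V) :
    ψ.baseChange ℂ (dG h.int f x) y = ψ.baseChange ℂ x (dG h.int (fun k => f (-k)) y) := by
  refine F_ind h.int (P := fun x => ψ.baseChange ℂ (dG h.int f x) y =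
    ψ.baseChange ℂ x (dG h.int (fun k => f (-k)) y)) ?_ ?_ ?_ x
  · intro p q x hx
    refine F_ind h.int (P := fun y => ψ.baseChange ℂ (dG h.int f x) y =
      ψ.baseChange ℂ x (dG h.int (fun k => f (-k)) y)) ?_ ?_ ?_ y
    · intro r s y hy
      rw [dG_apply h.int f hx, dG_apply h.int _ hy, map_smul, LinearMap.smul_apply, map_smul,
        neg_sub]
      by_cases h0 : r ≠ q ∨ s ≠ p
      · rw [h.orth p q r s x hx y hy h0, smul_zero, smul_zero]
      · push Not at h0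
        rw [h0.1, h0.2]
    · intro a b ha hb; simp only [map_add, ha, hb]
    · simp only [map_zero]
  · intro a b ha hb; simp only [map_add, LinearMap.add_apply, ha, hb]
  · simp only [map_zero, LinearMap.zero_apply]

variable (e : Basis ι K V)

lemma mG_conj (h : IsPHS τ F ψ d) (f : ℤ → ℂ) :
    (mG h.int e f).map conj = mG h.int e (fun k => conj (f (-k))) := by
  ext i j
  have h1 := congrArg (fun x => crd e x i) (h.sig_dG f ((1 : ℂ) ⊗ₜ[K] e j))
  simp only [crd_sig e h.tau, crd_dG] at h1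
  have h2 : sig τ ((1 : ℂ) ⊗ₜ[K] e j) = (1 : ℂ) ⊗ₜ[K] e j := by
    rw [sig_tmul, map_one]
  have h3 : crd e ((1 : ℂ) ⊗ₜ[K] e j) = Pi.single j 1 := by
    ext l
    rw [crd_tmul, one_mul, Basis.repr_self, Finsupp.single_apply, Pi.single_apply]
    by_cases hl : j = l
    · rw [if_pos hl, if_pos hl.symm, map_one]
    · rw [if_neg hl, if_neg (Ne.symm hl), map_zero]
  rw [h3] at h1
  have h4 : (fun i => conj ((Pi.single j 1 : ι → ℂ) i)) = Pi.single j 1 := by
    ext l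
    by_cases hl : l = j
    · subst hl; simp
    · simp [hl]
  rw [h4, Matrix.mulVec_single_one, Matrix.mulVec_single_one] at h1
  exact h1

lemma mG_form (h : IsPHS τ F ψ d) (f : ℤ → ℂ) :
    (mG h.int e f)ᵀ * fM e ψ = fM e ψ * mG h.int e (fun k => f (-k)) := by
  ext i j
  have h1 := h.form_dG f ((1 : ℂ) ⊗ₜ[K] e i) ((1 : ℂ) ⊗ₜ[K] e j)
  have h3 : ∀ j, crd e ((1 : ℂ) ⊗ₜ[K] e j) = Pi.single j 1 := by
    intro j
    ext l
    rw [crd_tmul, one_mul, Basis.repr_self, Finsupp.single_apply, Pi.single_apply]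
    by_cases hl : j = l
    · rw [if_pos hl, if_pos hl.symm, map_one]
    · rw [if_neg hl, if_neg (Ne.symm hl), map_zero]
  rw [form_crd e, form_crd e, crd_dG, crd_dG, h3, h3, Matrix.mulVec_single_one,
    Matrix.mulVec_single_one, Matrix.mulVec_single_one, single_one_dotProduct] at h1
  rw [Matrix.mul_apply, Matrix.mul_apply]
  exact h1

end IsPHS

end Pool.Agent.N996.BP
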