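import Pool.Agent.N996.BP.Gauss

/-!
# Relations between generic linear forms
-/

set_option linter.unusedSectionVars false

namespace Pool.Agent.N996.BP

open MvPolynomial

variable {K E m κ : Type} [Field K] [Field E] [Algebra K E] [Fintype m] [DecidableEq m]
  [Fintype κ] [DecidableEq κ]

/-- The generic linear form and the given linear forms. -/
noncomputable def lf (lam : κ → m → K) : Option κ → MvPolynomial m (MvPolynomial m K)
  | none => ∑ k, X k * C (X k)
  | some i => C (∑ k, C (lam i k) * X k)

/-- The substitution of the linear forms. -/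
noncomputable def Th (lam : κ → m → K) :
    MvPolynomial (Option κ) (MvPolynomial m K) →+* MvPolynomial m (MvPolynomial m K) :=
  eval₂Hom (MvPolynomial.map C) (lf lam)

/-- The evaluation of the linear forms at a point. -/
noncomputable def psi (lam : κ → m → K) (x : m → E) :
    MvPolynomial (Option κ) (MvPolynomial m K) →+* MvPolynomial m E :=
  (MvPolynomial.map ((aeval x : MvPolynomial m K →ₐ[K] E) : MvPolynomial m K →+* E)).comp (Th lam)

/-- The value of the linear form at the point. -/
noncomputable def lin (lam : κ → m → K) (x : m → E) (i : κ) : E :=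
  ∑ k, algebraMap K E (lam i k) * x k

lemma psi_C (lam : κ → m → K) (x : m → E) (r : MvPolynomial m K) :
    psi lam x (C r) = MvPolynomial.map (algebraMap K E) r := by
  have h : ((aeval x : MvPolynomial m K →ₐ[K] E) : MvPolynomial m K →+* E).comp C =
      algebraMap K E := by
    ext a
    simp
  rw [psi, RingHom.comp_apply, Th, coe_eval₂Hom, eval₂_C, MvPolynomial.map_map, h]

lemma psi_none (lam : κ → m → K) (x : m → E) :
    psi lam x (X none) = ∑ k, X k * C (x k) := by
  rw [psi, RingHom.comp_apply, Th, coe_eval₂Hom, eval₂_X, lf, map_sum]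
  refine Finset.sum_congr rfl fun k _ => ?_
  rw [map_mul, map_X, map_C]
  simp

lemma psi_some (lam : κ → m → K) (x : m → E) (i : κ) :
    psi lam x (X (some i)) = C (lin lam x i) := by
  rw [psi, RingHom.comp_apply, Th, coe_eval₂Hom, eval₂_X, lf, map_C, lin]
  congr 1
  simp

/-- The coefficients have degree at most `d`. -/
def DegLe (d : ℕ) (F : MvPolynomial m (MvPolynomial m K)) : Prop :=
  ∀ α, (coeff α F).totalDegree ≤ d

lemma DegLe.mono {d d' : ℕ} (h : d ≤ d') {F : MvPolynomial m (MvPolynomial m K)}
    (hF : DegLe d F) : DegLe d' F := fun α => (hF α).trans h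

lemma DegLe.zero {d : ℕ} : DegLe d (0 : MvPolynomial m (MvPolynomial m K)) := fun α => by simp

lemma DegLe.add {d : ℕ} {F G : MvPolynomial m (MvPolynomial m K)} (hF : DegLe d F)
    (hG : DegLe d G) : DegLe d (F + G) := fun α => by
  rw [coeff_add]
  exact (totalDegree_add _ _).trans (max_le (hF α) (hG α))

lemma DegLe.sum {β : Type*} {s : Finset β} {d : ℕ} {F : β → MvPolynomial m (MvPolynomial m K)}
    (h : ∀ b ∈ s, DegLe d (F b)) : DegLe d (∑ b ∈ s, F b) := by
  classical
  induction s using Finset.induction_on with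
  | empty => rw [Finset.sum_empty]; exact DegLe.zero
  | insert a s ha ih =>
    rw [Finset.sum_insert ha]
    exact DegLe.add (h a (Finset.mem_insert_self _ _)) (ih fun b hb =>
      h b (Finset.mem_insert_of_mem hb))

lemma DegLe.mul {d e : ℕ} {F G : MvPolynomial m (MvPolynomial m K)} (hF : DegLe d F)
    (hG : DegLe e G) : DegLe (d + e) (F * G) := fun α => by
  rw [coeff_mul]
  refine totalDegree_finsetSum_le fun b _ => ?_
  exact (totalDegree_mul _ _).trans (Nat.add_le_add (hF _) (hG _))

lemma DegLe.one : DegLe 0 (1 : MvPolynomial m (MvPolynomial m K)) := fun α => by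
  rw [coeff_one]
  split_ifs <;> simp

lemma DegLe.pow {d : ℕ} {F : MvPolynomial m (MvPolynomial m K)} (hF : DegLe d F) (n : ℕ) :
    DegLe (n * d) (F ^ n) := by
  induction n with
  | zero => rw [pow_zero, zero_mul]; exact DegLe.one
  | succ n ih =>
    rw [pow_succ, Nat.succ_mul]
    exact ih.mul hF

lemma DegLe.prod {β : Type*} {s : Finset β} {d : β → ℕ}
    {F : β → MvPolynomial m (MvPolynomial m K)}
    (h : ∀ b ∈ s, DegLe (d b) (F b)) : DegLe (∑ b ∈ s, d b) (∏ b ∈ s, F b) := by
  classical
  induction s using Finset.induction_on with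
  | empty => rw [Finset.prod_empty, Finset.sum_empty]; exact DegLe.one
  | insert a s ha ih =>
    rw [Finset.prod_insert ha, Finset.sum_insert ha]
    exact (h a (Finset.mem_insert_self _ _)).mul (ih fun b hb =>
      h b (Finset.mem_insert_of_mem hb))

lemma DegLe.lf (lam : κ → m → K) (o : Option κ) : DegLe 1 (lf lam o) := by
  rcases o with _ | i
  · refine DegLe.sum fun k _ => ?_
    intro α
    rw [mul_comm, coeff_C_mul]
    refine (totalDegree_mul _ _).trans ?_
    have h1 : (coeff α (X k : MvPolynomial m (MvPolynomial m K))).totalDegree = 0 := by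
      rw [coeff_X]
      split_ifs <;> simp
    rw [h1, add_zero]
    exact (totalDegree_X (R := K) k).le
  · intro α
    rw [BP.lf, coeff_C]
    split_ifs
    · refine totalDegree_finsetSum_le fun k _ => ?_
      refine (totalDegree_mul _ _).trans ?_
      rw [totalDegree_C, zero_add]
      exact (totalDegree_X (R := K) k).le
    · simp

lemma degLe_Th (lam : κ → m → K) (G : MvPolynomial (Option κ) (MvPolynomial m K)) :
    DegLe G.totalDegree (Th lam G) := by
  rw [Th, coe_eval₂Hom, eval₂_eq']
  refine DegLe.sum fun d hd => ?_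
  have h1 : DegLe 0 (MvPolynomial.map C (coeff d G) : MvPolynomial m (MvPolynomial m K)) := by
    intro α
    rw [coeff_map]
    simp
  have h2 := h1.mul (DegLe.prod (s := Finset.univ) (d := fun i => d i * 1)
    (F := fun i => lf lam i ^ d i) fun i _ => (DegLe.lf lam i).pow (d i))
  refine h2.mono ?_
  rw [zero_add]
  simp only [mul_one]
  have h3 : ∑ i, d i = d.sum fun _ e => e := (Finsupp.sum_fintype d (fun _ e => e) fun _ => rfl).symm
  rw [h3]
  exact le_totalDegree hd

/-- Points with the same relations of degree at most `D` give the same relations of degree at most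
`D` between the linear forms. -/
lemma psi_iff {x x' : m → E} {D : ℕ}
    (hJ : ∀ f : MvPolynomial m K, f.totalDegree ≤ D → (aeval x f = 0 ↔ aeval x' f = 0))
    (lam : κ → m → K) {G : MvPolynomial (Option κ) (MvPolynomial m K)}
    (hG : G.totalDegree ≤ D) : psi lam x G = 0 ↔ psi lam x' G = 0 := by
  have h1 : ∀ y : m → E, psi lam y G = 0 ↔ ∀ α, aeval y (coeff α (Th lam G)) = 0 := by
    intro y
    rw [psi, RingHom.comp_apply, MvPolynomial.ext_iff]
    refine forall_congr' fun α => ?_
    rw [coeff_map, coeff_zero]
    rfl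
  rw [h1, h1]
  exact forall_congr' fun α => hJ _ ((degLe_Th lam G α).trans hG)

/-- Existence of a relation of degree at most `D`. -/
lemma exists_rel (lam : κ → m → K) (x : m → E) {D : ℕ} (V : Submodule K E)
    [FiniteDimensional K V] (hV : ∀ f : MvPolynomial m K, f.totalDegree ≤ D → aeval x f ∈ V)
    (T : Finset (Option κ →₀ ℕ)) (hT : ∀ β ∈ T, (β.sum fun _ e => e) ≤ D)
    (hcard : Module.finrank K V < T.card) :
    ∃ F : MvPolynomial (Option κ) (MvPolynomial m K), F ≠ 0 ∧ F.totalDegree ≤ D ∧
      psi lam x F = 0 := by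
  classical
  -- a basis of `V`, and functionals
  let b := Module.finBasis K V
  obtain ⟨φ, hφ⟩ := LinearMap.exists_extend (b.equivFun.toLinearMap : V →ₗ[K] (Fin _ → K))
  have hφ' : ∀ v ∈ V, v = ∑ i, algebraMap K E (φ v i) * (b i : E) := by
    intro v hv
    have h1 : φ v = b.equivFun ⟨v, hv⟩ := by
      have := LinearMap.congr_fun hφ ⟨v, hv⟩
      exact this
    have h2 := congrArg (Subtype.val) (b.sum_equivFun ⟨v, hv⟩)
    rw [AddSubmonoidClass.coe_finsetSum] at h2
    rw [h1]
    refine h2.symm.trans (Finset.sum_congr rfl fun i _ => ?_)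
    rw [Submodule.coe_smul, Algebra.smul_def]
  -- the coordinates of a polynomial
  let N : Fin (Module.finrank K V) → MvPolynomial m E → MvPolynomial m K := fun i G =>
    ∑ α ∈ G.support, monomial α (φ (coeff α G) i)
  have hN : ∀ G : MvPolynomial m E, (∀ α, coeff α G ∈ V) →
      G = ∑ i, C (b i : E) * MvPolynomial.map (algebraMap K E) (N i G) := by
    intro G hG
    ext α
    rw [coeff_sum]
    simp only [coeff_C_mul, coeff_map]
    have h1 : ∀ i, coeff α (N i G) = φ (coeff α G) i := by
      intro i
      simp only [N, coeff_sum, coeff_monomial]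
      rw [Finset.sum_ite_eq']
      split_ifs with h
      · rfl
      · rw [notMem_support_iff.1 h, map_zero]; rfl
    simp only [h1]
    conv_lhs => rw [hφ' _ (hG α)]
    exact Finset.sum_congr rfl fun i _ => mul_comm _ _
  -- the linear system
  let L : (T → MvPolynomial m K) →ₗ[MvPolynomial m K]
      (Fin (Module.finrank K V) → MvPolynomial m K) :=
    LinearMap.pi fun i => ∑ β : T, (LinearMap.proj β).smulRight
      (N i (psi lam x (monomial (β : Option κ →₀ ℕ) 1)))
  have hL : ∀ g i, L g i = ∑ β : T, g β * N i (psi lam x (monomial (β : Option κ →₀ ℕ) 1)) := by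
    intro g i
    simp [L, LinearMap.pi_apply, LinearMap.sum_apply]
  have hninj : ¬ Function.Injective L := by
    intro h
    have := LinearMap.finrank_le_finrank_of_injective h
    rw [Module.finrank_fintype_fun_eq_card, Module.finrank_fintype_fun_eq_card,
      Fintype.card_coe, Fintype.card_fin] at this
    omega
  obtain ⟨g, hg, hg0⟩ : ∃ g, L g = 0 ∧ g ≠ 0 := by
    by_contra hcon
    push Not at hcon
    exact hninj ((injective_iff_map_eq_zero L).2 fun g hg => hcon g hg)
  refine ⟨∑ β : T, monomial (β : Option κ →₀ ℕ) (g β), ?_, ?_, ?_⟩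
  · intro h
    apply hg0
    funext β
    have h1 := congrArg (coeff (β : Option κ →₀ ℕ)) h
    rw [coeff_sum, coeff_zero] at h1
    simp only [coeff_monomial] at h1
    rw [Finset.sum_eq_single β] at h1
    · rw [if_pos rfl] at h1
      exact h1
    · intro β' _ hne
      rw [if_neg fun h => hne (Subtype.ext h)]
    · intro h; exact absurd (Finset.mem_univ β) h
  · refine totalDegree_finsetSum_le fun β _ => ?_
    exact (totalDegree_monomial_le _ _).trans (hT β β.2)
  · rw [map_sum]
    have h1 : ∀ β : T, psi lam x (monomial (β : Option κ →₀ ℕ) (g β)) =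
        ∑ i, C (b i : E) * MvPolynomial.map (algebraMap K E)
          (g β * N i (psi lam x (monomial (β : Option κ →₀ ℕ) 1))) := by
      intro β
      have h2 : monomial (β : Option κ →₀ ℕ) (g β) = C (g β) * monomial (β : Option κ →₀ ℕ) 1 := by
        rw [C_mul_monomial, mul_one]
      have h3 : ∀ α, coeff α (psi lam x (monomial (β : Option κ →₀ ℕ) 1)) ∈ V := by
        intro α
        rw [psi, RingHom.comp_apply, coeff_map]
        refine hV _ ((degLe_Th lam _ α).trans ?_)
        exact (totalDegree_monomial_le _ _).trans (hT β β.2)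
      rw [h2, map_mul, psi_C]
      conv_lhs => rw [hN _ h3]
      rw [Finset.mul_sum]
      refine Finset.sum_congr rfl fun i _ => ?_
      rw [map_mul]
      ring
    rw [Finset.sum_congr rfl fun β _ => h1 β, Finset.sum_comm]
    refine Finset.sum_eq_zero fun i _ => ?_
    rw [← Finset.mul_sum, ← map_sum, ← hL, hg, Pi.zero_apply, map_zero, mul_zero]

/-- An irreducible relation of degree at most `D`. -/
lemma exists_irred_rel (lam : κ → m → K) (x : m → E) {D : ℕ}
    {F : MvPolynomial (Option κ) (MvPolynomial m K)} (hF : F ≠ 0) (hD : F.totalDegree ≤ D)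
    (h0 : psi lam x F = 0) :
    ∃ P : MvPolynomial (Option κ) (MvPolynomial m K), Irreducible P ∧ P.totalDegree ≤ D ∧
      psi lam x P = 0 := by
  obtain ⟨f, hf, u, hu⟩ := UniqueFactorizationMonoid.exists_prime_factors F hF
  have h1 : psi lam x f.prod = 0 := by
    have h2 : psi lam x (f.prod * u) = 0 := by rw [hu, h0]
    rw [map_mul, mul_eq_zero] at h2
    refine h2.resolve_right ?_
    exact (u.isUnit.map (psi lam x)).ne_zero
  rw [map_multiset_prod, Multiset.prod_eq_zero_iff, Multiset.mem_map] at h1
  obtain ⟨P, hP, hP0⟩ := h1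
  refine ⟨P, (hf P hP).irreducible, ?_, hP0⟩
  obtain ⟨G, hG⟩ : P ∣ F := (Multiset.dvd_prod hP).trans ⟨u, hu.symm⟩
  rw [hG] at hD hF
  rw [totalDegree_mul_of_isDomain (left_ne_zero_of_mul hF) (right_ne_zero_of_mul hF)] at hD
  omega

end Pool.Agent.N996.BP
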